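import Pool.Agent.H.MP_20b771_lc.Count

/-!
If NP = RP then there is an fpras for the number of 4-colourings of planar graphs.
-/

namespace Pool.Agent.H.MP_20b771_lc

open Pool.Agent.H.MP_5be563_lc Pool.Agent.H.MP_5be563_lc.PT Turing

/-! ### Probabilities -/

theorem prob_or_le (m : ℕ) (P Q : List Bool → Prop) :
    prob m (fun r => P r ∨ Q r) ≤ prob m P + prob m Q := by
  classical
  rw [prob_eq_Ex, prob_eq_Ex, prob_eq_Ex, ← Ex_add_fun]
  refine Ex_mono fun r _ => ?_
  by_cases h1 : P r <;> by_cases h2 : Q r <;> simp [h1, h2]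

theorem prob_append_le {a b : ℕ} (G : List Bool → List Bool → Prop) (ε : ℝ)
    (h : ∀ x, x.length = a → prob b (G x) ≤ ε) :
    prob (a + b) (fun r => G (r.take a) (r.drop a)) ≤ ε := by
  classical
  rw [prob_eq_Ex, Ex_append a b (fun x y => if G x y then 1 else 0)]
  refine (Ex_mono fun x hx => ?_).trans (le_of_eq (Ex_const a ε))
  have h1 := h x hx
  rwa [prob_eq_Ex] at h1

theorem prob_eq_zero {m : ℕ} {P : List Bool → Prop} (h : prob m P = 0) (r : List Bool)
    (hr : r.length = m) : ¬ P r := by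
  intro hP
  unfold prob at h
  rw [div_eq_zero_iff] at h
  rcases h with h | h
  · have h5 : List.ofFn (fun i : Fin m => r.get (i.cast hr.symm)) = r := by
      apply List.ext_getElem
      · rw [List.length_ofFn, hr]
      · intro i h5 h6
        simp
    have h4 : Nat.card {x : Fin m → Bool // P (List.ofFn x)} ≠ 0 := by
      have : Nonempty {x : Fin m → Bool // P (List.ofFn x)} :=
        ⟨⟨fun i => r.get (i.cast hr.symm), by rw [h5]; exact hP⟩⟩
      exact Nat.card_pos.ne'
    exact h4 (by exact_mod_cast h)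
  · have : (2 : ℝ) ^ m ≠ 0 := by positivity
    exact this h

theorem prob_false (m : ℕ) : prob m (fun _ => False) = 0 := by
  unfold prob
  simp

/-- repeated runs -/
def anyRun (T : List Bool → Bool) (c t : ℕ) (r : List Bool) : Bool :=
  (List.range t).any fun j => T ((r.drop (j * c)).take c)

theorem anyRun_succ (T : List Bool → Bool) (c t : ℕ) (r : List Bool) :
    anyRun T c (t + 1) r = (T (r.take c) || anyRun T c t (r.drop c)) := by
  unfold anyRun
  rw [List.range_succ_eq_map, List.any_cons, List.any_map]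
  have e : ((fun j => T ((r.drop (j * c)).take c)) ∘ Nat.succ) =
      fun j => T (((r.drop c).drop (j * c)).take c) := by
    funext j
    simp only [Function.comp, Nat.succ_eq_add_one, List.drop_drop]
    congr 3
    ring
  rw [e, Nat.zero_mul, List.drop_zero]

theorem anyRun_take (T : List Bool → Bool) (c t : ℕ) (r : List Bool) :
    anyRun T c t (r.take (t * c)) = anyRun T c t r := by
  unfold anyRun
  have key : ∀ j, j < t → ((r.take (t * c)).drop (j * c)).take c = (r.drop (j * c)).take c := by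
    intro j hj
    have h8 : j * c + c ≤ t * c := by
      have : (j + 1) * c ≤ t * c := Nat.mul_le_mul_right _ hj
      linarith
    rw [List.drop_take, List.take_take, Nat.min_eq_left (by omega)]
  rw [Bool.eq_iff_iff, List.any_eq_true, List.any_eq_true]
  constructor
  · rintro ⟨j, hj, h1⟩
    rw [key j (List.mem_range.1 hj)] at h1
    exact ⟨j, hj, h1⟩
  · rintro ⟨j, hj, h1⟩
    rw [← key j (List.mem_range.1 hj)] at h1
    exact ⟨j, hj, h1⟩

theorem prob_anyRun (T : List Bool → Bool) (c : ℕ) (h : 1 / 2 ≤ prob c (fun r => T r = true))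
    (t : ℕ) : prob (t * c) (fun r => ¬ anyRun T c t r = true) ≤ (1 / 2) ^ t := by
  have h0 : prob c (fun r => ¬ T r = true) ≤ 1 / 2 := by
    rw [prob_compl]
    linarith
  induction t with
  | zero =>
    rw [pow_zero, Nat.zero_mul, prob_eq_Ex, Ex_zero]
    split_ifs <;> norm_num
  | succ t ih =>
    have e : (t + 1) * c = c + t * c := by ring
    have h1 : prob ((t + 1) * c) (fun r => ¬ anyRun T c (t + 1) r = true) =
        prob c (fun r => ¬ T r = true) * prob (t * c) (fun r => ¬ anyRun T c t r = true) := by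
      rw [e, prob_eq_Ex, prob_eq_Ex, prob_eq_Ex, ← Ex_mul]
      refine Ex_congr fun r _ => ?_
      rw [anyRun_succ]
      cases T (r.take c) <;> cases anyRun T c t (r.drop c) <;> simp
    rw [h1, pow_succ', ]
    exact mul_le_mul h0 ih (prob_nonneg _ _) (by norm_num)

/-! ### The largest accepted index -/

/-- the largest accepted index -/
def best (acc : ℕ → Bool) (m : ℕ) : Option ℕ := ((List.range (m + 1)).filter acc).reverse.head?

theorem best_zero (acc : ℕ → Bool) : best acc 0 = if acc 0 = true then some 0 else none := by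
  unfold best
  cases h : acc 0 <;> simp [h, List.range_succ]

theorem best_succ (acc : ℕ → Bool) (m : ℕ) :
    best acc (m + 1) = if acc (m + 1) = true then some (m + 1) else best acc m := by
  unfold best
  rw [List.range_succ (n := m + 1), List.filter_append, List.reverse_append]
  cases h : acc (m + 1)
  · simp [h]
  · simp [h]

theorem best_none (acc : ℕ → Bool) (m : ℕ) (h : ∀ i ≤ m, ¬ acc i = true) : best acc m = none := by
  induction m with
  | zero => rw [best_zero, if_neg (h 0 le_rfl)]
  | succ m ih =>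
    rw [best_succ, if_neg (h _ le_rfl)]
    exact ih fun i hi => h i (by omega)

theorem best_some (acc : ℕ → Bool) (m i : ℕ) (hi : i ≤ m) (h : acc i = true) :
    ∃ j, best acc m = some j ∧ i ≤ j ∧ j ≤ m ∧ acc j = true := by
  induction m with
  | zero =>
    have : i = 0 := by omega
    subst this
    exact ⟨0, by rw [best_zero, if_pos h], le_rfl, le_rfl, h⟩
  | succ m ih =>
    rw [best_succ]
    by_cases h1 : acc (m + 1) = true
    · exact ⟨m + 1, by rw [if_pos h1], hi, le_rfl, h1⟩
    · have h2 : i ≤ m := by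
        rcases Nat.lt_or_ge m i with h3 | h3
        · exfalso
          have : i = m + 1 := by omega
          subst this
          exact h1 h
        · exact h3
      obtain ⟨j, h3, h4, h5, h6⟩ := ih h2
      exact ⟨j, by rw [if_neg h1]; exact h3, h4, by omega, h6⟩

/-! ### The algorithm -/

section

variable (V : List Sy × List Bool → Bool) (p : Polynomial ℕ)

/-- The answer to the query number `i`. -/
def accQ (a : List Bool) (t m : ℕ) (r : List Bool) (i : ℕ) : Bool :=
  anyRun (fun y => V (rawEnc a t (r.take (i * (m + 1))),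
    y.take (p.eval (rawEnc a t (r.take (i * (m + 1)))).length)))
    (p.eval (a.length + t + m * (m + 1))) 4 (r.drop (m * (m + 1)))

/-- The output as a pair of bit strings. -/
def outB (K : ℕ) (b : Option ℕ) : List Bool × List Bool :=
  b.elim ([], [true]) fun i => (List.replicate (divN i (64 * K)) false ++
    ub (rootN (64 * K) (2 * K) (i - divN i (64 * K) * (64 * K))), ub (2 * K))

/-- The algorithm on strings. -/
def algS (κ : ℕ → ℕ) (s : List Sy) : List Bool × List Bool :=
  outB (κ (rawK s)) (best (accQ V p (lefts s) (64 * κ (rawK s)) (64 * κ (rawK s) * nQ s * 2)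
    (rawR s)) (64 * κ (rawK s) * nQ s * 2))

end

section

variable {α : Type} [Enc α]

theorem poly_anyRun {T : α × List Bool → Bool} {c t : α → ℕ} {r : α → List Bool}
    (hT : PT.Poly T) (hc : PT.Poly c) (ht : PT.Poly t) (hr : PT.Poly r) :
    PT.Poly (fun a => anyRun (fun y => T (a, y)) (c a) (t a) (r a)) := by
  unfold MP_20b771_lc.anyRun
  have h1 : PT.Poly (fun q : α × ℕ => T (q.1, ((r q.1).drop (q.2 * c q.1)).take (c q.1))) :=
    hT.comp (g := fun q : α × ℕ => (q.1, ((r q.1).drop (q.2 * c q.1)).take (c q.1)))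
      (by fun_prop)
  exact PT.Poly.any (f := fun (a : α) (j : ℕ) => T (a, ((r a).drop (j * c a)).take (c a)))
    h1 (by fun_prop)

theorem poly_accQ {V : List Sy × List Bool → Bool} {p : Polynomial ℕ} (hV : PT.Poly V) :
    PT.Poly (fun z : (List Bool × ℕ × ℕ × List Bool) × ℕ =>
      accQ V p z.1.1 z.1.2.1 z.1.2.2.1 z.1.2.2.2 z.2) := by
  unfold MP_20b771_lc.accQ
  have h1 : PT.Poly (fun q : ((List Bool × ℕ × ℕ × List Bool) × ℕ) × List Bool =>
      rawEnc q.1.1.1 q.1.1.2.1 (q.1.1.2.2.2.take (q.1.2 * (q.1.1.2.2.1 + 1)))) := by fun_prop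
  have h2 : PT.Poly (fun q : ((List Bool × ℕ × ℕ × List Bool) × ℕ) × List Bool =>
      p.eval (rawEnc q.1.1.1 q.1.1.2.1
        (q.1.1.2.2.2.take (q.1.2 * (q.1.1.2.2.1 + 1)))).length) :=
    PT.Poly.evalPolynomial p (by fun_prop)
  have h3 : PT.Poly (fun q : ((List Bool × ℕ × ℕ × List Bool) × ℕ) × List Bool =>
      V (rawEnc q.1.1.1 q.1.1.2.1 (q.1.1.2.2.2.take (q.1.2 * (q.1.1.2.2.1 + 1))),
        q.2.take (p.eval (rawEnc q.1.1.1 q.1.1.2.1
        (q.1.1.2.2.2.take (q.1.2 * (q.1.1.2.2.1 + 1)))).length))) :=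
    hV.comp (g := fun q : ((List Bool × ℕ × ℕ × List Bool) × ℕ) × List Bool =>
      (rawEnc q.1.1.1 q.1.1.2.1 (q.1.1.2.2.2.take (q.1.2 * (q.1.1.2.2.1 + 1))),
        q.2.take (p.eval (rawEnc q.1.1.1 q.1.1.2.1
        (q.1.1.2.2.2.take (q.1.2 * (q.1.1.2.2.1 + 1)))).length))) (by fun_prop)
  exact poly_anyRun (α := (List Bool × ℕ × ℕ × List Bool) × ℕ) h3
    (PT.Poly.evalPolynomial p (by fun_prop)) (PT.Poly.const _) (by fun_prop)

theorem poly_best {acc : α → ℕ → Bool} {m : α → ℕ}
    (hacc : PT.Poly (fun q : α × ℕ => acc q.1 q.2)) (hm : PT.Poly m) :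
    PT.Poly (fun a => best (acc a) (m a)) := by
  unfold MP_20b771_lc.best
  have h := PT.Poly.filter (f := acc) (l := fun a => List.range (m a + 1)) hacc (by fun_prop)
  exact PT.Poly.head? (PT.Poly.reverse h)

theorem poly_outB {K : α → ℕ} {b : α → Option ℕ} (hK : PT.Poly K) (hb : PT.Poly b) :
    PT.Poly (fun a => outB (K a) (b a)) := by
  unfold MP_20b771_lc.outB
  refine PT.Poly.oelim hb (PT.Poly.const _) ?_
  fun_prop

theorem poly_algS {V : List Sy × List Bool → Bool} {p : Polynomial ℕ} {κ : ℕ → ℕ}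
    (hV : PT.Poly V) (hκ : PT.Poly κ) : PT.Poly (fun s => algS V p κ s) := by
  unfold MP_20b771_lc.algS MP_20b771_lc.nQ
  have h1 : PT.Poly (fun s : List Sy => κ (rawK s)) := hκ.comp (by fun_prop)
  refine poly_outB h1 ?_
  refine poly_best (α := List Sy) ?_ (by fun_prop)
  have h2 : PT.Poly (fun q : List Sy × ℕ => κ (rawK q.1)) := hκ.comp (by fun_prop)
  exact (poly_accQ (p := p) hV).comp (g := fun q : List Sy × ℕ =>
    ((MP_20b771_lc.lefts q.1, 64 * κ (rawK q.1),
      64 * κ (rawK q.1) * sqrtN (MP_20b771_lc.lefts q.1).length * 2, rawR q.1), q.2))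
    (by fun_prop)

end

/-- The algorithm on planar graphs. -/
def algA (V : List Sy × List Bool → Bool) (p : Polynomial ℕ) (κ : ℕ → ℕ) (z : List Sy) : ℕ × ℕ :=
  (bval (algS V p κ z).1, bval (algS V p κ z).2)

theorem algA_tm2 {V : List Sy × List Bool → Bool} {p : Polynomial ℕ} {κ : ℕ → ℕ}
    (hV : PT.Poly V) (hκ : PT.Poly κ) : Nonempty (TM2ComputableInPolyTime PlanarInput.encode
      encodeFrac fun z => algA V p κ z.encode) := by
  have h1 : PT.Poly (fun s : List Sy => ((canon (algS V p κ s).1).map Sum.inl ++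
      (canon (algS V p κ s).2).map Sum.inr : List (Bool ⊕ Bool))) := by
    have h2 := poly_algS (p := p) hV hκ
    exact PT.Poly.append (Poly.mapFin (β := Bool) _ (by fun_prop))
      (Poly.mapFin (β := Bool) _ (by fun_prop))
  obtain ⟨M⟩ := MP_521f94_lc.Raw.tm2_of_poly h1
  exact ⟨{ tm := M.tm
           inputAlphabet := M.inputAlphabet
           outputAlphabet := M.outputAlphabet
           time := M.time
           outputsFun := fun z => by
            have h3 := M.outputsFun z.encode
            simp only [id, canon_eq] at h3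
            exact h3 }⟩

/-! ### The analysis -/

section

variable {V : List Sy × List Bool → Bool} {p : Polynomial ℕ}

/-- some tuple of colourings satisfies the first `i` equations -/
def Zt {n : ℕ} (G : SimpleGraph (Fin n)) (t m i : ℕ) (r : List Bool) : Prop :=
  ∃ w ∈ tupS G t, hOK (m + 1) i r w = true

theorem Zt_take {n : ℕ} (G : SimpleGraph (Fin n)) (t m i a : ℕ) (r : List Bool)
    (h : i * (m + 1) ≤ a) : Zt G t m i (r.take a) ↔ Zt G t m i r := by
  unfold Zt
  simp only [hOK_take h]

theorem Zt_mono {n : ℕ} (G : SimpleGraph (Fin n)) (t m : ℕ) {i i' : ℕ} (h : i ≤ i')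
    {r : List Bool} (h1 : Zt G t m i' r) : Zt G t m i r := by
  obtain ⟨w, hw, h2⟩ := h1
  exact ⟨w, hw, hOK_mono h h2⟩

theorem query_iff' {n : ℕ} (G : SimpleGraph (Fin n)) (t m i : ℕ) (hm : m = t * n * 2)
    (r : List Bool) (hr : i * (m + 1) ≤ r.length) :
    rawEnc (adjMatrixBits G) t (r.take (i * (m + 1))) ∈ LQ ↔ Zt G t m i r := by
  subst hm
  exact query_iff G t i r hr

theorem accQ_sound (hspec : ∀ s, s ∉ LQ → prob (p.eval s.length) (fun w => V (s, w) = true) = 0)
    {n : ℕ} (G : SimpleGraph (Fin n)) (t m i : ℕ) (hm : m = t * n * 2) (r : List Bool)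
    (hi : i ≤ m) (hr : m * (m + 1) + 4 * p.eval (n * n + t + m * (m + 1)) ≤ r.length)
    (h : accQ V p (adjMatrixBits G) t m r i = true) : Zt G t m i r := by
  have h0 : i * (m + 1) ≤ m * (m + 1) := Nat.mul_le_mul_right _ hi
  by_contra hZ
  have h1 : rawEnc (adjMatrixBits G) t (r.take (i * (m + 1))) ∉ LQ := by
    intro h2
    exact hZ ((query_iff' G t m i hm r (by omega)).1 h2)
  have h2 := hspec _ h1
  unfold accQ anyRun at h
  rw [List.any_eq_true] at h
  obtain ⟨j, hj, h3⟩ := h
  rw [List.mem_range] at hj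
  refine prob_eq_zero h2 _ ?_ h3
  rw [adjMatrixBits_length] at *
  set c := p.eval (n * n + t + m * (m + 1)) with hc
  have h4 : p.eval (rawEnc (adjMatrixBits G) t (r.take (i * (m + 1)))).length ≤ c := by
    apply poly_mono
    rw [length_rawEnc, adjMatrixBits_length, List.length_take]
    omega
  rw [List.length_take, List.length_take, List.length_drop, List.length_drop]
  have h5 : j * c + c ≤ 4 * c := by
    have : (j + 1) * c ≤ 4 * c := Nat.mul_le_mul_right _ hj
    linarith
  omega

theorem accQ_complete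
    (hspec : ∀ s, s ∈ LQ → 1 / 2 ≤ prob (p.eval s.length) (fun w => V (s, w) = true))
    {n : ℕ} (G : SimpleGraph (Fin n)) (t m i Q : ℕ) (hm : m = t * n * 2) (hi : i ≤ m)
    (hQ : m * (m + 1) + 4 * p.eval (n * n + t + m * (m + 1)) ≤ Q) :
    prob Q (fun r => Zt G t m i r ∧ ¬ accQ V p (adjMatrixBits G) t m r i = true) ≤
      1 / 16 := by
  have h0 : i * (m + 1) ≤ m * (m + 1) := Nat.mul_le_mul_right _ hi
  set c := p.eval (n * n + t + m * (m + 1)) with hc
  -- the event in terms of the two parts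
  let B : List Bool → List Bool → Prop := fun x y => Zt G t m i x ∧
    ¬ anyRun (fun y' => V (rawEnc (adjMatrixBits G) t (x.take (i * (m + 1))),
      y'.take (p.eval (rawEnc (adjMatrixBits G) t (x.take (i * (m + 1)))).length))) c 4 y = true
  have h1 : prob Q (fun r => Zt G t m i r ∧
      ¬ accQ V p (adjMatrixBits G) t m r i = true) =
      prob (m * (m + 1) + 4 * c) (fun r => B (r.take (m * (m + 1))) (r.drop (m * (m + 1)))) := by
    rw [← prob_take hQ (fun r => B (r.take (m * (m + 1))) (r.drop (m * (m + 1))))]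
    refine prob_congr fun r => ?_
    have e1 : (r.take (m * (m + 1) + 4 * c)).take (m * (m + 1)) = r.take (m * (m + 1)) := by
      rw [List.take_take, Nat.min_eq_left (by omega)]
    have e2 : (r.take (m * (m + 1) + 4 * c)).drop (m * (m + 1)) =
        (r.drop (m * (m + 1))).take (4 * c) := by
      rw [List.drop_take]
      congr 1
      omega
    have e3 : (r.take (m * (m + 1))).take (i * (m + 1)) = r.take (i * (m + 1)) := by
      rw [List.take_take, Nat.min_eq_left h0]
    simp only [B]
    rw [e1, e2, e3, anyRun_take, Zt_take G t m i _ r h0]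
    unfold accQ
    rw [adjMatrixBits_length]
  rw [h1]
  refine prob_append_le B _ fun x hx => ?_
  by_cases hZ : Zt G t m i x
  · have h2 : rawEnc (adjMatrixBits G) t (x.take (i * (m + 1))) ∈ LQ :=
      (query_iff' G t m i hm x (by omega)).2 hZ
    have h3 := hspec _ h2
    set s := rawEnc (adjMatrixBits G) t (x.take (i * (m + 1))) with hs
    have h4 : p.eval s.length ≤ c := by
      apply poly_mono
      rw [hs, length_rawEnc, adjMatrixBits_length, List.length_take]
      omega
    rw [← prob_take h4 (fun w => V (s, w) = true)] at h3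
    have h5 := prob_anyRun (fun y' => V (s, y'.take (p.eval s.length))) c h3 4
    refine (prob_mono fun y hy => hy.2).trans (h5.trans (by norm_num))
  · have h2 : prob (4 * c) (B x) ≤ prob (4 * c) (fun _ => False) :=
      prob_mono fun y hy => hZ hy.1
    rw [prob_false] at h2
    linarith

theorem card_tupS_le {n : ℕ} (G : SimpleGraph (Fin n)) (t : ℕ) :
    (tupS G t).card ≤ 2 ^ (t * n * 2) := by
  classical
  unfold tupS
  refine Finset.card_image_le.trans ((Finset.card_filter_le _ _).trans ?_)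
  simp

theorem prob_Zt {n : ℕ} (G : SimpleGraph (Fin n)) (t m i Q : ℕ) (hm : m = t * n * 2)
    (hQ : i * (m + 1) ≤ Q) :
    prob Q (fun r => Zt G t m i r) ≤ (tupS G t).card * (1 / 2) ^ i := by
  have h1 := prob_hash_exists (tupS G t) m (fun w hw => by
    rw [hm]; exact ((mem_tupS G t w).1 hw).1) i
  rw [← prob_take hQ] at h1
  refine le_trans (le_of_eq (prob_congr fun r => ?_)) h1
  exact (Zt_take G t m i _ r le_rfl).symm

theorem prob_not_Zt {n : ℕ} (G : SimpleGraph (Fin n)) (t m i Q : ℕ) (hm : m = t * n * 2)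
    (hQ : i * (m + 1) ≤ Q) (h0 : 0 < (tupS G t).card) :
    prob Q (fun r => ¬ Zt G t m i r) ≤ 2 ^ i / (tupS G t).card := by
  have h1 := prob_hash_none (tupS G t) m (fun w hw => by
    rw [hm]; exact ((mem_tupS G t w).1 hw).1) i h0
  rw [← prob_take hQ] at h1
  refine le_trans (le_of_eq (prob_congr fun r => ?_)) h1
  exact not_congr (Zt_take G t m i _ r le_rfl).symm

/-- The value of the output. -/
noncomputable def outV (K : ℕ) (b : Option ℕ) : ℝ := fracVal (bval (outB K b).1, bval (outB K b).2)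

theorem outV_none (K : ℕ) : outV K none = 0 := by
  unfold outV outB fracVal
  simp

theorem outV_some (K : ℕ) (hK : 1 ≤ K) (i : ℕ) : outV K (some i) =
    ((2 ^ (i / (64 * K)) * rootN (64 * K) (2 * K) (i % (64 * K)) : ℕ) : ℝ) /
      ((2 * K : ℕ) : ℝ) := by
  unfold outV outB fracVal
  simp only [Option.elim_some]
  rw [bval_replicate, bval_ub, bval_ub, divN_eq _ _ (by omega)]
  have : i - i / (64 * K) * (64 * K) = i % (64 * K) := by
    have := Nat.div_add_mod' i (64 * K)
    omega
  rw [this]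

theorem rootN_zero (t D : ℕ) (hD : 1 ≤ D) (ht : 0 < t) : rootN t D 0 = D := by
  obtain ⟨h1, h2, _⟩ := rootN_spec t D 0 hD ht
  rw [pow_zero, one_mul] at h2
  have h4 := (Nat.pow_le_pow_iff_left (n := t) (by omega)).1 h2
  omega

theorem main_prob
    (hyes : ∀ s, s ∈ LQ → 1 / 2 ≤ prob (p.eval s.length) (fun w => V (s, w) = true))
    (hno : ∀ s, s ∉ LQ → prob (p.eval s.length) (fun w => V (s, w) = true) = 0)
    {n : ℕ} (G : SimpleGraph (Fin n)) (K t m Q : ℕ) (hK : 1 ≤ K) (ht : t = 64 * K)
    (hm : m = t * n * 2)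
    (hQ : m * (m + 1) + 4 * p.eval (n * n + t + m * (m + 1)) ≤ Q) :
    3 / 4 ≤ prob Q (fun r =>
      (1 - 1 / (K : ℝ)) * numCol G ≤ outV K (best (accQ V p (adjMatrixBits G) t m r) m) ∧
      outV K (best (accQ V p (adjMatrixBits G) t m r) m) ≤ (1 + 1 / (K : ℝ)) * numCol G ∧
      (n = 0 → outV K (best (accQ V p (adjMatrixBits G) t m r) m) = 1)) := by
  have hcard : (tupS G t).card = colN G ^ t := card_tupS G t
  have hnum : numCol G = (colN G : ℝ) := rfl
  rcases Nat.eq_zero_or_pos (colN G) with hP | hP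
  · -- no colourings
    have hs0 : (tupS G t).card = 0 := by
      rw [hcard, hP, zero_pow (by omega)]
    have h1 : ∀ r : List Bool, r.length = Q →
        best (accQ V p (adjMatrixBits G) t m r) m = none := by
      intro r hr
      apply best_none
      intro i hi h2
      obtain ⟨w, hw, _⟩ := accQ_sound hno G t m i hm r hi (by omega) h2
      rw [Finset.card_eq_zero] at hs0
      rw [hs0] at hw
      simp at hw
    have hn : n ≠ 0 := by
      rintro rfl
      have : 0 < colN G := by
        unfold colN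
        have : Nonempty (G.Coloring (Fin 4)) :=
          ⟨SimpleGraph.Coloring.mk (fun v => v.elim0) (fun {v} => v.elim0)⟩
        exact Nat.card_pos
      omega
    have h2 : (1 : ℝ) ≤ prob Q (fun r =>
      (1 - 1 / (K : ℝ)) * numCol G ≤ outV K (best (accQ V p (adjMatrixBits G) t m r) m) ∧
      outV K (best (accQ V p (adjMatrixBits G) t m r) m) ≤ (1 + 1 / (K : ℝ)) * numCol G ∧
      (n = 0 → outV K (best (accQ V p (adjMatrixBits G) t m r) m) = 1)) := by
      have h3 : prob Q (fun _ => True) = 1 := by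
        have := prob_compl (m := Q) (fun _ => False)
        rw [prob_false] at this
        simpa using this
      rw [← h3]
      refine prob_mono' fun r hr _ => ?_
      rw [h1 r hr, outV_none, hnum, hP]
      simp [hn]
    linarith
  · have hs1 : 0 < (tupS G t).card := by
      rw [hcard]
      positivity
    have hsm := card_tupS_le G t
    rw [← hm] at hsm
    obtain ⟨s, hs⟩ : ∃ s, s = (tupS G t).card := ⟨_, rfl⟩
    rw [← hs] at hs1 hsm hcard
    obtain ⟨l, hl⟩ : ∃ l, l = Nat.log 2 s := ⟨_, rfl⟩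
    have hl1 : 2 ^ l ≤ s := by rw [hl]; exact Nat.pow_log_le_self 2 (by omega)
    have hl2 : s < 2 ^ (l + 1) := by rw [hl]; exact Nat.lt_pow_succ_log_self (by norm_num) s
    have hlm : l ≤ m := (Nat.pow_le_pow_iff_right (a := 2) (by norm_num)).1 (hl1.trans hsm)
    have hsr : (0 : ℝ) < s := by exact_mod_cast hs1
    have hl1r : (2 : ℝ) ^ l ≤ s := by exact_mod_cast hl1
    have hl2r : (s : ℝ) < 2 ^ l * 2 := by
      have : s < 2 ^ l * 2 := by rw [← pow_succ]; exact hl2
      exact_mod_cast this
    have h16 : 4 ≤ l → (2 : ℝ) ^ l = 2 ^ (l - 4) * 16 := by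
      intro h5
      obtain ⟨d, rfl⟩ : ∃ d, l = d + 4 := ⟨l - 4, by omega⟩
      rw [Nat.add_sub_cancel, pow_add]
      norm_num
    -- the three bad events
    have b1 : prob Q (fun r => l + 5 ≤ m ∧ Zt G t m (l + 5) r) ≤ 1 / 16 := by
      by_cases h5 : l + 5 ≤ m
      · have h6 : (l + 5) * (m + 1) ≤ Q := by
          have : (l + 5) * (m + 1) ≤ m * (m + 1) := Nat.mul_le_mul_right _ h5
          omega
        refine (prob_mono fun r hr => hr.2).trans ((prob_Zt G t m (l + 5) Q hm h6).trans ?_)
        rw [← hs, pow_add, one_div_pow, ← mul_assoc, mul_one_div]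
        have h7 : (s : ℝ) / 2 ^ l ≤ 2 := by
          rw [div_le_iff₀ (by positivity)]
          linarith
        norm_num
        linarith
      · have h6 : prob Q (fun r => l + 5 ≤ m ∧ Zt G t m (l + 5) r) ≤ prob Q (fun _ => False) :=
          prob_mono fun r hr => h5 hr.1
        rw [prob_false] at h6
        linarith
    have b2 : prob Q (fun r => ¬ Zt G t m (l - 4) r) ≤ 1 / 16 := by
      rcases Nat.lt_or_ge l 4 with h5 | h5
      · have h6 : l - 4 = 0 := by omega
        rw [h6]
        have h7 : prob Q (fun r => ¬ Zt G t m 0 r) ≤ prob Q (fun _ => False) := by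
          refine prob_mono fun r hr => hr ?_
          rw [hs] at hs1
          obtain ⟨w, hw⟩ := Finset.card_pos.1 hs1
          exact ⟨w, hw, hOK_zero _ _ _⟩
        rw [prob_false] at h7
        linarith
      · have h6 : (l - 4) * (m + 1) ≤ Q := by
          have : (l - 4) * (m + 1) ≤ m * (m + 1) := Nat.mul_le_mul_right _ (by omega)
          omega
        refine (prob_not_Zt G t m (l - 4) Q hm h6 (by omega)).trans ?_
        rw [← hs, div_le_iff₀ hsr]
        have h7 := h16 h5
        linarith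
    have b3 := accQ_complete hyes G t m (l - 4) Q hm (by omega) hQ
    -- conclusion
    have hbad : prob Q (fun r => (l + 5 ≤ m ∧ Zt G t m (l + 5) r) ∨ (¬ Zt G t m (l - 4) r ∨
        (Zt G t m (l - 4) r ∧ ¬ accQ V p (adjMatrixBits G) t m r (l - 4) = true))) ≤ 3 / 16 := by
      refine (prob_or_le _ _ _).trans ?_
      have := prob_or_le Q (fun r => ¬ Zt G t m (l - 4) r) (fun r => Zt G t m (l - 4) r ∧
        ¬ accQ V p (adjMatrixBits G) t m r (l - 4) = true)
      linarith
    have hgood := prob_compl (m := Q) (fun r => (l + 5 ≤ m ∧ Zt G t m (l + 5) r) ∨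
      (¬ Zt G t m (l - 4) r ∨
        (Zt G t m (l - 4) r ∧ ¬ accQ V p (adjMatrixBits G) t m r (l - 4) = true)))
    have h34 : 3 / 4 ≤ prob Q (fun r => ¬ ((l + 5 ≤ m ∧ Zt G t m (l + 5) r) ∨
      (¬ Zt G t m (l - 4) r ∨
        (Zt G t m (l - 4) r ∧ ¬ accQ V p (adjMatrixBits G) t m r (l - 4) = true)))) := by
      rw [hgood]
      linarith
    refine h34.trans (prob_mono' fun r hr hgr => ?_)
    rw [not_or, not_or] at hgr
    obtain ⟨g1, g2, g3⟩ := hgr
    have hacc : accQ V p (adjMatrixBits G) t m r (l - 4) = true := by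
      by_contra h5
      exact g3 ⟨not_not.1 g2, h5⟩
    obtain ⟨j, hj1, hj2, hj3, hj4⟩ := best_some _ m (l - 4) (by omega) hacc
    have hZj := accQ_sound hno G t m j hm r hj3 (by omega) hj4
    have hj5 : j ≤ l + 4 := by
      by_contra h5
      rw [not_le] at h5
      exact g1 ⟨by omega, Zt_mono G t m (by omega) hZj⟩
    rw [hj1, outV_some K hK, hnum]
    have hP1 : (s : ℝ) = (colN G : ℝ) ^ t := by
      rw [hcard]
      push_cast
      rfl
    have k1 : (colN G : ℝ) ^ (64 * K) < 32 * 2 ^ j := by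
      rw [← ht, ← hP1]
      have h5 : (2 : ℝ) ^ (l - 4) ≤ 2 ^ j := pow_le_pow_right₀ (by norm_num) hj2
      rcases Nat.lt_or_ge l 4 with h6 | h6
      · have h7 : (2 : ℝ) ^ l ≤ 2 ^ 3 := pow_le_pow_right₀ (by norm_num) (by omega)
        have h8 : (1 : ℝ) ≤ 2 ^ j := one_le_pow₀ (by norm_num)
        norm_num at h7
        linarith
      · have h7 := h16 h6
        linarith
    have k2 : (2 : ℝ) ^ j < 32 * (colN G : ℝ) ^ (64 * K) := by
      rw [← ht, ← hP1]
      have h5 : (2 : ℝ) ^ j ≤ 2 ^ (l + 4) := pow_le_pow_right₀ (by norm_num) hj5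
      rw [pow_add] at h5
      norm_num at h5
      linarith
    obtain ⟨r1, r2⟩ := root_analysis (colN G) K j hK k1 k2
    refine ⟨r1, r2, ?_⟩
    intro hn
    have hj0 : j = 0 := by
      have : m = 0 := by rw [hm, hn]; ring
      omega
    subst hj0
    rw [Nat.zero_div, Nat.zero_mod, rootN_zero _ _ (by omega) (by omega)]
    have hKr : (K : ℝ) ≠ 0 := by
      have : K ≠ 0 := by omega
      exact_mod_cast this
    push_cast
    field_simp

end

theorem approx_main (H : ∀ L : Set (List Sy), NP L → RP L) {κ : ℕ → ℕ} (hκ : PT.Poly κ)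
    (hκ2 : ∀ k, κ k ≤ k + 2) :
    ∃ (A : PlanarInput → ℕ × ℕ) (q : Polynomial ℕ),
    Nonempty (TM2ComputableInPolyTime PlanarInput.encode encodeFrac A) ∧
    ∀ (n : ℕ) (G : SimpleGraph (Fin n)) (hG : PlanarGraph G) (k : ℕ), 1 ≤ κ k →
      3 / 4 ≤ prob (q.eval (n + k)) fun r =>
        (1 - 1 / (κ k : ℝ)) * numCol G ≤ fracVal (A ⟨n, G, hG, k, r⟩) ∧
        fracVal (A ⟨n, G, hG, k, r⟩) ≤ (1 + 1 / (κ k : ℝ)) * numCol G ∧
        (n = 0 → fracVal (A ⟨n, G, hG, k, r⟩) = 1) := by
  obtain ⟨p, V, hV, hspec⟩ := H LQ LQ_np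
  have hV' := pair_of_tm2 hV
  let Mp : Polynomial ℕ := 64 * (Polynomial.X + 2) * Polynomial.X * 2
  let Ap : Polynomial ℕ := Mp * (Mp + 1)
  refine ⟨fun z => algA V p κ z.encode,
    Ap + 4 * p.comp (Polynomial.X * Polynomial.X + 64 * (Polynomial.X + 2) + Ap),
    algA_tm2 hV' hκ, ?_⟩
  intro n G hG k hk
  have e : ∀ r, algA V p κ (PlanarInput.encode ⟨n, G, hG, k, r⟩) =
      (bval (outB (κ k) (best (accQ V p (adjMatrixBits G) (64 * κ k) (64 * κ k * n * 2) r)
        (64 * κ k * n * 2))).1,
      bval (outB (κ k) (best (accQ V p (adjMatrixBits G) (64 * κ k) (64 * κ k * n * 2) r)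
        (64 * κ k * n * 2))).2) := by
    intro r
    have e1 : PlanarInput.encode ⟨n, G, hG, k, r⟩ = rawEnc (adjMatrixBits G) k r := rfl
    unfold algA algS nQ
    rw [e1, lefts_rawEnc, rawK_rawEnc, rawR_rawEnc, adjMatrixBits_length, sqrtN_sq]
  simp only [e]
  refine main_prob (fun s hs => (hspec s).1 hs) (fun s hs => (hspec s).2 hs) G (κ k) _ _ _ hk
    rfl rfl ?_
  have hK := hκ2 k
  have h1 : 64 * κ k * n * 2 ≤ Mp.eval (n + k) := by
    simp only [Mp, Polynomial.eval_mul, Polynomial.eval_add, Polynomial.eval_X,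
      Polynomial.eval_ofNat]
    apply Nat.mul_le_mul_right
    exact Nat.mul_le_mul (by omega) (by omega)
  have h2 : 64 * κ k * n * 2 * (64 * κ k * n * 2 + 1) ≤ Ap.eval (n + k) := by
    simp only [Ap, Polynomial.eval_mul, Polynomial.eval_add, Polynomial.eval_one]
    exact Nat.mul_le_mul h1 (by omega)
  have h3 : p.eval (n * n + 64 * κ k + 64 * κ k * n * 2 * (64 * κ k * n * 2 + 1)) ≤
      p.eval ((Polynomial.X * Polynomial.X + 64 * (Polynomial.X + 2) + Ap : Polynomial ℕ).eval
        (n + k)) := by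
    apply poly_mono
    simp only [Polynomial.eval_mul, Polynomial.eval_add, Polynomial.eval_X,
      Polynomial.eval_ofNat]
    have h4 : n * n ≤ (n + k) * (n + k) := Nat.mul_le_mul (by omega) (by omega)
    omega
  simp only [Polynomial.eval_add, Polynomial.eval_mul, Polynomial.eval_ofNat,
    Polynomial.eval_comp] at h3 ⊢
  omega

theorem fpras_of_rp (H : ∀ L : Set (List Sy), NP L → RP L) : HasFpras := by
  obtain ⟨A, q, hA, h⟩ := approx_main H (κ := fun k => k) PT.Poly.id (fun k => by omega)
  refine ⟨A, q, hA, fun n G hG k hk => ?_⟩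
  refine (h n G hG k (by omega)).trans (prob_mono fun r hr => ⟨hr.1, hr.2.1⟩)

theorem approx_of_rp (H : ∀ L : Set (List Sy), NP L → RP L) {ρ : ℕ → ℝ} (h0 : ρ 0 = 1 ∨ 2 ≤ ρ 0)
    (hρ : ∀ n, 1 ≤ n → 2 ≤ ρ n) : HasApprox ρ := by
  obtain ⟨A, q, hA, h⟩ := approx_main H (κ := fun _ => 2) (PT.Poly.const _) (fun k => by omega)
  refine ⟨A, q, hA, fun n G hG => ?_⟩
  have h1 := h n G hG 0 (by norm_num)
  rw [Nat.add_zero] at h1
  refine h1.trans (prob_mono fun r hr => ?_)
  obtain ⟨h2, h3, h4⟩ := hr
  have hP : 0 ≤ numCol G := by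
    unfold numCol
    positivity
  have gen : 2 ≤ ρ n → numCol G / ρ n ≤ fracVal (A ⟨n, G, hG, 0, r⟩) ∧
      fracVal (A ⟨n, G, hG, 0, r⟩) ≤ numCol G * ρ n := by
    intro h5
    constructor
    · refine le_trans ?_ h2
      rw [div_le_iff₀ (by linarith)]
      push_cast
      nlinarith
    · refine h3.trans ?_
      push_cast
      nlinarith
  rcases Nat.eq_zero_or_pos n with hn | hn
  · rcases h0 with h0 | h0
    · have h5 := h4 hn
      have h6 : numCol G = 1 := by
        subst hn
        unfold numCol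
        have h7 : Nat.card (G.Coloring (Fin 4)) = 1 := by
          rw [Nat.card_eq_one_iff_unique]
          refine ⟨⟨fun a b => DFunLike.ext _ _ fun v => v.elim0⟩,
            ⟨SimpleGraph.Coloring.mk (fun v => v.elim0) (fun {v} => v.elim0)⟩⟩
        rw [h7]
        norm_num
      rw [h5, h6, hn, h0]
      norm_num
    · exact gen (by rw [hn]; exact h0)
  · exact gen (hρ n hn)

end Pool.Agent.H.MP_20b771_lc
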