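import Mathlib

/-!
CNF formulas.
-/

namespace Pool.Agent.H.MP_20b771_lc

/-- CNF formulas: lists of clauses, which are lists of literals (sign, variable). -/
abbrev CNF : Type := List (List (Bool × ℕ))

/-- Satisfiability. -/
def CNF.Sat (φ : CNF) : Prop := ∃ A : ℕ → Bool, ∀ cl ∈ φ, ∃ l ∈ cl, A l.2 = l.1

/-- number of variables -/
def nvar (φ : CNF) : ℕ := (φ.flatten.flatMap fun l => List.replicate l.2 ()).length + 1

theorem nvar_pos (φ : CNF) : 0 < nvar φ := Nat.succ_pos _

theorem lt_nvar {φ : CNF} {cl : List (Bool × ℕ)} (hcl : cl ∈ φ) {l : Bool × ℕ} (hl : l ∈ cl) :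
    l.2 < nvar φ := by
  unfold nvar
  have h1 : l ∈ φ.flatten := List.mem_flatten.2 ⟨cl, hcl, hl⟩
  have h2 : ∀ (L : List (Bool × ℕ)), l ∈ L →
      l.2 ≤ (L.flatMap fun l => List.replicate l.2 ()).length := by
    intro L
    induction L with
    | nil => intro h; simp at h
    | cons x L ih =>
      intro h
      rw [List.flatMap_cons, List.length_append, List.length_replicate]
      rcases List.mem_cons.1 h with rfl | h
      · omega
      · have := ih h
        omega
  have := h2 _ h1
  omega

end Pool.Agent.H.MP_20b771_lc
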