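import Pool.Agent.H.MP_20b771_lc.GridObj

/-!
Vertices of the grid graph as quadruples of natural numbers; the adjacency is given by a finite
table.
-/

namespace Pool.Agent.H.MP_20b771_lc

set_option linter.constructorNameAsVariable false

/-- Vertex codes: kind, column, row, position on the path. -/
abbrev VC : Type := ℕ × ℕ × ℕ × ℕ

/-- Kinds of the blue objects. -/
def bidx : LO → ℕ
  | .spoke w k => 124 + codeW w + k.val
  | .f c j => 210 + 3 * codeC c + j.val
  | .e c j => 240 + 3 * codeC c + j.val
  | _ => 0

theorem codeW_le (w : WK) : codeW w ≤ 63 := by cases w <;> simp [codeW]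

theorem codeC_le (c : CK) : codeC c ≤ 9 := by cases c <;> simp [codeC]

theorem codeC_inj {c c' : CK} (h : codeC c = codeC c') : c = c' := by
  cases c <;> cases c' <;> simp only [codeC] at h <;> first | rfl | omega

theorem codeW_inj {w w' : WK} {k k' : ℕ} (hk : k < 21) (hk' : k' < 21)
    (h : codeW w + k = codeW w' + k') : w = w' ∧ k = k' := by
  cases w <;> cases w' <;> simp only [codeW] at h <;>
    first | exact ⟨rfl, by omega⟩ | (exfalso; omega)

theorem bidx_ge {o : LO} (h : o.blue = true) : 124 ≤ bidx o := by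
  cases o <;> simp only [LO.blue, Bool.false_eq_true] at h <;> simp only [bidx] <;> omega

theorem bidx_inj {o o' : LO} (h : o.blue = true) (h' : o'.blue = true) (he : bidx o = bidx o') :
    o = o' := by
  cases o <;> simp only [LO.blue, Bool.false_eq_true] at h <;>
    cases o' <;> simp only [LO.blue, Bool.false_eq_true] at h' <;> simp only [bidx] at he
  · rename_i w k w' k'
    have := codeW_inj (w := w) (w' := w') (k := k.val) (k' := k'.val) (by have := k.isLt; omega)
      (by have := k'.isLt; omega) (by omega)
    rw [this.1, Fin.ext this.2]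
  · rename_i w k c j
    have := codeW_le w; have := codeC_le c; have := k.isLt; have := j.isLt; omega
  · rename_i w k c j
    have := codeW_le w; have := codeC_le c; have := k.isLt; have := j.isLt; omega
  · rename_i c j w k
    have := codeW_le w; have := codeC_le c; have := k.isLt; have := j.isLt; omega
  · rename_i c j c' j'
    have := j.isLt; have := j'.isLt
    have h1 : codeC c = codeC c' := by omega
    have h2 : j.val = j'.val := by omega
    rw [codeC_inj h1, Fin.ext h2]
  · rename_i c j c' j'
    have := codeC_le c; have := codeC_le c'; have := j.isLt; have := j'.isLt; omega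
  · rename_i c j w k
    have := codeW_le w; have := codeC_le c; have := k.isLt; have := j.isLt; omega
  · rename_i c j c' j'
    have := codeC_le c; have := codeC_le c'; have := j.isLt; have := j'.isLt; omega
  · rename_i c j c' j'
    have := j.isLt; have := j'.isLt
    have h1 : codeC c = codeC c' := by omega
    have h2 : j.val = j'.val := by omega
    rw [codeC_inj h1, Fin.ext h2]

section

variable {n R M : ℕ}

theorem gid_lt (v : GV n R) : (gid v).1 < 124 := by
  rcases v with ⟨w, i, r⟩ | ⟨⟨w, i, r⟩, k⟩ | ⟨⟨c, i, r⟩, j⟩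
  · have := codeW_le w
    simp only [gid, hubC]; omega
  · have := codeW_le w; have := k.isLt
    simp only [gid, rimC]; omega
  · have := codeC_le c; have := j.isLt
    simp only [gid, pathC]; omega

/-- The code of a vertex of the full graph. -/
def code : GV n R ⊕ (GB n R × Fin M) → VC
  | Sum.inl v => ((gid v).1, (gid v).2.1, (gid v).2.2, 0)
  | Sum.inr (b, t) => (bidx (bo b).1, (bo b).2.1, (bo b).2.2, t)

theorem code_injective : Function.Injective (code : GV n R ⊕ (GB n R × Fin M) → VC) := by
  rintro (v | ⟨b, t⟩) (v' | ⟨b', t'⟩) h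
  · simp only [code, Prod.mk.injEq, and_true] at h
    rw [gid_injective (Prod.ext h.1 (Prod.ext h.2.1 h.2.2))]
  · exfalso
    simp only [code, Prod.mk.injEq] at h
    have h1 := gid_lt v
    have h2 := bidx_ge (bo_blue b')
    omega
  · exfalso
    simp only [code, Prod.mk.injEq] at h
    have h1 := gid_lt v'
    have h2 := bidx_ge (bo_blue b)
    omega
  · simp only [code, Prod.mk.injEq, Fin.val_inj] at h
    have h1 := bidx_inj (bo_blue b) (bo_blue b') h.1
    have h2 : bo b = bo b' := Prod.ext h1 (Prod.ext h.2.1 h.2.2.1)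
    rw [bo_injective h2, h.2.2.2]

/-- Tags of the conditions on the edges of an object. -/
def tagOf : LO → ℕ
  | .v1 c j => if c = CK.c ∧ j = 0 then 1 else 0
  | .v2 c j => if c = CK.c ∧ j = 0 then 1 else 0
  | .e c j => if c = CK.c ∧ j = 0 then 1 else 0
  | .close c => match c with
    | .a => 0
    | .b => 2
    | .c => 3
    | .d => 3
    | .e => 2
    | .f => 2
    | .g => 0
    | .h => 0
    | .m => 4
    | .l => 4
  | _ => 0

/-- The condition with a given tag: column `i`, row `r`, number of rows `R`, literal bit `x`,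
parity bit `ev`. -/
def condT (tag i r R : ℕ) (x ev : Bool) : Bool :=
  tag == 0 || (tag == 1 && !(i == 0)) || (tag == 2 && decide (r + 1 < R)) || (tag == 3 && !x) ||
    (tag == 4 && ev)

/-- Is the second end of the object a vertex? -/
def LO.real2 : LO → Bool
  | .e c j => (portTab c j).isSome
  | _ => true

/-- The objects of the two colours, as lists. -/
def redLO : List LO := allLO.filter fun o => o.pres && !o.blue

/-- The objects of the two colours, as lists. -/
def blueLO : List LO := allLO.filter fun o => o.blue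

theorem mem_redLO {o : LO} : o ∈ redLO ↔ o.pres = true ∧ o.blue = false := by
  simp [redLO, mem_allLO]

theorem mem_blueLO {o : LO} : o ∈ blueLO ↔ o.blue = true := by
  simp [blueLO, mem_allLO]

/-- The table of adjacencies: kinds of the two vertices, offsets of the cells, tag. -/
def tab : List (ℕ × ℕ × ℕ × ℕ × ℕ) :=
  redLO.map (fun o => (o.ends.1.1, o.ends.2.1, o.ends.2.2.1, o.ends.2.2.2, tagOf o)) ++
  blueLO.map (fun o => (bidx o, o.ends.1.1, 0, 0, 0)) ++
  (blueLO.filter fun o => o.real2).map
    (fun o => (bidx o, o.ends.2.1, o.ends.2.2.1, o.ends.2.2.2, tagOf o))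

/-- Directed adjacency on codes; `R` rows, `lit` literal bits, `ev` parity bits. -/
def dirB (R : ℕ) (lit : ℕ → ℕ → Bool) (ev : ℕ → Bool) (u v : VC) : Bool :=
  tab.any (fun e => u.1 == e.1 && v.1 == e.2.1 && v.2.1 == u.2.1 + e.2.2.1 &&
    v.2.2.1 == u.2.2.1 + e.2.2.2.1 &&
    condT e.2.2.2.2 u.2.1 u.2.2.1 R (lit u.2.1 u.2.2.1) (ev u.2.2.1)) ||
  (decide (124 ≤ u.1) && u.1 == v.1 && u.2.1 == v.2.1 && u.2.2.1 == v.2.2.1 &&
    v.2.2.2 == u.2.2.2 + 1)

/-- Adjacency on codes. -/
def adjB (R : ℕ) (lit : ℕ → ℕ → Bool) (ev : ℕ → Bool) (u v : VC) : Bool :=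
  dirB R lit ev u v || dirB R lit ev v u

theorem ends1_off (o : LO) : o.ends.1.2 = (0, 0) := by
  cases o with
  | v1 c j => simp only [LO.ends]; cases portTab c j <;> rfl
  | v2 c j => simp only [LO.ends]; cases portTab c j <;> rfl
  | e c j => simp only [LO.ends]; cases portTab c j <;> rfl
  | _ => rfl

/-- cell of a vertex -/
def cellOf : GV n R → Fin n × Fin R
  | .hub w => w.2
  | .rim w _ => w.2
  | .path c _ => c.2

theorem gid_cell (v : GV n R) : (gid v).2 = ((cellOf v).1.val, (cellOf v).2.val) := by
  cases v <;> rfl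

theorem eq_of_kind {v v' : GV n R} (h : (gid v).1 = (gid v').1) (h' : cellOf v = cellOf v') :
    v = v' := by
  apply gid_injective
  apply Prod.ext h
  rw [gid_cell, gid_cell, h']

theorem leftCut_iff {c : CK} {j : Fin 3} {i : ℕ} :
    leftCut c j i = false ↔ ¬ ((c = CK.c ∧ j = 0) ∧ i = 0) := by
  simp only [leftCut, decide_eq_false_iff_not, and_assoc]

theorem condT_tagP {c : CK} {j : Fin 3} {i r R' : ℕ} {x ev : Bool} :
    condT (if c = CK.c ∧ j = 0 then 1 else 0) i r R' x ev = true ↔ leftCut c j i = false := by
  rw [leftCut_iff]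
  by_cases h : c = CK.c ∧ j = 0
  · rw [if_pos h]
    simp [condT, h]
  · rw [if_neg h]
    simp [condT, h]

theorem condT_close {c : CK} {i r R' : ℕ} {x : Bool} :
    condT (tagOf (.close c)) i r R' x (decide (r % 2 = 0)) = active R' c r x := by
  cases c <;> simp [tagOf, condT, active]

variable (lit : Fin n → Fin R → Bool)

/-- entry of the table matches -/
def Match (e : ℕ × ℕ × ℕ × ℕ × ℕ) (R : ℕ) (litN : ℕ → ℕ → Bool) (u v : VC) : Prop :=
  u.1 = e.1 ∧ v.1 = e.2.1 ∧ v.2.1 = u.2.1 + e.2.2.1 ∧ v.2.2.1 = u.2.2.1 + e.2.2.2.1 ∧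
    condT e.2.2.2.2 u.2.1 u.2.2.1 R (litN u.2.1 u.2.2.1) (decide (u.2.2.1 % 2 = 0)) = true

theorem dirB_iff {litN : ℕ → ℕ → Bool} {u v : VC} :
    dirB R litN (fun r => decide (r % 2 = 0)) u v = true ↔
      (∃ e ∈ tab, Match e R litN u v) ∨
      (124 ≤ u.1 ∧ u.1 = v.1 ∧ u.2.1 = v.2.1 ∧ u.2.2.1 = v.2.2.1 ∧ v.2.2.2 = u.2.2.2 + 1) := by
  simp only [dirB, Bool.or_eq_true, List.any_eq_true, Bool.and_eq_true, beq_iff_eq, Match,
    decide_eq_true_eq, and_assoc]

theorem mem_tab {e : ℕ × ℕ × ℕ × ℕ × ℕ} : e ∈ tab ↔
    (∃ o : LO, (o.pres = true ∧ o.blue = false) ∧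
      (o.ends.1.1, o.ends.2.1, o.ends.2.2.1, o.ends.2.2.2, tagOf o) = e) ∨
    (∃ o : LO, o.blue = true ∧ (bidx o, o.ends.1.1, 0, 0, 0) = e) ∨
    (∃ o : LO, (o.blue = true ∧ o.real2 = true) ∧
      (bidx o, o.ends.2.1, o.ends.2.2.1, o.ends.2.2.2, tagOf o) = e) := by
  simp only [tab, List.mem_append, List.mem_map, mem_redLO, List.mem_filter, mem_blueLO, or_assoc]

/-- kinds below 124 in the table come from red objects -/
theorem match_red {e : ℕ × ℕ × ℕ × ℕ × ℕ} (he : e ∈ tab) (h : e.1 < 124) :
    ∃ o : LO, (o.pres = true ∧ o.blue = false) ∧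
      (o.ends.1.1, o.ends.2.1, o.ends.2.2.1, o.ends.2.2.2, tagOf o) = e := by
  rw [mem_tab] at he
  rcases he with he | ⟨o, ho, rfl⟩ | ⟨o, ho, rfl⟩
  · exact he
  · have := bidx_ge ho
    simp only at h
    omega
  · have := bidx_ge ho.1
    simp only at h
    omega

theorem code_red_lt {o : LO} (h : o.pres = true ∧ o.blue = false) : o.ends.1.1 < 124 := by
  obtain ⟨h1, h2⟩ := h
  cases o with
  | rim w k => have := codeW_le w; have := k.isLt; simp only [LO.ends, rimC]; omega
  | v1 c j =>
    simp only [LO.ends]
    have := codeC_le c; have := j.isLt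
    cases portTab c j
    · simp
    · simp only [pathC, Fin.val_castSucc]; omega
  | v2 c j =>
    simp only [LO.ends]
    have := codeC_le c; have := j.isLt
    cases portTab c j
    · simp
    · simp only [pathC, Fin.val_succ]; omega
  | close c => have := codeC_le c; simp only [LO.ends, pathC, Fin.isValue, Fin.val_zero]; omega
  | spoke w k => simp [LO.blue] at h2
  | f c j => simp [LO.blue] at h2
  | e c j => simp [LO.blue] at h2

/-- red edges in the table -/
theorem red_iff {litN : ℕ → ℕ → Bool} (hlit : ∀ i r, litN i.val r.val = lit i r) (u v : GV n R) :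
    (gridNet n R lit).Red u v ↔ ∃ e ∈ tab, Match e R litN (code (M := M) (Sum.inl u))
      (code (M := M) (Sum.inl v)) := by
  constructor
  · intro h
    cases h with
    | rim w k =>
      refine ⟨_, mem_tab.2 (Or.inl ⟨.rim w.1 k, ⟨rfl, rfl⟩, rfl⟩), ?_⟩
      simp [Match, code, gid, LO.ends, tagOf, condT]
    | v1 c j w p hport =>
      rw [port_some] at hport
      obtain ⟨q, h1, h2, h3, h4, h5, h6⟩ := hport
      simp only at h3 h4 h5 h6
      refine ⟨_, mem_tab.2 (Or.inl ⟨.v1 c.1 j, ⟨by simp [LO.pres, h1], rfl⟩, rfl⟩), ?_⟩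
      refine ⟨?_, ?_, ?_, ?_, ?_⟩
      · simp [code, gid, LO.ends, h1]
      · simp [code, gid, LO.ends, h1, h3, h6]
      · simp [code, gid, LO.ends, h1, h4]
      · simp [code, gid, LO.ends, h1, h5]
      · exact condT_tagP.2 h2
    | v2 c j w p hport =>
      rw [port_some] at hport
      obtain ⟨q, h1, h2, h3, h4, h5, h6⟩ := hport
      simp only at h3 h4 h5 h6
      refine ⟨_, mem_tab.2 (Or.inl ⟨.v2 c.1 j, ⟨by simp [LO.pres, h1], rfl⟩, rfl⟩), ?_⟩
      refine ⟨?_, ?_, ?_, ?_, ?_⟩
      · simp [code, gid, LO.ends, h1]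
      · simp [code, gid, LO.ends, h1, h3, h6]
      · simp [code, gid, LO.ends, h1, h4]
      · simp [code, gid, LO.ends, h1, h5]
      · exact condT_tagP.2 h2
    | close c hact =>
      refine ⟨_, mem_tab.2 (Or.inl ⟨.close c.1, ⟨rfl, rfl⟩, rfl⟩), ?_⟩
      refine ⟨by simp [code, gid, LO.ends], by simp [code, gid, LO.ends],
        by simp [code, gid, LO.ends], by simp [code, gid, LO.ends], ?_⟩
      have h8 : condT (tagOf (.close c.1)) c.2.1.val c.2.2.val R (lit c.2.1 c.2.2)
          (decide (c.2.2.val % 2 = 0)) = true := by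
        rw [condT_close]
        exact hact
      rw [← hlit] at h8
      exact h8
  · rintro ⟨e, he, hm⟩
    have hlt : e.1 < 124 := by
      rw [← hm.1]
      exact gid_lt u
    obtain ⟨o, ho, rfl⟩ := match_red he hlt
    obtain ⟨h1, h2, h3, h4, h5⟩ := hm
    simp only [code] at h1 h2 h3 h4 h5
    rw [gid_cell, gid_cell] at h3
    rw [gid_cell, gid_cell] at h4
    simp only at h3 h4
    obtain ⟨hpres, hblue⟩ := ho
    cases o with
    | rim w k =>
      have e1 : u = SV.rim (w, cellOf u) k := eq_of_kind (by rw [h1]; rfl) rfl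
      have e2 : v = SV.rim (w, cellOf u) (k + 1) := by
        apply eq_of_kind (by rw [h2]; rfl)
        apply Prod.ext
        · apply Fin.ext
          simp only [LO.ends, Nat.add_zero] at h3
          exact h3
        · apply Fin.ext
          simp only [LO.ends, Nat.add_zero] at h4
          exact h4
      rw [e2, e1]
      exact Net.Red.rim _ _
    | v1 c j =>
      simp only [LO.pres, Option.isSome_iff_exists] at hpres
      obtain ⟨q, hq⟩ := hpres
      simp only [LO.ends, hq] at h1 h2 h3 h4 h5
      have e1 : u = SV.path (c, cellOf u) j.castSucc := eq_of_kind (by rw [h1]; rfl) rfl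
      have e2 : v = SV.rim (q.1, cellOf v) q.2.2.2 := eq_of_kind (by rw [h2]; rfl) rfl
      rw [e2, e1]
      apply Net.Red.v1
      rw [port_some]
      have h6 := condT_tagP.1 h5
      rw [gid_cell] at h6
      exact ⟨q, hq, h6, rfl, h3, h4, rfl⟩
    | v2 c j =>
      simp only [LO.pres, Option.isSome_iff_exists] at hpres
      obtain ⟨q, hq⟩ := hpres
      simp only [LO.ends, hq] at h1 h2 h3 h4 h5
      have e1 : u = SV.path (c, cellOf u) j.succ := eq_of_kind (by rw [h1]; rfl) rfl
      have e2 : v = SV.rim (q.1, cellOf v) (q.2.2.2 + 2) := eq_of_kind (by rw [h2]; rfl) rfl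
      rw [e2, e1]
      apply Net.Red.v2
      rw [port_some]
      have h6 := condT_tagP.1 h5
      rw [gid_cell] at h6
      exact ⟨q, hq, h6, rfl, h3, h4, rfl⟩
    | close c =>
      have e1 : u = SV.path (c, cellOf u) 0 := eq_of_kind (by rw [h1]; rfl) rfl
      have e2 : v = SV.path (c, cellOf u) 3 := by
        apply eq_of_kind (by rw [h2]; rfl)
        apply Prod.ext
        · apply Fin.ext
          simp only [LO.ends, Nat.add_zero] at h3
          exact h3
        · apply Fin.ext
          simp only [LO.ends, Nat.add_zero] at h4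
          exact h4
      rw [e2, e1]
      apply Net.Red.close
      have h8 : condT (tagOf (.close c)) (gid u).2.1 (gid u).2.2 R
        (litN (gid u).2.1 (gid u).2.2) (decide ((gid u).2.2 % 2 = 0)) = true := h5
      rw [condT_close] at h8
      have h9 : litN (gid u).2.1 (gid u).2.2 = lit (cellOf u).1 (cellOf u).2 := by
        rw [gid_cell]
        exact hlit _ _
      rw [h9] at h8
      have h10 : (gid u).2.2 = (cellOf u).2.val := by rw [gid_cell]
      rw [h10] at h8
      exact h8
    | spoke w k => simp [LO.blue] at hblue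
    | f c j => simp [LO.blue] at hblue
    | e c j => simp [LO.blue] at hblue

/-- ends of blue edges in the table -/
theorem blue_iff {litN : ℕ → ℕ → Bool} (b : GB n R) (t : Fin M) (v : GV n R) :
    (v = ((gridNet n R lit).skel.ends b).1 ∨ v = ((gridNet n R lit).skel.ends b).2) ↔
      ∃ e ∈ tab, Match e R litN (code (M := M) (Sum.inr (b, t)))
      (code (M := M) (Sum.inl v)) := by
  constructor
  · rintro (rfl | rfl)
    · refine ⟨_, mem_tab.2 (Or.inr (Or.inl ⟨(bo b).1, bo_blue b, rfl⟩)), ?_⟩
      rcases b with ⟨w, k⟩ | ⟨c, j⟩ | ⟨c, j⟩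
      · simp [Match, code, gid, LO.ends, condT, Net.skel, bo]
      · simp [Match, code, gid, LO.ends, condT, Net.skel, bo]
      · simp only [Match, code, gid, LO.ends, Net.skel, bo]
        cases portTab c.1 j <;> simp [condT]
    · rcases b with ⟨w, k⟩ | ⟨c, j⟩ | ⟨c, j⟩
      · refine ⟨_, mem_tab.2 (Or.inr (Or.inr ⟨.spoke w.1 k, ⟨rfl, rfl⟩, rfl⟩)), ?_⟩
        simp [Match, code, gid, LO.ends, condT, Net.skel, bo, tagOf]
      · refine ⟨_, mem_tab.2 (Or.inr (Or.inr ⟨.f c.1 j, ⟨rfl, rfl⟩, rfl⟩)), ?_⟩
        simp [Match, code, gid, LO.ends, condT, Net.skel, bo, tagOf]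
      · cases hport : (gridNet n R lit).port c j with
        | none =>
          refine ⟨_, mem_tab.2 (Or.inr (Or.inl ⟨.e c.1 j, rfl, rfl⟩)), ?_⟩
          simp only [Match, code, gid, LO.ends, Net.skel, bo, Net.eEnd, hport]
          cases portTab c.1 j <;> simp [condT]
        | some x =>
          have hport' := hport
          rw [port_some] at hport'
          obtain ⟨q, h1, h2, h3, h4, h5, h6⟩ := hport'
          refine ⟨_, mem_tab.2 (Or.inr (Or.inr ⟨.e c.1 j, ⟨rfl, by simp [LO.real2, h1]⟩, rfl⟩)), ?_⟩
          refine ⟨by simp [code, bo], ?_, ?_, ?_, ?_⟩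
          · simp [code, gid, LO.ends, h1, h3, h6, Net.skel, Net.eEnd, hport]
          · simp [code, gid, LO.ends, h1, h4, Net.skel, Net.eEnd, hport, bo]
          · simp [code, gid, LO.ends, h1, h5, Net.skel, Net.eEnd, hport, bo]
          · exact condT_tagP.2 h2
  · rintro ⟨e, he, h1, h2, h3, h4, h5⟩
    simp only [code] at h1 h2 h3 h4 h5
    rw [gid_cell] at h3
    rw [gid_cell] at h4
    simp only at h3 h4
    rcases mem_tab.1 he with ⟨o, ho, rfl⟩ | ⟨o, ho, rfl⟩ | ⟨o, ho, rfl⟩
    · exfalso
      have h6 := bidx_ge (bo_blue b)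
      have h7 := code_red_lt ho
      simp only at h1
      omega
    · left
      simp only at h1 h2 h3 h4
      have ho' := bidx_inj (bo_blue b) ho h1
      have hcell : cellOf v = (bo b).2 := by
        apply Prod.ext
        · apply Fin.ext; omega
        · apply Fin.ext; omega
      rcases b with ⟨w, k⟩ | ⟨c, j⟩ | ⟨c, j⟩
      · have ho'' : LO.spoke w.1 k = o := ho'
        subst ho''
        exact eq_of_kind (by rw [h2]; rfl) hcell
      · have ho'' : LO.f c.1 j = o := ho'
        subst ho''
        exact eq_of_kind (by rw [h2]; rfl) hcell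
      · have ho'' : LO.e c.1 j = o := ho'
        subst ho''
        refine eq_of_kind ?_ hcell
        rw [h2]
        simp only [LO.ends]
        cases portTab c.1 j <;> rfl
    · simp only at h1 h2 h3 h4
      have ho' := bidx_inj (bo_blue b) ho.1 h1
      rcases b with ⟨w, k⟩ | ⟨c, j⟩ | ⟨c, j⟩
      · have ho'' : LO.spoke w.1 k = o := ho'
        subst ho''
        right
        refine eq_of_kind (by rw [h2]; rfl) ?_
        apply Prod.ext
        · apply Fin.ext
          simp only [LO.ends, Nat.add_zero] at h3
          exact h3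
        · apply Fin.ext
          simp only [LO.ends, Nat.add_zero] at h4
          exact h4
      · have ho'' : LO.f c.1 j = o := ho'
        subst ho''
        right
        refine eq_of_kind (by rw [h2]; rfl) ?_
        apply Prod.ext
        · apply Fin.ext
          simp only [LO.ends, Nat.add_zero] at h3
          exact h3
        · apply Fin.ext
          simp only [LO.ends, Nat.add_zero] at h4
          exact h4
      · have ho'' : LO.e c.1 j = o := ho'
        subst ho''
        have hr := ho.2
        simp only [LO.real2, Option.isSome_iff_exists] at hr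
        obtain ⟨q, hq⟩ := hr
        simp only [LO.ends, hq] at h2 h3 h4
        right
        have hc := condT_tagP.1 h5
        have hport : (gridNet n R lit).port c j = some ((q.1, cellOf v), q.2.2.2) := by
          rw [port_some]
          exact ⟨q, hq, hc, rfl, h3, h4, rfl⟩
        have e2 : v = SV.rim (q.1, cellOf v) (q.2.2.2 + 2) := eq_of_kind (by rw [h2]; rfl) rfl
        simp only [Net.skel, Net.eEnd, hport]
        exact e2

theorem bcode_ne {b : GB n R} {t : Fin M} {v : VC} {litN : ℕ → ℕ → Bool} {b' : GB n R}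
    {t' : Fin M} (hv : v = code (Sum.inr (b', t'))) {e : ℕ × ℕ × ℕ × ℕ × ℕ} (he : e ∈ tab) :
    ¬ Match e R litN (code (M := M) (Sum.inr (b, t))) v := by
  rintro ⟨h1, h2, _⟩
  subst hv
  simp only [code] at h1 h2
  have h3 := bidx_ge (bo_blue b')
  have h4 := bidx_ge (bo_blue b)
  rcases mem_tab.1 he with ⟨o, ho, rfl⟩ | ⟨o, ho, rfl⟩ | ⟨o, ho, rfl⟩
  · have h7 := code_red_lt ho
    simp only at h1
    omega
  · simp only at h2
    have : o.ends.1.1 < 124 := by
      cases o with
      | spoke w k => have := codeW_le w; simp only [LO.ends, hubC]; omega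
      | f c j => have := codeC_le c; have := j.isLt; simp only [LO.ends, pathC, Fin.val_castSucc]; omega
      | e c j =>
        have := codeC_le c; have := j.isLt
        simp only [LO.ends]
        cases portTab c j <;> simp only [pathC, Fin.val_castSucc] <;> omega
      | rim w k => simp [LO.blue] at ho
      | v1 c j => simp [LO.blue] at ho
      | v2 c j => simp [LO.blue] at ho
      | close c => simp [LO.blue] at ho
    omega
  · simp only at h2
    have : o.ends.2.1 < 124 := by
      obtain ⟨ho, hr⟩ := ho
      cases o with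
      | spoke w k => have := codeW_le w; have := k.isLt; simp only [LO.ends, rimC]; omega
      | f c j => have := codeC_le c; have := j.isLt; simp only [LO.ends, pathC, Fin.val_succ]; omega
      | e c j =>
        simp only [LO.real2, Option.isSome_iff_exists] at hr
        obtain ⟨q, hq⟩ := hr
        have := codeW_le q.1; have := (q.2.2.2 + 2).isLt
        simp only [LO.ends, hq, rimC]
        omega
      | rim w k => simp [LO.blue] at ho
      | v1 c j => simp [LO.blue] at ho
      | v2 c j => simp [LO.blue] at ho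
      | close c => simp [LO.blue] at ho
    omega

theorem ends2_red_lt {o : LO} (h : o.pres = true ∧ o.blue = false) : o.ends.2.1 < 124 := by
  obtain ⟨h1, h2⟩ := h
  cases o with
  | rim w k => have := codeW_le w; have := (k + 1).isLt; simp only [LO.ends, rimC]; omega
  | v1 c j =>
    simp only [LO.pres, Option.isSome_iff_exists] at h1
    obtain ⟨q, hq⟩ := h1
    have := codeW_le q.1; have := (q.2.2.2).isLt
    simp only [LO.ends, hq, rimC]
    omega
  | v2 c j =>
    simp only [LO.pres, Option.isSome_iff_exists] at h1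
    obtain ⟨q, hq⟩ := h1
    have := codeW_le q.1; have := (q.2.2.2 + 2).isLt
    simp only [LO.ends, hq, rimC]
    omega
  | close c => have := codeC_le c; simp only [LO.ends, pathC, Fin.isValue]; omega
  | spoke w k => simp [LO.blue] at h2
  | f c j => simp [LO.blue] at h2
  | e c j => simp [LO.blue] at h2

/-- The directed adjacency on codes. -/
theorem dirB_code {litN : ℕ → ℕ → Bool} (hlit : ∀ i r, litN i.val r.val = lit i r)
    (a b : GV n R ⊕ (GB n R × Fin M)) :
    dirB R litN (fun r => decide (r % 2 = 0)) (code a) (code b) = true ↔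
      match a, b with
      | Sum.inl u, Sum.inl v => (gridNet n R lit).Red u v
      | Sum.inl _, Sum.inr _ => False
      | Sum.inr x, Sum.inl v =>
        v = ((gridNet n R lit).skel.ends x.1).1 ∨ v = ((gridNet n R lit).skel.ends x.1).2
      | Sum.inr x, Sum.inr y => x.1 = y.1 ∧ x.2.val + 1 = y.2.val := by
  rw [dirB_iff]
  rcases a with u | ⟨x, t⟩ <;> rcases b with v | ⟨y, t'⟩
  · simp only
    rw [red_iff lit hlit (M := M)]
    constructor
    · rintro (h | h)
      · exact h
      · exfalso
        have h1 := h.1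
        simp only [code] at h1
        have := gid_lt u
        omega
    · exact Or.inl
  · simp only [iff_false]
    rintro (⟨e, he, hm⟩ | h)
    · have hlt : e.1 < 124 := by
        rw [← hm.1]
        exact gid_lt u
      obtain ⟨o, ho, rfl⟩ := match_red he hlt
      have h1 := hm.2.1
      simp only [code] at h1
      have h2 := bidx_ge (bo_blue y)
      have h3 := ends2_red_lt ho
      omega
    · have h1 := h.1
      simp only [code] at h1
      have := gid_lt u
      omega
  · simp only
    rw [blue_iff (litN := litN) lit x t v]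
    constructor
    · rintro (h | h)
      · exact h
      · exfalso
        have h1 := h.2.1
        simp only [code] at h1
        have := gid_lt v
        have h2 := bidx_ge (bo_blue x)
        omega
    · exact Or.inl
  · simp only
    constructor
    · rintro (⟨e, he, hm⟩ | ⟨h1, h2, h3, h4, h5⟩)
      · exact absurd hm (bcode_ne rfl he)
      · simp only [code, Fin.val_inj] at h1 h2 h3 h4 h5
        have h6 := bidx_inj (bo_blue x) (bo_blue y) h2
        refine ⟨bo_injective (Prod.ext h6 (Prod.ext h3 h4)), h5.symm⟩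
    · rintro ⟨rfl, h⟩
      right
      exact ⟨bidx_ge (bo_blue x), rfl, rfl, rfl, h.symm⟩

/-- The adjacency on codes is the adjacency of the graph. -/
theorem adjB_code {litN : ℕ → ℕ → Bool} (hlit : ∀ i r, litN i.val r.val = lit i r)
    (a b : GV n R ⊕ (GB n R × Fin M)) :
    adjB R litN (fun r => decide (r % 2 = 0)) (code a) (code b) = true ↔
      ((gridNet n R lit).skel.graph M).Adj a b := by
  rw [Skel.graph, SimpleGraph.fromRel_adj, adjB, Bool.or_eq_true, dirB_code lit hlit,
    dirB_code lit hlit]
  constructor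
  · intro h
    rcases a with u | ⟨x, t⟩ <;> rcases b with v | ⟨y, t'⟩ <;> simp only at h
    · refine ⟨?_, ?_⟩
      · rintro h'
        rw [Sum.inl.injEq] at h'
        subst h'
        rcases h with h | h
        · exact Net.red_irrefl _ u h
        · exact Net.red_irrefl _ u h
      · rcases h with h | h
        · exact Or.inl (.red h)
        · exact Or.inr (.red h)
    · refine ⟨by simp, Or.inl ?_⟩
      rcases h with h | h | h
      · exact h.elim
      · rw [h]; exact .fst _ _
      · rw [h]; exact .snd _ _
    · refine ⟨by simp, Or.inr ?_⟩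
      rcases h with (h | h) | h
      · rw [h]; exact .fst _ _
      · rw [h]; exact .snd _ _
      · exact h.elim
    · refine ⟨?_, ?_⟩
      · intro h'
        rw [Sum.inr.injEq, Prod.mk.injEq] at h'
        obtain ⟨rfl, rfl⟩ := h'
        rcases h with h | h <;> omega
      · rcases h with ⟨rfl, h⟩ | ⟨rfl, h⟩
        · exact Or.inl (.path _ _ _ h)
        · exact Or.inr (.path _ _ _ h)
  · rintro ⟨_, h | h⟩
    · cases h with
      | red h => exact Or.inl h
      | fst e t => exact Or.inr (Or.inl rfl)
      | snd e t => exact Or.inr (Or.inr rfl)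
      | path e t t' h => exact Or.inl ⟨rfl, h⟩
    · cases h with
      | red h => exact Or.inr h
      | fst e t => exact Or.inl (Or.inl rfl)
      | snd e t => exact Or.inl (Or.inr rfl)
      | path e t t' h => exact Or.inr ⟨rfl, h⟩

end

end Pool.Agent.H.MP_20b771_lc
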