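import Pool.Agent.H.MP_5be563_lc.PT.Main
import Pool.Agent.H.MP_5be563_lc.PT.Arith
import Pool.Agent.H.MP_20b771_lc.Cnf

/-!
Small facts on polynomial-time functions.
-/

namespace Pool.Agent.H.MP_20b771_lc

open Pool.Agent.H.MP_5be563_lc Pool.Agent.H.MP_5be563_lc.PT

section

variable {α β γ δ : Type} [Enc α] [Enc β] [Enc γ] [Enc δ]

theorem iterate_not (k : ℕ) : (fun b : Bool => !b)^[k] true = decide (k % 2 = 0) := by
  induction k with
  | zero => rfl
  | succ k ih =>
    rw [Function.iterate_succ_apply', ih]
    rcases Nat.mod_two_eq_zero_or_one k with h | h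
    · have : (k + 1) % 2 = 1 := by omega
      simp [h, this]
    · have : (k + 1) % 2 = 0 := by omega
      simp [h, this]

@[fun_prop]
theorem Poly.even {f : α → ℕ} (hf : Poly f) : Poly (fun a => decide (f a % 2 = 0)) := by
  have := Poly.iterate (f := fun (_ : α) (b : Bool) => !b) (s := fun _ => true) (n := f)
    (B := fun _ => 3) (by fun_prop) (by fun_prop) hf (PBdd.const 3)
    (fun _ _ _ => sz_bool_le _)
  simpa only [iterate_not] using this

@[fun_prop]
theorem Poly.replicateFalse {n : α → ℕ} (hn : PT.Poly n) :
    PT.Poly (fun a => List.replicate (n a) false) := by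
  have h : PT.Poly (fun a => (List.replicate (n a) ()).map fun _ => false) := by fun_prop
  simpa using h

@[fun_prop]
theorem Poly.nvar {f : α → CNF} (hf : Poly f) : Poly (fun a => nvar (f a)) := by
  unfold MP_20b771_lc.nvar
  fun_prop

end

theorem bval_replicate (T : ℕ) (b : List Bool) :
    bval (List.replicate T false ++ b) = 2 ^ T * bval b := by
  rw [bval_append, List.length_replicate]
  have : bval (List.replicate T false) = 0 := by
    induction T with
    | zero => rfl
    | succ T ih => rw [List.replicate_succ, bval_cons, ih]; rfl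
  rw [this, zero_add]

end Pool.Agent.H.MP_20b771_lc
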