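import Pool.Agent.H.MP_20b771_lc.Defs
import Pool.Agent.H.MP_20b771_lc.Misc
import Pool.Agent.H.MP_84f0af_lc.CnfSat
import Pool.Agent.H.MP_521f94_lc.Raw

/-!
Decoding functions in polynomial time, and the theorem of Cook and Levin with `Poly` functions.
-/

namespace Pool.Agent.H.MP_20b771_lc

open Pool.Agent.H.MP_5be563_lc Pool.Agent.H.MP_5be563_lc.PT Turing

/-- An encoding of a finite type. -/
noncomputable def encFintype (F : Type) [Fintype F] : Enc F :=
  ⟨fun x => enc ((Fintype.equivFin F x).val : ℕ), by
    intro x y h
    exact (Fintype.equivFin F).injective (Fin.ext (Enc.inj h))⟩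

/-- encoding of sums -/
def encSum {α β : Type} [Enc α] [Enc β] : α ⊕ β → D
  | .inl a => .cons .nil (enc a)
  | .inr b => .cons (.cons .nil .nil) (enc b)

instance instEncSum {α β : Type} [Enc α] [Enc β] : Enc (α ⊕ β) := ⟨encSum, by
  intro a b h
  rcases a with a | a <;> rcases b with b | b <;> simp only [encSum, D.cons.injEq, reduceCtorEq,
    false_and, true_and] at h
  · rw [Enc.inj h]
  · rw [Enc.inj h]⟩

/-- the left entries -/
def lefts {α β : Type} (l : List (α ⊕ β)) : List α :=
  l.flatMap fun s => s.elim (fun a => [a]) (fun _ => [])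

/-- the right entries -/
def rights {α β : Type} (l : List (α ⊕ β)) : List β :=
  l.flatMap fun s => s.elim (fun _ => []) (fun b => [b])

theorem lefts_append {α β : Type} (x : List α) (y : List β) :
    lefts (x.map (Sum.inl : α → α ⊕ β) ++ y.map Sum.inr) = x := by
  unfold lefts
  rw [List.flatMap_append, List.flatMap_map, List.flatMap_map]
  simp

theorem rights_append {α β : Type} (x : List α) (y : List β) :
    rights (x.map (Sum.inl : α → α ⊕ β) ++ y.map Sum.inr) = y := by
  unfold rights
  rw [List.flatMap_append, List.flatMap_map, List.flatMap_map]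
  simp

section

variable {α β γ : Type} [Enc α] [Enc β] [Enc γ]

theorem Poly.lefts [Finite β] [Finite γ] : PT.Poly (fun l : List (β ⊕ γ) => lefts l) := by
  unfold MP_20b771_lc.lefts
  refine PT.Poly.flatMap (f := fun (_ : List (β ⊕ γ)) (s : β ⊕ γ) =>
    s.elim (fun a => [a]) (fun _ => [])) ?_ (by fun_prop)
  exact (PT.Poly.of_finite (fun s : β ⊕ γ => s.elim (fun a => [a]) (fun _ => []))).comp
    PT.Poly.snd

theorem Poly.rights [Finite β] [Finite γ] : PT.Poly (fun l : List (β ⊕ γ) => rights l) := by
  unfold MP_20b771_lc.rights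
  refine PT.Poly.flatMap (f := fun (_ : List (β ⊕ γ)) (s : β ⊕ γ) =>
    s.elim (fun _ => []) (fun b => [b])) ?_ (by fun_prop)
  exact (PT.Poly.of_finite (fun s : β ⊕ γ => s.elim (fun _ => []) (fun b => [b]))).comp
    PT.Poly.snd

theorem Poly.mapFin [Finite β] (g : β → γ) {l : α → List β} (hl : PT.Poly l) :
    PT.Poly (fun a => (l a).map g) :=
  PT.Poly.map (f := fun (_ : α) (b : β) => g b) ((PT.Poly.of_finite g).comp PT.Poly.snd) hl

end

/-! ### Decoding of formulas -/

/-- one step of the decoding of a formula -/
def decStep (s : ℕ × List (Bool × ℕ) × CNF) (c : Option (Option Bool)) :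
    ℕ × List (Bool × ℕ) × CNF :=
  c.elim (s.1 + 1, s.2.1, s.2.2) fun d =>
    d.elim (s.1, [], s.2.1.reverse :: s.2.2) fun b => (0, (b, s.1) :: s.2.1, s.2.2)

/-- decoding of a formula -/
def decCnf (l : List (Option (Option Bool))) : CNF :=
  (l.foldl decStep (0, [], [])).2.2.reverse

open MP_84f0af_lc in
theorem foldl_encLit (l : Bool × ℕ) (cur : List (Bool × ℕ)) (done : CNF) :
    (encLit l).foldl decStep (0, cur, done) = (0, l :: cur, done) := by
  have h : ∀ (v m : ℕ), (List.replicate v (none : Option (Option Bool))).foldl decStep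
      (m, cur, done) = (m + v, cur, done) := by
    intro v
    induction v with
    | zero => intro m; rfl
    | succ v ih =>
      intro m
      rw [List.replicate_succ, List.foldl_cons]
      have : decStep (m, cur, done) none = (m + 1, cur, done) := rfl
      rw [this, ih]
      congr 1
      ring
  unfold encLit
  rw [List.foldl_append, h]
  simp [decStep]

open MP_84f0af_lc in
theorem foldl_clause (c : List (Bool × ℕ)) : ∀ (cur : List (Bool × ℕ)) (done : CNF),
    (c.flatMap encLit).foldl decStep (0, cur, done) = (0, c.reverse ++ cur, done) := by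
  induction c with
  | nil => intro cur done; rfl
  | cons l c ih =>
    intro cur done
    rw [List.flatMap_cons, List.foldl_append, foldl_encLit, ih]
    simp

open MP_84f0af_lc in
theorem foldl_encCnf (F : CNF) : ∀ (done : CNF),
    (encCnf F).foldl decStep (0, [], done) = (0, [], F.reverse ++ done) := by
  induction F with
  | nil => intro done; rfl
  | cons c F ih =>
    intro done
    have e : encCnf (c :: F) = c.flatMap encLit ++ [some none] ++ encCnf F := by
      simp [encCnf]
    rw [e, List.foldl_append, List.foldl_append, foldl_clause]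
    have e2 : [some none].foldl decStep (0, c.reverse ++ [], done) = (0, [], c :: done) := by
      simp [decStep]
    rw [e2, ih]
    simp

open MP_84f0af_lc in
theorem decCnf_encCnf (F : CNF) : decCnf (encCnf F) = F := by
  unfold decCnf
  rw [foldl_encCnf]
  simp

theorem sz_foldl_decStep (l : List (Option (Option Bool))) :
    ∀ s : ℕ × List (Bool × ℕ) × CNF, sz (l.foldl decStep s) ≤ sz s + 10 * l.length := by
  induction l with
  | nil => intro s; simp
  | cons b l ih =>
    intro s
    rw [List.foldl_cons]
    refine (ih _).trans ?_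
    obtain ⟨m, x, y⟩ := s
    rcases b with _ | _ | b
    · simp only [decStep, Option.elim_none, sz_pair, sz_nat, List.length_cons]
      omega
    · simp only [decStep, Option.elim_none, Option.elim_some, sz_pair, sz_nat, sz_lnil, sz_lcons,
        sz_reverse, List.length_cons]
      omega
    · have hb := sz_bool_le b
      simp only [decStep, Option.elim_some, sz_pair, sz_nat, sz_lcons, List.length_cons]
      omega

theorem Poly.decStep : PT.Poly (fun p : (ℕ × List (Bool × ℕ) × CNF) × Option (Option Bool) =>
    decStep p.1 p.2) := by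
  unfold MP_20b771_lc.decStep
  fun_prop

theorem Poly.decCnf : PT.Poly (fun l => decCnf l) := by
  have h1 : PT.Poly (fun l : List (Option (Option Bool)) =>
      l.foldl MP_20b771_lc.decStep (0, [], [])) := by
    refine PT.Poly.foldl (f := fun p : List (Option (Option Bool)) ×
      (ℕ × List (Bool × ℕ) × CNF) × Option (Option Bool) =>
      MP_20b771_lc.decStep p.2.1 p.2.2) (l := fun l => l) (s0 := fun _ => (0, [], []))
      (B := fun a => sz ((0, [], []) : ℕ × List (Bool × ℕ) × CNF) + 10 * sz a) ?_ PT.Poly.id
      (PT.Poly.const _) ?_ ?_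
    · exact Poly.decStep.comp (by fun_prop)
    · exact (PBdd.const _).add ((PBdd.const 10).mul PBdd.sz_self)
    · intro a l₁ l₂ h
      refine (sz_foldl_decStep l₁ _).trans ?_
      have h1 : l₁.length ≤ sz a := by
        have := length_lt_sz a
        rw [h, List.length_append] at this
        rw [h]
        omega
      omega
  unfold MP_20b771_lc.decCnf
  fun_prop

/-- Cook-Levin: languages in NP reduce to satisfiability by `Poly` functions. -/
theorem np_reduces {Γ : Type} [Fintype Γ] [Enc Γ] (L : Set (List Γ)) (h : NP L) :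
    ∃ f : List Γ → CNF, PT.Poly f ∧ ∀ x, x ∈ L ↔ (f x).Sat := by
  obtain ⟨f, ⟨hf⟩, _, hL⟩ := MP_84f0af_lc.cook_levin L h
  refine ⟨f, ?_, hL⟩
  have h1 := poly_of_tm2 (ea := (id : List Γ → List Γ)) hf PT.Poly.id
  have h2 := Poly.decCnf.comp h1
  simpa only [decCnf_encCnf] using h2

/-- From `Poly` predicates on pairs to machines. -/
theorem tm2_of_pair {Γ : Type} [Finite Γ] [Enc Γ] {V : List Γ × List Bool → Bool}
    (hV : PT.Poly V) :
    Nonempty (TM2ComputableInPolyTime encodePair (fun b : Bool => [b]) V) := by
  refine MP_521f94_lc.Raw.tm2_of_poly_enc (Γ := Γ ⊕ Bool) (Δ := Bool)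
    (fun l => (lefts l, rights l)) ?_ ?_ (by fun_prop) hV
  · exact PT.Poly.pair Poly.lefts Poly.rights
  · intro z
    unfold encodePair
    rw [lefts_append, rights_append]

/-- From machines to `Poly` predicates on pairs. -/
theorem pair_of_tm2 {Γ : Type} [Finite Γ] [Enc Γ] {V : List Γ × List Bool → Bool}
    (hV : Nonempty (TM2ComputableInPolyTime encodePair (fun b : Bool => [b]) V)) :
    PT.Poly V := by
  obtain ⟨hV⟩ := hV
  have h1 : PT.Poly (fun z : List Γ × List Bool => encodePair z) := by
    unfold encodePair
    exact PT.Poly.append (Poly.mapFin _ (by fun_prop)) (Poly.mapFin _ (by fun_prop))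
  have h2 := poly_of_tm2 (ea := encodePair) hV h1
  have h3 : PT.Poly (fun z : List Γ × List Bool => ([V z] : List Bool).headD false) := by
    fun_prop
  exact h3

end Pool.Agent.H.MP_20b771_lc
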