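import Pool.Agent.H.MP_20b771_lc.Prob

/-!
Random affine hash functions.
-/

namespace Pool.Agent.H.MP_20b771_lc

theorem Ex_one_eq (F : List Bool → ℝ) : Ex 1 F = (F [false] + F [true]) / 2 := by
  unfold Ex
  have h : ∑ r : Fin 1 → Bool, F (List.ofFn r) = ∑ b : Bool, F [b] := by
    refine Fintype.sum_equiv (Equiv.funUnique (Fin 1) Bool) _ _ ?_
    intro r
    congr 1
  rw [h, Fintype.sum_bool, pow_one, add_comm]

theorem Ex_succ (m : ℕ) (F : List Bool → ℝ) :
    Ex (m + 1) F = (Ex m (fun r => F (false :: r)) + Ex m (fun r => F (true :: r))) / 2 := by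
  have h := Ex_append 1 m (fun x y => F (x ++ y))
  simp only [List.take_append_drop] at h
  rw [add_comm, h, Ex_one_eq]
  simp

/-- The inner product of two strings. -/
def dot (r v : List Bool) : Bool :=
  !decide (((List.range v.length).filter fun i => r.getD i false && v.getD i false).length % 2 = 0)

theorem dot_nil (r : List Bool) : dot r [] = false := rfl

theorem dot_cons (a b : Bool) (x y : List Bool) :
    dot (a :: x) (b :: y) = ((a && b) ^^ dot x y) := by
  unfold dot
  rw [List.length_cons, List.range_succ_eq_map, List.filter_cons, List.filter_map]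
  have e : ((fun i => (a :: x).getD i false && (b :: y).getD i false) ∘ Nat.succ) =
      fun i => x.getD i false && y.getD i false := by
    funext i
    simp
  rw [e]
  set N := ((List.range y.length).filter fun i => x.getD i false && y.getD i false).length
  have e2 : ((a :: x).getD 0 false && (b :: y).getD 0 false) = (a && b) := by simp
  rw [e2]
  cases hab : (a && b) with
  | false =>
    simp only [Bool.false_eq_true, if_false, List.length_map, Bool.false_xor]
    rfl
  | true =>
    simp only [if_true, List.length_cons, List.length_map, Bool.true_xor, Bool.not_not]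
    change (!decide ((N + 1) % 2 = 0)) = decide (N % 2 = 0)
    rcases Nat.mod_two_eq_zero_or_one N with h | h
    · have : (N + 1) % 2 = 1 := by omega
      simp [h, this]
    · have : (N + 1) % 2 = 0 := by omega
      simp [h, this]

/-- The sign of the inner product. -/
noncomputable def chi (r v : List Bool) : ℝ := if dot r v = true then -1 else 1

theorem chi_cons (a b : Bool) (x y : List Bool) :
    chi (a :: x) (b :: y) = (if (a && b) = true then -1 else 1) * chi x y := by
  unfold chi
  rw [dot_cons]
  cases (a && b) <;> cases dot x y <;> simp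

theorem Ex_chi (v : List Bool) : ∀ v' : List Bool, v'.length = v.length →
    Ex v.length (fun r => chi r v * chi r v') = if v = v' then 1 else 0 := by
  induction v with
  | nil =>
    intro v' h
    have : v' = [] := List.length_eq_zero_iff.1 h
    subst this
    simp only [List.length_nil, Ex_zero, chi, dot_nil]
    norm_num
  | cons b y ih =>
    intro v' h
    obtain ⟨b', y', rfl⟩ : ∃ b' y', v' = b' :: y' := by
      cases v' with
      | nil => simp at h
      | cons b' y' => exact ⟨b', y', rfl⟩
    have h' : y'.length = y.length := by simpa using h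
    have h1 := ih y' h'
    rw [List.length_cons, Ex_succ]
    simp only [chi_cons]
    have e1 : Ex y.length (fun r => (if (false && b) = true then (-1 : ℝ) else 1) * chi r y *
        ((if (false && b') = true then -1 else 1) * chi r y')) =
        Ex y.length (fun r => chi r y * chi r y') := by
      refine Ex_congr fun r _ => ?_
      simp
    have e2 : Ex y.length (fun r => (if (true && b) = true then (-1 : ℝ) else 1) * chi r y *
        ((if (true && b') = true then -1 else 1) * chi r y')) =
        Ex y.length (fun r => chi r y * chi r y') * (if b = b' then 1 else -1) := by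
      rw [← Ex_mul_const]
      refine Ex_congr fun r _ => ?_
      cases b <;> cases b' <;> simp
    rw [e1, e2, h1]
    by_cases hb : b = b'
    · subst hb
      by_cases hy : y = y'
      · subst hy
        simp
      · simp [hy]
    · simp [hb]

/-- zero-one indicator of a zero inner product -/
noncomputable def ind (r v : List Bool) : ℝ := if dot r v = false then 1 else 0

theorem ind_eq (r v : List Bool) : ind r v = (1 + chi r v) / 2 := by
  unfold ind chi
  cases dot r v <;> norm_num

theorem chi_zero (n : ℕ) : ∀ r : List Bool, r.length = n → chi r (List.replicate n false) = 1 := by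
  induction n with
  | zero =>
    intro r _
    simp [chi, dot_nil]
  | succ n ih =>
    intro r hr
    obtain ⟨b, y, rfl⟩ : ∃ b y, r = b :: y := by
      cases r with
      | nil => simp at hr
      | cons b y => exact ⟨b, y, rfl⟩
    rw [List.replicate_succ, chi_cons, ih y (by simpa using hr)]
    simp

theorem Ex_chi_single (v : List Bool) (hv : true ∈ v) : Ex v.length (fun r => chi r v) = 0 := by
  have h := Ex_chi v (List.replicate v.length false) (by simp)
  have h1 : v ≠ List.replicate v.length false := by
    intro h2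
    rw [h2] at hv
    have := List.eq_of_mem_replicate hv
    exact absurd this (by decide)
  rw [if_neg h1] at h
  rw [← h]
  refine Ex_congr fun r hr => ?_
  rw [chi_zero _ r hr, mul_one]

theorem Ex_ind (v : List Bool) (hv : true ∈ v) : Ex v.length (fun r => ind r v) = 1 / 2 := by
  simp only [ind_eq]
  have h1 : Ex v.length (fun r => (1 + chi r v) / 2) =
      Ex v.length (fun r => 1 / 2 + chi r v * (1 / 2)) := Ex_congr fun r _ => by ring
  rw [h1, Ex_add_fun, Ex_mul_const, Ex_chi_single v hv, Ex_const]
  norm_num

theorem Ex_ind_ind (v v' : List Bool) (hv : true ∈ v) (hv' : true ∈ v')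
    (hl : v'.length = v.length) (hne : v ≠ v') :
    Ex v.length (fun r => ind r v * ind r v') = 1 / 4 := by
  simp only [ind_eq]
  have h1 : Ex v.length (fun r => (1 + chi r v) / 2 * ((1 + chi r v') / 2)) =
      Ex v.length (fun r => (1 / 4 + chi r v * (1 / 4)) +
        (chi r v' * (1 / 4) + (chi r v * chi r v') * (1 / 4))) :=
    Ex_congr fun r _ => by ring
  have h2 := Ex_chi_single v' hv'
  rw [hl] at h2
  rw [h1, Ex_add_fun, Ex_add_fun, Ex_add_fun, Ex_mul_const, Ex_mul_const, Ex_mul_const,
    Ex_chi_single v hv, h2, Ex_chi v v' hl, Ex_const, if_neg hne]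
  norm_num

/-- The string `w` satisfies the first `i` random affine equations. -/
def hOK (L i : ℕ) (r w : List Bool) : Bool :=
  (List.range i).all fun j => !dot ((r.drop (j * L)).take L) (w ++ [true])

theorem hOK_zero (L : ℕ) (r w : List Bool) : hOK L 0 r w = true := rfl

theorem hOK_succ (L i : ℕ) (r w : List Bool) :
    hOK L (i + 1) r w = (!dot (r.take L) (w ++ [true]) && hOK L i (r.drop L) w) := by
  unfold hOK
  rw [List.range_succ_eq_map, List.all_cons, List.all_map]
  have e : ((fun j => !dot ((r.drop (j * L)).take L) (w ++ [true])) ∘ Nat.succ) =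
      fun j => !dot (((r.drop L).drop (j * L)).take L) (w ++ [true]) := by
    funext j
    simp only [Function.comp, Nat.succ_eq_add_one, List.drop_drop]
    congr 4
    ring
  rw [e, Nat.zero_mul, List.drop_zero]

theorem hOK_mono {L i i' : ℕ} (h : i ≤ i') {r w : List Bool} (h1 : hOK L i' r w = true) :
    hOK L i r w = true := by
  unfold hOK at h1 ⊢
  rw [List.all_eq_true] at h1 ⊢
  intro j hj
  exact h1 j (List.mem_range.2 (lt_of_lt_of_le (List.mem_range.1 hj) h))

theorem hOK_take {L i a : ℕ} (h : i * L ≤ a) (r w : List Bool) :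
    hOK L i (r.take a) w = hOK L i r w := by
  unfold hOK
  have key : ∀ j, j < i → ((r.take a).drop (j * L)).take L = (r.drop (j * L)).take L := by
    intro j hj
    have h8 : j * L + L ≤ i * L := by
      have : (j + 1) * L ≤ i * L := Nat.mul_le_mul_right _ hj
      linarith
    rw [List.drop_take, List.take_take, Nat.min_eq_left (by omega)]
  rw [Bool.eq_iff_iff, List.all_eq_true, List.all_eq_true]
  constructor
  · intro h1 j hj
    rw [← key j (List.mem_range.1 hj)]
    exact h1 j hj
  · intro h1 j hj
    rw [key j (List.mem_range.1 hj)]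
    exact h1 j hj

/-- indicator -/
noncomputable def hInd (L i : ℕ) (r w : List Bool) : ℝ := if hOK L i r w = true then 1 else 0

theorem hInd_succ (L i : ℕ) (r w : List Bool) :
    hInd L (i + 1) r w = ind (r.take L) (w ++ [true]) * hInd L i (r.drop L) w := by
  unfold hInd ind
  rw [hOK_succ]
  cases dot (r.take L) (w ++ [true]) <;> simp

theorem Ex_hInd (i : ℕ) (w : List Bool) :
    Ex (i * (w.length + 1)) (fun r => hInd (w.length + 1) i r w) = (1 / 2) ^ i := by
  induction i with
  | zero => simp [Ex_zero, hInd, hOK_zero]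
  | succ i ih =>
    have e : (i + 1) * (w.length + 1) = (w.length + 1) + i * (w.length + 1) := by ring
    rw [e]
    have h1 := Ex_mul (w.length + 1) (i * (w.length + 1)) (fun r => ind r (w ++ [true]))
      (fun r => hInd (w.length + 1) i r w)
    have h2 := Ex_ind (w ++ [true]) (by simp)
    rw [List.length_append, List.length_singleton] at h2
    rw [h2, ih] at h1
    rw [pow_succ', ← h1]
    exact Ex_congr fun r _ => hInd_succ _ _ _ _

theorem Ex_hInd2 (i : ℕ) (w w' : List Bool) (hl : w'.length = w.length) (hne : w ≠ w') :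
    Ex (i * (w.length + 1)) (fun r => hInd (w.length + 1) i r w * hInd (w.length + 1) i r w') =
      (1 / 4) ^ i := by
  induction i with
  | zero => simp [Ex_zero, hInd, hOK_zero]
  | succ i ih =>
    have e : (i + 1) * (w.length + 1) = (w.length + 1) + i * (w.length + 1) := by ring
    rw [e]
    have h1 := Ex_mul (w.length + 1) (i * (w.length + 1))
      (fun r => ind r (w ++ [true]) * ind r (w' ++ [true]))
      (fun r => hInd (w.length + 1) i r w * hInd (w.length + 1) i r w')
    have h2 := Ex_ind_ind (w ++ [true]) (w' ++ [true]) (by simp) (by simp) (by simp [hl])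
      (fun h => hne (List.append_cancel_right h))
    rw [List.length_append, List.length_singleton] at h2
    rw [h2, ih] at h1
    rw [pow_succ', ← h1]
    refine Ex_congr fun r _ => ?_
    rw [hInd_succ, hInd_succ]
    ring

section

variable (S : Finset (List Bool)) (m : ℕ) (hS : ∀ w ∈ S, w.length = m)

include hS

theorem Ex_sum_hInd (i : ℕ) :
    Ex (i * (m + 1)) (fun r => ∑ w ∈ S, hInd (m + 1) i r w) = S.card * (1 / 2) ^ i := by
  rw [Ex_sum]
  have h : ∀ w ∈ S, Ex (i * (m + 1)) (fun r => hInd (m + 1) i r w) = (1 / 2) ^ i := by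
    intro w hw
    have := Ex_hInd i w
    rwa [hS w hw] at this
  rw [Finset.sum_congr rfl h, Finset.sum_const, nsmul_eq_mul]

theorem Ex_sum_hInd_sq (i : ℕ) :
    Ex (i * (m + 1)) (fun r => (∑ w ∈ S, hInd (m + 1) i r w) ^ 2) ≤
      S.card * (1 / 2) ^ i + (S.card * (1 / 2) ^ i) ^ 2 := by
  classical
  have e : Ex (i * (m + 1)) (fun r => (∑ w ∈ S, hInd (m + 1) i r w) ^ 2) =
      ∑ w ∈ S, ∑ w' ∈ S, Ex (i * (m + 1)) (fun r => hInd (m + 1) i r w * hInd (m + 1) i r w') := by
    rw [show (fun r => (∑ w ∈ S, hInd (m + 1) i r w) ^ 2) =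
      fun r => ∑ w ∈ S, ∑ w' ∈ S, hInd (m + 1) i r w * hInd (m + 1) i r w' from
      funext fun r => by rw [sq, Finset.sum_mul_sum]]
    rw [Ex_sum]
    refine Finset.sum_congr rfl fun w _ => ?_
    rw [Ex_sum]
  rw [e]
  have h1 : ∀ w ∈ S, ∀ w' ∈ S,
      Ex (i * (m + 1)) (fun r => hInd (m + 1) i r w * hInd (m + 1) i r w') ≤
      (if w = w' then (1 / 2) ^ i else 0) + (1 / 4) ^ i := by
    intro w hw w' hw'
    by_cases h : w = w'
    · subst h
      rw [if_pos rfl]
      have h2 : Ex (i * (m + 1)) (fun r => hInd (m + 1) i r w * hInd (m + 1) i r w) =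
          Ex (i * (m + 1)) (fun r => hInd (m + 1) i r w) := by
        refine Ex_congr fun r _ => ?_
        unfold hInd
        split_ifs <;> norm_num
      have h3 := Ex_hInd i w
      rw [hS w hw] at h3
      rw [h2, h3]
      have : (0 : ℝ) ≤ (1 / 4) ^ i := by positivity
      linarith
    · rw [if_neg h]
      have h3 := Ex_hInd2 i w w' (by rw [hS w hw, hS w' hw']) h
      rw [hS w hw] at h3
      rw [h3]
      linarith
  refine (Finset.sum_le_sum fun w hw => Finset.sum_le_sum fun w' hw' => h1 w hw w' hw').trans ?_
  simp only [Finset.sum_add_distrib, Finset.sum_ite_eq, Finset.sum_const, nsmul_eq_mul]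
  rw [Finset.sum_congr rfl fun w hw => if_pos hw, Finset.sum_const, nsmul_eq_mul]
  have h4 : ((1 : ℝ) / 4) ^ i = (1 / 2) ^ i * (1 / 2) ^ i := by
    rw [← mul_pow]
    norm_num
  rw [h4]
  nlinarith

/-- If the set is small, no element satisfies the equations. -/
theorem prob_hash_exists (i : ℕ) :
    prob (i * (m + 1)) (fun r => ∃ w ∈ S, hOK (m + 1) i r w = true) ≤ S.card * (1 / 2) ^ i := by
  have h1 := Ex_sum_hInd S m hS i
  have h2 : prob (i * (m + 1)) (fun r => ∃ w ∈ S, hOK (m + 1) i r w = true) * 1 ≤
      Ex (i * (m + 1)) (fun r => ∑ w ∈ S, hInd (m + 1) i r w) := by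
    apply prob_markov
    · intro r
      refine Finset.sum_nonneg fun w _ => ?_
      unfold hInd
      split_ifs <;> norm_num
    · rintro r ⟨w, hw, h⟩
      have h3 : hInd (m + 1) i r w ≤ ∑ w ∈ S, hInd (m + 1) i r w := by
        refine Finset.single_le_sum (f := fun w => hInd (m + 1) i r w) ?_ hw
        intro w _
        unfold hInd
        split_ifs <;> norm_num
      refine le_trans (le_of_eq ?_) h3
      unfold hInd
      rw [if_pos h]
  linarith

/-- If the set is large, some element satisfies the equations. -/
theorem prob_hash_none (i : ℕ) (h0 : 0 < S.card) :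
    prob (i * (m + 1)) (fun r => ¬ ∃ w ∈ S, hOK (m + 1) i r w = true) ≤ 2 ^ i / S.card := by
  set μ : ℝ := S.card * (1 / 2) ^ i with hμ
  have hc : (0 : ℝ) < S.card := by exact_mod_cast h0
  have hμ0 : 0 < μ := by positivity
  have h1 := Ex_sum_hInd S m hS i
  have h2 := Ex_sum_hInd_sq S m hS i
  have h3 : prob (i * (m + 1)) (fun r => ¬ ∃ w ∈ S, hOK (m + 1) i r w = true) * μ ^ 2 ≤
      Ex (i * (m + 1)) (fun r => (∑ w ∈ S, hInd (m + 1) i r w - μ) ^ 2) := by
    apply prob_markov
    · intro r
      positivity
    · intro r h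
      have h4 : ∑ w ∈ S, hInd (m + 1) i r w = 0 := by
        refine Finset.sum_eq_zero fun w hw => ?_
        unfold hInd
        rw [if_neg]
        exact fun h5 => h ⟨w, hw, h5⟩
      rw [h4]
      ring_nf
      exact le_rfl
  have h5 : Ex (i * (m + 1)) (fun r => (∑ w ∈ S, hInd (m + 1) i r w - μ) ^ 2) =
      Ex (i * (m + 1)) (fun r => (∑ w ∈ S, hInd (m + 1) i r w) ^ 2) +
        (Ex (i * (m + 1)) (fun r => ∑ w ∈ S, hInd (m + 1) i r w) * (-2 * μ) + μ ^ 2) := by
    rw [← Ex_mul_const]
    conv_rhs => rw [← Ex_const (i * (m + 1)) (μ ^ 2)]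
    rw [← Ex_add_fun, ← Ex_add_fun]
    refine Ex_congr fun r _ => ?_
    ring
  rw [h5, h1] at h3
  have h6 : prob (i * (m + 1)) (fun r => ¬ ∃ w ∈ S, hOK (m + 1) i r w = true) * μ ^ 2 ≤ μ := by
    nlinarith
  have h7 : prob (i * (m + 1)) (fun r => ¬ ∃ w ∈ S, hOK (m + 1) i r w = true) * μ ≤ 1 := by
    have : prob (i * (m + 1)) (fun r => ¬ ∃ w ∈ S, hOK (m + 1) i r w = true) * μ * μ ≤ 1 * μ := by
      nlinarith
    exact le_of_mul_le_mul_right this hμ0
  rw [le_div_iff₀ hc]
  have h8 : μ * 2 ^ i = S.card := by
    rw [hμ, mul_assoc, ← mul_pow]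
    norm_num
  have h9 : (0 : ℝ) < 2 ^ i := by positivity
  rw [← h8, ← mul_assoc]
  nlinarith

end

end Pool.Agent.H.MP_20b771_lc
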