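import Pool.Agent.H.MP_20b771_lc.Root
import Pool.Agent.H.MP_20b771_lc.Hash
import Pool.Agent.H.MP_20b771_lc.Codec

/-!
Tuples of 4-colourings as strings; the language used in the approximation algorithm.
-/

namespace Pool.Agent.H.MP_20b771_lc

open Pool.Agent.H.MP_5be563_lc Pool.Agent.H.MP_5be563_lc.PT

/-! ### Encoding and decoding -/

/-- the symbols of the inputs -/
abbrev Sy : Type := Bool ⊕ Option Bool

/-- inputs as strings -/
def rawEnc (a : List Bool) (k : ℕ) (r : List Bool) : List Sy :=
  a.map Sum.inl ++ List.replicate k (Sum.inr none) ++ r.map fun b => Sum.inr (some b)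

/-- number of marks -/
def rawK (s : List Sy) : ℕ := ((rights s).filter fun o => !o.isSome).length

/-- random bits -/
def rawR (s : List Sy) : List Bool := (rights s).flatMap fun o => o.elim [] fun b => [b]

theorem rawEnc_eq (a : List Bool) (k : ℕ) (r : List Bool) : rawEnc a k r =
    a.map Sum.inl ++ (List.replicate k none ++ r.map some).map Sum.inr := by
  unfold rawEnc
  rw [List.map_append, List.map_replicate, List.map_map, List.append_assoc]
  rfl

theorem lefts_rawEnc (a : List Bool) (k : ℕ) (r : List Bool) : lefts (rawEnc a k r) = a := by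
  rw [rawEnc_eq, lefts_append]

theorem rawK_rawEnc (a : List Bool) (k : ℕ) (r : List Bool) : rawK (rawEnc a k r) = k := by
  unfold rawK
  rw [rawEnc_eq, rights_append, List.filter_append]
  have h1 : (r.map some).filter (fun o => !o.isSome) = [] := by
    rw [List.filter_eq_nil_iff]
    intro o ho
    obtain ⟨b, _, rfl⟩ := List.mem_map.1 ho
    simp
  have h2 : (List.replicate k (none : Option Bool)).filter (fun o => !o.isSome) =
      List.replicate k none := by
    rw [List.filter_eq_self]
    intro o ho
    rw [List.eq_of_mem_replicate ho]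
    rfl
  rw [h1, h2]
  simp

theorem rawR_rawEnc (a : List Bool) (k : ℕ) (r : List Bool) : rawR (rawEnc a k r) = r := by
  unfold rawR
  rw [rawEnc_eq, rights_append, List.flatMap_append, List.flatMap_map]
  simp

theorem length_rawEnc (a : List Bool) (k : ℕ) (r : List Bool) :
    (rawEnc a k r).length = a.length + k + r.length := by
  unfold rawEnc
  simp only [List.length_append, List.length_map, List.length_replicate]

section

variable {α : Type} [Enc α]

@[fun_prop]
theorem Poly.rawEnc {a r : α → List Bool} {k : α → ℕ} (ha : PT.Poly a) (hk : PT.Poly k)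
    (hr : PT.Poly r) : PT.Poly (fun x => rawEnc (a x) (k x) (r x)) := by
  unfold MP_20b771_lc.rawEnc
  refine PT.Poly.append (PT.Poly.append ?_ (Poly.replicate' hk (PT.Poly.const _))) ?_
  · exact Poly.mapFin (β := Bool) _ ha
  · exact Poly.mapFin (β := Bool) _ hr

@[fun_prop]
theorem Poly.rawL {s : α → List Sy} (hs : PT.Poly s) : PT.Poly (fun x => MP_20b771_lc.lefts (s x)) :=
  (Poly.lefts (β := Bool) (γ := Option Bool)).comp hs

@[fun_prop]
theorem Poly.rawK {s : α → List Sy} (hs : PT.Poly s) : PT.Poly (fun x => rawK (s x)) := by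
  unfold MP_20b771_lc.rawK
  have h := (Poly.rights (β := Bool) (γ := Option Bool)).comp hs
  fun_prop

@[fun_prop]
theorem Poly.rawR {s : α → List Sy} (hs : PT.Poly s) : PT.Poly (fun x => rawR (s x)) := by
  unfold MP_20b771_lc.rawR
  have h := (Poly.rights (β := Bool) (γ := Option Bool)).comp hs
  fun_prop

@[fun_prop]
theorem Poly.dot {r v : α → List Bool} (hr : PT.Poly r) (hv : PT.Poly v) :
    PT.Poly (fun x => dot (r x) (v x)) := by
  unfold MP_20b771_lc.dot
  fun_prop

@[fun_prop]
theorem Poly.hOK {r w : α → List Bool} {L i : α → ℕ} (hL : PT.Poly L) (hi : PT.Poly i)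
    (hr : PT.Poly r) (hw : PT.Poly w) : PT.Poly (fun x => hOK (L x) (i x) (r x) (w x)) := by
  unfold MP_20b771_lc.hOK
  fun_prop

end

/-! ### Tuples of colourings -/

/-- Does the string describe a `t`-tuple of 4-colourings? -/
def validW (a : List Bool) (n t : ℕ) (w : List Bool) : Bool :=
  (List.range t).all fun j => (List.range n).all fun u => (List.range n).all fun v =>
    !(a.getD (u * n + v) false) ||
      !((w.getD (0 + 2 * (u + n * j)) false == w.getD (0 + 2 * (v + n * j)) false) &&
        (w.getD (1 + 2 * (u + n * j)) false == w.getD (1 + 2 * (v + n * j)) false))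

@[fun_prop]
theorem Poly.validW {α : Type} [Enc α] {a w : α → List Bool} {n t : α → ℕ} (ha : PT.Poly a)
    (hn : PT.Poly n) (ht : PT.Poly t) (hw : PT.Poly w) :
    PT.Poly (fun x => validW (a x) (n x) (t x) (w x)) := by
  unfold MP_20b771_lc.validW
  fun_prop

theorem getD_flatMap {β : Type} (f : β → List Bool) (c : ℕ) (hf : ∀ b, (f b).length = c)
    (v : ℕ) (hv : v < c) : ∀ (l : List β) (i : ℕ) (hi : i < l.length),
    (l.flatMap f).getD (i * c + v) false = (f l[i]).getD v false := by
  intro l
  induction l with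
  | nil => intro i hi; simp at hi
  | cons x l ih =>
    intro i hi
    rw [List.flatMap_cons]
    cases i with
    | zero =>
      rw [Nat.zero_mul, Nat.zero_add, List.getD_append _ _ _ _ (by rw [hf]; exact hv)]
      rfl
    | succ i =>
      rw [List.getD_append_right _ _ _ _ (by rw [hf]; nlinarith), hf]
      have e : (i + 1) * c + v - c = i * c + v := by
        have : (i + 1) * c = i * c + c := by ring
        omega
      rw [e]
      exact ih i (by simpa using hi)

open Classical in
theorem adjMatrixBits_getD {n : ℕ} (G : SimpleGraph (Fin n)) (u v : Fin n) :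
    (adjMatrixBits G).getD (u.val * n + v.val) false = decide (G.Adj u v) := by
  unfold adjMatrixBits
  rw [getD_flatMap _ n (by intro b; simp) v.val v.isLt _ _ (by simp)]
  rw [List.getD_eq_getElem _ _ (by simp)]
  simp

theorem adjMatrixBits_length {n : ℕ} (G : SimpleGraph (Fin n)) :
    (adjMatrixBits G).length = n * n := by
  unfold adjMatrixBits
  rw [List.length_flatMap]
  simp

/-- strings as tuples of maps -/
def tupEquiv (t n : ℕ) : (Fin (t * n * 2) → Bool) ≃ (Fin t → Fin n → Fin 2 → Bool) :=
  (Equiv.arrowCongr finProdFinEquiv.symm (Equiv.refl Bool)).trans <|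
    (Equiv.curry (Fin (t * n)) (Fin 2) Bool).trans <|
      (Equiv.arrowCongr finProdFinEquiv.symm (Equiv.refl (Fin 2 → Bool))).trans <|
        Equiv.curry (Fin t) (Fin n) (Fin 2 → Bool)

theorem tup_lt {t n : ℕ} (j : Fin t) (u : Fin n) (b : Fin 2) :
    b.val + 2 * (u.val + n * j.val) < t * n * 2 := by
  have h1 := j.isLt
  have h2 := u.isLt
  have h3 := b.isLt
  have h4 : n * j.val + n ≤ t * n := by
    have : n * (j.val + 1) ≤ n * t := Nat.mul_le_mul_left _ h1
    linarith
  omega

theorem tupEquiv_apply (t n : ℕ) (w : Fin (t * n * 2) → Bool) (j : Fin t) (u : Fin n)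
    (b : Fin 2) : tupEquiv t n w j u b = w ⟨b.val + 2 * (u.val + n * j.val), tup_lt j u b⟩ := rfl

/-- proper colourings -/
def Proper {n : ℕ} (G : SimpleGraph (Fin n)) {κ : Type} (c : Fin n → κ) : Prop :=
  ∀ u v, G.Adj u v → c u ≠ c v

theorem ofFn_getD {m : ℕ} (w : Fin m → Bool) (i : ℕ) (hi : i < m) :
    (List.ofFn w).getD i false = w ⟨i, hi⟩ := by
  rw [List.getD_eq_getElem _ _ (by simpa using hi)]
  simp

theorem validW_iff {n : ℕ} (G : SimpleGraph (Fin n)) (t : ℕ) (w : Fin (t * n * 2) → Bool) :
    validW (adjMatrixBits G) n t (List.ofFn w) = true ↔ ∀ j, Proper G (tupEquiv t n w j) := by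
  unfold validW
  simp only [List.all_eq_true, List.mem_range, Bool.or_eq_true, Bool.not_eq_true',
    Bool.and_eq_false_iff, beq_eq_false_iff_ne]
  constructor
  · intro h j u v huv heq
    have h1 := h j.val j.isLt u.val u.isLt v.val v.isLt
    rw [adjMatrixBits_getD] at h1
    rcases h1 with h1 | h1 | h1
    · simp [huv] at h1
    · exact h1 ((ofFn_getD w _ (tup_lt j u 0)).trans
        ((congrFun heq 0).trans (ofFn_getD w _ (tup_lt j v 0)).symm))
    · exact h1 ((ofFn_getD w _ (tup_lt j u 1)).trans
        ((congrFun heq 1).trans (ofFn_getD w _ (tup_lt j v 1)).symm))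
  · intro h j hj u hu v hv
    have e := adjMatrixBits_getD G ⟨u, hu⟩ ⟨v, hv⟩
    simp only at e
    rw [e]
    by_cases hadj : G.Adj ⟨u, hu⟩ ⟨v, hv⟩
    · right
      have h1 := h ⟨j, hj⟩ ⟨u, hu⟩ ⟨v, hv⟩ hadj
      by_contra h2
      rw [not_or, not_not, not_not] at h2
      apply h1
      funext b
      rw [tupEquiv_apply, tupEquiv_apply]
      obtain ⟨h3, h4⟩ := h2
      have h5 := (ofFn_getD w _ (tup_lt ⟨j, hj⟩ ⟨u, hu⟩ 0)).symm.trans
        (h3.trans (ofFn_getD w _ (tup_lt ⟨j, hj⟩ ⟨v, hv⟩ 0)))
      have h6 := (ofFn_getD w _ (tup_lt ⟨j, hj⟩ ⟨u, hu⟩ 1)).symm.trans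
        (h4.trans (ofFn_getD w _ (tup_lt ⟨j, hj⟩ ⟨v, hv⟩ 1)))
      rcases Fin.exists_fin_two.1 ⟨b, rfl⟩ with rfl | rfl
      · exact h5
      · exact h6
    · left
      simpa using hadj

/-- the number of 4-colourings as a natural number -/
noncomputable def colN {n : ℕ} (G : SimpleGraph (Fin n)) : ℕ := Nat.card (G.Coloring (Fin 4))

theorem card_proper {n : ℕ} (G : SimpleGraph (Fin n)) :
    Nat.card {c : Fin n → Fin 2 → Bool // Proper G c} = colN G := by
  unfold colN
  let e : (Fin 2 → Bool) ≃ Fin 4 := Fintype.equivOfCardEq (by simp)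
  refine Nat.card_congr ⟨fun c => SimpleGraph.Coloring.mk (fun v => e (c.1 v)) ?_,
    fun c => ⟨fun v => e.symm (c v), ?_⟩, ?_, ?_⟩
  · intro u v huv h
    exact c.2 u v huv (e.injective h)
  · intro u v huv h
    exact c.valid huv (e.symm.injective h)
  · intro c
    apply Subtype.ext
    funext v
    exact e.symm_apply_apply _
  · intro c
    apply DFunLike.ext
    intro v
    exact e.apply_symm_apply _

open Classical in
/-- the strings describing tuples of colourings -/
noncomputable def tupS {n : ℕ} (G : SimpleGraph (Fin n)) (t : ℕ) : Finset (List Bool) :=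
  (Finset.univ.filter fun w : Fin (t * n * 2) → Bool =>
    validW (adjMatrixBits G) n t (List.ofFn w) = true).image List.ofFn

theorem mem_tupS {n : ℕ} (G : SimpleGraph (Fin n)) (t : ℕ) (w : List Bool) :
    w ∈ tupS G t ↔ w.length = t * n * 2 ∧ validW (adjMatrixBits G) n t w = true := by
  classical
  unfold tupS
  rw [Finset.mem_image]
  constructor
  · rintro ⟨x, hx, rfl⟩
    rw [Finset.mem_filter] at hx
    exact ⟨by simp, hx.2⟩
  · rintro ⟨h1, h2⟩
    have e : List.ofFn (fun i : Fin (t * n * 2) => w.get (i.cast h1.symm)) = w := by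
      apply List.ext_getElem
      · rw [List.length_ofFn, h1]
      · intro i h5 h6
        simp
    refine ⟨fun i => w.get (i.cast h1.symm), ?_, e⟩
    rw [Finset.mem_filter, e]
    exact ⟨Finset.mem_univ _, h2⟩

theorem card_tupS {n : ℕ} (G : SimpleGraph (Fin n)) (t : ℕ) : (tupS G t).card = colN G ^ t := by
  classical
  unfold tupS
  rw [Finset.card_image_of_injective _ List.ofFn_injective]
  have h1 : (Finset.univ.filter fun w : Fin (t * n * 2) → Bool =>
      validW (adjMatrixBits G) n t (List.ofFn w) = true).card =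
      Nat.card {w : Fin (t * n * 2) → Bool // validW (adjMatrixBits G) n t (List.ofFn w) = true} := by
    rw [Nat.card_eq_fintype_card, Fintype.card_subtype]
  rw [h1]
  have e1 : {w : Fin (t * n * 2) → Bool // validW (adjMatrixBits G) n t (List.ofFn w) = true} ≃
      {f : Fin t → Fin n → Fin 2 → Bool // ∀ j, Proper G (f j)} :=
    (tupEquiv t n).subtypeEquiv fun w => validW_iff G t w
  have e2 : {f : Fin t → Fin n → Fin 2 → Bool // ∀ j, Proper G (f j)} ≃
      (Fin t → {c : Fin n → Fin 2 → Bool // Proper G c}) :=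
    Equiv.subtypePiEquivPi
  rw [Nat.card_congr (e1.trans e2), Nat.card_fun, card_proper]
  simp

/-! ### The language -/

/-- number of vertices -/
def nQ (s : List Sy) : ℕ := sqrtN (lefts s).length

/-- length of the witnesses -/
def mQ (s : List Sy) : ℕ := rawK s * nQ s * 2

/-- the verifier -/
def VQ (z : List Sy × List Bool) : Bool :=
  decide (z.2.length = mQ z.1) && (validW (lefts z.1) (nQ z.1) (rawK z.1) z.2 &&
    hOK (mQ z.1 + 1) (divN (rawR z.1).length (mQ z.1 + 1)) (rawR z.1) z.2)

@[fun_prop]
theorem Poly.mQ {α : Type} [Enc α] {s : α → List Sy} (hs : PT.Poly s) :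
    PT.Poly (fun x => mQ (s x)) := by
  unfold MP_20b771_lc.mQ MP_20b771_lc.nQ
  fun_prop

theorem Poly.VQ : PT.Poly VQ := by
  unfold MP_20b771_lc.VQ MP_20b771_lc.nQ
  fun_prop

/-- the language -/
def LQ : Set (List Sy) := {s | ∃ w : List Bool, VQ (s, w) = true}

theorem mQ_le (s : List Sy) : mQ s ≤ 2 * s.length ^ 2 := by
  unfold mQ nQ
  have h1 : rawK s ≤ s.length := by
    unfold rawK rights
    refine (List.length_filter_le _ _).trans ?_
    induction s with
    | nil => simp
    | cons x s ih =>
      rw [List.flatMap_cons, List.length_append, List.length_cons]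
      rcases x with x | x
      · simp only [Sum.elim_inl, List.length_nil]
        omega
      · simp only [Sum.elim_inr, List.length_singleton]
        omega
  have h2 : sqrtN (lefts s).length ≤ s.length := by
    have h3 : sqrtN (lefts s).length ≤ (lefts s).length := by
      unfold sqrtN
      refine (List.length_filter_le _ _).trans ?_
      rw [List.length_range]
    refine h3.trans ?_
    unfold lefts
    clear h1 h3
    induction s with
    | nil => simp
    | cons x s ih =>
      rw [List.flatMap_cons, List.length_append, List.length_cons]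
      rcases x with x | x
      · simp only [Sum.elim_inl, List.length_singleton]
        omega
      · simp only [Sum.elim_inr, List.length_nil]
        omega
  have := Nat.mul_le_mul h1 h2
  nlinarith

theorem LQ_np : NP LQ := by
  refine ⟨2 * Polynomial.X ^ 2, VQ, tm2_of_pair Poly.VQ, ?_⟩
  intro s
  constructor
  · rintro ⟨w, hw⟩
    refine ⟨w, ?_, hw⟩
    unfold VQ at hw
    rw [Bool.and_eq_true, decide_eq_true_eq] at hw
    have := mQ_le s
    simp only [Polynomial.eval_mul, Polynomial.eval_ofNat, Polynomial.eval_pow, Polynomial.eval_X]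
    rw [hw.1]
    exact this
  · rintro ⟨w, _, hw⟩
    exact ⟨w, hw⟩

/-- The queries. -/
theorem query_iff {n : ℕ} (G : SimpleGraph (Fin n)) (t i : ℕ) (r : List Bool)
    (hr : i * (t * n * 2 + 1) ≤ r.length) :
    rawEnc (adjMatrixBits G) t (r.take (i * (t * n * 2 + 1))) ∈ LQ ↔
      ∃ w ∈ tupS G t, hOK (t * n * 2 + 1) i r w = true := by
  unfold LQ VQ mQ nQ
  simp only [Set.mem_ofPred_eq, lefts_rawEnc, rawK_rawEnc, rawR_rawEnc, adjMatrixBits_length,
    sqrtN_sq, Bool.and_eq_true, decide_eq_true_eq, mem_tupS]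
  have h1 : divN (r.take (i * (t * n * 2 + 1))).length (t * n * 2 + 1) = i := by
    rw [List.length_take, Nat.min_eq_left hr, divN_eq _ _ (by omega)]
    exact Nat.mul_div_cancel _ (by omega)
  rw [h1]
  constructor
  · rintro ⟨w, h2, h3, h4⟩
    exact ⟨w, ⟨h2, h3⟩, by rwa [hOK_take le_rfl] at h4⟩
  · rintro ⟨w, ⟨h2, h3⟩, h4⟩
    exact ⟨w, h2, h3, by rwa [hOK_take le_rfl]⟩

end Pool.Agent.H.MP_20b771_lc
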