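import Mathlib

/-!
Definitions used in the statements: planar graphs, randomized approximation algorithms for the
number of 4-colourings, the classes NP and RP.
-/

namespace Pool.Agent.H.MP_20b771_lc

open Turing

/-- The graph has a straight-line drawing in the plane without crossings: distinct vertices are
distinct points, an edge passes through no vertex other than its ends, and two different edges
meet at most in a common end. -/
def PlanarGraph {V : Type} (G : SimpleGraph V) : Prop :=
  ∃ p : V → ℝ × ℝ, Function.Injective p ∧
    (∀ u v w, G.Adj u v → p w ∈ segment ℝ (p u) (p v) → w = u ∨ w = v) ∧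
    (∀ u v u' v', G.Adj u v → G.Adj u' v' → s(u, v) ≠ s(u', v') →
      segment ℝ (p u) (p v) ∩ segment ℝ (p u') (p v') ⊆ {p u, p v} ∩ {p u', p v'})

/-- The number of 4-colourings of the graph, `P(G, 4)`. -/
noncomputable def numCol {n : ℕ} (G : SimpleGraph (Fin n)) : ℝ :=
  Nat.card (G.Coloring (Fin 4))

open Classical in
/-- The adjacency matrix of a graph, row by row. -/
noncomputable def adjMatrixBits {n : ℕ} (G : SimpleGraph (Fin n)) : List Bool :=
  (List.finRange n).flatMap fun i => (List.finRange n).map fun j => decide (G.Adj i j)

/-- The inputs of the algorithms: a planar graph with vertices `0, ..., n - 1`, a number `k`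
(for the accuracy `1 / k`) and a string of random bits. -/
structure PlanarInput where
  n : ℕ
  G : SimpleGraph (Fin n)
  planar : PlanarGraph G
  k : ℕ
  r : List Bool

/-- The input as a string: the adjacency matrix, then `k` in unary, then the random bits. -/
noncomputable def PlanarInput.encode (z : PlanarInput) : List (Bool ⊕ Option Bool) :=
  (adjMatrixBits z.G).map Sum.inl ++ List.replicate z.k (Sum.inr none) ++
    z.r.map fun b => Sum.inr (some b)

/-- The output `y.1 / y.2` as a string: the numerator and the denominator in binary, least
significant digit first. -/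
def encodeFrac (y : ℕ × ℕ) : List (Bool ⊕ Bool) :=
  (Nat.bits y.1).map Sum.inl ++ (Nat.bits y.2).map Sum.inr

/-- The probability that a uniformly random string of length `m` has the property `P`. -/
noncomputable def prob (m : ℕ) (P : List Bool → Prop) : ℝ :=
  (Nat.card {r : Fin m → Bool // P (List.ofFn r)} : ℝ) / 2 ^ m

/-- The value of a fraction. -/
noncomputable def fracVal (y : ℕ × ℕ) : ℝ := (y.1 : ℝ) / (y.2 : ℝ)

/-- There is a fully polynomial randomized approximation scheme for the number of 4-colourings of
planar graphs (the accuracy is `1 / k`, the running time is polynomial in `n` and `k`). -/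
def HasFpras : Prop :=
  ∃ (A : PlanarInput → ℕ × ℕ) (q : Polynomial ℕ),
    Nonempty (TM2ComputableInPolyTime PlanarInput.encode encodeFrac A) ∧
    ∀ (n : ℕ) (G : SimpleGraph (Fin n)) (hG : PlanarGraph G) (k : ℕ), 2 ≤ k →
      3 / 4 ≤ prob (q.eval (n + k)) fun r =>
        (1 - 1 / (k : ℝ)) * numCol G ≤ fracVal (A ⟨n, G, hG, k, r⟩) ∧
        fracVal (A ⟨n, G, hG, k, r⟩) ≤ (1 + 1 / (k : ℝ)) * numCol G

/-- There is a randomized polynomial-time algorithm which approximates the number of 4-colourings
of planar graphs with `n` vertices up to the factor `ρ n`, with probability at least `3 / 4`. -/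
def HasApprox (ρ : ℕ → ℝ) : Prop :=
  ∃ (A : PlanarInput → ℕ × ℕ) (q : Polynomial ℕ),
    Nonempty (TM2ComputableInPolyTime PlanarInput.encode encodeFrac A) ∧
    ∀ (n : ℕ) (G : SimpleGraph (Fin n)) (hG : PlanarGraph G),
      3 / 4 ≤ prob (q.eval n) fun r =>
        numCol G / ρ n ≤ fracVal (A ⟨n, G, hG, 0, r⟩) ∧
        fracVal (A ⟨n, G, hG, 0, r⟩) ≤ numCol G * ρ n

/-- A pair consisting of a string and a bit string, written as one string. -/
def encodePair {Γ : Type} (z : List Γ × List Bool) : List (Γ ⊕ Bool) :=
  z.1.map Sum.inl ++ z.2.map Sum.inr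

/-- The language is in NP: there are a polynomial `p` and a polynomial-time verifier `V` such that
`x` is in the language exactly when `V` accepts `x` with some witness of length at most
`p (length of x)`. -/
def NP {Γ : Type} (L : Set (List Γ)) : Prop :=
  ∃ (p : Polynomial ℕ) (V : List Γ × List Bool → Bool),
    Nonempty (TM2ComputableInPolyTime encodePair (fun b : Bool => [b]) V) ∧
    ∀ x, x ∈ L ↔ ∃ w : List Bool, w.length ≤ p.eval x.length ∧ V (x, w) = true

/-- The language is in RP: there are a polynomial `p` and a polynomial-time algorithm `V` such that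
`V` accepts `x` with `p (length of x)` random bits with probability at least `1 / 2` if `x` is in
the language and with probability `0` otherwise. -/
def RP {Γ : Type} (L : Set (List Γ)) : Prop :=
  ∃ (p : Polynomial ℕ) (V : List Γ × List Bool → Bool),
    Nonempty (TM2ComputableInPolyTime encodePair (fun b : Bool => [b]) V) ∧
    ∀ x, (x ∈ L → 1 / 2 ≤ prob (p.eval x.length) fun w => V (x, w) = true) ∧
      (x ∉ L → prob (p.eval x.length) (fun w => V (x, w) = true) = 0)

end Pool.Agent.H.MP_20b771_lc
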