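import Pool.Agent.H.MP_20b771_lc.Defs

/-!
Straight-line planar drawings, and how to check them on small pieces.
-/

namespace Pool.Agent.H.MP_20b771_lc

section

variable {V : Type}

/-- A crossing-free drawing of the directed edges `E` on the vertex set `S`. -/
structure Good (p : V → ℝ × ℝ) (S : Set V) (E : V → V → Prop) : Prop where
  inj : ∀ u ∈ S, ∀ v ∈ S, p u = p v → u = v
  mem : ∀ u v, E u v → u ∈ S ∧ v ∈ S
  vert : ∀ u v w, E u v → w ∈ S → p w ∈ segment ℝ (p u) (p v) → w = u ∨ w = v
  cross : ∀ u v u' v', E u v → E u' v' → s(u, v) ≠ s(u', v') →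
    ∀ z, z ∈ segment ℝ (p u) (p v) → z ∈ segment ℝ (p u') (p v') → ∃ y ∈ S, z = p y

/-- A drawing made of pieces which meet at most in common vertices. -/
theorem planar_of_objects {O : Type} (G : SimpleGraph V) (p : V → ℝ × ℝ) (mem : O → Set V)
    (E : O → V → V → Prop) (K : O → Set (ℝ × ℝ))
    (hE : ∀ u v, G.Adj u v → ∃ o, E o u v ∨ E o v u)
    (hV : ∀ v, ∃ o, v ∈ mem o)
    (hgood : ∀ o, Good p (mem o) (E o))
    (hK : ∀ o, Convex ℝ (K o))
    (hmem : ∀ o, ∀ v ∈ mem o, p v ∈ K o)
    (hdisj : ∀ o o', o ≠ o' → ∀ z ∈ K o, z ∈ K o' → ∃ y, y ∈ mem o ∧ y ∈ mem o' ∧ z = p y) :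
    PlanarGraph G := by
  have seg_sub : ∀ o u v, E o u v → segment ℝ (p u) (p v) ⊆ K o := by
    intro o u v h
    obtain ⟨h1, h2⟩ := (hgood o).mem u v h
    exact (hK o).segment_subset (hmem o u h1) (hmem o v h2)
  have hinj : Function.Injective p := by
    intro u v huv
    obtain ⟨o, ho⟩ := hV u
    obtain ⟨o', ho'⟩ := hV v
    by_cases h : o = o'
    · subst h
      exact (hgood o).inj u ho v ho' huv
    · obtain ⟨y, hy, hy', hz⟩ := hdisj o o' h (p u) (hmem o u ho) (by rw [huv]; exact hmem o' v ho')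
      have h1 := (hgood o).inj u ho y hy hz
      have h2 := (hgood o').inj v ho' y hy' (by rw [← huv]; exact hz)
      rw [h1, h2]
  have hvert : ∀ o u v w, E o u v → p w ∈ segment ℝ (p u) (p v) → w = u ∨ w = v := by
    intro o u v w h hw
    obtain ⟨o', ho'⟩ := hV w
    by_cases h' : o = o'
    · subst h'
      exact (hgood o).vert u v w h ho' hw
    · obtain ⟨y, hy, hy', hz⟩ := hdisj o o' h' (p w) (seg_sub o u v h hw) (hmem o' w ho')
      have h1 : w = y := hinj hz
      rw [h1] at hw ⊢
      exact (hgood o).vert u v y h hy hw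
  have hcross : ∀ o o' u v u' v', E o u v → E o' u' v' → s(u, v) ≠ s(u', v') →
      ∀ z, z ∈ segment ℝ (p u) (p v) → z ∈ segment ℝ (p u') (p v') →
      ∃ y, (y = u ∨ y = v) ∧ (y = u' ∨ y = v') ∧ z = p y := by
    intro o o' u v u' v' h h' hne z hz hz'
    have key : ∃ y, z = p y := by
      by_cases h'' : o = o'
      · subst h''
        obtain ⟨y, _, hy⟩ := (hgood o).cross u v u' v' h h' hne z hz hz'
        exact ⟨y, hy⟩
      · obtain ⟨y, _, _, hy⟩ := hdisj o o' h'' z (seg_sub o u v h hz) (seg_sub o' u' v' h' hz')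
        exact ⟨y, hy⟩
    obtain ⟨y, rfl⟩ := key
    exact ⟨y, hvert o u v y h hz, hvert o' u' v' y h' hz', rfl⟩
  refine ⟨p, hinj, ?_, ?_⟩
  · intro u v w huv hw
    obtain ⟨o, ho | ho⟩ := hE u v huv
    · exact hvert o u v w ho hw
    · rw [segment_symm] at hw
      exact (hvert o v u w ho hw).symm
  · intro u v u' v' huv huv' hne z hz
    obtain ⟨hz1, hz2⟩ := hz
    have : ∃ y, (y = u ∨ y = v) ∧ (y = u' ∨ y = v') ∧ z = p y := by
      obtain ⟨o, ho⟩ := hE u v huv
      obtain ⟨o', ho'⟩ := hE u' v' huv'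
      rcases ho with ho | ho
      · rcases ho' with ho' | ho'
        · exact hcross o o' u v u' v' ho ho' hne z hz1 hz2
        · rw [segment_symm] at hz2
          obtain ⟨y, h1, h2, h3⟩ := hcross o o' u v v' u' ho ho'
            (by rw [Sym2.eq_swap (a := v')]; exact hne) z hz1 hz2
          exact ⟨y, h1, h2.symm, h3⟩
      · rw [segment_symm] at hz1
        rcases ho' with ho' | ho'
        · obtain ⟨y, h1, h2, h3⟩ := hcross o o' v u u' v' ho ho'
            (by rw [Sym2.eq_swap (a := v)]; exact hne) z hz1 hz2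
          exact ⟨y, h1.symm, h2, h3⟩
        · rw [segment_symm] at hz2
          obtain ⟨y, h1, h2, h3⟩ := hcross o o' v u v' u' ho ho'
            (by rw [Sym2.eq_swap (a := v), Sym2.eq_swap (a := v')]; exact hne) z hz1 hz2
          exact ⟨y, h1.symm, h2.symm, h3⟩
    obtain ⟨y, h1, h2, rfl⟩ := this
    refine ⟨?_, ?_⟩
    · rcases h1 with rfl | rfl
      · exact Or.inl rfl
      · exact Or.inr rfl
    · rcases h2 with rfl | rfl
      · exact Or.inl rfl
      · exact Or.inr rfl

/-- A single edge. -/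
theorem good_edge (p : V → ℝ × ℝ) (S : Set V) (E : V → V → Prop) (u v : V)
    (hS : ∀ w ∈ S, w = u ∨ w = v) (huv : p u ≠ p v) (hmem : ∀ x y, E x y → x ∈ S ∧ y ∈ S)
    (hE : ∀ x y, E x y → x = u ∧ y = v) : Good p S E := by
  constructor
  · intro x hx y hy hxy
    rcases hS x hx with rfl | rfl <;> rcases hS y hy with rfl | rfl
    · rfl
    · exact absurd hxy huv
    · exact absurd hxy.symm huv
    · rfl
  · exact hmem
  · intro x y w hxy hw _
    obtain ⟨rfl, rfl⟩ := hE x y hxy
    exact hS w hw
  · intro x y x' y' h h' hne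
    obtain ⟨rfl, rfl⟩ := hE x y h
    obtain ⟨rfl, rfl⟩ := hE x' y' h'
    exact absurd rfl hne

/-- coordinates of a point in the frame `m, d, e` -/
def Rep (m d e z : ℝ × ℝ) (x y : ℝ) : Prop := z = m + x • d + y • e

theorem Rep.unique {m d e z : ℝ × ℝ} {x y x' y' : ℝ} (hdet : d.1 * e.2 - d.2 * e.1 ≠ 0)
    (h : Rep m d e z x y) (h' : Rep m d e z x' y') : x = x' ∧ y = y' := by
  unfold Rep at h h'
  rw [h] at h'
  have h1 := congrArg Prod.fst h'
  have h2 := congrArg Prod.snd h'
  simp only [Prod.fst_add, Prod.smul_fst, smul_eq_mul, Prod.snd_add, Prod.smul_snd] at h1 h2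
  have h3 : (x - x') * (d.1 * e.2 - d.2 * e.1) = 0 := by
    have : (x - x') * (d.1 * e.2 - d.2 * e.1) =
      ((m.1 + x * d.1 + y * e.1) - (m.1 + x' * d.1 + y' * e.1)) * e.2 -
      ((m.2 + x * d.2 + y * e.2) - (m.2 + x' * d.2 + y' * e.2)) * e.1 := by ring
    rw [this, h1, h2]
    ring
  have h4 : (y - y') * (d.1 * e.2 - d.2 * e.1) = 0 := by
    have : (y - y') * (d.1 * e.2 - d.2 * e.1) =
      ((m.2 + x * d.2 + y * e.2) - (m.2 + x' * d.2 + y' * e.2)) * d.1 -
      ((m.1 + x * d.1 + y * e.1) - (m.1 + x' * d.1 + y' * e.1)) * d.2 := by ring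
    rw [this, h1, h2]
    ring
  constructor
  · rcases mul_eq_zero.1 h3 with h | h
    · linarith
    · exact absurd h hdet
  · rcases mul_eq_zero.1 h4 with h | h
    · linarith
    · exact absurd h hdet

theorem Rep.seg {m d e P Q z : ℝ × ℝ} {x1 y1 x2 y2 : ℝ} (hP : Rep m d e P x1 y1)
    (hQ : Rep m d e Q x2 y2) (hz : z ∈ segment ℝ P Q) :
    ∃ s t : ℝ, 0 ≤ s ∧ 0 ≤ t ∧ s + t = 1 ∧ Rep m d e z (s * x1 + t * x2) (s * y1 + t * y2) := by
  obtain ⟨s, t, hs, ht, hst, rfl⟩ := hz
  refine ⟨s, t, hs, ht, hst, ?_⟩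
  unfold Rep at *
  subst hP
  subst hQ
  have h1 : s = 1 - t := by linarith
  rw [h1]
  ext <;> simp <;> ring

/-- A fan: hubs at `m ± d`, the path on the segment between `m - e` and `m + e`. -/
theorem good_fan {M : ℕ} (p : V → ℝ × ℝ) (m d e : ℝ × ℝ) (hdet : d.1 * e.2 - d.2 * e.1 ≠ 0)
    (τ : Fin M → ℝ) (hτ : StrictMono τ) (H S : Set V) (cx : V → ℝ) (a : Fin M → V)
    (hS : ∀ w ∈ S, w ∈ H ∨ ∃ t, w = a t)
    (hHS : ∀ w ∈ H, w ∈ S) (haS : ∀ t, a t ∈ S)
    (hH : ∀ w ∈ H, Rep m d e (p w) (cx w) 0)
    (hcx : ∀ w ∈ H, cx w = 1 ∨ cx w = -1)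
    (hcx' : ∀ w ∈ H, ∀ w' ∈ H, cx w = cx w' → w = w')
    (ha : ∀ t, Rep m d e (p (a t)) 0 (τ t))
    (E : V → V → Prop)
    (hE : ∀ u v, E u v → (u ∈ H ∧ ∃ t, v = a t) ∨
      (∃ t t' : Fin M, t.val + 1 = t'.val ∧ u = a t ∧ v = a t')) : Good p S E := by
  have hinj : ∀ u ∈ S, ∀ v ∈ S, p u = p v → u = v := by
    intro u hu v hv huv
    rcases hS u hu with hu | ⟨t, rfl⟩
    · rcases hS v hv with hv | ⟨t', rfl⟩
      · have h1 := hH u hu
        rw [huv] at h1
        exact hcx' u hu v hv (h1.unique hdet (hH v hv)).1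
      · have h1 := hH u hu
        rw [huv] at h1
        have h2 := (h1.unique hdet (ha t')).1
        rcases hcx u hu with h | h <;> rw [h] at h2 <;> norm_num at h2
    · rcases hS v hv with hv | ⟨t', rfl⟩
      · have h1 := hH v hv
        rw [← huv] at h1
        have h2 := (h1.unique hdet (ha t)).1
        rcases hcx v hv with h | h <;> rw [h] at h2 <;> norm_num at h2
      · have h1 := ha t
        rw [huv] at h1
        have h2 := (h1.unique hdet (ha t')).2
        rw [hτ.injective h2]
  constructor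
  · exact hinj
  · intro u v h
    rcases hE u v h with ⟨h1, t, rfl⟩ | ⟨t, t', _, rfl, rfl⟩
    · exact ⟨hHS u h1, haS t⟩
    · exact ⟨haS t, haS t'⟩
  · intro u v w h hw hz
    rcases hE u v h with ⟨h1, t, rfl⟩ | ⟨t, t', htt, rfl, rfl⟩
    · obtain ⟨s, r, hs, hr, hsr, hrep⟩ := (hH u h1).seg (ha t) hz
      rcases hS w hw with hw | ⟨k, rfl⟩
      · left
        obtain ⟨e1, e2⟩ := hrep.unique hdet (hH w hw)
        apply hcx' w hw u h1
        rcases hcx w hw with hc | hc <;> rcases hcx u h1 with hc' | hc' <;>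
          rw [hc, hc'] at e1 ⊢ <;> first | rfl | (exfalso; linarith)
      · right
        obtain ⟨e1, e2⟩ := hrep.unique hdet (ha k)
        have hs0 : s = 0 := by
          rcases hcx u h1 with hc' | hc' <;> rw [hc'] at e1 <;> linarith
        have hr1 : r = 1 := by linarith
        rw [hr1] at e2
        have : τ t = τ k := by linarith
        rw [hτ.injective this]
    · obtain ⟨s, r, hs, hr, hsr, hrep⟩ := (ha t).seg (ha t') hz
      rcases hS w hw with hw | ⟨k, rfl⟩
      · exfalso
        obtain ⟨e1, e2⟩ := hrep.unique hdet (hH w hw)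
        rcases hcx w hw with hc' | hc' <;> rw [hc'] at e1 <;> linarith
      · obtain ⟨e1, e2⟩ := hrep.unique hdet (ha k)
        have hlt : τ t < τ t' := hτ (by rw [Fin.lt_def]; omega)
        have h3 : τ t ≤ τ k := by
          have : s = 1 - r := by linarith
          rw [← e2, this]
          nlinarith
        have h4 : τ k ≤ τ t' := by
          have : r = 1 - s := by linarith
          rw [← e2, this]
          nlinarith
        have h5 := hτ.le_iff_le.1 h3
        have h6 := hτ.le_iff_le.1 h4
        rw [Fin.le_def] at h5 h6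
        by_cases h7 : k = t
        · left; rw [h7]
        · right
          have : k = t' := by
            apply Fin.ext
            have : k.val ≠ t.val := fun h => h7 (Fin.ext h)
            omega
          rw [this]
  · have main : ∀ u v u' v', E u v → E u' v' → s(u, v) ≠ s(u', v') →
        (u' ∈ H ∧ ∃ t, v' = a t) →
        ∀ z, z ∈ segment ℝ (p u) (p v) → z ∈ segment ℝ (p u') (p v') → ∃ y ∈ S, z = p y := by
      intro u v u' v' h h' hne hH' z hz hz'
      obtain ⟨hu', t', rfl⟩ := hH'
      obtain ⟨s', r', hs', hr', hsr', hrep'⟩ := (hH u' hu').seg (ha t') hz'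
      rcases hE u v h with ⟨hu, t, rfl⟩ | ⟨t, t1, htt, rfl, rfl⟩
      · obtain ⟨s, r, hs, hr, hsr, hrep⟩ := (hH u hu).seg (ha t) hz
        obtain ⟨e1, e2⟩ := hrep.unique hdet hrep'
        by_cases huu : u = u'
        · subst huu
          have hss : s = s' := by
            rcases hcx u hu with hc | hc <;> rw [hc] at e1 <;> linarith
          have hrr : r = r' := by linarith
          have htt : t ≠ t' := by
            rintro rfl
            exact hne rfl
          have hτt : τ t ≠ τ t' := fun h => htt (hτ.injective h)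
          have h3 : r * (τ t - τ t') = 0 := by
            rw [← hrr] at e2
            linarith
          have h4 : r = 0 := by
            rcases mul_eq_zero.1 h3 with h | h
            · exact h
            · exact absurd (sub_eq_zero.1 h) hτt
          refine ⟨u, hHS u hu, ?_⟩
          have h5 : s = 1 := by linarith
          have h6 := hH u hu
          unfold Rep at hrep h6
          rw [hrep, h6, h4, h5]
          simp
        · have hcc : cx u ≠ cx u' := fun h => huu (hcx' u hu u' hu' h)
          have hs0 : s = 0 := by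
            rcases hcx u hu with hc | hc <;> rcases hcx u' hu' with hc' | hc' <;>
              rw [hc, hc'] at e1 hcc <;> first | exact absurd rfl hcc | linarith
          have hr1 : r = 1 := by linarith
          refine ⟨a t, haS t, ?_⟩
          have h6 := ha t
          unfold Rep at hrep h6
          rw [hrep, h6, hs0, hr1]
          simp
      · obtain ⟨s, r, hs, hr, hsr, hrep⟩ := (ha t).seg (ha t1) hz
        obtain ⟨e1, e2⟩ := hrep.unique hdet hrep'
        have hs0 : s' = 0 := by
          rcases hcx u' hu' with hc' | hc' <;> rw [hc'] at e1 <;> linarith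
        have hr1 : r' = 1 := by linarith
        refine ⟨a t', haS t', ?_⟩
        have h6 := ha t'
        unfold Rep at hrep' h6
        rw [hrep', h6, hs0, hr1]
        simp
    intro u v u' v' h h' hne z hz hz'
    rcases hE u' v' h' with hA | ⟨k, k', hkk, hk1, hk2⟩
    · exact main u v u' v' h h' hne hA z hz hz'
    · rcases hE u v h with hB | ⟨t, t', htt, ht1, ht2⟩
      · exact main u' v' u v h' h hne.symm hB z hz' hz
      · subst hk1 hk2 ht1 ht2
        obtain ⟨s, r, hs, hr, hsr, hrep⟩ := (ha t).seg (ha t') hz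
        obtain ⟨s', r', hs', hr', hsr', hrep'⟩ := (ha k).seg (ha k') hz'
        obtain ⟨e1, e2⟩ := hrep.unique hdet hrep'
        have hlt : τ t < τ t' := hτ (by rw [Fin.lt_def]; omega)
        have hlt' : τ k < τ k' := hτ (by rw [Fin.lt_def]; omega)
        have b1 : τ t ≤ s * τ t + r * τ t' := by
          have : s = 1 - r := by linarith
          rw [this]
          nlinarith
        have b2 : s * τ t + r * τ t' ≤ τ t' := by
          have : r = 1 - s := by linarith
          rw [this]
          nlinarith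
        have b3 : τ k ≤ s' * τ k + r' * τ k' := by
          have : s' = 1 - r' := by linarith
          rw [this]
          nlinarith
        have b4 : s' * τ k + r' * τ k' ≤ τ k' := by
          have : r' = 1 - s' := by linarith
          rw [this]
          nlinarith
        have htk : t ≠ k := by
          rintro rfl
          apply hne
          have : t' = k' := Fin.ext (by omega)
          rw [this]
        rcases lt_or_gt_of_ne htk with hlt2 | hlt2
        · have h7 : τ t' ≤ τ k := hτ.monotone (by rw [Fin.le_def]; rw [Fin.lt_def] at hlt2; omega)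
          have h8 : s * τ t + r * τ t' = τ k := by linarith
          refine ⟨a k, haS k, ?_⟩
          have h6 := ha k
          unfold Rep at hrep h6
          rw [hrep, h6, h8]
          simp
        · have h7 : τ k' ≤ τ t := hτ.monotone (by rw [Fin.le_def]; rw [Fin.lt_def] at hlt2; omega)
          have h8 : s * τ t + r * τ t' = τ t := by linarith
          refine ⟨a t, haS t, ?_⟩
          have h6 := ha t
          unfold Rep at hrep h6
          rw [hrep, h6, h8]
          simp

end

end Pool.Agent.H.MP_20b771_lc
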