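import Mathlib

/-!
Counting 4-colourings of a graph obtained from a skeleton graph by attaching, to every
blue edge `e` with ends `u, v`, a path with `M` vertices all of whose vertices are joined
to `u` and to `v`.
-/

namespace Pool.Agent.H.MP_20b771_lc

open Finset

/-- Sequences of length `M` of colours in `S` without equal consecutive entries. -/
def seqs (S : Finset (Fin 4)) (M : ℕ) : Finset (Fin M → Fin 4) :=
  univ.filter (fun a => (∀ t, a t ∈ S) ∧ ∀ t t' : Fin M, t.val + 1 = t'.val → a t ≠ a t')

theorem mem_seqs {S : Finset (Fin 4)} {M : ℕ} {a : Fin M → Fin 4} :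
    a ∈ seqs S M ↔ (∀ t, a t ∈ S) ∧ ∀ t t' : Fin M, t.val + 1 = t'.val → a t ≠ a t' := by
  simp [seqs]

theorem tail_mem_seqs {S : Finset (Fin 4)} {M : ℕ} {a : Fin (M + 1) → Fin 4}
    (ha : a ∈ seqs S (M + 1)) : Fin.tail a ∈ seqs S M := by
  rw [mem_seqs] at ha ⊢
  refine ⟨fun t => ha.1 _, fun t t' h => ha.2 _ _ ?_⟩
  simp [h]

theorem cons_mem_seqs {S : Finset (Fin 4)} {M : ℕ} {b : Fin (M + 1) → Fin 4}
    (hb : b ∈ seqs S (M + 1)) (y : Fin 4) :
    (Fin.cons y b : Fin (M + 2) → Fin 4) ∈ seqs S (M + 2) ↔ y ∈ S.erase (b 0) := by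
  rw [mem_seqs] at hb ⊢
  constructor
  · intro h
    rw [mem_erase]
    refine ⟨?_, by simpa using h.1 0⟩
    have := h.2 0 1 (by simp)
    simpa using this
  · intro h
    rw [mem_erase] at h
    constructor
    · intro t
      refine Fin.cases ?_ (fun i => ?_) t
      · simpa using h.2
      · simpa using hb.1 i
    · intro t t'
      refine Fin.cases ?_ (fun i => ?_) t
      · refine Fin.cases ?_ (fun j => ?_) t'
        · intro h0; simp at h0
        · intro h0
          have hj : j = 0 := by
            apply Fin.ext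
            simp only [Fin.val_zero, Fin.val_succ] at h0
            simp only [Fin.val_zero]
            omega
          subst hj
          simpa using h.1
      · refine Fin.cases ?_ (fun j => ?_) t'
        · intro h0; simp at h0
        · intro h0
          simp only [Fin.val_succ] at h0
          simpa using hb.2 i j (by omega)

theorem fiber_eq {S : Finset (Fin 4)} {M : ℕ} {b : Fin (M + 1) → Fin 4}
    (hb : b ∈ seqs S (M + 1)) :
    (seqs S (M + 2)).filter (fun a => Fin.tail a = b) =
      (S.erase (b 0)).image (fun y => (Fin.cons y b : Fin (M + 2) → Fin 4)) := by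
  ext a
  simp only [mem_filter, mem_image]
  constructor
  · rintro ⟨h1, h2⟩
    refine ⟨a 0, ?_, ?_⟩
    · rw [← cons_mem_seqs hb]
      rw [← h2]
      simpa [Fin.cons_self_tail] using h1
    · rw [← h2]
      exact Fin.cons_self_tail a
  · rintro ⟨y, hy, rfl⟩
    exact ⟨(cons_mem_seqs hb y).2 hy, by simp⟩

theorem card_fiber {S : Finset (Fin 4)} {M : ℕ} {b : Fin (M + 1) → Fin 4}
    (hb : b ∈ seqs S (M + 1)) :
    ((seqs S (M + 2)).filter (fun a => Fin.tail a = b)).card = S.card - 1 := by
  rw [fiber_eq hb, card_image_of_injective]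
  · rw [card_erase_of_mem]
    exact (mem_seqs.1 hb).1 0
  · intro y y' h
    have := congrFun h 0
    simpa using this

theorem card_seqs_zero (S : Finset (Fin 4)) : (seqs S 0).card = 1 := by
  rw [card_eq_one]
  refine ⟨Fin.elim0, ?_⟩
  ext a
  simp only [mem_seqs, mem_singleton]
  constructor
  · intro _; exact Subsingleton.elim _ _
  · intro _; exact ⟨fun t => t.elim0, fun t => t.elim0⟩

theorem card_seqs_one (S : Finset (Fin 4)) : (seqs S 1).card = S.card := by
  have : seqs S 1 = S.image (fun y => (fun _ => y : Fin 1 → Fin 4)) := by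
    ext a
    simp only [mem_seqs, mem_image]
    constructor
    · rintro ⟨h, _⟩
      exact ⟨a 0, h 0, by funext t; rw [Subsingleton.elim t 0]⟩
    · rintro ⟨y, hy, rfl⟩
      refine ⟨fun _ => hy, fun t t' h => ?_⟩
      have := t.isLt; have := t'.isLt; omega
  rw [this, card_image_of_injective]
  intro y y' h
  exact congrFun h 0

theorem card_seqs_succ_succ (S : Finset (Fin 4)) (M : ℕ) :
    (seqs S (M + 2)).card = (S.card - 1) * (seqs S (M + 1)).card := by
  rw [card_eq_sum_card_fiberwise (f := fun a => Fin.tail a) (t := seqs S (M + 1))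
    (fun a ha => tail_mem_seqs ha)]
  rw [Finset.sum_congr rfl (fun b hb => card_fiber hb)]
  simp [mul_comm]

theorem card_seqs_succ (S : Finset (Fin 4)) (M : ℕ) :
    (seqs S (M + 1)).card = (S.card - 1) ^ M * S.card := by
  induction M with
  | zero => simp [card_seqs_one]
  | succ M ih => rw [card_seqs_succ_succ, ih, pow_succ]; ring

/-- The colours different from `c` and `d`. -/
def avoid (c d : Fin 4) : Finset (Fin 4) := univ.filter (fun x => x ≠ c ∧ x ≠ d)

theorem card_avoid_eq (c : Fin 4) : (avoid c c).card = 3 := by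
  revert c; decide

theorem card_avoid_ne {c d : Fin 4} (h : c ≠ d) : (avoid c d).card = 2 := by
  revert c d; decide

theorem card_seqs_avoid_le (c d : Fin 4) (M : ℕ) :
    (seqs (avoid c d) M).card ≤ if c = d then 2 ^ (M + 1) else 2 := by
  cases M with
  | zero => rw [card_seqs_zero]; split_ifs <;> simp
  | succ M =>
    rw [card_seqs_succ]
    split_ifs with h
    · subst h
      rw [card_avoid_eq]
      calc 2 ^ M * 3 ≤ 2 ^ M * 4 := by gcongr; norm_num
        _ = 2 ^ (M + 1 + 1) := by ring
    · rw [card_avoid_ne h]; simp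

theorem le_card_seqs_avoid (c d : Fin 4) (M : ℕ) :
    (if c = d then 2 ^ M else 1) ≤ (seqs (avoid c d) M).card := by
  cases M with
  | zero => rw [card_seqs_zero]; split_ifs <;> simp
  | succ M =>
    rw [card_seqs_succ]
    split_ifs with h
    · subst h
      rw [card_avoid_eq]
      calc 2 ^ (M + 1) = 2 ^ M * 2 := by ring
        _ ≤ 2 ^ M * 3 := by gcongr; norm_num
    · rw [card_avoid_ne h]; simp

/-- A skeleton: a relation `red` on the vertices and a family of blue edges. -/
structure Skel (V E : Type) where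
  /-- hard edges -/
  red : V → V → Prop
  /-- the two ends of each blue edge -/
  ends : E → V × V

variable {V E : Type}

/-- Directed version of the adjacency of the full graph. -/
inductive Skel.Edge (S : Skel V E) (M : ℕ) : V ⊕ (E × Fin M) → V ⊕ (E × Fin M) → Prop
  | red {u v : V} (h : S.red u v) : Skel.Edge S M (Sum.inl u) (Sum.inl v)
  | fst (e : E) (t : Fin M) : Skel.Edge S M (Sum.inl (S.ends e).1) (Sum.inr (e, t))
  | snd (e : E) (t : Fin M) : Skel.Edge S M (Sum.inl (S.ends e).2) (Sum.inr (e, t))
  | path (e : E) (t t' : Fin M) (h : t.val + 1 = t'.val) :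
      Skel.Edge S M (Sum.inr (e, t)) (Sum.inr (e, t'))

/-- The full graph: every blue edge is replaced by a path of `M` vertices joined to both ends. -/
def Skel.graph (S : Skel V E) (M : ℕ) : SimpleGraph (V ⊕ (E × Fin M)) :=
  SimpleGraph.fromRel (S.Edge M)

/-- Proper colourings of the skeleton. -/
def Skel.Proper (S : Skel V E) (σ : V → Fin 4) : Prop := ∀ u v, S.red u v → σ u ≠ σ v

noncomputable instance [Fintype V] (S : Skel V E) : Fintype {σ : V → Fin 4 // S.Proper σ} := by
  classical
  infer_instance

/-- The number of monochromatic blue edges. -/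
def Skel.gain [Fintype E] (S : Skel V E) (σ : V → Fin 4) : ℕ :=
  (univ.filter (fun e => σ (S.ends e).1 = σ (S.ends e).2)).card

section count

variable (S : Skel V E) (M : ℕ)

/-- Colourings of the full graph as pairs of a skeleton colouring and colourings of the fans. -/
def Skel.split (hred : ∀ u, ¬ S.red u u) (f : (S.graph M).Coloring (Fin 4)) :
    Σ σ : {σ : V → Fin 4 // S.Proper σ},
      ∀ e : E, {a : Fin M → Fin 4 // a ∈ seqs (avoid (σ.1 (S.ends e).1) (σ.1 (S.ends e).2)) M} :=
  ⟨⟨fun v => f (Sum.inl v), by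
      intro u v h
      apply f.valid
      rw [Skel.graph, SimpleGraph.fromRel_adj]
      refine ⟨?_, Or.inl (Skel.Edge.red h)⟩
      intro h'
      have : u = v := Sum.inl_injective h'
      subst this
      exact hred _ h⟩,
   fun e => ⟨fun t => f (Sum.inr (e, t)), by
      rw [mem_seqs]
      constructor
      · intro t
        simp only [avoid, mem_filter, mem_univ, true_and]
        constructor
        · apply f.valid
          rw [Skel.graph, SimpleGraph.fromRel_adj]
          exact ⟨by simp, Or.inr (Skel.Edge.fst e t)⟩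
        · apply f.valid
          rw [Skel.graph, SimpleGraph.fromRel_adj]
          exact ⟨by simp, Or.inr (Skel.Edge.snd e t)⟩
      · intro t t' h
        apply f.valid
        rw [Skel.graph, SimpleGraph.fromRel_adj]
        refine ⟨?_, Or.inl (Skel.Edge.path e t t' h)⟩
        intro h'
        simp only [Sum.inr.injEq, Prod.mk.injEq, true_and] at h'
        rw [h'] at h
        omega⟩⟩

theorem Skel.split_injective (hred : ∀ u, ¬ S.red u u) :
    Function.Injective (S.split M hred) := by
  intro f g h
  have h1 : (S.split M hred f).1 = (S.split M hred g).1 := by rw [h]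
  have h2 : ∀ v, f (Sum.inl v) = g (Sum.inl v) := by
    intro v
    have := congrArg (fun x => x.1 v) h1
    exact this
  have h3 : ∀ e t, f (Sum.inr (e, t)) = g (Sum.inr (e, t)) := by
    intro e t
    have key : ∀ (x y : Σ σ : {σ : V → Fin 4 // S.Proper σ},
      ∀ e : E, {a : Fin M → Fin 4 // a ∈ seqs (avoid (σ.1 (S.ends e).1) (σ.1 (S.ends e).2)) M}),
        x = y → (x.2 e).1 t = (y.2 e).1 t := by
      intro x y hxy
      subst hxy
      rfl
    exact key _ _ h
  apply RelHom.ext
  intro x
  rcases x with v | ⟨e, t⟩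
  · exact h2 v
  · exact h3 e t

/-- Gluing fan colourings to a proper skeleton colouring. -/
def Skel.glue (σ : V → Fin 4) (hσ : S.Proper σ)
    (a : ∀ e : E, {a : Fin M → Fin 4 // a ∈ seqs (avoid (σ (S.ends e).1) (σ (S.ends e).2)) M}) :
    (S.graph M).Coloring (Fin 4) :=
  SimpleGraph.Coloring.mk (fun x => Sum.elim σ (fun p => (a p.1).1 p.2) x) (by
    have key : ∀ x y, S.Edge M x y →
        Sum.elim σ (fun p => (a p.1).1 p.2) x ≠ Sum.elim σ (fun p => (a p.1).1 p.2) y := by
      intro x y h
      cases h with
      | red h => exact hσ _ _ h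
      | fst e t =>
        have := (mem_seqs.1 (a e).2).1 t
        simp only [avoid, mem_filter, mem_univ, true_and] at this
        simpa using this.1.symm
      | snd e t =>
        have := (mem_seqs.1 (a e).2).1 t
        simp only [avoid, mem_filter, mem_univ, true_and] at this
        simpa using this.2.symm
      | path e t t' h =>
        have := (mem_seqs.1 (a e).2).2 t t' h
        simpa using this
    intro x y h
    rw [Skel.graph, SimpleGraph.fromRel_adj] at h
    rcases h.2 with h | h
    · exact key _ _ h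
    · exact (key _ _ h).symm)

theorem Skel.glue_injective (σ : V → Fin 4) (hσ : S.Proper σ) :
    Function.Injective (S.glue M σ hσ) := by
  intro a b h
  funext e
  apply Subtype.ext
  funext t
  have := congrArg (fun f : (S.graph M).Coloring (Fin 4) => f (Sum.inr (e, t))) h
  exact this

theorem prod_ite_pow [Fintype E] (P : E → Prop) [DecidablePred P] (a b : ℕ) :
    ∏ e : E, (if P e then a else b) =
      a ^ (univ.filter P).card * b ^ (univ.filter (fun e => ¬ P e)).card := by
  rw [Finset.prod_ite]
  simp

theorem Skel.le_card [Fintype V] [Fintype E] (σ : V → Fin 4) (hσ : S.Proper σ) :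
    2 ^ (M * S.gain σ) ≤ Nat.card ((S.graph M).Coloring (Fin 4)) := by
  classical
  have hfin : Finite ((S.graph M).Coloring (Fin 4)) := by
    apply Finite.of_injective (fun f : (S.graph M).Coloring (Fin 4) => (f : _ → Fin 4))
    intro f g h
    exact DFunLike.coe_injective h
  have h1 := Nat.card_le_card_of_injective _ (S.glue_injective M σ hσ)
  refine le_trans ?_ h1
  rw [Nat.card_pi]
  have h2 : ∀ e : E, (if σ (S.ends e).1 = σ (S.ends e).2 then 2 ^ M else 1) ≤
      Nat.card {a : Fin M → Fin 4 //
        a ∈ seqs (avoid (σ (S.ends e).1) (σ (S.ends e).2)) M} := by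
    intro e
    rw [Nat.card_eq_fintype_card, Fintype.card_coe]
    exact le_card_seqs_avoid _ _ _
  calc 2 ^ (M * S.gain σ)
      = ∏ e : E, (if σ (S.ends e).1 = σ (S.ends e).2 then 2 ^ M else 1) := by
        rw [prod_ite_pow, one_pow, mul_one, ← pow_mul]
        rfl
    _ ≤ _ := Finset.prod_le_prod' (fun e _ => h2 e)

theorem Skel.card_le [Fintype V] [Fintype E] (hred : ∀ u, ¬ S.red u u) (g : ℕ)
    (hg : ∀ σ : V → Fin 4, S.Proper σ → S.gain σ ≤ g) :
    Nat.card ((S.graph M).Coloring (Fin 4)) ≤
      2 ^ (2 * Fintype.card V + (M + 1) * g + Fintype.card E) := by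
  classical
  have h1 := Nat.card_le_card_of_injective _ (S.split_injective M hred)
  refine le_trans h1 ?_
  rw [Nat.card_sigma]
  have h2 : ∀ σ : {σ : V → Fin 4 // S.Proper σ},
      Nat.card (∀ e : E, {a : Fin M → Fin 4 //
        a ∈ seqs (avoid (σ.1 (S.ends e).1) (σ.1 (S.ends e).2)) M}) ≤
      2 ^ ((M + 1) * g + Fintype.card E) := by
    intro σ
    rw [Nat.card_pi]
    calc ∏ e : E, Nat.card {a : Fin M → Fin 4 //
          a ∈ seqs (avoid (σ.1 (S.ends e).1) (σ.1 (S.ends e).2)) M}
        ≤ ∏ e : E, (if σ.1 (S.ends e).1 = σ.1 (S.ends e).2 then 2 ^ (M + 1) else 2) := by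
          apply Finset.prod_le_prod'
          intro e _
          rw [Nat.card_eq_fintype_card, Fintype.card_coe]
          exact card_seqs_avoid_le _ _ _
      _ = (2 ^ (M + 1)) ^ S.gain σ.1 *
            2 ^ (univ.filter (fun e => ¬ (σ.1 (S.ends e).1 = σ.1 (S.ends e).2))).card := by
          rw [prod_ite_pow]; rfl
      _ ≤ (2 ^ (M + 1)) ^ g * 2 ^ Fintype.card E := by
          apply Nat.mul_le_mul
          · exact Nat.pow_le_pow_right (by positivity) (hg σ.1 σ.2)
          · exact Nat.pow_le_pow_right (by norm_num) (Finset.card_le_univ _)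
      _ = 2 ^ ((M + 1) * g + Fintype.card E) := by
          rw [← pow_mul, ← pow_add]
  calc ∑ σ : {σ : V → Fin 4 // S.Proper σ}, Nat.card (∀ e : E, {a : Fin M → Fin 4 //
        a ∈ seqs (avoid (σ.1 (S.ends e).1) (σ.1 (S.ends e).2)) M})
      ≤ ∑ σ : {σ : V → Fin 4 // S.Proper σ}, 2 ^ ((M + 1) * g + Fintype.card E) :=
        Finset.sum_le_sum (fun σ _ => h2 σ)
    _ = Fintype.card {σ : V → Fin 4 // S.Proper σ} * 2 ^ ((M + 1) * g + Fintype.card E) := by
        simp
    _ ≤ 4 ^ Fintype.card V * 2 ^ ((M + 1) * g + Fintype.card E) := by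
        apply Nat.mul_le_mul_right
        calc Fintype.card {σ : V → Fin 4 // S.Proper σ} ≤ Fintype.card (V → Fin 4) :=
              Fintype.card_subtype_le _
          _ = 4 ^ Fintype.card V := by simp
    _ = 2 ^ (2 * Fintype.card V + (M + 1) * g + Fintype.card E) := by
        rw [show (4 : ℕ) = 2 ^ 2 by norm_num, ← pow_mul, ← pow_add]
        congr 1
        ring

end count

end Pool.Agent.H.MP_20b771_lc
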