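import Pool.Agent.H.MP_20b771_lc.GeoCheck

/-!
Soundness of the separation test: two different objects of the infinite picture meet at most in a
common vertex.
-/

namespace Pool.Agent.H.MP_20b771_lc

/-- The point of a corner. -/
def Cor.pt (v : Cor) : ℝ × ℝ := ((v.x : ℝ), (v.y : ℝ))

/-- The convex hull of a list of corners. -/
def hull (l : List Cor) : Set (ℝ × ℝ) := convexHull ℝ {z | ∃ v ∈ l, z = v.pt}

theorem mem_hull {l : List Cor} {v : Cor} (h : v ∈ l) : v.pt ∈ hull l :=
  subset_convexHull ℝ _ ⟨v, h, rfl⟩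

/-- value of a functional at a point -/
def fval (a b : ℤ) (z : ℝ × ℝ) : ℝ := a * z.1 + b * z.2

theorem fval_pt (a b : ℤ) (v : Cor) : fval a b v.pt = ((v.val a b : ℤ) : ℝ) := by
  simp [fval, Cor.pt, Cor.val]

theorem fval_comb (a b : ℤ) (s t : ℝ) (x y : ℝ × ℝ) :
    fval a b (s • x + t • y) = s * fval a b x + t * fval a b y := by
  simp only [fval, Prod.fst_add, Prod.snd_add, Prod.smul_fst, Prod.smul_snd, smul_eq_mul]
  ring

theorem hull_ge {l : List Cor} {a b c : ℤ} (h : ∀ w ∈ l, c ≤ w.val a b) :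
    ∀ z ∈ hull l, (c : ℝ) ≤ fval a b z := by
  have hc : Convex ℝ {z : ℝ × ℝ | (c : ℝ) ≤ fval a b z} := by
    intro x hx y hy s t hs ht hst
    simp only [Set.mem_ofPred_eq] at hx hy ⊢
    rw [fval_comb]
    have h1 : s * (c : ℝ) ≤ s * fval a b x := mul_le_mul_of_nonneg_left hx hs
    have h2 : t * (c : ℝ) ≤ t * fval a b y := mul_le_mul_of_nonneg_left hy ht
    have h3 : s * (c : ℝ) + t * c = c := by rw [← add_mul, hst, one_mul]
    linarith
  refine convexHull_min ?_ hc
  rintro z ⟨w, hw, rfl⟩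
  change (c : ℝ) ≤ fval a b w.pt
  rw [fval_pt]
  exact_mod_cast h w hw

theorem hull_lt {l : List Cor} {a b c : ℤ} (h : ∀ w ∈ l, w.val a b < c) :
    ∀ z ∈ hull l, fval a b z < (c : ℝ) := by
  have hc : Convex ℝ {z : ℝ × ℝ | fval a b z < (c : ℝ)} := by
    intro x hx y hy s t hs ht hst
    simp only [Set.mem_ofPred_eq] at hx hy ⊢
    rw [fval_comb]
    have h3 : s * (c : ℝ) + t * c = c := by rw [← add_mul, hst, one_mul]
    rcases hs.eq_or_lt with h0 | h0
    · have ht1 : t = 1 := by rw [← h0] at hst; linarith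
      rw [← h0, ht1]
      linarith
    · have h1 : s * fval a b x < s * (c : ℝ) := mul_lt_mul_of_pos_left hx h0
      have h2 : t * fval a b y ≤ t * (c : ℝ) := mul_le_mul_of_nonneg_left hy.le ht
      linarith
  refine convexHull_min ?_ hc
  rintro z ⟨w, hw, rfl⟩
  change fval a b w.pt < (c : ℝ)
  rw [fval_pt]
  exact_mod_cast h w hw

theorem hull_lt_or {l : List Cor} {a b c : ℤ} {q : Cor} (hq : q.val a b ≤ c)
    (h : ∀ w ∈ l, w.val a b < c ∨ w.pt = q.pt) :
    ∀ z ∈ hull l, fval a b z < (c : ℝ) ∨ z = q.pt := by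
  have hq' : fval a b q.pt ≤ (c : ℝ) := by
    rw [fval_pt]; exact_mod_cast hq
  have hc : Convex ℝ {z : ℝ × ℝ | fval a b z < (c : ℝ) ∨ z = q.pt} := by
    intro x hx y hy s t hs ht hst
    simp only [Set.mem_ofPred_eq] at hx hy ⊢
    have h3 : s * (c : ℝ) + t * c = c := by rw [← add_mul, hst, one_mul]
    rcases hs.eq_or_lt with h0 | h0
    · have ht1 : t = 1 := by rw [← h0] at hst; linarith
      rw [← h0, ht1]
      simpa using hy
    rcases ht.eq_or_lt with h1 | h1
    · have hs1 : s = 1 := by rw [← h1] at hst; linarith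
      rw [← h1, hs1]
      simpa using hx
    have hx' : fval a b x ≤ c := by
      rcases hx with h | h
      · exact h.le
      · rw [h]; exact hq'
    have hy' : fval a b y ≤ c := by
      rcases hy with h | h
      · exact h.le
      · rw [h]; exact hq'
    rcases hx with hx | hx
    · left
      rw [fval_comb]
      have h4 : s * fval a b x < s * (c : ℝ) := mul_lt_mul_of_pos_left hx h0
      have h5 : t * fval a b y ≤ t * (c : ℝ) := mul_le_mul_of_nonneg_left hy' ht
      linarith
    · rcases hy with hy | hy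
      · left
        rw [fval_comb]
        have h4 : s * fval a b x ≤ s * (c : ℝ) := mul_le_mul_of_nonneg_left hx' hs
        have h5 : t * fval a b y < t * (c : ℝ) := mul_lt_mul_of_pos_left hy h1
        linarith
      · right
        rw [hx, hy, ← add_smul, hst, one_smul]
  refine convexHull_min ?_ hc
  rintro z ⟨w, hw, rfl⟩
  change fval a b w.pt < (c : ℝ) ∨ w.pt = q.pt
  rcases h w hw with h | h
  · left
    rw [fval_pt]
    exact_mod_cast h
  · exact Or.inr h

/-- A separation certificate. -/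
def Sep (C1 C2 : List Cor) : Prop := ∃ a b c : ℤ, (∀ w ∈ C2, c ≤ w.val a b) ∧
  ((∀ v ∈ C1, v.val a b < c) ∨ ∃ q ∈ C1, (∃ w ∈ C2, w.id = q.id ∧ w.id.isSome = true) ∧
    q.val a b ≤ c ∧ ∀ v ∈ C1, v.val a b < c ∨ (v.x = q.x ∧ v.y = q.y))

/-- Two lists of corners meet at most in a common vertex. -/
def Meet (C1 C2 : List Cor) : Prop :=
  ∀ z ∈ hull C1, z ∈ hull C2 → ∃ g, vCor g ∈ C1 ∧ vCor g ∈ C2 ∧ z = (vCor g).pt

theorem Meet.symm {C1 C2 : List Cor} (h : Meet C1 C2) : Meet C2 C1 := by
  intro z h1 h2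
  obtain ⟨g, h3, h4, h5⟩ := h z h2 h1
  exact ⟨g, h4, h3, h5⟩

/-- Corners carrying an identifier are the corners of that vertex. -/
def IdOK (l : List Cor) : Prop := ∀ v ∈ l, ∀ g, v.id = some g → v = vCor g

theorem idOK_corL (b : Bool) (g h : Id3) : IdOK (corL b g h) := by
  intro v hv g' hg'
  unfold corL at hv
  split_ifs at hv
  · simp only [List.mem_cons, List.not_mem_nil, or_false] at hv
    rcases hv with rfl | rfl | rfl | rfl
    · simp only [vCor, Option.some.injEq] at hg'
      rw [hg']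
    · simp only [vCor, Option.some.injEq] at hg'
      rw [hg']
    · simp at hg'
    · simp at hg'
  · simp only [List.mem_cons, List.not_mem_nil, or_false] at hv
    rcases hv with rfl | rfl
    · simp only [vCor, Option.some.injEq] at hg'
      rw [hg']
    · simp only [vCor, Option.some.injEq] at hg'
      rw [hg']

theorem Sep.meet {C1 C2 : List Cor} (h : Sep C1 C2) (h1 : IdOK C1) (h2 : IdOK C2) :
    Meet C1 C2 := by
  obtain ⟨a, b, c, hc, h⟩ := h
  intro z hz1 hz2
  have h3 := hull_ge hc z hz2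
  rcases h with h | ⟨q, hq, ⟨w, hw, hwq, hs⟩, hqc, hall⟩
  · have h4 := hull_lt h z hz1
    exact absurd h3 (not_le.2 h4)
  · obtain ⟨g, hg⟩ := Option.isSome_iff_exists.1 hs
    have e1 : w = vCor g := h2 w hw g hg
    have e2 : q = vCor g := h1 q hq g (by rw [← hwq]; exact hg)
    have h4 := hull_lt_or (q := q) hqc (fun v hv => by
      rcases hall v hv with h | ⟨hx, hy⟩
      · exact Or.inl h
      · right
        simp only [Cor.pt, hx, hy]) z hz1
    rcases h4 with h4 | h4
    · exact absurd h3 (not_le.2 h4)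
    · exact ⟨g, by rw [← e2]; exact hq, by rw [← e1]; exact hw, by rw [← e2]; exact h4⟩

theorem minVal_le (a b : ℤ) : ∀ (l : List Cor) (w : Cor), w ∈ l → minVal a b l ≤ w.val a b
  | [], w, h => by simp at h
  | [v], w, h => by
    simp only [List.mem_singleton] at h
    rw [h]
    simp [minVal]
  | v :: v' :: l, w, h => by
    rw [List.mem_cons] at h
    rw [minVal]
    · rcases h with h | h
      · rw [h]; exact min_le_left _ _
      · exact (min_le_right _ _).trans (minVal_le a b (v' :: l) w h)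
    · simp

theorem sep1_sound {a b : ℤ} {C1 C2 : List Cor} (h : sep1 a b C1 C2 = true) : Sep C1 C2 := by
  refine ⟨a, b, minVal a b C2, fun w hw => minVal_le a b C2 w hw, ?_⟩
  simp only [sep1, Bool.or_eq_true, List.all_eq_true, decide_eq_true_eq, List.any_eq_true,
    Bool.and_eq_true, Cor.common, beq_iff_eq] at h
  rcases h with h | ⟨q, hq, ⟨h1, w, hw, hwq, hs⟩, h2⟩
  · exact Or.inl h
  · exact Or.inr ⟨q, hq, ⟨w, hw, hwq, hs⟩, h1, h2⟩

theorem sep4_sound {a b : ℤ} {C1 C2 : List Cor} (h : sep4 a b C1 C2 = true) :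
    Sep C1 C2 ∨ Sep C2 C1 := by
  simp only [sep4, Bool.or_eq_true] at h
  rcases h with ((h | h) | h) | h
  · exact Or.inl (sep1_sound h)
  · exact Or.inl (sep1_sound h)
  · exact Or.inr (sep1_sound h)
  · exact Or.inr (sep1_sound h)

theorem sepAny_sound {C1 C2 : List Cor} (h : sepAny C1 C2 = true) : Sep C1 C2 ∨ Sep C2 C1 := by
  simp only [sepAny, Bool.or_eq_true, List.any_eq_true] at h
  rcases h with ((h | h) | ⟨d, _, h⟩) | ⟨d, _, h⟩
  · exact sep4_sound h
  · exact sep4_sound h
  · exact sep4_sound h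
  · exact sep4_sound h

/-- Translation of a corner by whole cells. -/
def Cor.sh (v : Cor) (u w : ℕ) : Cor :=
  ⟨v.x + 400000 * u, v.y + 400000 * w, v.id.map fun g => g.sh u w⟩

theorem Id3.sh_sh (g : Id3) (a b c d : ℕ) : (g.sh a b).sh c d = g.sh (a + c) (b + d) := by
  simp only [Id3.sh, Nat.add_assoc]

theorem vCor_sh (g : Id3) (u w : ℕ) : (vCor g).sh u w = vCor (g.sh u w) := by
  simp only [vCor, Cor.sh, Id3.sh, ptX, ptY, Option.map_some, Cor.mk.injEq, and_true]
  push_cast
  constructor <;> ring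

theorem corL_sh (b : Bool) (g h : Id3) (u w : ℕ) :
    corL b (g.sh u w) (h.sh u w) = (corL b g h).map fun v => v.sh u w := by
  unfold corL
  split_ifs
  · simp only [List.map_cons, List.map_nil, vCor_sh]
    simp only [Cor.sh, Id3.sh, ptX, ptY, Option.map_none, List.cons.injEq, Cor.mk.injEq, and_true,
      true_and]
    push_cast
    refine ⟨⟨?_, ?_⟩, ?_, ?_⟩ <;> ring
  · simp only [List.map_cons, List.map_nil, vCor_sh]

theorem LO.cor_sh (o : LO) (u v u' v' : ℕ) :
    o.cor (u + u') (v + v') = (o.cor u v).map fun c => c.sh u' v' := by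
  unfold LO.cor
  rw [← corL_sh, Id3.sh_sh, Id3.sh_sh]

theorem Cor.val_sh (a b : ℤ) (v : Cor) (u w : ℕ) :
    (v.sh u w).val a b = v.val a b + (a * (400000 * u) + b * (400000 * w)) := by
  simp only [Cor.val, Cor.sh]
  ring

theorem Sep.sh {C1 C2 : List Cor} (h : Sep C1 C2) (u w : ℕ) :
    Sep (C1.map fun c => c.sh u w) (C2.map fun c => c.sh u w) := by
  obtain ⟨a, b, c, hc, h⟩ := h
  refine ⟨a, b, c + (a * (400000 * u) + b * (400000 * w)), ?_, ?_⟩
  · intro v hv
    obtain ⟨v', hv', rfl⟩ := List.mem_map.1 hv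
    rw [Cor.val_sh]
    have := hc v' hv'
    linarith
  · rcases h with h | ⟨q, hq, ⟨w', hw, hwq, hs⟩, hqc, hall⟩
    · left
      intro v hv
      obtain ⟨v', hv', rfl⟩ := List.mem_map.1 hv
      rw [Cor.val_sh]
      have := h v' hv'
      linarith
    · right
      refine ⟨q.sh u w, List.mem_map.2 ⟨q, hq, rfl⟩, ⟨w'.sh u w, List.mem_map.2 ⟨w', hw, rfl⟩, ?_,
        ?_⟩, ?_, ?_⟩
      · simp only [Cor.sh, hwq]
      · simp only [Cor.sh]
        rw [Option.isSome_map]
        exact hs
      · rw [Cor.val_sh]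
        linarith
      · intro v hv
        obtain ⟨v', hv', rfl⟩ := List.mem_map.1 hv
        rcases hall v' hv' with h | ⟨hx, hy⟩
        · left
          rw [Cor.val_sh]
          linarith
        · right
          simp only [Cor.sh, hx, hy, and_self]

theorem toNat_lt {a b : ℤ} (h : a.toNat < b.toNat) : a < b := by omega

theorem le_x1 {o : LO} {u v : ℕ} {w : Cor} (hw : w ∈ o.cor u v) : w.x ≤ o.x1 u v := by
  have h := minVal_le (-1) 0 (o.cor u v) w hw
  simp only [Cor.val] at h
  unfold LO.x1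
  have h2 := Int.self_le_toNat (- minVal (-1) 0 (o.cor u v))
  linarith

theorem x0_le {o : LO} {u v : ℕ} {w : Cor} (hw : w ∈ o.cor u v) (h0 : 0 < o.x0 u v) :
    (o.x0 u v : ℤ) ≤ w.x := by
  have h := minVal_le 1 0 (o.cor u v) w hw
  simp only [Cor.val] at h
  unfold LO.x0 at h0 ⊢
  have h2 : ((minVal 1 0 (o.cor u v)).toNat : ℤ) = minVal 1 0 (o.cor u v) := by
    rw [Int.toNat_of_nonneg]; omega
  rw [h2]
  linarith

theorem le_y1 {o : LO} {u v : ℕ} {w : Cor} (hw : w ∈ o.cor u v) : w.y ≤ o.y1 u v := by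
  have h := minVal_le 0 (-1) (o.cor u v) w hw
  simp only [Cor.val] at h
  unfold LO.y1
  have h2 := Int.self_le_toNat (- minVal 0 (-1) (o.cor u v))
  linarith

theorem y0_le {o : LO} {u v : ℕ} {w : Cor} (hw : w ∈ o.cor u v) (h0 : 0 < o.y0 u v) :
    (o.y0 u v : ℤ) ≤ w.y := by
  have h := minVal_le 0 1 (o.cor u v) w hw
  simp only [Cor.val] at h
  unfold LO.y0 at h0 ⊢
  have h2 : ((minVal 0 1 (o.cor u v)).toNat : ℤ) = minVal 0 1 (o.cor u v) := by
    rw [Int.toNat_of_nonneg]; omega
  rw [h2]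
  linarith

theorem pairOK_sound {u v u' v' : ℕ} {o o' : LO} (h : pairOK u v u' v' o o' = true) :
    Sep (o.cor u v) (o'.cor u' v') ∨ Sep (o'.cor u' v') (o.cor u v) := by
  simp only [pairOK, Bool.or_eq_true] at h
  have key : ∀ a b : ℕ, Nat.blt a b = true → a < b := by
    intro a b h
    simpa [Nat.blt] using h
  rcases h with h | h | h | h | h
  · have h := key _ _ h
    left
    refine ⟨1, 0, o'.x0 u' v', fun w hw => ?_, Or.inl fun w hw => ?_⟩
    · have := x0_le hw (by omega)
      simp only [Cor.val]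
      linarith
    · have := le_x1 hw
      simp only [Cor.val]
      have h' : (o.x1 u v : ℤ) < o'.x0 u' v' := by exact_mod_cast h
      linarith
  · have h := key _ _ h
    right
    refine ⟨1, 0, o.x0 u v, fun w hw => ?_, Or.inl fun w hw => ?_⟩
    · have := x0_le hw (by omega)
      simp only [Cor.val]
      linarith
    · have := le_x1 hw
      simp only [Cor.val]
      have h' : (o'.x1 u' v' : ℤ) < o.x0 u v := by exact_mod_cast h
      linarith
  · have h := key _ _ h
    left
    refine ⟨0, 1, o'.y0 u' v', fun w hw => ?_, Or.inl fun w hw => ?_⟩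
    · have := y0_le hw (by omega)
      simp only [Cor.val]
      linarith
    · have := le_y1 hw
      simp only [Cor.val]
      have h' : (o.y1 u v : ℤ) < o'.y0 u' v' := by exact_mod_cast h
      linarith
  · have h := key _ _ h
    right
    refine ⟨0, 1, o.y0 u v, fun w hw => ?_, Or.inl fun w hw => ?_⟩
    · have := y0_le hw (by omega)
      simp only [Cor.val]
      linarith
    · have := le_y1 hw
      simp only [Cor.val]
      have h' : (o'.y1 u' v' : ℤ) < o.y0 u v := by exact_mod_cast h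
      linarith
  · exact sepAny_sound h

theorem Meet_of_sep {u v u' v' : ℕ} {o o' : LO}
    (h : Sep (o.cor u v) (o'.cor u' v') ∨ Sep (o'.cor u' v') (o.cor u v)) (i r : ℕ) :
    Meet (o.cor (u + i) (v + r)) (o'.cor (u' + i) (v' + r)) := by
  rw [LO.cor_sh, LO.cor_sh]
  have h1 : IdOK ((o.cor u v).map fun c => c.sh i r) := by
    rw [← LO.cor_sh]; exact idOK_corL _ _ _
  have h2 : IdOK ((o'.cor u' v').map fun c => c.sh i r) := by
    rw [← LO.cor_sh]; exact idOK_corL _ _ _
  rcases h with h | h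
  · exact (h.sh i r).meet h1 h2
  · exact ((h.sh i r).meet h2 h1).symm

theorem mem_presLO {o : LO} (h : o.pres = true) : o ∈ presLO := by
  unfold presLO
  rw [List.mem_filter]
  exact ⟨mem_allLO o, h⟩

theorem box_bounds {o : LO} (h : o.pres = true) {i r : ℕ} {w : Cor} (hw : w ∈ o.cor i r) :
    160000 + 400000 * (i : ℤ) ≤ w.x ∧ w.x ≤ 800000 + 400000 * i ∧
    160000 + 400000 * (r : ℤ) ≤ w.y ∧ w.y ≤ 800000 + 400000 * r := by
  have h1 := chkBox
  rw [List.all_eq_true] at h1
  have h2 := h1 o (mem_presLO h)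
  simp only [Bool.and_eq_true, Nat.ble_eq] at h2
  obtain ⟨⟨⟨⟨a1, a2⟩, a3⟩, a4⟩, _⟩ := h2
  have h3 := LO.cor_sh o 0 0 i r
  rw [Nat.zero_add, Nat.zero_add] at h3
  rw [h3] at hw
  obtain ⟨w', hw', rfl⟩ := List.mem_map.1 hw
  have b1 := x0_le hw' (by omega)
  have b2 := le_x1 hw'
  have b3 := y0_le hw' (by omega)
  have b4 := le_y1 hw'
  simp only [Cor.sh]
  refine ⟨?_, ?_, ?_, ?_⟩ <;> omega

theorem ends_ne {o : LO} (h : o.pres = true) :
    ¬ (ptX o.ends.1 = ptX o.ends.2 ∧ ptY o.ends.1 = ptY o.ends.2) := by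
  have h1 := chkBox
  rw [List.all_eq_true] at h1
  have h2 := h1 o (mem_presLO h)
  simp only [Bool.and_eq_true, Nat.ble_eq] at h2
  obtain ⟨_, h3⟩ := h2
  rintro ⟨e1, e2⟩
  simp [e1, e2] at h3

theorem meet_of_far {C1 C2 : List Cor} (a b c : ℤ) (h1 : ∀ v ∈ C1, v.val a b < c)
    (h2 : ∀ v ∈ C2, c ≤ v.val a b) : Meet C1 C2 := by
  intro z hz1 hz2
  exact absurd (hull_ge h2 z hz2) (not_le.2 (hull_lt h1 z hz1))

theorem chk_apply {P : LO → LO → Bool}
    (h : (presLO.all fun o => presLO.all fun o' => P o o') = true) {o o' : LO}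
    (ho : o.pres = true) (ho' : o'.pres = true) : P o o' = true := by
  rw [List.all_eq_true] at h
  have h1 := h o (mem_presLO ho)
  rw [List.all_eq_true] at h1
  exact h1 o' (mem_presLO ho')

/-- Pairs of objects where the second one is in the same row or below, and not to the far side. -/
theorem meet_half {o o' : LO} (ho : o.pres = true) (ho' : o'.pres = true) (i r i' r' : ℕ)
    (hne : ¬ (o = o' ∧ i = i' ∧ r = r'))
    (hh : (i' = i ∧ r' = r) ∨ (i' = i + 1 ∧ r' = r) ∨ (i' = i ∧ r' = r + 1) ∨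
      (i' = i + 1 ∧ r' = r + 1) ∨ (i' = i + 1 ∧ r = r' + 1)) :
    Meet (o.cor i r) (o'.cor i' r') := by
  rcases hh with ⟨rfl, rfl⟩ | ⟨rfl, rfl⟩ | ⟨rfl, rfl⟩ | ⟨rfl, rfl⟩ | ⟨rfl, rfl⟩
  · have h := chk_apply chk00 ho ho'
    simp only [Bool.or_eq_true, decide_eq_true_eq] at h
    rcases h with h | h
    · have := Meet_of_sep (pairOK_sound h) i' r'
      simpa using this
    · exact absurd ⟨h, rfl, rfl⟩ hne
  · have h := chk_apply chk10 ho ho'
    have := Meet_of_sep (pairOK_sound h) i r'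
    simpa [Nat.add_comm] using this
  · have h := chk_apply chk01 ho ho'
    have := Meet_of_sep (pairOK_sound h) i' r
    simpa [Nat.add_comm] using this
  · have h := chk_apply chk11 ho ho'
    have := Meet_of_sep (pairOK_sound h) i r
    simpa [Nat.add_comm] using this
  · have h := chk_apply chk1m ho ho'
    have := Meet_of_sep (pairOK_sound h) i r'
    simpa [Nat.add_comm] using this

/-- Two different objects meet at most in a common vertex. -/
theorem meet_all {o o' : LO} (ho : o.pres = true) (ho' : o'.pres = true) (i r i' r' : ℕ)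
    (hne : ¬ (o = o' ∧ i = i' ∧ r = r')) : Meet (o.cor i r) (o'.cor i' r') := by
  by_cases h1 : i + 2 ≤ i'
  · refine meet_of_far 1 0 (160000 + 400000 * (i' : ℤ)) (fun v hv => ?_) (fun v hv => ?_)
    · have := box_bounds ho hv
      simp only [Cor.val]
      omega
    · have := box_bounds ho' hv
      simp only [Cor.val]
      omega
  by_cases h2 : i' + 2 ≤ i
  · refine (meet_of_far 1 0 (160000 + 400000 * (i : ℤ)) (fun v hv => ?_) (fun v hv => ?_)).symm
    · have := box_bounds ho' hv
      simp only [Cor.val]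
      omega
    · have := box_bounds ho hv
      simp only [Cor.val]
      omega
  by_cases h3 : r + 2 ≤ r'
  · refine meet_of_far 0 1 (160000 + 400000 * (r' : ℤ)) (fun v hv => ?_) (fun v hv => ?_)
    · have := box_bounds ho hv
      simp only [Cor.val]
      omega
    · have := box_bounds ho' hv
      simp only [Cor.val]
      omega
  by_cases h4 : r' + 2 ≤ r
  · refine (meet_of_far 0 1 (160000 + 400000 * (r : ℤ)) (fun v hv => ?_) (fun v hv => ?_)).symm
    · have := box_bounds ho' hv
      simp only [Cor.val]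
      omega
    · have := box_bounds ho hv
      simp only [Cor.val]
      omega
  by_cases h5 : (i' = i ∧ r' = r) ∨ (i' = i + 1 ∧ r' = r) ∨ (i' = i ∧ r' = r + 1) ∨
      (i' = i + 1 ∧ r' = r + 1) ∨ (i' = i + 1 ∧ r = r' + 1)
  · exact meet_half ho ho' i r i' r' hne h5
  · refine (meet_half ho' ho i' r' i r ?_ ?_).symm
    · rintro ⟨a1, a2, a3⟩
      exact hne ⟨a1.symm, a2.symm, a3.symm⟩
    · omega

end Pool.Agent.H.MP_20b771_lc
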