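import Pool.Agent.H.MP_20b771_lc.GeoDefs

/-!
One of the finite checks.
-/

namespace Pool.Agent.H.MP_20b771_lc

/-- The objects of a cell lie in a box, and their ends are different. -/
theorem chkBox : (presLO.all fun o => Nat.ble 160000 (o.x0 0 0) && Nat.ble (o.x1 0 0) 800000 &&
    Nat.ble 160000 (o.y0 0 0) && Nat.ble (o.y1 0 0) 800000 &&
    !(decide (ptX o.ends.1 = ptX o.ends.2) && decide (ptY o.ends.1 = ptY o.ends.2))) = true := by
  decide +kernel

end Pool.Agent.H.MP_20b771_lc
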