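import Pool.Agent.H.MP_20b771_lc.GeoChk00
import Pool.Agent.H.MP_20b771_lc.GeoChk10
import Pool.Agent.H.MP_20b771_lc.GeoChk01
import Pool.Agent.H.MP_20b771_lc.GeoChk11
import Pool.Agent.H.MP_20b771_lc.GeoChk1m
import Pool.Agent.H.MP_20b771_lc.GeoChkBox

/-!
The finite checks for pairs of objects in neighbouring cells.
-/
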