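import Pool.Agent.H.MP_20b771_lc.GeoDefs

/-!
One of the finite checks.
-/

namespace Pool.Agent.H.MP_20b771_lc

theorem chk00 : (presLO.all fun o => presLO.all fun o' =>
    pairOK 0 0 0 0 o o' || decide (o = o')) = true := by
  decide +kernel

end Pool.Agent.H.MP_20b771_lc
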