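import Pool.Agent.H.MP_20b771_lc.GridTab

/-!
The local picture: coordinates of the vertices of a cell, the objects of a cell (hard edges and
thin rhombi around the blue edges), and the separation test for pairs of objects.
-/

namespace Pool.Agent.H.MP_20b771_lc

set_option linter.constructorNameAsVariable false

/-- A kind of vertex together with the offset of its cell. -/
abbrev Id3 : Type := ℕ × ℕ × ℕ

/-- Base codes of the wheels. -/
def codeW : WK → ℕ
  | .T => 0
  | .X => 21
  | .Y => 42
  | .S => 63

/-- Index of the gadgets. -/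
def codeC : CK → ℕ
  | .a => 0
  | .b => 1
  | .c => 2
  | .d => 3
  | .e => 4
  | .f => 5
  | .g => 6
  | .h => 7
  | .m => 8
  | .l => 9

/-- code of a hub -/
def hubC (w : WK) : ℕ := codeW w

/-- code of a rim vertex -/
def rimC (w : WK) (i : Fin 20) : ℕ := codeW w + 1 + i.val

/-- code of a vertex on the path of a gadget -/
def pathC (c : CK) (j : Fin 4) : ℕ := 84 + 4 * codeC c + j.val

/-- Table of the x coordinates, 12 bits each. -/
def tabX : ℕ := 0x3f444483c7028fe7c4b5e5e680080043c4284904543f44083a03dc8d284c92295a72e6ce6de7868d293292287a72e7b46de6a6abcb22abca625445aa5444ea85a83c7c47a67a67c483c85a48246443e3f23cc3ae39838c38238c3ae3cc3f243e4644824a44ae4a4498418a129fa9dc9aa97c94e92890e8fe8fa8fe90e92894e97c9aa9eca1ca26a1c9905ee6066246566846b26d86f27027067026f26d86b26846566145e45da5e467088c87485482c8007d47ac78c77476c76c77478c7ac7d480082c85487488c800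

/-- Table of the y coordinates, 12 bits each. -/
def tabY : ℕ := 0x894f1e4f27348ccb0e7c47c4800800be88b2be8f12be8f1ebe88be5fe4b85e27385fe7525e24b4a028aea1eb4ca02b48a1e8c87d87c482e7f27d87c482c7f08c8a58a588c87385a85a873879677e77077077e7967b07cc80083486a88289089088286a8348007cc7b08007b679677e76c76c77a7947b67dc80082484a86c8868948948768348007cc80084a86a88289489488686c84a8248007dc7b679477a76c76c78a7cc8008348003e03ba39c38838238839c3ba3e03fe4324504764944a84ae4a8494476450418

/-- x coordinate of a vertex given by its code -/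
def px (k : ℕ) : ℕ := tabX / 4096 ^ k % 4096

/-- y coordinate of a vertex given by its code -/
def py (k : ℕ) : ℕ := tabY / 4096 ^ k % 4096

/-- Position of a vertex. -/
def ptX (g : Id3) : ℤ := ((px g.1 + 2000 * g.2.1 : ℕ) : ℤ)

/-- Position of a vertex. -/
def ptY (g : Id3) : ℤ := ((py g.1 + 2000 * g.2.2 : ℕ) : ℤ)

/-- The objects of a cell. -/
inductive LO
  | rim (w : WK) (i : Fin 20)
  | v1 (c : CK) (j : Fin 3)
  | v2 (c : CK) (j : Fin 3)
  | close (c : CK)
  | spoke (w : WK) (i : Fin 20)
  | f (c : CK) (j : Fin 3)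
  | e (c : CK) (j : Fin 3)
  deriving DecidableEq

/-- Is the object a blue one? -/
def LO.blue : LO → Bool
  | .rim _ _ => false
  | .v1 _ _ => false
  | .v2 _ _ => false
  | .close _ => false
  | .spoke _ _ => true
  | .f _ _ => true
  | .e _ _ => true

/-- Is the object present in the table? -/
def LO.pres : LO → Bool
  | .v1 c j => (portTab c j).isSome
  | .v2 c j => (portTab c j).isSome
  | _ => true

/-- The ends of an object. The second end of an e-edge without port is an extra point. -/
def LO.ends : LO → Id3 × Id3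
  | .rim w i => ((rimC w i, 0, 0), (rimC w (i + 1), 0, 0))
  | .v1 c j => match portTab c j with
    | none => ((0, 0, 0), (0, 0, 0))
    | some q => ((pathC c j.castSucc, 0, 0), (rimC q.1 q.2.2.2, q.2.1, q.2.2.1))
  | .v2 c j => match portTab c j with
    | none => ((0, 0, 0), (0, 0, 0))
    | some q => ((pathC c j.succ, 0, 0), (rimC q.1 (q.2.2.2 + 2), q.2.1, q.2.2.1))
  | .close c => ((pathC c 0, 0, 0), (pathC c 3, 0, 0))
  | .spoke w i => ((hubC w, 0, 0), (rimC w i, 0, 0))
  | .f c j => ((pathC c j.castSucc, 0, 0), (pathC c j.succ, 0, 0))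
  | .e c j => match portTab c j with
    | none => ((pathC c j.castSucc, 0, 0), (124 + codeC c, 0, 0))
    | some q => ((pathC c j.castSucc, 0, 0), (rimC q.1 (q.2.2.2 + 2), q.2.1, q.2.2.1))

/-- A corner of an object: a point, and the vertex it represents, if any. -/
structure Cor where
  x : ℤ
  y : ℤ
  id : Option Id3

/-- The corner of a vertex. -/
def vCor (g : Id3) : Cor := ⟨200 * ptX g, 200 * ptY g, some g⟩

/-- The corners of a segment or a rhombus. -/
def corL (b : Bool) (g h : Id3) : List Cor :=
  if b then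
    [vCor g, vCor h,
      ⟨100 * (ptX g + ptX h) + (ptY g - ptY h), 100 * (ptY g + ptY h) + (ptX h - ptX g), none⟩,
      ⟨100 * (ptX g + ptX h) - (ptY g - ptY h), 100 * (ptY g + ptY h) - (ptX h - ptX g), none⟩]
  else [vCor g, vCor h]

/-- Moving a vertex to another cell. -/
def Id3.sh (g : Id3) (u v : ℕ) : Id3 := (g.1, g.2.1 + u, g.2.2 + v)

/-- The corners of an object in the cell (u, v). -/
def LO.cor (o : LO) (u v : ℕ) : List Cor :=
  corL o.blue (o.ends.1.sh u v) (o.ends.2.sh u v)

/-- value of a linear functional -/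
def Cor.val (a b : ℤ) (v : Cor) : ℤ := a * v.x + b * v.y

/-- minimal value of a linear functional -/
def minVal (a b : ℤ) : List Cor → ℤ
  | [] => 0
  | [v] => v.val a b
  | v :: l => min (v.val a b) (minVal a b l)

/-- Is the corner a vertex which is also a corner in the other list? -/
def Cor.common (q : Cor) (l : List Cor) : Bool := l.any fun w => w.id == q.id && w.id.isSome

/-- Separation by a given functional. -/
def sep1 (a b : ℤ) (C1 C2 : List Cor) : Bool :=
  let c := minVal a b C2
  C1.all (fun v => decide (v.val a b < c)) ||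
    C1.any (fun q => decide (q.val a b ≤ c) && q.common C2 &&
      C1.all (fun v => decide (v.val a b < c) || (decide (v.x = q.x) && decide (v.y = q.y))))

/-- Separation by a given functional, all variants. -/
def sep4 (a b : ℤ) (C1 C2 : List Cor) : Bool :=
  sep1 a b C1 C2 || sep1 (-a) (-b) C1 C2 || sep1 a b C2 C1 || sep1 (-a) (-b) C2 C1

/-- Candidate directions. -/
def dirs : List Cor → List (ℤ × ℤ)
  | [p, q, r, _] => [(p.y - r.y, r.x - p.x), (q.y - r.y, r.x - q.x)]
  | [p, q] => [(p.y - q.y, q.x - p.x)]
  | _ => []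

/-- The separation test. -/
def sepAny (C1 C2 : List Cor) : Bool :=
  sep4 1 0 C1 C2 || sep4 0 1 C1 C2 || (dirs C1).any (fun d => sep4 d.1 d.2 C1 C2) ||
    (dirs C2).any (fun d => sep4 d.1 d.2 C1 C2)

/-- All the objects. -/
def allLO : List LO :=
  ([WK.T, WK.X, WK.Y, WK.S].flatMap fun w => (List.finRange 20).flatMap fun i =>
    [LO.rim w i, LO.spoke w i]) ++
  ([CK.a, CK.b, CK.c, CK.d, CK.e, CK.f, CK.g, CK.h, CK.m, CK.l].flatMap fun c =>
    LO.close c :: (List.finRange 3).flatMap fun j =>
      [LO.v1 c j, LO.v2 c j, LO.f c j, LO.e c j])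

theorem mem_allLO (o : LO) : o ∈ allLO := by
  simp only [allLO, List.mem_append, List.mem_flatMap, List.mem_cons, List.not_mem_nil, or_false,
    List.mem_finRange, true_and]
  cases o with
  | rim w i => left; exact ⟨w, by cases w <;> simp, i, by simp⟩
  | spoke w i => left; exact ⟨w, by cases w <;> simp, i, by simp⟩
  | close c => right; exact ⟨c, by cases c <;> simp, by simp⟩
  | v1 c j => right; exact ⟨c, by cases c <;> simp, Or.inr ⟨j, by simp⟩⟩
  | v2 c j => right; exact ⟨c, by cases c <;> simp, Or.inr ⟨j, by simp⟩⟩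
  | f c j => right; exact ⟨c, by cases c <;> simp, Or.inr ⟨j, by simp⟩⟩
  | e c j => right; exact ⟨c, by cases c <;> simp, Or.inr ⟨j, by simp⟩⟩

end Pool.Agent.H.MP_20b771_lc
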