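import Pool.Agent.H.MP_20b771_lc.GeoData

/-!
The test for pairs of objects in neighbouring cells.
-/

namespace Pool.Agent.H.MP_20b771_lc

/-- bounding box -/
def LO.x0 (o : LO) (u v : ℕ) : ℕ := (minVal 1 0 (o.cor u v)).toNat
/-- bounding box -/
def LO.x1 (o : LO) (u v : ℕ) : ℕ := (- minVal (-1) 0 (o.cor u v)).toNat
/-- bounding box -/
def LO.y0 (o : LO) (u v : ℕ) : ℕ := (minVal 0 1 (o.cor u v)).toNat
/-- bounding box -/
def LO.y1 (o : LO) (u v : ℕ) : ℕ := (- minVal 0 (-1) (o.cor u v)).toNat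

/-- The objects present in the table. -/
def presLO : List LO := allLO.filter (·.pres)

/-- The test for a pair of objects. -/
def pairOK (u v u' v' : ℕ) (o o' : LO) : Bool :=
  Nat.blt (o.x1 u v) (o'.x0 u' v') || (Nat.blt (o'.x1 u' v') (o.x0 u v) ||
   (Nat.blt (o.y1 u v) (o'.y0 u' v') || (Nat.blt (o'.y1 u' v') (o.y0 u v)
    || sepAny (o.cor u v) (o'.cor u' v'))))

end Pool.Agent.H.MP_20b771_lc
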