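import Pool.Agent.H.MP_20b771_lc.GridNet

/-!
The satisfiability of the network attached to a CNF formula.
-/

namespace Pool.Agent.H.MP_20b771_lc

/-- The conditions that the assignment satisfies the network. -/
structure GridSat (n R : ℕ) (lit : Fin n → Fin R → Bool) (A : WK → Fin n → Fin R → Bool) :
    Prop where
  ha : ∀ i r, A .Y i r = true ∨ A .T i r = true ∨ A .X i r = true
  hb : ∀ i r (h : r.val + 1 < R), A .X i r = true ∨ A .T i ⟨r.val + 1, h⟩ = false ∨
    A .Y i r = true
  hc : ∀ i r, lit i r = false → (0 < i.val ∧ A .S i r = true) ∨ A .X i r = false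
  hd : ∀ i r, lit i r = false → A .Y i r = false ∨
    ∃ h : i.val + 1 < n, A .S ⟨i.val + 1, h⟩ r = false
  he : ∀ i r (h : r.val + 1 < R), A .X i r = false ∨ A .T i ⟨r.val + 1, h⟩ = true
  hf : ∀ i r (h : r.val + 1 < R), A .T i ⟨r.val + 1, h⟩ = true ∨ A .Y i r = false
  hg : ∀ i r, A .T i r = false ∨ A .X i r = false
  hh : ∀ i r, A .Y i r = false ∨ A .T i r = false
  hk : ∀ i r (h : r.val + 1 < R), r.val % 2 = 0 → A .S i r = true ∨
    A .S i ⟨r.val + 1, h⟩ = false
  hl : ∀ i r (h : r.val + 1 < R), r.val % 2 = 0 → A .S i ⟨r.val + 1, h⟩ = true ∨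
    A .S i r = false

section

variable {n R : ℕ} (lit : Fin n → Fin R → Bool)

theorem sat_iff_tab (A : WK × Fin n × Fin R → Bool) :
    (gridNet n R lit).Sat A ↔ ∀ k i r, active R k r.val (lit i r) = true →
      ∃ j q, portTab k j = some q ∧ leftCut k j i.val = false ∧
        ∃ (hi : i.val + q.2.1 < n) (hr : r.val + q.2.2.1 < R),
          A (q.1, ⟨i.val + q.2.1, hi⟩, ⟨r.val + q.2.2.1, hr⟩) = decide (q.2.2.2.val % 2 = 1) := by
  constructor
  · intro h k i r hact
    obtain ⟨j, x, h1, h2⟩ := h (k, i, r) hact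
    rw [port_some] at h1
    obtain ⟨q, h3, h4, h5, h6, h7, h8⟩ := h1
    have hi : i.val + q.2.1 < n := by rw [← h6]; exact x.1.2.1.isLt
    have hr : r.val + q.2.2.1 < R := by rw [← h7]; exact x.1.2.2.isLt
    refine ⟨j, q, h3, h4, hi, hr, ?_⟩
    have h9 : x.1 = (q.1, ⟨i.val + q.2.1, hi⟩, ⟨r.val + q.2.2.1, hr⟩) := by
      apply Prod.ext
      · exact h5
      · apply Prod.ext
        · exact Fin.ext h6
        · exact Fin.ext h7
    rw [← h9, ← h8]
    exact h2
  · rintro h ⟨k, i, r⟩ hact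
    obtain ⟨j, q, h3, h4, hi, hr, h5⟩ := h k i r hact
    refine ⟨j, ((q.1, ⟨i.val + q.2.1, hi⟩, ⟨r.val + q.2.2.1, hr⟩), q.2.2.2), ?_, h5⟩
    rw [port_some]
    exact ⟨q, h3, h4, rfl, rfl, rfl, rfl⟩

theorem gridSat_of_sat (A : WK × Fin n × Fin R → Bool) (h : (gridNet n R lit).Sat A) :
    GridSat n R lit (fun k i r => A (k, i, r)) := by
  rw [sat_iff_tab] at h
  constructor
  · intro i r
    obtain ⟨j, q, h3, h4, hi, hr, h5⟩ := h .a i r rfl
    fin_cases j <;> simp only [portTab, Option.some.injEq] at h3 <;> subst h3 <;>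
      simp_all
  · intro i r hr'
    obtain ⟨j, q, h3, h4, hi, hr, h5⟩ := h .b i r (by simp [active, hr'])
    fin_cases j <;> simp only [portTab, Option.some.injEq] at h3 <;> subst h3 <;>
      simp_all
  · intro i r hl
    obtain ⟨j, q, h3, h4, hi, hr, h5⟩ := h .c i r (by simp [active, hl])
    fin_cases j <;> simp only [portTab, Option.some.injEq, reduceCtorEq] at h3
    · subst h3
      left
      simp [leftCut] at h4
      simp at h5
      exact ⟨by omega, h5⟩
    · subst h3
      right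
      simpa using h5
  · intro i r hl
    obtain ⟨j, q, h3, h4, hi, hr, h5⟩ := h .d i r (by simp [active, hl])
    fin_cases j <;> simp only [portTab, Option.some.injEq, reduceCtorEq] at h3
    · subst h3
      left
      simpa using h5
    · subst h3
      right
      exact ⟨hi, by simpa using h5⟩
  · intro i r hr'
    obtain ⟨j, q, h3, h4, hi, hr, h5⟩ := h .e i r (by simp [active, hr'])
    fin_cases j <;> simp only [portTab, Option.some.injEq, reduceCtorEq] at h3 <;> subst h3 <;>
      simp_all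
  · intro i r hr'
    obtain ⟨j, q, h3, h4, hi, hr, h5⟩ := h .f i r (by simp [active, hr'])
    fin_cases j <;> simp only [portTab, Option.some.injEq, reduceCtorEq] at h3 <;> subst h3 <;>
      simp_all
  · intro i r
    obtain ⟨j, q, h3, h4, hi, hr, h5⟩ := h .g i r rfl
    fin_cases j <;> simp only [portTab, Option.some.injEq, reduceCtorEq] at h3 <;> subst h3 <;>
      simp_all
  · intro i r
    obtain ⟨j, q, h3, h4, hi, hr, h5⟩ := h .h i r rfl
    fin_cases j <;> simp only [portTab, Option.some.injEq, reduceCtorEq] at h3 <;> subst h3 <;>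
      simp_all
  · intro i r hr' hpar
    obtain ⟨j, q, h3, h4, hi, hr, h5⟩ := h .m i r (by simp [active, hpar])
    fin_cases j <;> simp only [portTab, Option.some.injEq, reduceCtorEq] at h3 <;> subst h3 <;>
      simp_all
  · intro i r hr' hpar
    obtain ⟨j, q, h3, h4, hi, hr, h5⟩ := h .l i r (by simp [active, hpar])
    fin_cases j <;> simp only [portTab, Option.some.injEq, reduceCtorEq] at h3 <;> subst h3 <;>
      simp_all

/-- Conversely, when the number of rows is even. -/
theorem sat_of_gridSat (hR : R % 2 = 0) (A : WK → Fin n → Fin R → Bool)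
    (h : GridSat n R lit A) : (gridNet n R lit).Sat (fun x => A x.1 x.2.1 x.2.2) := by
  rw [sat_iff_tab]
  intro k i r hact
  have e0 : ∀ (x : Fin n) (hx : x.val + 0 < n), (⟨x.val + 0, hx⟩ : Fin n) = x := fun _ _ => rfl
  cases k with
  | a =>
    rcases h.ha i r with h1 | h1 | h1
    · exact ⟨0, _, rfl, rfl, i.isLt, r.isLt, h1⟩
    · exact ⟨1, _, rfl, rfl, i.isLt, r.isLt, h1⟩
    · exact ⟨2, _, rfl, rfl, i.isLt, r.isLt, h1⟩
  | b =>
    have hr : r.val + 1 < R := by simpa [active] using hact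
    rcases h.hb i r hr with h1 | h1 | h1
    · exact ⟨0, _, rfl, rfl, i.isLt, r.isLt, h1⟩
    · exact ⟨1, _, rfl, rfl, i.isLt, hr, h1⟩
    · exact ⟨2, _, rfl, rfl, i.isLt, r.isLt, h1⟩
  | c =>
    have hl : lit i r = false := by simpa [active] using hact
    rcases h.hc i r hl with h1 | h1
    · exact ⟨0, _, rfl, by simp [leftCut]; omega, i.isLt, r.isLt, h1.2⟩
    · exact ⟨1, _, rfl, rfl, i.isLt, r.isLt, h1⟩
  | d =>
    have hl : lit i r = false := by simpa [active] using hact
    rcases h.hd i r hl with h1 | ⟨h0, h1⟩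
    · exact ⟨0, _, rfl, rfl, i.isLt, r.isLt, h1⟩
    · exact ⟨1, _, rfl, rfl, h0, r.isLt, h1⟩
  | e =>
    have hr : r.val + 1 < R := by simpa [active] using hact
    rcases h.he i r hr with h1 | h1
    · exact ⟨0, _, rfl, rfl, i.isLt, r.isLt, h1⟩
    · exact ⟨1, _, rfl, rfl, i.isLt, hr, h1⟩
  | f =>
    have hr : r.val + 1 < R := by simpa [active] using hact
    rcases h.hf i r hr with h1 | h1
    · exact ⟨0, _, rfl, rfl, i.isLt, hr, h1⟩
    · exact ⟨1, _, rfl, rfl, i.isLt, r.isLt, h1⟩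
  | g =>
    rcases h.hg i r with h1 | h1
    · exact ⟨0, _, rfl, rfl, i.isLt, r.isLt, h1⟩
    · exact ⟨1, _, rfl, rfl, i.isLt, r.isLt, h1⟩
  | h =>
    rcases h.hh i r with h1 | h1
    · exact ⟨0, _, rfl, rfl, i.isLt, r.isLt, h1⟩
    · exact ⟨1, _, rfl, rfl, i.isLt, r.isLt, h1⟩
  | m =>
    have hp : r.val % 2 = 0 := by simpa [active] using hact
    have hr : r.val + 1 < R := by have := r.isLt; omega
    rcases h.hk i r hr hp with h1 | h1
    · exact ⟨0, _, rfl, rfl, i.isLt, r.isLt, h1⟩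
    · exact ⟨1, _, rfl, rfl, i.isLt, hr, h1⟩
  | l =>
    have hp : r.val % 2 = 0 := by simpa [active] using hact
    have hr : r.val + 1 < R := by have := r.isLt; omega
    rcases h.hl i r hr hp with h1 | h1
    · exact ⟨0, _, rfl, rfl, i.isLt, hr, h1⟩
    · exact ⟨1, _, rfl, rfl, i.isLt, r.isLt, h1⟩

end

end Pool.Agent.H.MP_20b771_lc
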