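import Mathlib

/-!
The table of the gadgets of a cell.
-/

namespace Pool.Agent.H.MP_20b771_lc

/-- Kinds of wheels in a cell. -/
inductive WK | T | X | Y | S
  deriving DecidableEq, Fintype

/-- Kinds of clause gadgets in a cell. -/
inductive CK | a | b | c | d | e | f | g | h | m | l
  deriving DecidableEq, Fintype

theorem card_WK : Fintype.card WK = 4 := rfl

theorem card_CK : Fintype.card CK = 10 := rfl

/-- The ports of the gadgets of a cell: kind of wheel, offset of column and row, rim position. -/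
def portTab : CK → Fin 3 → Option (WK × ℕ × ℕ × Fin 20)
  | .a, 0 => some (.Y, 0, 0, 11)
  | .a, 1 => some (.T, 0, 0, 3)
  | .a, 2 => some (.X, 0, 0, 7)
  | .b, 0 => some (.X, 0, 0, 11)
  | .b, 1 => some (.T, 0, 1, 14)
  | .b, 2 => some (.Y, 0, 0, 7)
  | .c, 0 => some (.S, 0, 0, 1)
  | .c, 1 => some (.X, 0, 0, 0)
  | .c, 2 => none
  | .d, 0 => some (.Y, 0, 0, 0)
  | .d, 1 => some (.S, 1, 0, 10)
  | .d, 2 => none
  | .e, 0 => some (.X, 0, 0, 14)
  | .e, 1 => some (.T, 0, 1, 11)
  | .e, 2 => none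
  | .f, 0 => some (.T, 0, 1, 17)
  | .f, 1 => some (.Y, 0, 0, 4)
  | .f, 2 => none
  | .g, 0 => some (.T, 0, 0, 6)
  | .g, 1 => some (.X, 0, 0, 4)
  | .g, 2 => none
  | .h, 0 => some (.Y, 0, 0, 14)
  | .h, 1 => some (.T, 0, 0, 0)
  | .h, 2 => none
  | .m, 0 => some (.S, 0, 0, 7)
  | .m, 1 => some (.S, 0, 1, 14)
  | .m, 2 => none
  | .l, 0 => some (.S, 0, 1, 17)
  | .l, 1 => some (.S, 0, 0, 4)
  | .l, 2 => none

/-- Is the port suppressed because of the left boundary? -/
def leftCut (k : CK) (j : Fin 3) (i : ℕ) : Bool := decide (k = CK.c ∧ j = 0 ∧ i = 0)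

/-- Activity of the gadgets: `R` is the number of rows, `r` the row, `x` the literal bit. -/
def active (R : ℕ) (k : CK) (r : ℕ) (x : Bool) : Bool :=
  match k with
  | .a => true
  | .b => decide (r + 1 < R)
  | .c => !x
  | .d => !x
  | .e => decide (r + 1 < R)
  | .f => decide (r + 1 < R)
  | .g => true
  | .h => true
  | .m => decide (r % 2 = 0)
  | .l => decide (r % 2 = 0)

/-- The table uses every rim vertex at most once. -/
theorem tab_disj : ∀ k j k' j', ∀ q ∈ portTab k j, ∀ q' ∈ portTab k' j', q.1 = q'.1 →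
    (q.2.2.2 = q'.2.2.2 ∨ q.2.2.2 = q'.2.2.2 + 2) → k = k' ∧ j = j' := by
  decide +kernel

end Pool.Agent.H.MP_20b771_lc
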