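import Pool.Agent.H.MP_20b771_lc.Net
import Pool.Agent.H.MP_20b771_lc.GridTab

/-!
The network attached to a CNF formula.
-/

namespace Pool.Agent.H.MP_20b771_lc

/-- The network of a matrix of literal bits with `n` columns and `R` rows. -/
def gridNet (n R : ℕ) (lit : Fin n → Fin R → Bool) :
    Net (WK × Fin n × Fin R) (CK × Fin n × Fin R) where
  port c j := (portTab c.1 j).bind fun q =>
    if h : c.2.1.val + q.2.1 < n ∧ c.2.2.val + q.2.2.1 < R ∧
        leftCut c.1 j c.2.1.val = false then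
      some ((q.1, ⟨c.2.1.val + q.2.1, h.1⟩, ⟨c.2.2.val + q.2.2.1, h.2.1⟩), q.2.2.2)
    else none
  act c := active R c.1 c.2.2.val (lit c.2.1 c.2.2) = true

section

variable {n R : ℕ} (lit : Fin n → Fin R → Bool)

theorem port_some {c : CK × Fin n × Fin R} {j : Fin 3} {x : (WK × Fin n × Fin R) × Fin 20} :
    (gridNet n R lit).port c j = some x ↔
      ∃ q, portTab c.1 j = some q ∧ leftCut c.1 j c.2.1.val = false ∧ x.1.1 = q.1 ∧
        x.1.2.1.val = c.2.1.val + q.2.1 ∧ x.1.2.2.val = c.2.2.val + q.2.2.1 ∧ x.2 = q.2.2.2 := by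
  rcases x with ⟨⟨w, i, r⟩, p⟩
  simp only [gridNet, Option.bind_eq_some_iff]
  constructor
  · rintro ⟨q, h1, h2⟩
    split_ifs at h2 with h3
    simp only [Option.some.injEq, Prod.mk.injEq] at h2
    obtain ⟨⟨h4, h5, h6⟩, h7⟩ := h2
    exact ⟨q, h1, h3.2.2, h4.symm, by rw [← h5], by rw [← h6], h7.symm⟩
  · rintro ⟨q, h1, h2, h3, h4, h5, h6⟩
    refine ⟨q, h1, ?_⟩
    have h7 : c.2.1.val + q.2.1 < n := by rw [← h4]; exact i.isLt
    have h8 : c.2.2.val + q.2.2.1 < R := by rw [← h5]; exact r.isLt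
    rw [dif_pos ⟨h7, h8, h2⟩]
    simp only [Option.some.injEq, Prod.mk.injEq]
    exact ⟨⟨h3.symm, Fin.ext h4.symm, Fin.ext h5.symm⟩, h6.symm⟩

theorem gridNet_disj : (gridNet n R lit).Disj := by
  intro c j c' j' w p p' h1 h2 h3
  rw [port_some] at h1 h2
  obtain ⟨q, a1, a2, a3, a4, a5, a6⟩ := h1
  obtain ⟨q', b1, b2, b3, b4, b5, b6⟩ := h2
  simp only at a3 a4 a5 a6 b3 b4 b5 b6
  have h4 := tab_disj c.1 j c'.1 j' q a1 q' b1 (by rw [← a3, ← b3]) (by
    rw [← a6, ← b6]; exact h3)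
  obtain ⟨h5, h6⟩ := h4
  subst h6
  have h7 : q = q' := by
    rw [h5] at a1
    rw [a1] at b1
    exact Option.some.inj b1
  subst h7
  refine ⟨?_, rfl⟩
  rcases c with ⟨k, i, r⟩
  rcases c' with ⟨k', i', r'⟩
  simp only at h5 a4 a5 b4 b5
  subst h5
  have h8 : i = i' := Fin.ext (by omega)
  have h9 : r = r' := Fin.ext (by omega)
  rw [h8, h9]

end

end Pool.Agent.H.MP_20b771_lc
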