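import Pool.Agent.H.MP_20b771_lc.GridNet
import Pool.Agent.H.MP_20b771_lc.GeoData

/-!
The objects of the grid.
-/

namespace Pool.Agent.H.MP_20b771_lc

set_option linter.constructorNameAsVariable false

section

variable {n R : ℕ}

/-- Skeleton vertices of the grid. -/
abbrev GV (n R : ℕ) : Type := SV (WK × Fin n × Fin R) (CK × Fin n × Fin R)

/-- Blue edges of the grid. -/
abbrev GB (n R : ℕ) : Type := BE (WK × Fin n × Fin R) (CK × Fin n × Fin R)

/-- identifier of a skeleton vertex -/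
def gid : GV n R → Id3
  | .hub w => (hubC w.1, w.2.1.val, w.2.2.val)
  | .rim w k => (rimC w.1 k, w.2.1.val, w.2.2.val)
  | .path c j => (pathC c.1 j, c.2.1.val, c.2.2.val)

theorem gid_injective : Function.Injective (gid : GV n R → Id3) := by
  intro a b h
  rcases a with ⟨w, i, r⟩ | ⟨⟨w, i, r⟩, k⟩ | ⟨⟨c, i, r⟩, j⟩ <;>
    rcases b with ⟨w', i', r'⟩ | ⟨⟨w', i', r'⟩, k'⟩ | ⟨⟨c', i', r'⟩, j'⟩ <;>
    simp only [gid, Prod.mk.injEq, Fin.val_inj, hubC, rimC, pathC] at h <;>
    obtain ⟨h1, rfl, rfl⟩ := h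
  · have : w = w' := by
      cases w <;> cases w' <;> simp only [codeW] at h1 <;> first | rfl | omega
    rw [this]
  · exfalso
    have := k'.isLt
    cases w <;> cases w' <;> simp only [codeW] at h1 <;> omega
  · exfalso
    cases w <;> simp only [codeW] at h1 <;> omega
  · exfalso
    have := k.isLt
    cases w <;> cases w' <;> simp only [codeW] at h1 <;> omega
  · have h2 := k.isLt
    have h3 := k'.isLt
    have h4 : w = w' ∧ k.val = k'.val := by
      cases w <;> cases w' <;> simp only [codeW] at h1 <;>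
        first | exact ⟨rfl, by omega⟩ | (exfalso; omega)
    rw [h4.1, Fin.ext h4.2]
  · exfalso
    have h2 := k.isLt
    cases w <;> simp only [codeW] at h1 <;> omega
  · exfalso
    cases w' <;> simp only [codeW] at h1 <;> omega
  · exfalso
    have h2 := k'.isLt
    cases w' <;> simp only [codeW] at h1 <;> omega
  · have h2 := j.isLt
    have h3 := j'.isLt
    have h4 : codeC c = codeC c' ∧ j.val = j'.val := by omega
    have h5 : c = c' := by
      have h6 := h4.1
      cases c <;> cases c' <;> simp only [codeC] at h6 <;> first | rfl | omega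
    rw [h5, Fin.ext h4.2]

/-- the object of a blue edge -/
def bo : GB n R → LO × Fin n × Fin R
  | Sum.inl (w, k) => (.spoke w.1 k, w.2)
  | Sum.inr (Sum.inl (c, j)) => (.f c.1 j, c.2)
  | Sum.inr (Sum.inr (c, j)) => (.e c.1 j, c.2)

theorem bo_injective : Function.Injective (bo : GB n R → LO × Fin n × Fin R) := by
  intro a b h
  rcases a with ⟨⟨w, x⟩, k⟩ | ⟨⟨c, x⟩, j⟩ | ⟨⟨c, x⟩, j⟩ <;>
    rcases b with ⟨⟨w', x'⟩, k'⟩ | ⟨⟨c', x'⟩, j'⟩ | ⟨⟨c', x'⟩, j'⟩ <;>
    simp only [bo, Prod.mk.injEq, LO.spoke.injEq, LO.f.injEq, LO.e.injEq, reduceCtorEq,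
      false_and] at h
  · obtain ⟨⟨rfl, rfl⟩, rfl⟩ := h
    rfl
  · obtain ⟨⟨rfl, rfl⟩, rfl⟩ := h
    rfl
  · obtain ⟨⟨rfl, rfl⟩, rfl⟩ := h
    rfl

theorem bo_blue (b : GB n R) : (bo b).1.blue = true := by
  rcases b with ⟨w, k⟩ | ⟨c, j⟩ | ⟨c, j⟩ <;> rfl

end

end Pool.Agent.H.MP_20b771_lc
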