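import Pool.Agent.H.MP_20b771_lc.Geo
import Pool.Agent.H.MP_20b771_lc.Draw
import Pool.Agent.H.MP_20b771_lc.GridObj

/-!
The graph of the grid network is planar.
-/

namespace Pool.Agent.H.MP_20b771_lc

set_option linter.constructorNameAsVariable false

section

variable {n R : ℕ}

/-- first end of an object in a cell -/
def LO.gA (o : LO) (i r : ℕ) : Id3 := o.ends.1.sh i r

/-- second end of an object in a cell -/
def LO.gB (o : LO) (i r : ℕ) : Id3 := o.ends.2.sh i r

/-- centre -/
noncomputable def ctr (g h : Id3) : ℝ × ℝ := (100 * ((ptX g : ℝ) + ptX h), 100 * ((ptY g : ℝ) + ptY h))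

/-- half diagonal along the edge -/
noncomputable def vd (g h : Id3) : ℝ × ℝ := (100 * ((ptX g : ℝ) - ptX h), 100 * ((ptY g : ℝ) - ptY h))

/-- half diagonal across the edge -/
noncomputable def ve (g h : Id3) : ℝ × ℝ := ((ptY g : ℝ) - ptY h, (ptX h : ℝ) - ptX g)

/-- Height of the vertices of a path. -/
noncomputable def tau (M : ℕ) (t : Fin M) : ℝ := (2 * (t.val : ℝ) + 1 - M) / M

theorem tau_strictMono (M : ℕ) : StrictMono (tau M) := by
  intro s t hst
  have hM : (0 : ℝ) < M := by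
    have := s.isLt
    exact_mod_cast Nat.lt_of_le_of_lt (Nat.zero_le _) this
  unfold tau
  apply div_lt_div_of_pos_right _ hM
  have : (s.val : ℝ) < t.val := by exact_mod_cast hst
  linarith

theorem tau_bounds {M : ℕ} (t : Fin M) : -1 ≤ tau M t ∧ tau M t ≤ 1 := by
  have h0 := t.isLt
  have hM : (0 : ℝ) < M := by exact_mod_cast Nat.lt_of_le_of_lt (Nat.zero_le _) h0
  have h1 : (t.val : ℝ) + 1 ≤ M := by exact_mod_cast h0
  have h2 : (0 : ℝ) ≤ t.val := Nat.cast_nonneg _
  unfold tau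
  constructor
  · rw [le_div_iff₀ hM]
    linarith
  · rw [div_le_iff₀ hM]
    linarith

/-- The drawing. -/
noncomputable def place (M : ℕ) : GV n R ⊕ (GB n R × Fin M) → ℝ × ℝ
  | Sum.inl v => (vCor (gid v)).pt
  | Sum.inr (b, t) =>
    let g := (bo b).1.gA (bo b).2.1 (bo b).2.2
    let h := (bo b).1.gB (bo b).2.1 (bo b).2.2
    ctr g h + (0 : ℝ) • vd g h + tau M t • ve g h

/-- Is the object present in the grid? -/
def Pres (n R : ℕ) (o : LO) (i r : ℕ) : Prop :=
  match o with
  | .v1 c j => ∃ q, portTab c j = some q ∧ i + q.2.1 < n ∧ r + q.2.2.1 < R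
  | .v2 c j => ∃ q, portTab c j = some q ∧ i + q.2.1 < n ∧ r + q.2.2.1 < R
  | _ => True

theorem Pres.pres {o : LO} {i r : ℕ} (h : Pres n R o i r) : o.pres = true := by
  cases o with
  | v1 c j => obtain ⟨q, hq, _⟩ := h; simp [LO.pres, hq]
  | v2 c j => obtain ⟨q, hq, _⟩ := h; simp [LO.pres, hq]
  | _ => rfl

/-- vertices of the object -/
def omem (n R M : ℕ) (x : LO × Fin n × Fin R) : Set (GV n R ⊕ (GB n R × Fin M)) :=
  {v | Pres n R x.1 x.2.1 x.2.2 ∧ match v with
    | Sum.inl y => gid y = x.1.gA x.2.1 x.2.2 ∨ gid y = x.1.gB x.2.1 x.2.2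
    | Sum.inr (b, _) => bo b = x}

/-- the region of an object -/
def oreg (n R : ℕ) (x : LO × Fin n × Fin R) : Set (ℝ × ℝ) :=
  {z | Pres n R x.1 x.2.1 x.2.2 ∧ z ∈ hull (x.1.cor x.2.1 x.2.2)}

/-- the edges of an object -/
inductive OE (n R M : ℕ) (x : LO × Fin n × Fin R) :
    GV n R ⊕ (GB n R × Fin M) → GV n R ⊕ (GB n R × Fin M) → Prop
  | red (hb : x.1.blue = false) (hp : Pres n R x.1 x.2.1 x.2.2) (u v : GV n R)
      (hu : gid u = x.1.gA x.2.1 x.2.2) (hv : gid v = x.1.gB x.2.1 x.2.2) :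
      OE n R M x (Sum.inl u) (Sum.inl v)
  | hub (b : GB n R) (hb : bo b = x) (u : GV n R) (t : Fin M)
      (hu : gid u = x.1.gA x.2.1 x.2.2 ∨ gid u = x.1.gB x.2.1 x.2.2) :
      OE n R M x (Sum.inl u) (Sum.inr (b, t))
  | path (b : GB n R) (hb : bo b = x) (t t' : Fin M) (h : t.val + 1 = t'.val) :
      OE n R M x (Sum.inr (b, t)) (Sum.inr (b, t'))

theorem ends_ne' {o : LO} (h : o.pres = true) (i r : ℕ) :
    ¬ (ptX (o.gA i r) = ptX (o.gB i r) ∧ ptY (o.gA i r) = ptY (o.gB i r)) := by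
  have h1 := ends_ne h
  intro ⟨h2, h3⟩
  apply h1
  simp only [LO.gA, LO.gB, ptX, ptY, Id3.sh] at h2 h3 ⊢
  push_cast at h2 h3 ⊢
  constructor <;> omega

theorem pt_ne {o : LO} (h : o.pres = true) (i r : ℕ) :
    (vCor (o.gA i r)).pt ≠ (vCor (o.gB i r)).pt := by
  intro h2
  apply ends_ne' h i r
  simp only [Cor.pt, vCor, Prod.mk.injEq] at h2
  obtain ⟨h3, h4⟩ := h2
  have h3' : 200 * ptX (o.gA i r) = 200 * ptX (o.gB i r) := by exact_mod_cast h3
  have h4' : 200 * ptY (o.gA i r) = 200 * ptY (o.gB i r) := by exact_mod_cast h4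
  constructor <;> omega

theorem det_ne {o : LO} (h : o.pres = true) (i r : ℕ) :
    (vd (o.gA i r) (o.gB i r)).1 * (ve (o.gA i r) (o.gB i r)).2 -
      (vd (o.gA i r) (o.gB i r)).2 * (ve (o.gA i r) (o.gB i r)).1 ≠ 0 := by
  intro h2
  apply ends_ne' h i r
  simp only [vd, ve] at h2
  set x := (ptX (o.gA i r) : ℝ) - ptX (o.gB i r) with hx
  set y := (ptY (o.gA i r) : ℝ) - ptY (o.gB i r) with hy
  have h3 : x ^ 2 + y ^ 2 = 0 := by
    have h4 : (ptX (o.gB i r) : ℝ) - ptX (o.gA i r) = -x := by rw [hx]; ring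
    rw [h4] at h2
    linarith [h2]
  have h5 : x = 0 := by nlinarith [sq_nonneg x, sq_nonneg y]
  have h6 : y = 0 := by nlinarith [sq_nonneg x, sq_nonneg y]
  constructor
  · have : (ptX (o.gA i r) : ℝ) = ptX (o.gB i r) := by linarith
    exact_mod_cast this
  · have : (ptY (o.gA i r) : ℝ) = ptY (o.gB i r) := by linarith
    exact_mod_cast this

theorem rep_A (g h : Id3) : Rep (ctr g h) (vd g h) (ve g h) (vCor g).pt 1 0 := by
  unfold Rep
  ext
  · simp [ctr, vd, ve, vCor, Cor.pt]; ring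
  · simp [ctr, vd, ve, vCor, Cor.pt]; ring

theorem rep_B (g h : Id3) : Rep (ctr g h) (vd g h) (ve g h) (vCor h).pt (-1) 0 := by
  unfold Rep
  ext
  · simp [ctr, vd, ve, vCor, Cor.pt]; ring
  · simp [ctr, vd, ve, vCor, Cor.pt]; ring

theorem mem_cor_A (o : LO) (i r : ℕ) : vCor (o.gA i r) ∈ o.cor i r := by
  unfold LO.cor corL LO.gA
  split_ifs <;> simp

theorem mem_cor_B (o : LO) (i r : ℕ) : vCor (o.gB i r) ∈ o.cor i r := by
  unfold LO.cor corL LO.gB
  split_ifs <;> simp

theorem cor_vCor {o : LO} {i r : ℕ} {g : Id3} (h : vCor g ∈ o.cor i r) :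
    g = o.gA i r ∨ g = o.gB i r := by
  unfold LO.cor corL at h
  have key : ∀ a b : Id3, vCor a = vCor b → a = b := by
    intro a b h
    simp only [vCor, Cor.mk.injEq, Option.some.injEq] at h
    exact h.2.2
  split_ifs at h
  · simp only [List.mem_cons, List.not_mem_nil, or_false] at h
    rcases h with h | h | h | h
    · exact Or.inl (key _ _ h)
    · exact Or.inr (key _ _ h)
    · simp [vCor] at h
    · simp [vCor] at h
  · simp only [List.mem_cons, List.not_mem_nil, or_false] at h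
    rcases h with h | h
    · exact Or.inl (key _ _ h)
    · exact Or.inr (key _ _ h)

theorem place_inr_mem (M : ℕ) (b : GB n R) (t : Fin M) :
    place M (Sum.inr (b, t)) ∈ hull ((bo b).1.cor (bo b).2.1 (bo b).2.2) := by
  set o := (bo b).1 with ho
  set i : ℕ := ((bo b).2.1).val with hi
  set r : ℕ := ((bo b).2.2).val with hr
  have hb : o.blue = true := bo_blue b
  set g := o.gA i r with hg
  set h := o.gB i r with hh
  have hc : o.cor i r = corL true g h := by
    unfold LO.cor
    rw [hb]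
    rfl
  rw [hc]
  have hconv : Convex ℝ (hull (corL true g h)) := convex_convexHull ℝ _
  have h1 : ctr g h + ve g h ∈ hull (corL true g h) := by
    have : (⟨100 * (ptX g + ptX h) + (ptY g - ptY h), 100 * (ptY g + ptY h) + (ptX h - ptX g),
      none⟩ : Cor) ∈ corL true g h := by simp [corL]
    have h2 := mem_hull this
    have h3 : ctr g h + ve g h = (⟨100 * (ptX g + ptX h) + (ptY g - ptY h),
      100 * (ptY g + ptY h) + (ptX h - ptX g), none⟩ : Cor).pt := by
      simp only [ctr, ve, Cor.pt, Prod.mk_add_mk]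
      push_cast
      rfl
    rw [h3]
    exact h2
  have h2 : ctr g h - ve g h ∈ hull (corL true g h) := by
    have : (⟨100 * (ptX g + ptX h) - (ptY g - ptY h), 100 * (ptY g + ptY h) - (ptX h - ptX g),
      none⟩ : Cor) ∈ corL true g h := by simp [corL]
    have h2 := mem_hull this
    have h3 : ctr g h - ve g h = (⟨100 * (ptX g + ptX h) - (ptY g - ptY h),
      100 * (ptY g + ptY h) - (ptX h - ptX g), none⟩ : Cor).pt := by
      simp only [ctr, ve, Cor.pt, Prod.mk_sub_mk]
      push_cast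
      rfl
    rw [h3]
    exact h2
  obtain ⟨h3, h4⟩ := tau_bounds t
  have h5 := hconv h1 h2 (a := (1 + tau M t) / 2) (b := (1 - tau M t) / 2)
    (by linarith) (by linarith) (by ring)
  have h6 : place M (Sum.inr (b, t)) = ((1 + tau M t) / 2) • (ctr g h + ve g h) +
      ((1 - tau M t) / 2) • (ctr g h - ve g h) := by
    change ctr g h + (0 : ℝ) • vd g h + tau M t • ve g h = _
    ext
    · simp; ring
    · simp; ring
  rw [h6]
  exact h5

theorem oe_mem {M : ℕ} {x : LO × Fin n × Fin R} {u v : GV n R ⊕ (GB n R × Fin M)}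
    (h : OE n R M x u v) : u ∈ omem n R M x ∧ v ∈ omem n R M x := by
  have hbp : ∀ b : GB n R, bo b = x → Pres n R x.1 x.2.1 x.2.2 := by
    rintro b rfl
    rcases b with ⟨w, k⟩ | ⟨c, j⟩ | ⟨c, j⟩ <;> trivial
  cases h with
  | red hb hp u v hu hv => exact ⟨⟨hp, Or.inl hu⟩, ⟨hp, Or.inr hv⟩⟩
  | hub b hb u t hu => exact ⟨⟨hbp b hb, hu⟩, ⟨hbp b hb, hb⟩⟩
  | path b hb t t' h => exact ⟨⟨hbp b hb, hb⟩, ⟨hbp b hb, hb⟩⟩

theorem good_obj (M : ℕ) (x : LO × Fin n × Fin R) :
    Good (place M) (omem n R M x) (OE n R M x) := by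
  by_cases hp : Pres n R x.1 x.2.1 x.2.2
  swap
  · constructor
    · intro u hu
      exact absurd hu.1 hp
    · exact fun u v h => oe_mem h
    · intro u v w h
      exact absurd (oe_mem h).1.1 hp
    · intro u v u' v' h
      exact absurd (oe_mem h).1.1 hp
  cases hblue : x.1.blue with
  | false =>
    -- a hard edge
    by_cases hex : (∃ u : GV n R, gid u = x.1.gA x.2.1 x.2.2) ∧
      (∃ v : GV n R, gid v = x.1.gB x.2.1 x.2.2)
    · obtain ⟨⟨u0, hu0⟩, ⟨v0, hv0⟩⟩ := hex
      refine good_edge _ _ _ (Sum.inl u0) (Sum.inl v0) ?_ ?_ (fun _ _ h => oe_mem h) ?_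
      · rintro (y | ⟨b, t⟩) hy
        · rcases hy.2 with h | h
          · left
            rw [gid_injective (h.trans hu0.symm)]
          · right
            rw [gid_injective (h.trans hv0.symm)]
        · exfalso
          have h1 : bo b = x := hy.2
          have h2 := bo_blue b
          rw [h1, hblue] at h2
          exact absurd h2 (by decide)
      · change (vCor (gid u0)).pt ≠ (vCor (gid v0)).pt
        rw [hu0, hv0]
        exact pt_ne hp.pres _ _
      · intro a b h
        cases h with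
        | red hb hp u v hu hv =>
          rw [gid_injective (hu.trans hu0.symm), gid_injective (hv.trans hv0.symm)]
          exact ⟨rfl, rfl⟩
        | hub b hb u t hu =>
          exfalso
          have h2 := bo_blue b
          rw [hb, hblue] at h2
          exact absurd h2 (by decide)
        | path b hb t t' h =>
          exfalso
          have h2 := bo_blue b
          rw [hb, hblue] at h2
          exact absurd h2 (by decide)
    · have hE : ∀ a b, ¬ OE n R M x a b := by
        intro a b h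
        cases h with
        | red hb hp u v hu hv => exact hex ⟨⟨u, hu⟩, ⟨v, hv⟩⟩
        | hub b hb u t hu =>
          have h2 := bo_blue b
          rw [hb, hblue] at h2
          exact absurd h2 (by decide)
        | path b hb t t' h =>
          have h2 := bo_blue b
          rw [hb, hblue] at h2
          exact absurd h2 (by decide)
      constructor
      · rintro (u | ⟨b, t⟩) hu
        swap
        · exfalso
          have h1 : bo b = x := hu.2
          have h2 := bo_blue b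
          rw [h1, hblue] at h2
          exact absurd h2 (by decide)
        rintro (v | ⟨b, t⟩) hv
        swap
        · exfalso
          have h1 : bo b = x := hv.2
          have h2 := bo_blue b
          rw [h1, hblue] at h2
          exact absurd h2 (by decide)
        intro huv
        rcases hu.2 with hu | hu <;> rcases hv.2 with hv | hv
        · rw [gid_injective (hu.trans hv.symm)]
        · exact absurd ⟨⟨u, hu⟩, ⟨v, hv⟩⟩ hex
        · exact absurd ⟨⟨v, hv⟩, ⟨u, hu⟩⟩ hex
        · rw [gid_injective (hu.trans hv.symm)]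
      · exact fun u v h => absurd h (hE u v)
      · exact fun u v w h => absurd h (hE u v)
      · exact fun u v u' v' h => absurd h (hE u v)
  | true =>
    obtain ⟨b, hb⟩ : ∃ b : GB n R, bo b = x := by
      obtain ⟨o, c⟩ := x
      cases o with
      | rim w i => exact absurd hblue (by simp [LO.blue])
      | v1 c j => exact absurd hblue (by simp [LO.blue])
      | v2 c j => exact absurd hblue (by simp [LO.blue])
      | close c => exact absurd hblue (by simp [LO.blue])
      | spoke w i => exact ⟨Sum.inl ((w, c), i), rfl⟩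
      | f c' j => exact ⟨Sum.inr (Sum.inl ((c', c), j)), rfl⟩
      | e c' j => exact ⟨Sum.inr (Sum.inr ((c', c), j)), rfl⟩
    classical
    set g := x.1.gA x.2.1 x.2.2 with hg
    set h := x.1.gB x.2.1 x.2.2 with hh
    have hgh : (vCor g).pt ≠ (vCor h).pt := pt_ne hp.pres _ _
    refine good_fan (M := M) (place M) (ctr g h) (vd g h) (ve g h) (det_ne hp.pres _ _) (tau M)
      (tau_strictMono M) {v | ∃ y : GV n R, v = Sum.inl y ∧ (gid y = g ∨ gid y = h)}
      (omem n R M x) (fun v => if (∃ y : GV n R, v = Sum.inl y ∧ gid y = g) then 1 else -1)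
      (fun t => Sum.inr (b, t)) ?_ ?_ ?_ ?_ ?_ ?_ ?_ _ ?_
    · rintro (y | ⟨b', t⟩) hy
      · exact Or.inl ⟨y, rfl, hy.2⟩
      · right
        refine ⟨t, ?_⟩
        have h1 : bo b' = x := hy.2
        rw [bo_injective (h1.trans hb.symm)]
    · rintro w ⟨y, rfl, hy⟩
      exact ⟨hp, hy⟩
    · intro t
      exact ⟨hp, hb⟩
    · rintro w ⟨y, rfl, hy⟩
      rcases hy with hy | hy
      · rw [if_pos ⟨y, rfl, hy⟩]
        change Rep _ _ _ (vCor (gid y)).pt 1 0
        rw [hy]
        exact rep_A g h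
      · have hne : ¬ ∃ y' : GV n R,
            (Sum.inl y : GV n R ⊕ (GB n R × Fin M)) = Sum.inl y' ∧ gid y' = g := by
          rintro ⟨y', h1, h2⟩
          rw [Sum.inl.injEq] at h1
          subst h1
          apply hgh
          rw [← h2, ← hy]
        rw [if_neg hne]
        change Rep _ _ _ (vCor (gid y)).pt (-1) 0
        rw [hy]
        exact rep_B g h
    · intro w _
      split_ifs
      · exact Or.inl rfl
      · exact Or.inr rfl
    · rintro w ⟨y, rfl, hy⟩ w' ⟨y', rfl, hy'⟩ hcx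
      simp only [Sum.inl.injEq, exists_eq_left'] at hcx
      have h1 : gid y = gid y' := by
        by_cases e1 : gid y = g
        · rw [if_pos e1] at hcx
          by_cases e2 : gid y' = g
          · rw [e1, e2]
          · rw [if_neg e2] at hcx
            norm_num at hcx
        · rw [if_neg e1] at hcx
          by_cases e2 : gid y' = g
          · rw [if_pos e2] at hcx
            norm_num at hcx
          · rw [hy.resolve_left e1, hy'.resolve_left e2]
      rw [gid_injective h1]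
    · intro t
      unfold Rep
      subst hb
      rfl
    · intro u v huv
      cases huv with
      | red hb' hp u v hu hv =>
        exfalso
        rw [hblue] at hb'
        exact absurd hb' (by decide)
      | hub b' hb' u t hu =>
        left
        refine ⟨⟨u, rfl, hu⟩, t, ?_⟩
        rw [bo_injective (hb'.trans hb.symm)]
      | path b' hb' t t' htt =>
        right
        refine ⟨t, t', htt, ?_, ?_⟩
        · rw [bo_injective (hb'.trans hb.symm)]
        · rw [bo_injective (hb'.trans hb.symm)]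

theorem real_A {x : LO × Fin n × Fin R} (hp : Pres n R x.1 x.2.1 x.2.2) :
    ∃ y : GV n R, gid y = x.1.gA x.2.1 x.2.2 := by
  obtain ⟨o, i, r⟩ := x
  cases o with
  | rim w k => exact ⟨.rim (w, i, r) k, by simp [gid, LO.gA, LO.ends, Id3.sh]⟩
  | v1 c j =>
    obtain ⟨q, hq, _⟩ := hp
    exact ⟨.path (c, i, r) j.castSucc, by simp [gid, LO.gA, LO.ends, Id3.sh, hq]⟩
  | v2 c j =>
    obtain ⟨q, hq, _⟩ := hp
    exact ⟨.path (c, i, r) j.succ, by simp [gid, LO.gA, LO.ends, Id3.sh, hq]⟩
  | close c => exact ⟨.path (c, i, r) 0, by simp [gid, LO.gA, LO.ends, Id3.sh]⟩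
  | spoke w k => exact ⟨.hub (w, i, r), by simp [gid, LO.gA, LO.ends, Id3.sh]⟩
  | f c j => exact ⟨.path (c, i, r) j.castSucc, by simp [gid, LO.gA, LO.ends, Id3.sh]⟩
  | e c j =>
    refine ⟨.path (c, i, r) j.castSucc, ?_⟩
    simp only [gid, LO.gA, LO.ends]
    cases portTab c j <;> simp [Id3.sh]

theorem real_B {x : LO × Fin n × Fin R} (hp : Pres n R x.1 x.2.1 x.2.2) :
    (∃ y : GV n R, gid y = x.1.gB x.2.1 x.2.2) ∨ ∃ c j, x.1 = .e c j := by
  obtain ⟨o, i, r⟩ := x
  cases o with
  | rim w k => exact Or.inl ⟨.rim (w, i, r) (k + 1), by simp [gid, LO.gB, LO.ends, Id3.sh]⟩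
  | v1 c j =>
    obtain ⟨q, hq, h1, h2⟩ := hp
    left
    refine ⟨.rim (q.1, ⟨i + q.2.1, h1⟩, ⟨r + q.2.2.1, h2⟩) q.2.2.2, ?_⟩
    simp [gid, LO.gB, LO.ends, Id3.sh, hq, Nat.add_comm]
  | v2 c j =>
    obtain ⟨q, hq, h1, h2⟩ := hp
    left
    refine ⟨.rim (q.1, ⟨i + q.2.1, h1⟩, ⟨r + q.2.2.1, h2⟩) (q.2.2.2 + 2), ?_⟩
    simp [gid, LO.gB, LO.ends, Id3.sh, hq, Nat.add_comm]
  | close c => exact Or.inl ⟨.path (c, i, r) 3, by simp [gid, LO.gB, LO.ends, Id3.sh]⟩
  | spoke w k => exact Or.inl ⟨.rim (w, i, r) k, by simp [gid, LO.gB, LO.ends, Id3.sh]⟩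
  | f c j => exact Or.inl ⟨.path (c, i, r) j.succ, by simp [gid, LO.gB, LO.ends, Id3.sh]⟩
  | e c j => exact Or.inr ⟨c, j, rfl⟩

theorem e_code_inj : ∀ c j c' j', (LO.e c j).ends.2.1 = (LO.e c' j').ends.2.1 →
    c = c' ∧ j = j' := by
  decide +kernel

theorem obj_disj (M : ℕ) (x x' : LO × Fin n × Fin R) (hne : x ≠ x') (z : ℝ × ℝ)
    (hz : z ∈ oreg n R x) (hz' : z ∈ oreg n R x') :
    ∃ y, y ∈ omem n R M x ∧ y ∈ omem n R M x' ∧ z = place M y := by
  obtain ⟨hp, hz⟩ := hz
  obtain ⟨hp', hz'⟩ := hz'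
  have hne' : ¬ (x.1 = x'.1 ∧ (x.2.1 : ℕ) = x'.2.1 ∧ (x.2.2 : ℕ) = x'.2.2) := by
    rintro ⟨h1, h2, h3⟩
    apply hne
    ext
    · rw [h1]
    · exact h2
    · exact h3
  obtain ⟨gg, h1, h2, h3⟩ := meet_all hp.pres hp'.pres x.2.1 x.2.2 x'.2.1 x'.2.2 hne' z hz hz'
  have h4 := cor_vCor h1
  have h5 := cor_vCor h2
  have key : ∃ y : GV n R, gid y = gg := by
    rcases h4 with h4 | h4
    · rw [h4]; exact real_A hp
    rcases h5 with h5 | h5
    · rw [h5]; exact real_A hp'
    rcases real_B hp with h6 | ⟨c, j, h6⟩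
    · rw [h4]; exact h6
    rcases real_B hp' with h7 | ⟨c', j', h7⟩
    · rw [h5]; exact h7
    exfalso
    apply hne'
    have h8 : x.1.gB x.2.1 x.2.2 = x'.1.gB x'.2.1 x'.2.2 := by rw [← h4, ← h5]
    rw [h6, h7] at h8
    simp only [LO.gB, Id3.sh, Prod.mk.injEq] at h8
    obtain ⟨h9, h10, h11⟩ := h8
    obtain ⟨rfl, rfl⟩ := e_code_inj c j c' j' h9
    rw [h6, h7]
    refine ⟨rfl, ?_, ?_⟩
    · omega
    · omega
  obtain ⟨y, hy⟩ := key
  refine ⟨Sum.inl y, ⟨hp, ?_⟩, ⟨hp', ?_⟩, ?_⟩
  · change gid y = _ ∨ gid y = _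
    rw [hy]; exact h4
  · change gid y = _ ∨ gid y = _
    rw [hy]; exact h5
  · change z = (vCor (gid y)).pt
    rw [hy]; exact h3

theorem mem_reg (M : ℕ) (x : LO × Fin n × Fin R) : ∀ v ∈ omem n R M x, place M v ∈ oreg n R x := by
  rintro (y | ⟨b, t⟩) ⟨hp, hv⟩
  · refine ⟨hp, ?_⟩
    change (vCor (gid y)).pt ∈ _
    have hv' : gid y = x.1.gA x.2.1 x.2.2 ∨ gid y = x.1.gB x.2.1 x.2.2 := hv
    rcases hv' with h | h
    · rw [h]; exact mem_hull (mem_cor_A _ _ _)
    · rw [h]; exact mem_hull (mem_cor_B _ _ _)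
  · have hv' : bo b = x := hv
    subst hv'
    exact ⟨hp, place_inr_mem M b t⟩

theorem convex_reg (x : LO × Fin n × Fin R) : Convex ℝ (oreg n R x) := by
  by_cases hp : Pres n R x.1 x.2.1 x.2.2
  · have : oreg n R x = hull (x.1.cor x.2.1 x.2.2) := by
      ext z
      exact ⟨fun h => h.2, fun h => ⟨hp, h⟩⟩
    rw [this]
    exact convex_convexHull ℝ _
  · have : oreg n R x = ∅ := by
      ext z
      constructor
      · rintro ⟨h, _⟩
        exact absurd h hp
      · intro h
        exact absurd h (Set.notMem_empty z)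
    rw [this]
    exact convex_empty

variable (lit : Fin n → Fin R → Bool)

theorem edge_obj {M : ℕ} {u v : GV n R ⊕ (GB n R × Fin M)}
    (h : (gridNet n R lit).skel.Edge M u v) : ∃ x, OE n R M x u v := by
  cases h with
  | red h =>
    have h' : (gridNet n R lit).Red _ _ := h
    cases h' with
    | rim w k =>
      refine ⟨(.rim w.1 k, w.2), ?_⟩
      have hpres : Pres n R (.rim w.1 k) w.2.1 w.2.2 := trivial
      exact OE.red rfl hpres _ _
        (by simp [gid, LO.gA, LO.ends, Id3.sh]) (by simp [gid, LO.gB, LO.ends, Id3.sh])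
    | v1 c j w p hport =>
      rw [port_some] at hport
      obtain ⟨q, h1, h2, h3, h4, h5, h6⟩ := hport
      simp only at h3 h4 h5 h6
      refine ⟨(.v1 c.1 j, c.2), ?_⟩
      have hpres : Pres n R (.v1 c.1 j) c.2.1 c.2.2 :=
        ⟨q, h1, by rw [← h4]; exact w.2.1.isLt, by rw [← h5]; exact w.2.2.isLt⟩
      refine OE.red rfl hpres _ _ ?_ ?_
      · simp [gid, LO.gA, LO.ends, Id3.sh, h1]
      · simp [gid, LO.gB, LO.ends, Id3.sh, h1, h3, h4, h5, h6, Nat.add_comm]
    | v2 c j w p hport =>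
      rw [port_some] at hport
      obtain ⟨q, h1, h2, h3, h4, h5, h6⟩ := hport
      simp only at h3 h4 h5 h6
      refine ⟨(.v2 c.1 j, c.2), ?_⟩
      have hpres : Pres n R (.v2 c.1 j) c.2.1 c.2.2 :=
        ⟨q, h1, by rw [← h4]; exact w.2.1.isLt, by rw [← h5]; exact w.2.2.isLt⟩
      refine OE.red rfl hpres _ _ ?_ ?_
      · simp [gid, LO.gA, LO.ends, Id3.sh, h1]
      · simp [gid, LO.gB, LO.ends, Id3.sh, h1, h3, h4, h5, h6, Nat.add_comm]
    | close c hact =>
      refine ⟨(.close c.1, c.2), ?_⟩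
      have hpres : Pres n R (.close c.1) c.2.1 c.2.2 := trivial
      exact OE.red rfl hpres _ _
        (by simp [gid, LO.gA, LO.ends, Id3.sh]) (by simp [gid, LO.gB, LO.ends, Id3.sh])
  | fst b t =>
    refine ⟨bo b, .hub b rfl _ t (Or.inl ?_)⟩
    rcases b with ⟨w, k⟩ | ⟨c, j⟩ | ⟨c, j⟩
    · simp [Net.skel, gid, LO.gA, LO.ends, Id3.sh, bo]
    · simp [Net.skel, gid, LO.gA, LO.ends, Id3.sh, bo]
    · simp only [Net.skel, gid, LO.gA, LO.ends, bo]
      cases portTab c.1 j <;> simp [Id3.sh]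
  | snd b t =>
    refine ⟨bo b, .hub b rfl _ t ?_⟩
    rcases b with ⟨w, k⟩ | ⟨c, j⟩ | ⟨c, j⟩
    · right
      simp [Net.skel, gid, LO.gB, LO.ends, Id3.sh, bo]
    · right
      simp [Net.skel, gid, LO.gB, LO.ends, Id3.sh, bo]
    · simp only [Net.skel, Net.eEnd]
      cases hport : (gridNet n R lit).port c j with
      | none =>
        left
        simp only [gid, LO.gA, LO.ends, bo]
        cases portTab c.1 j <;> simp [Id3.sh]
      | some x =>
        right
        rw [port_some] at hport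
        obtain ⟨q, h1, h2, h3, h4, h5, h6⟩ := hport
        simp [gid, LO.gB, LO.ends, Id3.sh, bo, h1, h3, h4, h5, h6, Nat.add_comm]
  | path b t t' h => exact ⟨bo b, .path b rfl t t' h⟩

/-- The graph of the grid network is planar. -/
theorem gridNet_planar (M : ℕ) : PlanarGraph ((gridNet n R lit).skel.graph M) := by
  refine planar_of_objects (O := LO × Fin n × Fin R) _ (place M) (omem n R M) (OE n R M)
    (oreg n R) ?_ ?_ (good_obj M) convex_reg (mem_reg M) (obj_disj M)
  · intro u v huv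
    rw [Skel.graph, SimpleGraph.fromRel_adj] at huv
    obtain ⟨_, h | h⟩ := huv
    · obtain ⟨x, hx⟩ := edge_obj lit h
      exact ⟨x, Or.inl hx⟩
    · obtain ⟨x, hx⟩ := edge_obj lit h
      exact ⟨x, Or.inr hx⟩
  · rintro (y | ⟨b, t⟩)
    · rcases y with w | ⟨w, k⟩ | ⟨c, j⟩
      · exact ⟨(.spoke w.1 0, w.2), trivial, Or.inl (by simp [gid, LO.gA, LO.ends, Id3.sh])⟩
      · exact ⟨(.spoke w.1 k, w.2), trivial, Or.inr (by simp [gid, LO.gB, LO.ends, Id3.sh])⟩
      · by_cases hj : j.val < 3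
        · refine ⟨(.f c.1 ⟨j.val, hj⟩, c.2), trivial, Or.inl ?_⟩
          simp [gid, LO.gA, LO.ends, Id3.sh]
        · refine ⟨(.f c.1 2, c.2), trivial, Or.inr ?_⟩
          have : j = 3 := Fin.ext (by have := j.isLt; change j.val = 3; omega)
          subst this
          simp [gid, LO.gB, LO.ends, Id3.sh]
    · refine ⟨bo b, ?_, rfl⟩
      rcases b with ⟨w, k⟩ | ⟨c, j⟩ | ⟨c, j⟩ <;> trivial

end

end Pool.Agent.H.MP_20b771_lc
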