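import Pool.Agent.H.MP_20b771_lc.Grid

/-!
Satisfiability of the grid network is satisfiability of the formula.
-/

namespace Pool.Agent.H.MP_20b771_lc

/-- Satisfiability of a CNF formula given by literal bits: clause `j` contains the variable `i`
if `lit i (2j)`, and its negation if `lit i (2j+1)`. -/
def FSat (n m : ℕ) (lit : Fin n → Fin (2 * m) → Bool) : Prop :=
  ∃ x : Fin n → Bool, ∀ j : Fin m, ∃ i,
    (lit i ⟨2 * j.val, by omega⟩ = true ∧ x i = true) ∨
    (lit i ⟨2 * j.val + 1, by omega⟩ = true ∧ x i = false)

theorem exists_switch (n : ℕ) (s : ℕ → Bool) (h0 : s 0 = false) (hn : s n = true) :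
    ∃ i < n, s i = false ∧ s (i + 1) = true := by
  by_contra hcon
  push Not at hcon
  have : ∀ i ≤ n, s i = false := by
    intro i
    induction i with
    | zero => intro _; exact h0
    | succ i ih =>
      intro hi
      have h1 := hcon i (by omega) (ih (by omega))
      simpa using h1
  have := this n le_rfl
  rw [hn] at this
  exact absurd this (by decide)

section

variable {n m : ℕ} {lit : Fin n → Fin (2 * m) → Bool} {A : WK → Fin n → Fin (2 * m) → Bool}

theorem T_flip (h : GridSat n (2 * m) lit A) (i : Fin n) (r : Fin (2 * m))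
    (hr : r.val + 1 < 2 * m) : A .T i ⟨r.val + 1, hr⟩ = !(A .T i r) := by
  have ha := h.ha i r
  have hb := h.hb i r hr
  have he := h.he i r hr
  have hf := h.hf i r hr
  have hg := h.hg i r
  have hh := h.hh i r
  cases h1 : A .T i ⟨r.val + 1, hr⟩ <;> cases h2 : A .T i r <;> cases h3 : A .X i r <;>
    cases h4 : A .Y i r <;> simp_all

theorem T_par (h : GridSat n (2 * m) lit A) (i : Fin n) (h0 : 0 < 2 * m) (r : ℕ)
    (hr : r < 2 * m) :
    A .T i ⟨r, hr⟩ = (if r % 2 = 0 then A .T i ⟨0, h0⟩ else !(A .T i ⟨0, h0⟩)) := by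
  induction r with
  | zero => simp
  | succ r ih =>
    have h1 := T_flip h i ⟨r, by omega⟩ hr
    rw [h1, ih (by omega)]
    rcases Nat.mod_two_eq_zero_or_one r with h2 | h2
    · have h3 : (r + 1) % 2 = 1 := by omega
      simp [h2, h3]
    · have h3 : (r + 1) % 2 = 0 := by omega
      simp [h2, h3]

theorem S_eq (h : GridSat n (2 * m) lit A) (i : Fin n) (r : Fin (2 * m))
    (hr : r.val + 1 < 2 * m) (hp : r.val % 2 = 0) :
    A .S i ⟨r.val + 1, hr⟩ = A .S i r := by
  have hk := h.hk i r hr hp
  have hl := h.hl i r hr hp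
  cases h1 : A .S i ⟨r.val + 1, hr⟩ <;> cases h2 : A .S i r <;> simp_all

theorem lit_of_switch (h : GridSat n (2 * m) lit A) (i : Fin n) (r : Fin (2 * m))
    (hT : A .T i r = false) (h1 : ¬ (0 < i.val ∧ A .S i r = true))
    (h2 : ∀ hi : i.val + 1 < n, A .S ⟨i.val + 1, hi⟩ r = true) : lit i r = true := by
  by_contra hl
  have hl' : lit i r = false := by simpa using hl
  have hX : A .X i r = false := by
    rcases h.hc i r hl' with h3 | h3
    · exact absurd h3 h1
    · exact h3
  have hY : A .Y i r = false := by
    rcases h.hd i r hl' with h3 | ⟨h4, h5⟩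
    · exact h3
    · rw [h2 h4] at h5
      exact absurd h5 (by decide)
  rcases h.ha i r with h3 | h3 | h3
  · rw [hY] at h3; exact absurd h3 (by decide)
  · rw [hT] at h3; exact absurd h3 (by decide)
  · rw [hX] at h3; exact absurd h3 (by decide)

theorem fsat_of_gridSat (h : GridSat n (2 * m) lit A) (hn : 0 < n) : FSat n m lit := by
  rcases Nat.eq_zero_or_pos m with hm | hm
  · subst hm
    exact ⟨fun _ => true, fun j => j.elim0⟩
  have h0 : 0 < 2 * m := by omega
  refine ⟨fun i => !(A .T i ⟨0, h0⟩), ?_⟩
  intro j
  have hj0 : 2 * j.val < 2 * m := by omega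
  have hj1 : 2 * j.val + 1 < 2 * m := by omega
  let s : ℕ → Bool := fun i =>
    if i = 0 then false else if hi : i < n then A .S ⟨i, hi⟩ ⟨2 * j.val, hj0⟩ else true
  obtain ⟨i, hi, hs0, hs1⟩ := exists_switch n s (by simp [s]) (by simp [s]; omega)
  refine ⟨⟨i, hi⟩, ?_⟩
  have a0 := T_par h ⟨i, hi⟩ h0 (2 * j.val) hj0
  have a1 := T_par h ⟨i, hi⟩ h0 (2 * j.val + 1) hj1
  have p0 : (2 * j.val) % 2 = 0 := by omega
  have p1 : (2 * j.val + 1) % 2 = 1 := by omega
  rw [if_pos p0] at a0
  rw [p1, if_neg (by decide)] at a1
  have b0 : ¬ (0 < i ∧ A .S ⟨i, hi⟩ ⟨2 * j.val, hj0⟩ = true) := by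
    rintro ⟨h1, h2⟩
    simp only [s] at hs0
    rw [if_neg (by omega), dif_pos hi, h2] at hs0
    exact absurd hs0 (by decide)
  have b1 : ∀ hi' : i + 1 < n, A .S ⟨i + 1, hi'⟩ ⟨2 * j.val, hj0⟩ = true := by
    intro hi'
    simp only [s] at hs1
    rw [if_neg (by omega), dif_pos hi'] at hs1
    exact hs1
  cases hx : A .T ⟨i, hi⟩ ⟨0, h0⟩ with
  | false =>
    left
    refine ⟨?_, by simp [hx]⟩
    apply lit_of_switch h
    · rw [a0, hx]
    · exact b0
    · exact b1
  | true =>
    right
    refine ⟨?_, by simp [hx]⟩
    apply lit_of_switch h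
    · rw [a1, hx]; rfl
    · have := S_eq h ⟨i, hi⟩ ⟨2 * j.val, hj0⟩ hj1 p0
      rw [this]
      exact b0
    · intro hi'
      have := S_eq h ⟨i + 1, hi'⟩ ⟨2 * j.val, hj0⟩ hj1 p0
      rw [this]
      exact b1 hi'

theorem gridSat_of_fsat (hn : 0 < n) (h : FSat n m lit) :
    ∃ A : WK → Fin n → Fin (2 * m) → Bool, GridSat n (2 * m) lit A := by
  classical
  obtain ⟨x, hx⟩ := h
  choose ind0 hind0 using hx
  -- extend the choice to all natural numbers
  let ind : ℕ → Fin n := fun j => if hj : j < m then ind0 ⟨j, hj⟩ else ⟨0, hn⟩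
  have hind : ∀ (r : Fin (2 * m)), (lit (ind (r.val / 2)) r = true) ∨
      (x (ind (r.val / 2)) = decide (r.val % 2 = 1)) := by
    intro r
    have hj : r.val / 2 < m := by have := r.isLt; omega
    have e : ind (r.val / 2) = ind0 ⟨r.val / 2, hj⟩ := by simp only [ind]; rw [dif_pos hj]
    rw [e]
    rcases hind0 ⟨r.val / 2, hj⟩ with ⟨h1, h2⟩ | ⟨h1, h2⟩
    · rcases Nat.mod_two_eq_zero_or_one r.val with h3 | h3
      · left
        have e2 : (⟨2 * (r.val / 2), by omega⟩ : Fin (2 * m)) = r :=
          Fin.ext (by simp only; omega)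
        rw [← h1]
        congr 1
        exact e2.symm
      · right
        rw [h2, h3]; rfl
    · rcases Nat.mod_two_eq_zero_or_one r.val with h3 | h3
      · right
        rw [h2, h3]; rfl
      · left
        have e2 : (⟨2 * (r.val / 2) + 1, by omega⟩ : Fin (2 * m)) = r :=
          Fin.ext (by simp only; omega)
        rw [← h1]
        congr 1
        exact e2.symm
  let T : Fin n → ℕ → Bool := fun i r => if r % 2 = 0 then !(x i) else x i
  have hT : ∀ i r, T i (r + 1) = !(T i r) := by
    intro i r
    simp only [T]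
    rcases Nat.mod_two_eq_zero_or_one r with h2 | h2
    · have h3 : (r + 1) % 2 = 1 := by omega
      simp [h2, h3]
    · have h3 : (r + 1) % 2 = 0 := by omega
      simp [h2, h3]
  let A : WK → Fin n → Fin (2 * m) → Bool := fun k i r => match k with
    | .T => T i r.val
    | .X => !(T i r.val) && decide ((ind (r.val / 2)).val ≤ i.val)
    | .Y => !(T i r.val) && decide (i.val < (ind (r.val / 2)).val)
    | .S => decide ((ind (r.val / 2)).val < i.val)
  refine ⟨A, ?_⟩
  constructor
  · intro i r
    simp only [A]
    cases h1 : T i r.val with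
    | true => right; left; rfl
    | false =>
      by_cases h2 : (ind (r.val / 2)).val ≤ i.val
      · right; right; simp [h2]
      · left; simp; omega
  · intro i r hr
    simp only [A]
    rw [hT]
    cases h1 : T i r.val with
    | true => right; left; rfl
    | false =>
      by_cases h2 : (ind (r.val / 2)).val ≤ i.val
      · left; simp [h2]
      · right; right; simp; omega
  · intro i r hl
    simp only [A]
    cases h1 : T i r.val with
    | true => right; rfl
    | false =>
      by_cases h2 : (ind (r.val / 2)).val ≤ i.val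
      · by_cases h3 : (ind (r.val / 2)).val < i.val
        · left; exact ⟨by omega, by simpa using h3⟩
        · exfalso
          have h4 : ind (r.val / 2) = i := Fin.ext (by omega)
          have h5 := hind r
          rw [h4, hl] at h5
          simp only [Bool.false_eq_true, false_or] at h5
          simp only [T] at h1
          rw [h5] at h1
          rcases Nat.mod_two_eq_zero_or_one r.val with h6 | h6
          · rw [h6] at h1; simp at h1
          · rw [h6] at h1; simp at h1
      · right; simp; omega
  · intro i r hl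
    simp only [A]
    by_cases h2 : i.val < (ind (r.val / 2)).val
    · right
      have h3 := (ind (r.val / 2)).isLt
      exact ⟨by omega, by simp; omega⟩
    · left; simp [h2]
  · intro i r hr
    simp only [A]
    rw [hT]
    cases h1 : T i r.val with
    | true => left; rfl
    | false => right; rfl
  · intro i r hr
    simp only [A]
    rw [hT]
    cases h1 : T i r.val with
    | true => right; rfl
    | false => left; rfl
  · intro i r
    simp only [A]
    cases h1 : T i r.val with
    | true => right; rfl
    | false => left; rfl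
  · intro i r
    simp only [A]
    cases h1 : T i r.val with
    | true => left; rfl
    | false => right; rfl
  · intro i r hr hp
    simp only [A]
    have : (r.val + 1) / 2 = r.val / 2 := by omega
    rw [this]
    cases h1 : decide ((ind (r.val / 2)).val < i.val) with
    | true => left; rfl
    | false => right; rfl
  · intro i r hr hp
    simp only [A]
    have : (r.val + 1) / 2 = r.val / 2 := by omega
    rw [this]
    cases h1 : decide ((ind (r.val / 2)).val < i.val) with
    | true => left; rfl
    | false => right; rfl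

end

theorem gridNet_sat_iff {n m : ℕ} (hn : 0 < n) (lit : Fin n → Fin (2 * m) → Bool) :
    (∃ A, (gridNet n (2 * m) lit).Sat A) ↔ FSat n m lit := by
  constructor
  · rintro ⟨A, hA⟩
    exact fsat_of_gridSat (gridSat_of_sat lit A hA) hn
  · intro h
    obtain ⟨A, hA⟩ := gridSat_of_fsat hn h
    exact ⟨_, sat_of_gridSat lit (by omega) A hA⟩

end Pool.Agent.H.MP_20b771_lc
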