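import Pool.Agent.H.MP_20b771_lc.Fan

/-!
Networks of wheels and clause gadgets, and the bounds for the number of 4-colourings of the
corresponding graph in terms of satisfiability of the network.
-/

namespace Pool.Agent.H.MP_20b771_lc

open Finset

/-- A network: wheels `W` with 20 rim vertices each, clause gadgets `C` with three sides each.
A side may be linked to a port `(w, p)` of a wheel `w`, which uses the rim vertices
`p, p+1, p+2`. Some of the gadgets are active. -/
structure Net (W C : Type) where
  /-- the port of each side of each gadget, if any -/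
  port : C → Fin 3 → Option (W × Fin 20)
  /-- which gadgets are active -/
  act : C → Prop

/-- Vertices of the skeleton of a network. -/
inductive SV (W C : Type) : Type
  | hub (w : W) : SV W C
  | rim (w : W) (i : Fin 20) : SV W C
  | path (c : C) (j : Fin 4) : SV W C

/-- The skeleton vertices as a sum type. -/
def SV.equiv (W C : Type) : SV W C ≃ (W ⊕ (W × Fin 20) ⊕ (C × Fin 4)) where
  toFun v := match v with
    | .hub w => Sum.inl w
    | .rim w i => Sum.inr (Sum.inl (w, i))
    | .path c j => Sum.inr (Sum.inr (c, j))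
  invFun v := match v with
    | Sum.inl w => .hub w
    | Sum.inr (Sum.inl (w, i)) => .rim w i
    | Sum.inr (Sum.inr (c, j)) => .path c j
  left_inv v := by cases v <;> rfl
  right_inv v := by rcases v with w | ⟨w, i⟩ | ⟨c, j⟩ <;> rfl

instance (W C : Type) [Fintype W] [Fintype C] : Fintype (SV W C) :=
  Fintype.ofEquiv _ (SV.equiv W C).symm

instance (W C : Type) [DecidableEq W] [DecidableEq C] : DecidableEq (SV W C) :=
  (SV.equiv W C).decidableEq

theorem SV.card (W C : Type) [Fintype W] [Fintype C] :
    Fintype.card (SV W C) = 21 * Fintype.card W + 4 * Fintype.card C := by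
  rw [Fintype.card_congr (SV.equiv W C)]
  simp only [Fintype.card_sum, Fintype.card_prod, Fintype.card_fin]
  ring

/-- Indices of the blue edges: spokes, `f`-edges and `e`-edges. -/
abbrev BE (W C : Type) : Type := (W × Fin 20) ⊕ (C × Fin 3) ⊕ (C × Fin 3)

theorem BE.card (W C : Type) [Fintype W] [Fintype C] :
    Fintype.card (BE W C) = 20 * Fintype.card W + 6 * Fintype.card C := by
  simp only [Fintype.card_sum, Fintype.card_prod, Fintype.card_fin]
  ring

variable {W C : Type}

/-- The second end of the `e`-edge of side `j` of gadget `c`. -/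
def Net.eEnd (N : Net W C) (c : C) (j : Fin 3) : SV W C :=
  match N.port c j with
  | none => SV.path c j.castSucc
  | some (w, p) => SV.rim w (p + 2)

/-- Hard edges of the skeleton. -/
inductive Net.Red (N : Net W C) : SV W C → SV W C → Prop
  | rim (w : W) (i : Fin 20) : Net.Red N (SV.rim w i) (SV.rim w (i + 1))
  | v1 (c : C) (j : Fin 3) (w : W) (p : Fin 20) (h : N.port c j = some (w, p)) :
      Net.Red N (SV.path c j.castSucc) (SV.rim w p)
  | v2 (c : C) (j : Fin 3) (w : W) (p : Fin 20) (h : N.port c j = some (w, p)) :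
      Net.Red N (SV.path c j.succ) (SV.rim w (p + 2))
  | close (c : C) (h : N.act c) : Net.Red N (SV.path c 0) (SV.path c 3)

/-- The skeleton of a network. -/
def Net.skel (N : Net W C) : Skel (SV W C) (BE W C) where
  red := N.Red
  ends b := match b with
    | Sum.inl (w, i) => (SV.hub w, SV.rim w i)
    | Sum.inr (Sum.inl (c, j)) => (SV.path c j.castSucc, SV.path c j.succ)
    | Sum.inr (Sum.inr (c, j)) => (SV.path c j.castSucc, N.eEnd c j)

theorem Net.red_irrefl (N : Net W C) (u : SV W C) : ¬ N.skel.red u u := by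
  intro h
  have key : ∀ a b, N.Red a b → a ≠ b := by
    intro a b hab
    cases hab with
    | rim w i =>
      intro h
      simp at h
    | v1 => intro h; cases h
    | v2 => intro h; cases h
    | close => intro h; simp at h
  exact key u u h rfl

/-- The literal at port `(w, p)` is true: positive literal for odd `p`. -/
def litTrue (A : W → Bool) (x : W × Fin 20) : Prop := A x.1 = decide (x.2.val % 2 = 1)

/-- An assignment satisfies all active gadgets. -/
def Net.Sat (N : Net W C) (A : W → Bool) : Prop :=
  ∀ c, N.act c → ∃ j x, N.port c j = some x ∧ litTrue A x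

/-- The number of sides without a port. -/
def Net.missing [Fintype C] (N : Net W C) : ℕ :=
  (univ.filter (fun x : C × Fin 3 => N.port x.1 x.2 = none)).card

/-- The maximal gain. -/
def Net.opt [Fintype W] [Fintype C] (N : Net W C) : ℕ :=
  10 * Fintype.card W + 3 * Fintype.card C + N.missing

theorem sum_shift (g : Fin 20 → ℕ) : ∑ i : Fin 20, g (i + 1) = ∑ i : Fin 20, g i :=
  Equiv.sum_comp (Equiv.addRight (1 : Fin 20)) g

section gain

variable [Fintype W] [Fintype C] (N : Net W C) (σ : SV W C → Fin 4)

/-- number of monochromatic spokes of a wheel -/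
def sp (σ : SV W C → Fin 4) (w : W) : ℕ :=
  ∑ i : Fin 20, if σ (SV.hub w) = σ (SV.rim w i) then 1 else 0

/-- the `f`-edge is monochromatic -/
def fm (σ : SV W C → Fin 4) (x : C × Fin 3) : ℕ :=
  if σ (SV.path x.1 x.2.castSucc) = σ (SV.path x.1 x.2.succ) then 1 else 0

/-- the `e`-edge is monochromatic -/
def em (N : Net W C) (σ : SV W C → Fin 4) (x : C × Fin 3) : ℕ :=
  if σ (SV.path x.1 x.2.castSucc) = σ (N.eEnd x.1 x.2) then 1 else 0

theorem gain_eq :
    N.skel.gain σ = ∑ w : W, sp σ w + ∑ x : C × Fin 3, (fm σ x + em N σ x) := by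
  rw [Skel.gain, Finset.card_filter, Fintype.sum_sum_type, Fintype.sum_sum_type,
    Fintype.sum_prod_type]
  rw [Finset.sum_add_distrib]
  rfl

variable {σ} (hσ : N.skel.Proper σ)
include hσ

omit [Fintype W] [Fintype C] in
theorem spoke_pair (w : W) (i : Fin 20) :
    (if σ (SV.hub w) = σ (SV.rim w i) then 1 else 0) +
      (if σ (SV.hub w) = σ (SV.rim w (i + 1)) then 1 else 0) ≤ 1 := by
  have := hσ _ _ (Net.Red.rim w i)
  split_ifs with h1 h2 h3
  · exact absurd (h1.symm.trans h2) this
  · simp
  · simp
  · simp

omit hσ [Fintype W] [Fintype C] in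
theorem two_sp (w : W) :
    2 * sp σ w = ∑ i : Fin 20, ((if σ (SV.hub w) = σ (SV.rim w i) then 1 else 0) +
      (if σ (SV.hub w) = σ (SV.rim w (i + 1)) then 1 else 0)) := by
  rw [Finset.sum_add_distrib,
    sum_shift (fun i => if σ (SV.hub w) = σ (SV.rim w i) then 1 else 0), sp, two_mul]

omit [Fintype W] [Fintype C] in
theorem sp_le (w : W) : sp σ w ≤ 10 := by
  have h := two_sp (C := C) (σ := σ) w
  have h2 : ∑ i : Fin 20, ((if σ (SV.hub w) = σ (SV.rim w i) then 1 else 0) +
      (if σ (SV.hub w) = σ (SV.rim w (i + 1)) then 1 else 0)) ≤ ∑ i : Fin 20, 1 :=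
    Finset.sum_le_sum (fun i _ => spoke_pair N hσ w i)
  simp only [sum_const, card_univ, Fintype.card_fin, smul_eq_mul, mul_one] at h2
  omega

omit [Fintype W] [Fintype C] in
theorem sp_pair_eq (w : W) (h10 : sp σ w = 10) (i : Fin 20) :
    (if σ (SV.hub w) = σ (SV.rim w i) then 1 else 0) +
      (if σ (SV.hub w) = σ (SV.rim w (i + 1)) then 1 else 0) = 1 := by
  have h := two_sp (C := C) (σ := σ) w
  have h2 : ∑ i : Fin 20, ((if σ (SV.hub w) = σ (SV.rim w i) then 1 else 0) +
      (if σ (SV.hub w) = σ (SV.rim w (i + 1)) then 1 else 0)) = ∑ i : Fin 20, 1 := by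
    rw [← h, h10]; simp
  exact (Finset.sum_eq_sum_iff_of_le (fun i _ => spoke_pair N hσ w i)).1 h2 i (mem_univ _)

omit [Fintype W] [Fintype C] in
theorem side_le (x : C × Fin 3) :
    fm σ x + em N σ x ≤ 1 + (if N.port x.1 x.2 = none then 1 else 0) := by
  rcases x with ⟨c, j⟩
  simp only [fm, em]
  cases hp : N.port c j with
  | none =>
    simp only [if_true]
    split_ifs <;> simp
  | some y =>
    rcases y with ⟨w, p⟩
    have h2 := hσ _ _ (Net.Red.v2 c j w p hp)
    have he : N.eEnd c j = SV.rim w (p + 2) := by simp [Net.eEnd, hp]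
    rw [he]
    split_ifs with h3 h4 h5
    all_goals first | exact absurd (h3.symm.trans h4) h2 | simp_all

theorem gain_le : N.skel.gain σ ≤ N.opt := by
  rw [gain_eq]
  have h1 : ∑ w : W, sp σ w ≤ ∑ w : W, 10 := Finset.sum_le_sum (fun w _ => sp_le N hσ w)
  have h2 : ∑ x : C × Fin 3, (fm σ x + em N σ x) ≤
      ∑ x : C × Fin 3, (1 + (if N.port x.1 x.2 = none then 1 else 0)) :=
    Finset.sum_le_sum (fun x _ => side_le N hσ x)
  have h3 : ∑ x : C × Fin 3, (1 + (if N.port x.1 x.2 = none then 1 else 0)) =
      3 * Fintype.card C + N.missing := by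
    rw [Finset.sum_add_distrib, Net.missing, Finset.card_filter]
    simp [mul_comm]
  simp only [sum_const, card_univ, smul_eq_mul] at h1
  rw [Net.opt]
  omega

theorem sat_of_gain (hg : N.skel.gain σ = N.opt) : ∃ A, N.Sat A := by
  classical
  rw [gain_eq] at hg
  have h1 : ∑ w : W, sp σ w ≤ ∑ w : W, 10 := Finset.sum_le_sum (fun w _ => sp_le N hσ w)
  have h2 : ∑ x : C × Fin 3, (fm σ x + em N σ x) ≤
      ∑ x : C × Fin 3, (1 + (if N.port x.1 x.2 = none then 1 else 0)) :=
    Finset.sum_le_sum (fun x _ => side_le N hσ x)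
  have h3 : ∑ x : C × Fin 3, (1 + (if N.port x.1 x.2 = none then 1 else 0)) =
      3 * Fintype.card C + N.missing := by
    rw [Finset.sum_add_distrib, Net.missing, Finset.card_filter]
    simp [mul_comm]
  have h4 : ∑ w : W, 10 = 10 * Fintype.card W := by simp [mul_comm]
  have e1 : ∑ w : W, sp σ w = ∑ w : W, 10 := by
    rw [Net.opt] at hg; omega
  have e2 : ∑ x : C × Fin 3, (fm σ x + em N σ x) =
      ∑ x : C × Fin 3, (1 + (if N.port x.1 x.2 = none then 1 else 0)) := by
    rw [Net.opt] at hg; omega
  have f1 := (Finset.sum_eq_sum_iff_of_le (fun w _ => sp_le N hσ w)).1 e1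
  have f2 := (Finset.sum_eq_sum_iff_of_le (fun x _ => side_le N hσ x)).1 e2
  -- alternation
  have alt : ∀ w i, (σ (SV.hub w) = σ (SV.rim w (i + 1))) ↔ ¬ (σ (SV.hub w) = σ (SV.rim w i)) := by
    intro w i
    have := sp_pair_eq N hσ w (f1 w (mem_univ _)) i
    split_ifs at this with a b b
    · omega
    · exact ⟨fun h => absurd h b, fun h => absurd a h⟩
    · exact ⟨fun _ => a, fun _ => b⟩
    · omega
  let A : W → Bool := fun w => decide (σ (SV.hub w) = σ (SV.rim w 0))
  have hA : ∀ w (i : Fin 20), (σ (SV.hub w) = σ (SV.rim w i)) ↔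
      (A w = decide (i.val % 2 = 0)) := by
    intro w i
    have : ∀ k (hk : k < 20), (σ (SV.hub w) = σ (SV.rim w ⟨k, hk⟩)) ↔
        (A w = decide (k % 2 = 0)) := by
      intro k
      induction k with
      | zero => intro hk; simp [A]
      | succ k ih =>
        intro hk
        have hk' : k < 20 := by omega
        have h5 := alt w ⟨k, hk'⟩
        have h6 : (⟨k, hk'⟩ : Fin 20) + 1 = ⟨k + 1, hk⟩ := by
          apply Fin.ext
          simp only [Fin.val_add, Fin.val_one]
          omega
        rw [h6] at h5
        rw [h5, ih hk']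
        rcases Nat.mod_two_eq_zero_or_one k with h7 | h7
        · have h8 : (k + 1) % 2 = 1 := by omega
          simp [h7, h8]
        · have h8 : (k + 1) % 2 = 0 := by omega
          simp [h7, h8]
    exact this i.val i.isLt
  refine ⟨A, ?_⟩
  intro c hc
  have hclose := hσ _ _ (Net.Red.close c hc)
  -- some side is not monochromatic
  have : ∃ j : Fin 3, σ (SV.path c j.castSucc) ≠ σ (SV.path c j.succ) := by
    by_contra hcon
    push Not at hcon
    apply hclose
    have a0 := hcon 0
    have a1 := hcon 1
    have a2 := hcon 2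
    exact a0.trans (a1.trans a2)
  obtain ⟨j, hj⟩ := this
  have h7 := f2 (c, j) (mem_univ _)
  simp only [fm, em] at h7
  rw [if_neg hj] at h7
  cases hp : N.port c j with
  | none =>
    simp only [hp, if_true] at h7
    split_ifs at h7 <;> omega
  | some y =>
    rcases y with ⟨w, p⟩
    refine ⟨j, (w, p), hp, ?_⟩
    have he : N.eEnd c j = SV.rim w (p + 2) := by simp [Net.eEnd, hp]
    rw [he] at h7
    have h8 : σ (SV.path c j.castSucc) = σ (SV.rim w (p + 2)) := by
      by_contra hne
      rw [if_neg hne] at h7
      omega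
    have h9 := hσ _ _ (Net.Red.v1 c j w p hp)
    have h10 : ¬ (σ (SV.hub w) = σ (SV.rim w p)) := by
      intro h11
      have h12 : σ (SV.hub w) = σ (SV.rim w (p + 2)) := by
        have : p + 2 = (p + 1) + 1 := by rw [add_assoc]; rfl
        rw [this, alt, alt]
        simp [h11]
      exact h9 (h8.trans (h12.symm.trans h11))
    rw [hA] at h10
    simp only [litTrue]
    rcases Nat.mod_two_eq_zero_or_one p.val with h13 | h13
    · simp [h13] at h10 ⊢; exact h10
    · simp [h13] at h10 ⊢; exact h10

end gain

theorem Net.gain_lt [Fintype W] [Fintype C] (N : Net W C) (hun : ¬ ∃ A, N.Sat A)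
    (σ : SV W C → Fin 4) (hσ : N.skel.Proper σ) : N.skel.gain σ ≤ N.opt - 1 := by
  have h1 := gain_le N hσ
  have h2 : N.skel.gain σ ≠ N.opt := fun h => hun (sat_of_gain N hσ h)
  omega

/-- Different sides use different rim vertices. -/
def Net.Disj (N : Net W C) : Prop :=
  ∀ c j c' j' w p p', N.port c j = some (w, p) → N.port c' j' = some (w, p') →
    (p = p' ∨ p = p' + 2) → c = c' ∧ j = j'

section complete

variable (N : Net W C) (A : W → Bool) (ch : C → Option (Fin 3))

/-- the rim vertex has the colour of the hub -/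
def inn (A : W → Bool) (w : W) (i : Fin 20) : Prop := A w = decide (i.val % 2 = 0)

instance (A : W → Bool) (w : W) (i : Fin 20) : Decidable (inn A w i) := by
  unfold inn; infer_instance

/-- the rim vertex is the chosen one of some gadget -/
def chosen (N : Net W C) (ch : C → Option (Fin 3)) (w : W) (i : Fin 20) : Prop :=
  ∃ c j p, ch c = some j ∧ N.port c j = some (w, p) ∧ i = p + 2

open Classical in
/-- The colouring built from a satisfying assignment. -/
noncomputable def col : SV W C → Fin 4
  | .hub _ => 1
  | .rim w i => if inn A w i then 1 else if chosen N ch w i then 2 else 0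
  | .path c k => match ch c with
    | none => 2
    | some j => if k.val ≤ j.val then 2 else 3

theorem inn_succ (w : W) (i : Fin 20) : inn A w (i + 1) ↔ ¬ inn A w i := by
  unfold inn
  have : (i + 1).val % 2 = (i.val + 1) % 2 := by
    rw [Fin.val_add]
    have := i.isLt
    simp only [Fin.val_one]
    omega
  rw [this]
  rcases Nat.mod_two_eq_zero_or_one i.val with h | h
  · have h2 : (i.val + 1) % 2 = 1 := by omega
    simp [h, h2]
  · have h2 : (i.val + 1) % 2 = 0 := by omega
    simp [h, h2]

theorem inn_add_two (w : W) (i : Fin 20) : inn A w (i + 2) ↔ inn A w i := by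
  have : i + 2 = (i + 1) + 1 := by rw [add_assoc]; rfl
  rw [this, inn_succ, inn_succ, not_not]

theorem path_col_ge (c : C) (k : Fin 4) :
    col N A ch (SV.path c k) = 2 ∨ col N A ch (SV.path c k) = 3 := by
  simp only [col]
  cases ch c with
  | none => left; rfl
  | some j => dsimp only; split_ifs <;> simp

theorem ne_add_two (p : Fin 20) : p ≠ p + 2 := by
  intro h
  have := congrArg Fin.val h
  rw [Fin.val_add] at this
  have h2 := p.isLt
  simp at this
  omega

theorem col_proper (hd : N.Disj) (hact : ∀ c, N.act c → ∃ j, ch c = some j) :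
    N.skel.Proper (col N A ch) := by
  classical
  intro u v h
  change N.Red u v at h
  cases h with
  | rim w i =>
    simp only [col]
    by_cases h1 : inn A w i
    · have h2 : ¬ inn A w (i + 1) := by rw [inn_succ]; simpa using h1
      rw [if_pos h1, if_neg h2]
      split_ifs <;> decide
    · have h2 : inn A w (i + 1) := by rw [inn_succ]; exact h1
      rw [if_pos h2, if_neg h1]
      split_ifs <;> decide
  | v1 c j w p hp =>
    have hP := path_col_ge N A ch c j.castSucc
    have hR : col N A ch (SV.rim w p) = 1 ∨ col N A ch (SV.rim w p) = 0 := by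
      simp only [col]
      by_cases h1 : inn A w p
      · left; rw [if_pos h1]
      · right
        rw [if_neg h1, if_neg]
        rintro ⟨c', j', p', h2, h3, h4⟩
        obtain ⟨rfl, rfl⟩ := hd _ _ _ _ _ _ _ hp h3 (Or.inr h4)
        rw [hp] at h3
        simp only [Option.some.injEq, Prod.mk.injEq, true_and] at h3
        subst h3
        exact ne_add_two _ h4
    rcases hP with hP | hP <;> rcases hR with hR | hR <;> rw [hP, hR] <;> decide
  | v2 c j w p hp =>
    have hP := path_col_ge N A ch c j.succ
    have hR : col N A ch (SV.rim w (p + 2)) = 1 ∨ col N A ch (SV.rim w (p + 2)) = 0 ∨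
        (col N A ch (SV.rim w (p + 2)) = 2 ∧ col N A ch (SV.path c j.succ) = 3) := by
      by_cases h1 : inn A w (p + 2)
      · left; simp only [col]; rw [if_pos h1]
      · by_cases h2 : chosen N ch w (p + 2)
        · right; right
          refine ⟨by simp only [col]; rw [if_neg h1, if_pos h2], ?_⟩
          obtain ⟨c', j', p', h3, h4, h5⟩ := h2
          have h6 : p = p' := by simpa using h5
          subst h6
          obtain ⟨rfl, rfl⟩ := hd _ _ _ _ _ _ _ hp h4 (Or.inl rfl)
          simp only [col, h3]
          rw [if_neg]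
          simp
        · right; left
          simp only [col]; rw [if_neg h1, if_neg h2]
    rcases hR with hR | hR | ⟨hR, hR2⟩
    · rcases hP with hP | hP <;> rw [hP, hR] <;> decide
    · rcases hP with hP | hP <;> rw [hP, hR] <;> decide
    · rw [hR2, hR]; decide
  | close c hc =>
    obtain ⟨j, hj⟩ := hact c hc
    simp only [col, hj]
    have h1 : ((0 : Fin 4).val ≤ j.val) := by simp
    have h2 : ¬ ((3 : Fin 4).val ≤ j.val) := by
      have h3 := j.isLt
      have h4 : (3 : Fin 4).val = 3 := rfl
      omega
    rw [if_pos h1, if_neg h2]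
    decide

theorem sp_col (w : W) : sp (col N A ch) w = 10 := by
  classical
  have h1 : ∀ i, (col N A ch (SV.hub w) = col N A ch (SV.rim w i)) ↔ inn A w i := by
    intro i
    simp only [col]
    by_cases h : inn A w i
    · simp [h]
    · simp only [h, if_false]
      split_ifs <;> simp
  rw [sp]
  simp only [h1]
  have key : ∀ b : Bool, (∑ i : Fin 20, if b = decide (i.val % 2 = 0) then 1 else 0) = 10 := by
    decide
  rw [← key (A w)]
  apply Finset.sum_congr rfl
  intro i _
  unfold inn
  congr

theorem side_col (hch : ∀ c j, ch c = some j → ∃ x, N.port c j = some x ∧ litTrue A x)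
    (x : C × Fin 3) :
    1 + (if N.port x.1 x.2 = none then 1 else 0) ≤ fm (col N A ch) x + em N (col N A ch) x := by
  rcases x with ⟨c, j⟩
  simp only [fm, em]
  cases hc : ch c with
  | none =>
    have h1 : ∀ k, col N A ch (SV.path c k) = 2 := by intro k; simp only [col, hc]
    rw [h1, h1, if_pos rfl]
    by_cases hp : N.port c j = none
    · have he : N.eEnd c j = SV.path c j.castSucc := by simp [Net.eEnd, hp]
      rw [if_pos hp, he, h1, if_pos rfl]
    · rw [if_neg hp]; omega
  | some j0 =>
    have h1 : ∀ k : Fin 4, col N A ch (SV.path c k) = if k.val ≤ j0.val then 2 else 3 := by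
      intro k; simp only [col, hc]
    by_cases hj : j = j0
    · subst hj
      obtain ⟨⟨w, p⟩, hp, hl⟩ := hch c j hc
      have he : N.eEnd c j = SV.rim w (p + 2) := by simp [Net.eEnd, hp]
      have hout : ¬ inn A w (p + 2) := by
        rw [inn_add_two]
        simp only [litTrue] at hl
        simp only [inn, hl]
        rcases Nat.mod_two_eq_zero_or_one p.val with h | h <;> simp [h]
      have hchs : chosen N ch w (p + 2) := ⟨c, j, p, hc, hp, rfl⟩
      have h2 : col N A ch (SV.rim w (p + 2)) = 2 := by
        simp only [col]; rw [if_neg hout, if_pos hchs]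
      have h3 : col N A ch (SV.path c j.castSucc) = 2 := by
        rw [h1, if_pos]; simp
      rw [he, h2, h3]
      simp [hp]
    · have h2 : col N A ch (SV.path c j.castSucc) = col N A ch (SV.path c j.succ) := by
        rw [h1, h1]
        have h4 : (j.castSucc.val ≤ j0.val) ↔ (j.succ.val ≤ j0.val) := by
          simp only [Fin.val_castSucc, Fin.val_succ]
          have : j.val ≠ j0.val := fun h => hj (Fin.ext h)
          omega
        simp only [h4]
      rw [if_pos h2]
      by_cases hp : N.port c j = none
      · have he : N.eEnd c j = SV.path c j.castSucc := by simp [Net.eEnd, hp]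
        rw [if_pos hp, he, if_pos rfl]
      · rw [if_neg hp]; omega

end complete

theorem Net.exists_gain [Fintype W] [Fintype C] (N : Net W C) (hd : N.Disj)
    (hs : ∃ A, N.Sat A) : ∃ σ, N.skel.Proper σ ∧ N.skel.gain σ = N.opt := by
  classical
  obtain ⟨A, hA⟩ := hs
  have h1 : ∀ c, ∃ o : Option (Fin 3), (N.act c → ∃ j, o = some j) ∧
      ∀ j, o = some j → ∃ x, N.port c j = some x ∧ litTrue A x := by
    intro c
    by_cases hc : N.act c
    · obtain ⟨j, x, h2, h3⟩ := hA c hc
      refine ⟨some j, fun _ => ⟨j, rfl⟩, ?_⟩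
      intro j' h4
      simp only [Option.some.injEq] at h4
      subst h4
      exact ⟨x, h2, h3⟩
    · exact ⟨none, fun h => absurd h hc, fun j h => by simp at h⟩
  choose ch hch using h1
  have hprop := col_proper N A ch hd (fun c hc => (hch c).1 hc)
  refine ⟨col N A ch, hprop, ?_⟩
  apply le_antisymm (gain_le N hprop)
  rw [gain_eq, Net.opt]
  have h2 : ∑ w : W, sp (col N A ch) w = 10 * Fintype.card W := by
    rw [Finset.sum_congr rfl (fun w _ => sp_col N A ch w)]
    simp [mul_comm]
  have h3 : ∑ x : C × Fin 3, (1 + (if N.port x.1 x.2 = none then 1 else 0)) ≤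
      ∑ x : C × Fin 3, (fm (col N A ch) x + em N (col N A ch) x) :=
    Finset.sum_le_sum (fun x _ => side_col N A ch (fun c j h => (hch c).2 j h) x)
  have h4 : ∑ x : C × Fin 3, (1 + (if N.port x.1 x.2 = none then 1 else 0)) =
      3 * Fintype.card C + N.missing := by
    rw [Finset.sum_add_distrib, Net.missing, Finset.card_filter]
    simp [mul_comm]
  omega

/-- Lower bound for satisfiable networks. -/
theorem Net.card_of_sat [Fintype W] [Fintype C] (N : Net W C) (hd : N.Disj)
    (hs : ∃ A, N.Sat A) (M : ℕ) :
    2 ^ (M * N.opt) ≤ Nat.card ((N.skel.graph M).Coloring (Fin 4)) := by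
  obtain ⟨σ, h1, h2⟩ := N.exists_gain hd hs
  rw [← h2]
  exact N.skel.le_card M σ h1

/-- Upper bound for unsatisfiable networks. -/
theorem Net.card_of_unsat [Fintype W] [Fintype C] (N : Net W C)
    (hun : ¬ ∃ A, N.Sat A) (M L : ℕ)
    (hM : 62 * Fintype.card W + 14 * Fintype.card C + N.opt + L ≤ M) :
    2 ^ L * Nat.card ((N.skel.graph M).Coloring (Fin 4)) ≤ 2 ^ (M * N.opt) := by
  have h1 := N.skel.card_le M N.red_irrefl (N.opt - 1) (N.gain_lt hun)
  have hC : 0 < N.opt := by
    have : Nonempty C := by
      by_contra hne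
      rw [not_nonempty_iff] at hne
      exact hun ⟨fun _ => true, fun c => (hne.false c).elim⟩
    have : 0 < Fintype.card C := Fintype.card_pos
    rw [Net.opt]; omega
  rw [SV.card, BE.card] at h1
  calc 2 ^ L * Nat.card ((N.skel.graph M).Coloring (Fin 4))
      ≤ 2 ^ L * 2 ^ (2 * (21 * Fintype.card W + 4 * Fintype.card C) + (M + 1) * (N.opt - 1) +
          (20 * Fintype.card W + 6 * Fintype.card C)) := Nat.mul_le_mul_left _ h1
    _ = 2 ^ (L + (2 * (21 * Fintype.card W + 4 * Fintype.card C) + (M + 1) * (N.opt - 1) +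
          (20 * Fintype.card W + 6 * Fintype.card C))) := by rw [← pow_add]
    _ ≤ 2 ^ (M * N.opt) := by
        apply Nat.pow_le_pow_right (by norm_num)
        obtain ⟨k, hk⟩ : ∃ k, N.opt = k + 1 := ⟨N.opt - 1, by omega⟩
        rw [hk] at hM ⊢
        simp only [Nat.add_sub_cancel]
        have : (M + 1) * k = M * k + k := by ring
        have : M * (k + 1) = M * k + M := by ring
        omega

end Pool.Agent.H.MP_20b771_lc
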