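import Pool.Agent.H.MP_20b771_lc.Defs

/-!
Probabilities of properties of random strings.
-/

namespace Pool.Agent.H.MP_20b771_lc

/-- The expected value of a function of a random string. -/
noncomputable def Ex (m : ℕ) (f : List Bool → ℝ) : ℝ :=
  (∑ r : Fin m → Bool, f (List.ofFn r)) / 2 ^ m

theorem Ex_mono {m : ℕ} {f g : List Bool → ℝ} (h : ∀ r, r.length = m → f r ≤ g r) :
    Ex m f ≤ Ex m g := by
  unfold Ex
  apply div_le_div_of_nonneg_right _ (by positivity)
  exact Finset.sum_le_sum fun r _ => h _ (by simp)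

theorem Ex_congr {m : ℕ} {f g : List Bool → ℝ} (h : ∀ r, r.length = m → f r = g r) :
    Ex m f = Ex m g :=
  le_antisymm (Ex_mono fun r hr => (h r hr).le) (Ex_mono fun r hr => (h r hr).ge)

theorem Ex_const (m : ℕ) (c : ℝ) : Ex m (fun _ => c) = c := by
  unfold Ex
  simp

theorem Ex_add_fun (m : ℕ) (f g : List Bool → ℝ) :
    Ex m (fun r => f r + g r) = Ex m f + Ex m g := by
  unfold Ex
  rw [Finset.sum_add_distrib, add_div]

theorem Ex_mul_const (m : ℕ) (f : List Bool → ℝ) (c : ℝ) :
    Ex m (fun r => f r * c) = Ex m f * c := by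
  unfold Ex
  rw [← Finset.sum_mul]
  ring

theorem Ex_sum {ι : Type} (s : Finset ι) (m : ℕ) (f : ι → List Bool → ℝ) :
    Ex m (fun r => ∑ i ∈ s, f i r) = ∑ i ∈ s, Ex m (f i) := by
  unfold Ex
  rw [Finset.sum_comm, Finset.sum_div]

theorem Ex_nonneg {m : ℕ} {f : List Bool → ℝ} (h : ∀ r, 0 ≤ f r) : 0 ≤ Ex m f := by
  unfold Ex
  exact div_nonneg (Finset.sum_nonneg fun r _ => h _) (by positivity)

theorem Ex_zero (f : List Bool → ℝ) : Ex 0 f = f [] := by
  unfold Ex
  rw [Fintype.sum_eq_single (fun _ => false) (fun x h => absurd (Subsingleton.elim _ _) h)]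
  simp

/-- independence of the first bits and the last bits -/
theorem Ex_append (a b : ℕ) (F : List Bool → List Bool → ℝ) :
    Ex (a + b) (fun r => F (r.take a) (r.drop a)) = Ex a (fun x => Ex b (fun y => F x y)) := by
  unfold Ex
  have h1 : ∑ r : Fin (a + b) → Bool, F ((List.ofFn r).take a) ((List.ofFn r).drop a) =
      ∑ x : (Fin a → Bool) × (Fin b → Bool), F (List.ofFn x.1) (List.ofFn x.2) := by
    refine (Fintype.sum_equiv (Fin.appendEquiv a b) _ _ ?_).symm
    intro x
    have : List.ofFn (Fin.appendEquiv a b x) = List.ofFn x.1 ++ List.ofFn x.2 := by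
      rw [← List.ofFn_fin_append]
      rfl
    rw [this, List.take_left' (by simp), List.drop_left' (by simp)]
  rw [h1, Fintype.sum_prod_type, pow_add, ← Finset.sum_div, div_div, mul_comm ((2 : ℝ) ^ a)]

theorem Ex_mul (a b : ℕ) (f g : List Bool → ℝ) :
    Ex (a + b) (fun r => f (r.take a) * g (r.drop a)) = Ex a f * Ex b g := by
  rw [Ex_append a b (fun x y => f x * g y)]
  have h : ∀ x, Ex b (fun y => f x * g y) = f x * Ex b g := by
    intro x
    have := Ex_mul_const b g (f x)
    rw [mul_comm (f x), ← this]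
    exact Ex_congr fun r _ => mul_comm _ _
  simp only [h]
  rw [Ex_mul_const]

theorem prob_eq_Ex (m : ℕ) (P : List Bool → Prop) [DecidablePred P] :
    prob m P = Ex m (fun r => if P r then 1 else 0) := by
  unfold prob Ex
  congr 1
  rw [Nat.card_eq_fintype_card, Fintype.card_subtype, Finset.sum_boole]

theorem prob_mono' {m : ℕ} {P Q : List Bool → Prop} (h : ∀ r, r.length = m → P r → Q r) :
    prob m P ≤ prob m Q := by
  classical
  rw [prob_eq_Ex, prob_eq_Ex]
  refine Ex_mono fun r hr => ?_
  by_cases h1 : P r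
  · rw [if_pos h1, if_pos (h r hr h1)]
  · rw [if_neg h1]
    split_ifs <;> norm_num

theorem prob_mono {m : ℕ} {P Q : List Bool → Prop} (h : ∀ r, P r → Q r) : prob m P ≤ prob m Q :=
  prob_mono' fun r _ => h r

theorem prob_congr {m : ℕ} {P Q : List Bool → Prop} (h : ∀ r, P r ↔ Q r) : prob m P = prob m Q :=
  le_antisymm (prob_mono fun r => (h r).1) (prob_mono fun r => (h r).2)

theorem prob_nonneg (m : ℕ) (P : List Bool → Prop) : 0 ≤ prob m P := by
  unfold prob
  positivity

theorem prob_compl {m : ℕ} (P : List Bool → Prop) : prob m (fun r => ¬ P r) = 1 - prob m P := by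
  classical
  rw [prob_eq_Ex, prob_eq_Ex]
  have h := Ex_add_fun m (fun r => if ¬ P r then (1 : ℝ) else 0) (fun r => if P r then 1 else 0)
  have h2 : Ex m (fun r => (if ¬ P r then (1 : ℝ) else 0) + if P r then 1 else 0) = 1 := by
    refine Eq.trans (Ex_congr fun r _ => ?_) (Ex_const m 1)
    by_cases h1 : P r <;> simp [h1]
  exact eq_sub_of_add_eq (h.symm.trans h2)

theorem prob_take {m m' : ℕ} (h : m' ≤ m) (P : List Bool → Prop) :
    prob m (fun r => P (r.take m')) = prob m' P := by
  classical
  obtain ⟨d, rfl⟩ := Nat.exists_eq_add_of_le h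
  rw [prob_eq_Ex, prob_eq_Ex]
  rw [Ex_append m' d (fun x _ => if P x then 1 else 0)]
  exact Ex_congr fun r _ => Ex_const _ _

/-- Markov's inequality. -/
theorem prob_markov {m : ℕ} {P : List Bool → Prop} {f : List Bool → ℝ} {c : ℝ}
    (hf : ∀ r, 0 ≤ f r) (h : ∀ r, P r → c ≤ f r) : prob m P * c ≤ Ex m f := by
  classical
  rw [prob_eq_Ex, ← Ex_mul_const]
  refine Ex_mono fun r _ => ?_
  by_cases h1 : P r
  · rw [if_pos h1, one_mul]
    exact h r h1
  · rw [if_neg h1, zero_mul]
    exact hf r

/-- The union bound. -/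
theorem prob_exists_le {ι : Type} [Fintype ι] (m : ℕ) (P : ι → List Bool → Prop) (ε : ℝ)
    (h : ∀ i, prob m (P i) ≤ ε) : prob m (fun r => ∃ i, P i r) ≤ Fintype.card ι * ε := by
  classical
  have h1 : prob m (fun r => ∃ i, P i r) ≤ ∑ i, prob m (P i) := by
    simp only [prob_eq_Ex]
    rw [← Ex_sum]
    refine Ex_mono fun r _ => ?_
    by_cases h2 : ∃ i, P i r
    · obtain ⟨i, hi⟩ := h2
      rw [if_pos ⟨i, hi⟩]
      have h3 : (if P i r then (1 : ℝ) else 0) ≤ ∑ j, (if P j r then (1 : ℝ) else 0) := by
        refine Finset.single_le_sum (f := fun j => if P j r then (1 : ℝ) else 0) ?_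
          (Finset.mem_univ i)
        intro j _
        split_ifs <;> norm_num
      rw [if_pos hi] at h3
      exact h3
    · rw [if_neg h2]
      refine Finset.sum_nonneg fun j _ => ?_
      split_ifs <;> norm_num
  refine h1.trans ?_
  have h2 : ∑ i, prob m (P i) ≤ ∑ _i : ι, ε := Finset.sum_le_sum fun i _ => h i
  rw [Finset.sum_const, nsmul_eq_mul] at h2
  exact h2

/-! ### Repetition -/

/-- The number of blocks of length `c` among the first `t` accepted by `T`. -/
def cnt (T : List Bool → Bool) (c t : ℕ) (r : List Bool) : ℕ :=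
  ((List.range t).filter fun i => T ((r.drop (i * c)).take c)).length

theorem cnt_zero (T : List Bool → Bool) (c : ℕ) (r : List Bool) : cnt T c 0 r = 0 := rfl

theorem cnt_succ (T : List Bool → Bool) (c t : ℕ) (r : List Bool) :
    cnt T c (t + 1) r = (if T (r.take c) = true then 1 else 0) + cnt T c t (r.drop c) := by
  unfold cnt
  rw [List.range_succ_eq_map, List.filter_cons]
  have h1 : (List.filter (fun i => T ((r.drop (i * c)).take c)) (List.map Nat.succ (List.range t))
      ).length = (List.filter (fun i => T (((r.drop c).drop (i * c)).take c))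
        (List.range t)).length := by
    rw [List.filter_map, List.length_map]
    congr 1
    apply List.filter_congr
    intro i _
    simp only [Function.comp, Nat.succ_eq_add_one, List.drop_drop]
    congr 3
    ring
  by_cases h : T (r.take c) = true
  · rw [if_pos (by simpa using h), if_pos h, List.length_cons, h1]
    omega
  · rw [if_neg (by simpa using h), if_neg h, h1]
    omega

theorem cnt_not (T : List Bool → Bool) (c : ℕ) : ∀ (t : ℕ) (r : List Bool),
    cnt (fun x => !T x) c t r + cnt T c t r = t := by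
  intro t
  induction t with
  | zero => intro r; rfl
  | succ t ih =>
    intro r
    rw [cnt_succ, cnt_succ]
    have := ih (r.drop c)
    cases h : T (r.take c) <;> simp <;> omega

theorem Ex_three_pow (T : List Bool → Bool) (c : ℕ) (h : prob c (fun r => T r = true) ≤ 1 / 4) :
    ∀ t : ℕ, Ex (t * c) (fun r => (3 : ℝ) ^ (cnt T c t r)) ≤ (3 / 2) ^ t := by
  intro t
  induction t with
  | zero => simp [Ex_zero, cnt_zero]
  | succ t ih =>
    have e : (t + 1) * c = c + t * c := by ring
    have h1 : Ex ((t + 1) * c) (fun r => (3 : ℝ) ^ (cnt T c (t + 1) r)) =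
        Ex c (fun x => (3 : ℝ) ^ (if T x = true then 1 else 0)) *
          Ex (t * c) (fun r => (3 : ℝ) ^ (cnt T c t r)) := by
      rw [e, ← Ex_mul]
      refine Ex_congr fun r _ => ?_
      rw [cnt_succ, pow_add]
    rw [h1, pow_succ, mul_comm]
    have h2 : Ex c (fun x => (3 : ℝ) ^ (if T x = true then 1 else 0)) ≤ 3 / 2 := by
      have h3 : Ex c (fun x => (3 : ℝ) ^ (if T x = true then 1 else 0)) =
          1 + prob c (fun r => T r = true) * 2 := by
        rw [prob_eq_Ex, ← Ex_mul_const]
        refine Eq.trans ?_ (congrArg (· + _) (Ex_const c 1))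
        rw [← Ex_add_fun]
        refine Ex_congr fun r _ => ?_
        by_cases h4 : T r = true
        · rw [if_pos h4, if_pos h4]
          norm_num
        · rw [if_neg h4, if_neg h4]
          norm_num
      rw [h3]
      linarith
    exact mul_le_mul ih h2 (Ex_nonneg fun r => by positivity) (by positivity)

theorem prob_cnt_ge (T : List Bool → Bool) (c : ℕ) (h : prob c (fun r => T r = true) ≤ 1 / 4)
    (s : ℕ) : prob (2 * s * c) (fun r => s ≤ cnt T c (2 * s) r) ≤ (3 / 4) ^ s := by
  have h1 := Ex_three_pow T c h (2 * s)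
  have h2 : prob (2 * s * c) (fun r => s ≤ cnt T c (2 * s) r) * 3 ^ s ≤
      Ex (2 * s * c) (fun r => (3 : ℝ) ^ (cnt T c (2 * s) r)) := by
    apply prob_markov (fun r => by positivity)
    intro r hr
    exact pow_le_pow_right₀ (by norm_num) hr
  have h3 : ((3 : ℝ) / 2) ^ (2 * s) = (3 / 4) ^ s * 3 ^ s := by
    rw [pow_mul, ← mul_pow]
    norm_num
  rw [h3] at h1
  exact le_of_mul_le_mul_right (h2.trans h1) (by positivity)

/-- The majority of `2 s` tests. -/
def maj (T : List Bool → Bool) (c s : ℕ) (r : List Bool) : Bool := decide (s < cnt T c (2 * s) r)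

theorem prob_maj_pos (T : List Bool → Bool) (c s : ℕ)
    (h : 3 / 4 ≤ prob c (fun r => T r = true)) :
    prob (2 * s * c) (fun r => ¬ maj T c s r = true) ≤ (3 / 4) ^ s := by
  have h1 : prob c (fun r => (fun x => !T x) r = true) ≤ 1 / 4 := by
    have h2 := prob_compl (m := c) (fun r => T r = true)
    have h3 : prob c (fun r => (fun x => !T x) r = true) = prob c (fun r => ¬ T r = true) :=
      prob_congr fun r => by simp
    rw [h3]
    linarith
  refine (prob_mono fun r hr => ?_).trans (prob_cnt_ge _ c h1 s)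
  have h2 := cnt_not T c (2 * s) r
  simp only [maj, decide_eq_true_eq, not_lt] at hr
  omega

theorem prob_maj_neg (T : List Bool → Bool) (c s : ℕ)
    (h : 3 / 4 ≤ prob c (fun r => ¬ T r = true)) :
    prob (2 * s * c) (fun r => maj T c s r = true) ≤ (3 / 4) ^ s := by
  have h1 : prob c (fun r => T r = true) ≤ 1 / 4 := by
    have h2 := prob_compl (m := c) (fun r => T r = true)
    linarith
  refine (prob_mono fun r hr => ?_).trans (prob_cnt_ge _ c h1 s)
  simp only [maj, decide_eq_true_eq] at hr
  omega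

end Pool.Agent.H.MP_20b771_lc
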