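import Pool.Agent.H.MP_20b771_lc.Code
import Pool.Agent.H.MP_20b771_lc.Logic
import Pool.Agent.H.MP_20b771_lc.Cnf
import Pool.Agent.H.MP_20b771_lc.Defs
import Pool.Agent.H.MP_5be563_lc.PT.Main
import Pool.Agent.H.MP_5be563_lc.PT.Arith

/-!
The reduction from satisfiability of CNF formulas, as a polynomial-time function.
-/

namespace Pool.Agent.H.MP_20b771_lc

set_option linter.constructorNameAsVariable false

open Pool.Agent.H.MP_5be563_lc.PT

/-- rows of the literal matrix -/
def rowsF (φ : CNF) : List (List ℕ) :=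
  φ.flatMap fun cl => [(cl.filter fun l => l.1).map fun l => l.2,
    (cl.filter fun l => !l.1).map fun l => l.2]

/-- number of rows -/
def nrow (φ : CNF) : ℕ := 2 * φ.length

/-- literal bits -/
def litN (φ : CNF) (i r : ℕ) : Bool := ((rowsF φ).getD r []).any fun x => x == i

theorem rowsF_get (φ : CNF) (j : ℕ) (hj : j < φ.length) :
    (rowsF φ).getD (2 * j) [] = ((φ[j]).filter fun l => l.1).map (fun l => l.2) ∧
    (rowsF φ).getD (2 * j + 1) [] = ((φ[j]).filter fun l => !l.1).map (fun l => l.2) := by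
  unfold rowsF
  induction φ generalizing j with
  | nil => simp at hj
  | cons cl φ ih =>
    cases j with
    | zero => simp
    | succ j =>
      have hj' : j < φ.length := by simpa using hj
      have := ih j hj'
      rw [List.flatMap_cons]
      have e1 : 2 * (j + 1) = 2 * j + 1 + 1 := by ring
      rw [e1]
      simp only [List.cons_append, List.nil_append, List.getD_cons_succ, List.getElem_cons_succ]
      exact this

theorem litN_even (φ : CNF) (i j : ℕ) (hj : j < φ.length) :
    litN φ i (2 * j) = true ↔ (true, i) ∈ φ[j] := by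
  unfold litN
  rw [(rowsF_get φ j hj).1]
  simp

theorem litN_odd (φ : CNF) (i j : ℕ) (hj : j < φ.length) :
    litN φ i (2 * j + 1) = true ↔ (false, i) ∈ φ[j] := by
  unfold litN
  rw [(rowsF_get φ j hj).2]
  simp

/-- literal bits on the grid -/
def litG (φ : CNF) : Fin (nvar φ) → Fin (2 * φ.length) → Bool := fun i r => litN φ i.val r.val

theorem fsat_iff (φ : CNF) : FSat (nvar φ) φ.length (litG φ) ↔ φ.Sat := by
  constructor
  · rintro ⟨x, hx⟩
    refine ⟨fun k => if h : k < nvar φ then x ⟨k, h⟩ else true, ?_⟩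
    intro cl hcl
    obtain ⟨j, hj, rfl⟩ := List.mem_iff_getElem.1 hcl
    obtain ⟨i, h⟩ := hx ⟨j, hj⟩
    rcases h with ⟨h1, h2⟩ | ⟨h1, h2⟩
    · refine ⟨(true, i.val), (litN_even φ i.val j hj).1 h1, ?_⟩
      simpa using h2
    · refine ⟨(false, i.val), (litN_odd φ i.val j hj).1 h1, ?_⟩
      simpa using h2
  · rintro ⟨A, hA⟩
    refine ⟨fun i => A i.val, fun j => ?_⟩
    obtain ⟨⟨s, i⟩, hl, hs⟩ := hA (φ[j.val]) (List.getElem_mem j.isLt)
    have hi : i < nvar φ := lt_nvar (List.getElem_mem j.isLt) hl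
    refine ⟨⟨i, hi⟩, ?_⟩
    simp only at hs
    cases s with
    | true => exact Or.inl ⟨(litN_even φ i j.val j.isLt).2 hl, hs⟩
    | false => exact Or.inr ⟨(litN_odd φ i j.val j.isLt).2 hl, hs⟩

/-- kinds of skeleton vertices -/
def skinds : List ℕ :=
  ([WK.T, WK.X, WK.Y, WK.S].flatMap fun w => hubC w :: (List.finRange 20).map (rimC w)) ++
  ([CK.a, CK.b, CK.c, CK.d, CK.e, CK.f, CK.g, CK.h, CK.m, CK.l].flatMap fun c =>
    (List.finRange 4).map (pathC c))

/-- kinds of vertices on the paths -/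
def bkinds : List ℕ := blueLO.map bidx

theorem skinds_nodup : skinds.Nodup := by decide +kernel

theorem skinds_length : skinds.length = 124 := by decide +kernel

theorem bkinds_nodup : bkinds.Nodup := by decide +kernel

theorem bkinds_length : bkinds.length = 140 := by decide +kernel

theorem mem_skinds {k : ℕ} : k ∈ skinds ↔ (∃ w, hubC w = k) ∨ (∃ w i, rimC w i = k) ∨
    ∃ c j, pathC c j = k := by
  simp only [skinds, List.mem_append, List.mem_flatMap, List.mem_cons, List.not_mem_nil, or_false,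
    List.mem_map, List.mem_finRange, true_and]
  constructor
  · rintro (⟨w, _, h | ⟨i, h⟩⟩ | ⟨c, _, j, h⟩)
    · exact Or.inl ⟨w, h.symm⟩
    · exact Or.inr (Or.inl ⟨w, i, h⟩)
    · exact Or.inr (Or.inr ⟨c, j, h⟩)
  · rintro (⟨w, h⟩ | ⟨w, i, h⟩ | ⟨c, j, h⟩)
    · exact Or.inl ⟨w, by cases w <;> simp, Or.inl h.symm⟩
    · exact Or.inl ⟨w, by cases w <;> simp, Or.inr ⟨i, h⟩⟩
    · exact Or.inr ⟨c, by cases c <;> simp, j, h⟩

/-- The list of all vertex codes. -/
def vlist (n R M : ℕ) : List VC :=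
  (skinds ×ˢ List.range n ×ˢ List.range R ×ˢ [0]) ++
    (bkinds ×ˢ List.range n ×ˢ List.range R ×ˢ List.range M)

theorem skinds_lt {k : ℕ} (h : k ∈ skinds) : k < 124 := by
  rcases mem_skinds.1 h with ⟨w, rfl⟩ | ⟨w, i, rfl⟩ | ⟨c, j, rfl⟩
  · have := codeW_le w; simp only [hubC]; omega
  · have := codeW_le w; have := i.isLt; simp only [rimC]; omega
  · have := codeC_le c; have := j.isLt; simp only [pathC]; omega

theorem bkinds_ge {k : ℕ} (h : k ∈ bkinds) : 124 ≤ k := by
  simp only [bkinds, List.mem_map, mem_blueLO] at h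
  obtain ⟨o, ho, rfl⟩ := h
  exact bidx_ge ho

theorem vlist_nodup (n R M : ℕ) : (vlist n R M).Nodup := by
  unfold vlist
  rw [List.nodup_append]
  refine ⟨?_, ?_, ?_⟩
  · exact skinds_nodup.product (List.nodup_range.product (List.nodup_range.product
      (List.nodup_singleton 0)))
  · exact bkinds_nodup.product (List.nodup_range.product (List.nodup_range.product
      List.nodup_range))
  · rintro a ha b hb rfl
    obtain ⟨k, x⟩ := a
    rw [List.mem_product] at ha hb
    have := skinds_lt ha.1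
    have := bkinds_ge hb.1
    omega

theorem vlist_length (n R M : ℕ) : (vlist n R M).length = n * R * (124 + 140 * M) := by
  unfold vlist
  rw [List.length_append, List.length_product, List.length_product, List.length_product,
    List.length_product, List.length_product, List.length_product, skinds_length, bkinds_length,
    List.length_range, List.length_range, List.length_range, List.length_singleton]
  ring

theorem mem_vlist {n R M : ℕ} {x : VC} :
    x ∈ vlist n R M ↔ ∃ v : GV n R ⊕ (GB n R × Fin M), code v = x := by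
  obtain ⟨k, i, r, t⟩ := x
  simp only [vlist, List.mem_append, List.mem_product, List.mem_range, List.mem_singleton,
    mem_skinds, bkinds, List.mem_map, mem_blueLO]
  constructor
  · rintro (⟨hk, hi, hr, rfl⟩ | ⟨⟨o, ho, rfl⟩, hi, hr, ht⟩)
    · rcases hk with ⟨w, rfl⟩ | ⟨w, p, rfl⟩ | ⟨c, j, rfl⟩
      · exact ⟨Sum.inl (.hub (w, ⟨i, hi⟩, ⟨r, hr⟩)), rfl⟩
      · exact ⟨Sum.inl (.rim (w, ⟨i, hi⟩, ⟨r, hr⟩) p), rfl⟩
      · exact ⟨Sum.inl (.path (c, ⟨i, hi⟩, ⟨r, hr⟩) j), rfl⟩
    · cases o with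
      | spoke w p => exact ⟨Sum.inr (Sum.inl ((w, ⟨i, hi⟩, ⟨r, hr⟩), p), ⟨t, ht⟩), rfl⟩
      | f c j => exact ⟨Sum.inr (Sum.inr (Sum.inl ((c, ⟨i, hi⟩, ⟨r, hr⟩), j)), ⟨t, ht⟩), rfl⟩
      | e c j => exact ⟨Sum.inr (Sum.inr (Sum.inr ((c, ⟨i, hi⟩, ⟨r, hr⟩), j)), ⟨t, ht⟩), rfl⟩
      | rim w k => simp [LO.blue] at ho
      | v1 c j => simp [LO.blue] at ho
      | v2 c j => simp [LO.blue] at ho
      | close c => simp [LO.blue] at ho
  · rintro ⟨v, hv⟩
    rcases v with v | ⟨b, t'⟩
    · simp only [code, Prod.mk.injEq] at hv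
      left
      rcases v with w | ⟨w, p⟩ | ⟨c, j⟩
      · simp only [gid] at hv
        exact ⟨Or.inl ⟨w.1, hv.1⟩, by rw [← hv.2.1]; exact w.2.1.isLt,
          by rw [← hv.2.2.1]; exact w.2.2.isLt, hv.2.2.2.symm⟩
      · simp only [gid] at hv
        exact ⟨Or.inr (Or.inl ⟨w.1, p, hv.1⟩), by rw [← hv.2.1]; exact w.2.1.isLt,
          by rw [← hv.2.2.1]; exact w.2.2.isLt, hv.2.2.2.symm⟩
      · simp only [gid] at hv
        exact ⟨Or.inr (Or.inr ⟨c.1, j, hv.1⟩), by rw [← hv.2.1]; exact c.2.1.isLt,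
          by rw [← hv.2.2.1]; exact c.2.2.isLt, hv.2.2.2.symm⟩
    · simp only [code, Prod.mk.injEq] at hv
      right
      exact ⟨⟨(bo b).1, bo_blue b, hv.1⟩, by rw [← hv.2.1]; exact (bo b).2.1.isLt,
        by rw [← hv.2.2.1]; exact (bo b).2.2.isLt, by rw [← hv.2.2.2]; exact t'.isLt⟩

/-- The numbering of the vertices. -/
noncomputable def vequiv (n R M : ℕ) :
    Fin (vlist n R M).length ≃ (GV n R ⊕ (GB n R × Fin M)) :=
  ((List.Nodup.getEquiv _ (vlist_nodup n R M)).trans
    (Equiv.subtypeEquivRight fun x => (mem_vlist (n := n) (R := R) (M := M) (x := x)))).trans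
    (Equiv.ofInjective _ code_injective).symm

theorem code_vequiv (n R M : ℕ) (i : Fin (vlist n R M).length) :
    code (vequiv n R M i) = (vlist n R M).get i := by
  have h := Equiv.apply_ofInjective_symm (f := (code : GV n R ⊕ (GB n R × Fin M) → VC))
    code_injective ((Equiv.subtypeEquivRight fun x => (mem_vlist (n := n) (R := R) (M := M)
      (x := x))) (List.Nodup.getEquiv _ (vlist_nodup n R M) i))
  exact h

/-- number of vertices of the output graph -/
def outN (φ : CNF) (M : ℕ) : ℕ := (vlist (nvar φ) (nrow φ) M).length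

/-- The output graph. -/
noncomputable def outG (φ : CNF) (M : ℕ) : SimpleGraph (Fin (outN φ M)) :=
  ((gridNet (nvar φ) (2 * φ.length) (litG φ)).skel.graph M).comap
    (vequiv (nvar φ) (2 * φ.length) M)

/-- Adjacency bits -/
def outBits (φ : CNF) (M : ℕ) : List Bool :=
  (vlist (nvar φ) (nrow φ) M).flatMap fun u => (vlist (nvar φ) (nrow φ) M).map fun v =>
    adjB (nrow φ) (litN φ) (fun r => decide (r % 2 = 0)) u v

theorem outBits_eq (φ : CNF) (M : ℕ) : outBits φ M = adjMatrixBits (outG φ M) := by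
  classical
  unfold outBits adjMatrixBits
  have e : ∀ (l : List VC), l = (List.finRange l.length).map l.get := by
    intro l
    rw [← List.ofFn_eq_map, List.ofFn_get]
  have h1 : (vlist (nvar φ) (nrow φ) M) = (List.finRange (outN φ M)).map
      (vlist (nvar φ) (nrow φ) M).get := e _
  rw [h1]
  rw [List.flatMap_map]
  congr 1
  funext i
  rw [List.map_map]
  congr 1
  funext j
  simp only [Function.comp]
  have h2 := adjB_code (M := M) (litG φ) (litN := litN φ) (fun _ _ => rfl)
    (vequiv (nvar φ) (2 * φ.length) M i) (vequiv (nvar φ) (2 * φ.length) M j)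
  rw [code_vequiv, code_vequiv] at h2
  have h3 : (outG φ M).Adj i j ↔ adjB (2 * φ.length) (litN φ) (fun r => decide (r % 2 = 0))
      ((vlist (nvar φ) (2 * φ.length) M).get i)
      ((vlist (nvar φ) (2 * φ.length) M).get j) = true := h2.symm
  rw [Bool.eq_iff_iff, decide_eq_true_eq, h3]
  rfl

end Pool.Agent.H.MP_20b771_lc
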