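import Pool.Agent.H.MP_20b771_lc.Reduce
import Pool.Agent.H.MP_20b771_lc.GridPlanar
import Pool.Agent.H.MP_20b771_lc.Misc

/-!
The gap for the number of 4-colourings of the output graph, and polynomial-time computability of
the reduction.
-/

namespace Pool.Agent.H.MP_20b771_lc

set_option linter.constructorNameAsVariable false

open Pool.Agent.H.MP_5be563_lc.PT

theorem PlanarGraph.comap {V W : Type} {G : SimpleGraph W} (h : PlanarGraph G) (f : V ↪ W) :
    PlanarGraph (G.comap f) := by
  obtain ⟨p, h1, h2, h3⟩ := h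
  refine ⟨fun v => p (f v), fun a b hab => f.injective (h1 hab), ?_, ?_⟩
  · intro u v w huv hw
    rcases h2 (f u) (f v) (f w) huv hw with h | h
    · exact Or.inl (f.injective h)
    · exact Or.inr (f.injective h)
  · intro u v u' v' h h' hne
    refine h3 (f u) (f v) (f u') (f v') h h' ?_
    intro he
    apply hne
    rw [Sym2.eq_iff] at he ⊢
    rcases he with ⟨h4, h5⟩ | ⟨h4, h5⟩
    · exact Or.inl ⟨f.injective h4, f.injective h5⟩
    · exact Or.inr ⟨f.injective h4, f.injective h5⟩

theorem outG_planar (φ : CNF) (M : ℕ) : PlanarGraph (outG φ M) :=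
  (gridNet_planar (litG φ) M).comap (vequiv (nvar φ) (2 * φ.length) M).toEmbedding

theorem outG_card (φ : CNF) (M : ℕ) : Nat.card ((outG φ M).Coloring (Fin 4)) =
    Nat.card (((gridNet (nvar φ) (2 * φ.length) (litG φ)).skel.graph M).Coloring (Fin 4)) := by
  let e : outG φ M ≃g ((gridNet (nvar φ) (2 * φ.length) (litG φ)).skel.graph M) :=
    SimpleGraph.Iso.comap (vequiv (nvar φ) (2 * φ.length) M) _
  refine Nat.card_congr ⟨fun c => c.comp e.symm.toHom, fun c => c.comp e.toHom, ?_, ?_⟩
  · intro c
    ext v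
    simp
  · intro c
    ext v
    simp

/-- Data of a side: no port, offsets, left cut. -/
def sideRow (c : CK) (j : Fin 3) : Bool × ℕ × ℕ × Bool :=
  match portTab c j with
  | none => (true, 0, 0, false)
  | some q => (false, q.2.1, q.2.2.1, decide (c = CK.c ∧ j = 0))

/-- The table of the sides. -/
noncomputable def stab : List (Bool × ℕ × ℕ × Bool) :=
  (Finset.univ : Finset (CK × Fin 3)).toList.map fun x => sideRow x.1 x.2

/-- Is the side without port? -/
def sideMiss (n R : ℕ) (e : Bool × ℕ × ℕ × Bool) (i r : ℕ) : Bool :=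
  e.1 || !(decide (i + e.2.1 < n)) || !(decide (r + e.2.2.1 < R)) || (e.2.2.2 && (i == 0))

/-- Number of sides without port. -/
noncomputable def missN (n R : ℕ) : ℕ :=
  (stab.flatMap fun e => (List.range n ×ˢ List.range R).filter fun x =>
    sideMiss n R e x.1 x.2).length

theorem card_filter_list {n R : ℕ} (P : ℕ → ℕ → Bool) :
    (Finset.univ.filter fun x : Fin n × Fin R => P x.1.val x.2.val = true).card =
      ((List.range n ×ˢ List.range R).filter fun x => P x.1 x.2).length := by
  have hnd : ((List.range n ×ˢ List.range R).filter fun x => P x.1 x.2).Nodup :=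
    (List.nodup_range.product List.nodup_range).filter _
  rw [← List.toFinset_card_of_nodup hnd]
  apply Finset.card_bij (fun x _ => (x.1.val, x.2.val))
  · intro x hx
    rw [Finset.mem_filter] at hx
    rw [List.mem_toFinset, List.mem_filter, List.mem_product, List.mem_range, List.mem_range]
    exact ⟨⟨x.1.isLt, x.2.isLt⟩, hx.2⟩
  · intro a _ b _ h
    rw [Prod.mk.injEq] at h
    exact Prod.ext (Fin.ext h.1) (Fin.ext h.2)
  · rintro ⟨i, r⟩ h
    rw [List.mem_toFinset, List.mem_filter, List.mem_product, List.mem_range, List.mem_range] at h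
    exact ⟨(⟨i, h.1.1⟩, ⟨r, h.1.2⟩), Finset.mem_filter.2 ⟨Finset.mem_univ _, h.2⟩, rfl⟩

theorem port_none {n R : ℕ} (lit : Fin n → Fin R → Bool) (c : CK) (j : Fin 3) (x : Fin n × Fin R) :
    (gridNet n R lit).port (c, x) j = none ↔
      sideMiss n R (sideRow c j) x.1.val x.2.val = true := by
  have key : (gridNet n R lit).port (c, x) j = none ↔
      ∀ q, portTab c j = some q → ¬ (x.1.val + q.2.1 < n ∧ x.2.val + q.2.2.1 < R ∧
        leftCut c j x.1.val = false) := by
    constructor
    · rintro h q hq ⟨h1, h2, h3⟩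
      have h4 : (gridNet n R lit).port (c, x) j =
          some ((q.1, ⟨x.1.val + q.2.1, h1⟩, ⟨x.2.val + q.2.2.1, h2⟩), q.2.2.2) := by
        rw [port_some]
        exact ⟨q, hq, h3, rfl, rfl, rfl, rfl⟩
      rw [h] at h4
      exact absurd h4 (by simp)
    · intro h
      cases hp : (gridNet n R lit).port (c, x) j with
      | none => rfl
      | some y =>
        exfalso
        rw [port_some] at hp
        obtain ⟨q, h1, h2, h3, h4, h5, h6⟩ := hp
        refine h q h1 ⟨?_, ?_, h2⟩
        · have := y.1.2.1.isLt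
          rw [h4] at this
          exact this
        · have := y.1.2.2.isLt
          rw [h5] at this
          exact this
  rw [key]
  unfold sideMiss sideRow leftCut
  rcases portTab c j with _ | q
  · simp
  · simp only [Option.some.injEq, forall_eq', Bool.false_or, Bool.or_eq_true, Bool.not_eq_true',
      decide_eq_false_iff_not, Bool.and_eq_true, decide_eq_true_eq, beq_iff_eq]
    tauto

theorem missing_eq {n R : ℕ} (lit : Fin n → Fin R → Bool) :
    (gridNet n R lit).missing = missN n R := by
  classical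
  unfold Net.missing missN stab
  rw [List.length_flatMap, List.map_map]
  rw [show (List.map ((fun a => (List.filter (fun x => sideMiss n R a x.1 x.2)
      (List.range n ×ˢ List.range R)).length) ∘ fun x : CK × Fin 3 => sideRow x.1 x.2)
      (Finset.univ : Finset (CK × Fin 3)).toList).sum = ∑ x : CK × Fin 3,
        (List.filter (fun y => sideMiss n R (sideRow x.1 x.2) y.1 y.2)
      (List.range n ×ˢ List.range R)).length from Finset.sum_map_toList _ _]
  rw [Finset.card_filter, Fintype.sum_prod_type, Fintype.sum_prod_type, Fintype.sum_prod_type]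
  apply Finset.sum_congr rfl
  intro c _
  rw [Finset.sum_comm]
  apply Finset.sum_congr rfl
  intro j _
  rw [← card_filter_list (n := n) (R := R), Finset.card_filter]
  apply Finset.sum_congr rfl
  intro x _
  have h := port_none lit c j x
  by_cases h1 : (gridNet n R lit).port (c, x) j = none
  · rw [if_pos h1, if_pos (h.1 h1)]
  · rw [if_neg h1, if_neg (fun h2 => h1 (h.2 h2))]

/-- The exponent per unit of `M`. -/
noncomputable def optN (φ : CNF) : ℕ :=
  70 * (nvar φ * nrow φ) + missN (nvar φ) (nrow φ)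

theorem opt_eq (φ : CNF) :
    (gridNet (nvar φ) (2 * φ.length) (litG φ)).opt = optN φ := by
  unfold Net.opt optN
  rw [missing_eq]
  simp only [Fintype.card_prod, card_WK, card_CK, Fintype.card_fin, nrow]
  ring

/-- The length of the paths. -/
def outM (L : ℕ) (φ : CNF) : ℕ := 500 * (nvar φ * nrow φ) + L

theorem out_sat (φ : CNF) (h : φ.Sat) (M : ℕ) :
    2 ^ (M * optN φ) ≤ Nat.card ((outG φ M).Coloring (Fin 4)) := by
  rw [outG_card, ← opt_eq]
  exact Net.card_of_sat _ (gridNet_disj _)
    ((gridNet_sat_iff (nvar_pos φ) (litG φ)).2 ((fsat_iff φ).2 h)) M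

theorem out_unsat (φ : CNF) (h : ¬ φ.Sat) (L : ℕ) :
    2 ^ L * Nat.card ((outG φ (outM L φ)).Coloring (Fin 4)) ≤ 2 ^ (outM L φ * optN φ) := by
  rw [outG_card, ← opt_eq]
  apply Net.card_of_unsat
  · rw [gridNet_sat_iff (nvar_pos φ) (litG φ), fsat_iff]
    exact h
  · have h1 : (gridNet (nvar φ) (2 * φ.length) (litG φ)).missing ≤
        3 * Fintype.card (CK × Fin (nvar φ) × Fin (2 * φ.length)) := by
      unfold Net.missing
      refine (Finset.card_le_univ _).trans ?_
      rw [Fintype.card_prod, Fintype.card_fin, Nat.mul_comm]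
    unfold Net.opt outM nrow
    simp only [Fintype.card_prod, card_WK, card_CK, Fintype.card_fin] at h1 ⊢
    nlinarith

/-! ### Polynomial time -/

section

variable {α β γ δ : Type} [Enc α] [Enc β] [Enc γ] [Enc δ]

@[fun_prop]
theorem Poly.product {f : α → List β} {g : α → List γ} (hf : Poly f) (hg : Poly g) :
    Poly (fun a => f a ×ˢ g a) := by
  have : Poly (fun a => (f a).flatMap fun b => (g a).map fun c => (b, c)) := by fun_prop
  exact this

@[fun_prop]
theorem Poly.nrow {f : α → CNF} (hf : Poly f) : Poly (fun a => nrow (f a)) := by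
  unfold MP_20b771_lc.nrow
  fun_prop

@[fun_prop]
theorem Poly.rowsF {f : α → CNF} (hf : Poly f) : Poly (fun a => rowsF (f a)) := by
  unfold MP_20b771_lc.rowsF
  fun_prop

@[fun_prop]
theorem Poly.litN {f : α → CNF} {g h : α → ℕ} (hf : Poly f) (hg : Poly g) (hh : Poly h) :
    Poly (fun a => litN (f a) (g a) (h a)) := by
  unfold MP_20b771_lc.litN
  fun_prop

@[fun_prop]
theorem Poly.condT {t i r R : α → ℕ} {x ev : α → Bool} (ht : Poly t) (hi : Poly i) (hr : Poly r)
    (hR : Poly R) (hx : Poly x) (hev : Poly ev) :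
    Poly (fun a => condT (t a) (i a) (r a) (R a) (x a) (ev a)) := by
  unfold MP_20b771_lc.condT
  fun_prop

@[fun_prop]
theorem Poly.dirB {f : α → CNF} {u v : α → VC} (hf : Poly f) (hu : Poly u) (hv : Poly v) :
    Poly (fun a => dirB (MP_20b771_lc.nrow (f a)) (MP_20b771_lc.litN (f a))
      (fun r => decide (r % 2 = 0)) (u a) (v a)) := by
  unfold MP_20b771_lc.dirB
  fun_prop

@[fun_prop]
theorem Poly.vlist {n R M : α → ℕ} (hn : Poly n) (hR : Poly R) (hM : Poly M) :
    Poly (fun a => vlist (n a) (R a) (M a)) := by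
  unfold MP_20b771_lc.vlist
  fun_prop

@[fun_prop]
theorem Poly.outBits {f : α → CNF} {M : α → ℕ} (hf : Poly f) (hM : Poly M) :
    Poly (fun a => outBits (f a) (M a)) := by
  unfold MP_20b771_lc.outBits MP_20b771_lc.adjB
  fun_prop

@[fun_prop]
theorem Poly.outN {f : α → CNF} {M : α → ℕ} (hf : Poly f) (hM : Poly M) :
    Poly (fun a => outN (f a) (M a)) := by
  unfold MP_20b771_lc.outN
  fun_prop

@[fun_prop]
theorem Poly.outM {f : α → CNF} {L : α → ℕ} (hf : Poly f) (hL : Poly L) :
    Poly (fun a => outM (L a) (f a)) := by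
  unfold MP_20b771_lc.outM
  fun_prop

@[fun_prop]
theorem Poly.sideMiss {n R i r : α → ℕ} {e : α → Bool × ℕ × ℕ × Bool} (hn : Poly n) (hR : Poly R)
    (hi : Poly i) (hr : Poly r) (he : Poly e) :
    Poly (fun a => sideMiss (n a) (R a) (e a) (i a) (r a)) := by
  unfold MP_20b771_lc.sideMiss
  fun_prop

@[fun_prop]
theorem Poly.missN {n R : α → ℕ} (hn : Poly n) (hR : Poly R) :
    Poly (fun a => missN (n a) (R a)) := by
  unfold MP_20b771_lc.missN
  fun_prop

@[fun_prop]
theorem Poly.optN {f : α → CNF} (hf : Poly f) : Poly (fun a => optN (f a)) := by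
  unfold MP_20b771_lc.optN
  fun_prop

end

end Pool.Agent.H.MP_20b771_lc
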