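import Pool.Agent.H.MP_20b771_lc.Misc

/-!
Square roots, quotients and roots of powers of two, in polynomial time.
-/

namespace Pool.Agent.H.MP_20b771_lc

open Pool.Agent.H.MP_5be563_lc Pool.Agent.H.MP_5be563_lc.PT

/-- Number of initial values satisfying a downward closed condition. -/
theorem filter_down (P : ℕ → Bool) (hP : ∀ j, P (j + 1) = true → P j = true) (N : ℕ) :
    ∀ j < N, (P j = true ↔ j < ((List.range N).filter P).length) := by
  induction N with
  | zero => intro j hj; omega
  | succ N ih =>
    have hle : ((List.range N).filter P).length ≤ N := by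
      have := List.length_filter_le P (List.range N)
      rwa [List.length_range] at this
    have hdown : ∀ d j, P (j + d) = true → P j = true := by
      intro d
      induction d with
      | zero => intro j h; exact h
      | succ d ih2 => intro j h; exact ih2 j (hP _ h)
    rw [List.range_succ, List.filter_append, List.length_append]
    cases hN : P N with
    | true =>
      have h1 : ∀ j ≤ N, P j = true := by
        intro j hj
        obtain ⟨d, rfl⟩ := Nat.exists_eq_add_of_le hj
        exact hdown d j hN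
      have h2 : ((List.range N).filter P).length = N := by
        rw [List.filter_eq_self.2 (fun j hj => h1 j (List.mem_range.1 hj).le), List.length_range]
      intro j hj
      have h3 : (List.filter P [N]).length = 1 := by simp [hN]
      rw [h2, h3]
      exact ⟨fun _ => hj, fun _ => h1 j (by omega)⟩
    | false =>
      intro j hj
      have h3 : (List.filter P [N]).length = 0 := by simp [hN]
      rw [h3, Nat.add_zero]
      rcases Nat.lt_or_ge j N with h4 | h4
      · exact ih j h4
      · have h5 : j = N := by omega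
        subst h5
        rw [hN]
        constructor
        · intro h; exact absurd h (by decide)
        · intro h; omega

/-- square root -/
def sqrtN (l : ℕ) : ℕ := ((List.range l).filter fun i => decide ((i + 1) * (i + 1) ≤ l)).length

theorem sqrtN_sq (n : ℕ) : sqrtN (n * n) = n := by
  have h := filter_down (fun i => decide ((i + 1) * (i + 1) ≤ n * n)) (by
    intro j hj
    rw [decide_eq_true_eq] at hj ⊢
    nlinarith) (n * n)
  have hle : sqrtN (n * n) ≤ n * n := by
    unfold sqrtN
    refine (List.length_filter_le _ _).trans ?_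
    rw [List.length_range]
  simp only [decide_eq_true_eq] at h
  change ∀ j < n * n, ((j + 1) * (j + 1) ≤ n * n ↔ j < sqrtN (n * n)) at h
  rcases Nat.eq_zero_or_pos n with h0 | h0
  · subst h0
    rfl
  · apply le_antisymm
    · by_contra h1
      rw [not_le] at h1
      have h2 := (h n (by omega)).2 h1
      nlinarith
    · obtain ⟨d, rfl⟩ : ∃ d, n = d + 1 := ⟨n - 1, by omega⟩
      have h2 := (h d (by nlinarith)).1 le_rfl
      exact h2

/-- quotient -/
def divN (i t : ℕ) : ℕ := ((List.range i).filter fun j => decide ((j + 1) * t ≤ i)).length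

theorem divN_eq (i t : ℕ) (ht : 1 ≤ t) : divN i t = i / t := by
  have h := filter_down (fun j => decide ((j + 1) * t ≤ i)) (by
    intro j hj
    rw [decide_eq_true_eq] at hj ⊢
    nlinarith) i
  have hle : divN i t ≤ i := by
    unfold divN
    refine (List.length_filter_le _ _).trans ?_
    rw [List.length_range]
  simp only [decide_eq_true_eq] at h
  change ∀ j < i, ((j + 1) * t ≤ i ↔ j < divN i t) at h
  apply le_antisymm
  · by_contra h1
    rw [not_le] at h1
    have h2 := (h (i / t) (by omega)).2 h1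
    have h4 : i < (i / t + 1) * t := by
      rw [Nat.add_mul, Nat.one_mul]
      have := Nat.div_add_mod i t
      have := Nat.mod_lt i ht
      nlinarith
    omega
  · by_contra h1
    rw [not_le] at h1
    have h5 : i / t ≤ i := Nat.div_le_self i t
    have h2 := (h (divN i t) (by omega)).1 (by
      have h6 : (divN i t + 1) * t ≤ (i / t) * t := Nat.mul_le_mul_right _ h1
      have := Nat.div_mul_le_self i t
      omega)
    omega

/-- binary representation of a number -/
def ub (y : ℕ) : List Bool := bsum (List.replicate y [true])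

theorem bval_ub (y : ℕ) : bval (ub y) = y := by
  unfold ub
  rw [bval_bsum]
  simp

/-- power -/
def powB (t y : ℕ) : List Bool := bprod (List.replicate t (ub y))

theorem bval_powB (t y : ℕ) : bval (powB t y) = y ^ t := by
  unfold powB
  rw [bval_bprod]
  simp [bval_ub]

/-- the test -/
def rootT (t D b y : ℕ) : Bool := ble (powB t (y + 1)) (List.replicate b false ++ powB t D)

theorem rootT_iff (t D b y : ℕ) : rootT t D b y = true ↔ (y + 1) ^ t ≤ 2 ^ b * D ^ t := by
  unfold rootT
  rw [ble_iff, bval_powB, bval_replicate, bval_powB]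

/-- approximate root of a power of two -/
def rootN (t D b : ℕ) : ℕ := ((List.range (2 * D)).filter fun y => rootT t D b y).length

theorem rootN_spec (t D b : ℕ) (hD : 1 ≤ D) (hb : b < t) :
    D ≤ rootN t D b ∧ rootN t D b ^ t ≤ 2 ^ b * D ^ t ∧
      2 ^ b * D ^ t < (rootN t D b + 1) ^ t := by
  have h := filter_down (fun y => rootT t D b y) (by
    intro j hj
    rw [rootT_iff] at hj ⊢
    exact (Nat.pow_le_pow_left (by omega) t).trans hj) (2 * D)
  simp only [rootT_iff] at h
  change ∀ j < 2 * D, ((j + 1) ^ t ≤ 2 ^ b * D ^ t ↔ j < rootN t D b) at h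
  have hle : rootN t D b ≤ 2 * D := by
    unfold rootN
    refine (List.length_filter_le _ _).trans ?_
    rw [List.length_range]
  have h1 : D ≤ rootN t D b := by
    have h2 := (h (D - 1) (by omega)).1 (by
      rw [Nat.sub_add_cancel hD]
      exact Nat.le_mul_of_pos_left _ (by positivity))
    omega
  have h2 : rootN t D b ^ t ≤ 2 ^ b * D ^ t := by
    have h3 := (h (rootN t D b - 1) (by omega)).2 (by omega)
    rwa [Nat.sub_add_cancel (by omega)] at h3
  refine ⟨h1, h2, ?_⟩
  rcases Nat.lt_or_ge (rootN t D b) (2 * D) with h4 | h4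
  · by_contra h5
    rw [not_lt] at h5
    have := (h _ h4).1 h5
    omega
  · exfalso
    have h5 : rootN t D b = 2 * D := by omega
    rw [h5, mul_pow] at h2
    have h6 : 2 ^ t ≤ 2 ^ b := Nat.le_of_mul_le_mul_right h2 (by positivity)
    have h7 := (Nat.pow_le_pow_iff_right (a := 2) (by norm_num)).1 h6
    omega

/-- The numerical analysis. -/
theorem root_analysis (P κ i : ℕ) (hκ : 1 ≤ κ) (h1 : (P : ℝ) ^ (64 * κ) < 32 * 2 ^ i)
    (h2 : (2 : ℝ) ^ i < 32 * (P : ℝ) ^ (64 * κ)) :
    (1 - 1 / (κ : ℝ)) * P ≤ ((2 ^ (i / (64 * κ)) *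
      rootN (64 * κ) (2 * κ) (i % (64 * κ)) : ℕ) : ℝ) / ((2 * κ : ℕ) : ℝ) ∧
    ((2 ^ (i / (64 * κ)) * rootN (64 * κ) (2 * κ) (i % (64 * κ)) : ℕ) : ℝ) / ((2 * κ : ℕ) : ℝ) ≤
      (1 + 1 / (κ : ℝ)) * P := by
  set t := 64 * κ with ht
  set D := 2 * κ with hD
  set a := i / t with ha
  set b := i % t with hb
  have htpos : 0 < t := by omega
  have hbt : b < t := Nat.mod_lt _ htpos
  obtain ⟨h3, h4, h5⟩ := rootN_spec t D b (by omega) hbt
  set y := rootN t D b with hy
  have hi : i = a * t + b := by
    rw [ha, hb, mul_comm]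
    exact (Nat.div_add_mod i t).symm
  have hDr : (0 : ℝ) < (D : ℝ) := by
    have : 0 < D := by omega
    exact_mod_cast this
  have hκr : (1 : ℝ) ≤ κ := by exact_mod_cast hκ
  have hDκ : (D : ℝ) = 2 * κ := by rw [hD]; push_cast; ring
  have h4r : (y : ℝ) ^ t ≤ 2 ^ b * (D : ℝ) ^ t := by exact_mod_cast h4
  have h5r : 2 ^ b * (D : ℝ) ^ t < ((y : ℝ) + 1) ^ t := by exact_mod_cast h5
  have h3r : (D : ℝ) ≤ y := by exact_mod_cast h3
  set Z : ℝ := ((2 ^ a * y : ℕ) : ℝ) / (D : ℝ) with hZ
  have hZ' : Z = 2 ^ a * y / D := by rw [hZ]; push_cast; ring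
  have hP0 : (0 : ℝ) ≤ P := by positivity
  have hZ0 : 0 ≤ Z := by rw [hZ]; positivity
  have hi2 : (2 : ℝ) ^ i = (2 ^ a) ^ t * 2 ^ b := by
    rw [hi, pow_add, pow_mul]
  constructor
  · by_contra hcon
    rw [not_le] at hcon
    -- the next candidate
    set Z1 : ℝ := 2 ^ a * (y + 1) / D with hZ1
    have h6 : (2 : ℝ) ^ i < Z1 ^ t := by
      rw [hZ1, div_pow, mul_pow, lt_div_iff₀ (by positivity), hi2]
      calc ((2 : ℝ) ^ a) ^ t * 2 ^ b * (D : ℝ) ^ t = (2 ^ a) ^ t * (2 ^ b * (D : ℝ) ^ t) := by ring
        _ < (2 ^ a) ^ t * ((y : ℝ) + 1) ^ t := by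
          apply mul_lt_mul_of_pos_left h5r
          positivity
    have h7 : Z1 ≤ Z * (1 + 1 / (2 * κ)) := by
      rw [hZ1, hZ', ← hDκ]
      rw [div_mul_eq_mul_div, div_le_div_iff_of_pos_right hDr, mul_assoc]
      apply mul_le_mul_of_nonneg_left _ (by positivity)
      rw [mul_add, mul_one]
      have : 1 ≤ (y : ℝ) * (1 / D) := by
        rw [mul_one_div, le_div_iff₀ hDr]
        linarith
      linarith
    have h8 : Z * (1 + 1 / (2 * κ)) ≤ (1 - 1 / (2 * (κ : ℝ))) * P := by
      have h9 : Z * (1 + 1 / (2 * κ)) ≤ (1 - 1 / (κ : ℝ)) * P * (1 + 1 / (2 * κ)) :=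
        mul_le_mul_of_nonneg_right hcon.le (by positivity)
      have h10 : (1 - 1 / (κ : ℝ)) * (1 + 1 / (2 * κ)) ≤ 1 - 1 / (2 * (κ : ℝ)) := by
        have e1 : (1 - 1 / (κ : ℝ)) * (1 + 1 / (2 * κ)) =
            1 - 1 / (2 * (κ : ℝ)) - 1 / (2 * (κ : ℝ) * κ) := by
          field_simp
          ring
        rw [e1]
        have : 0 ≤ 1 / (2 * (κ : ℝ) * κ) := by positivity
        linarith
      calc Z * (1 + 1 / (2 * κ)) ≤ (1 - 1 / (κ : ℝ)) * P * (1 + 1 / (2 * κ)) := h9
        _ = (1 - 1 / (κ : ℝ)) * (1 + 1 / (2 * κ)) * P := by ring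
        _ ≤ _ := mul_le_mul_of_nonneg_right h10 hP0
    have hZ10 : 0 ≤ Z1 := by rw [hZ1]; positivity
    have h11 : Z1 ^ t ≤ ((1 - 1 / (2 * (κ : ℝ))) * P) ^ t :=
      pow_le_pow_left₀ hZ10 (h7.trans h8) t
    rw [mul_pow] at h11
    have hu0 : 0 ≤ 1 - 1 / (2 * (κ : ℝ)) := by
      have : 1 / (2 * (κ : ℝ)) ≤ 1 := by
        rw [div_le_one (by positivity)]
        linarith
      linarith
    have h12 : (33 : ℝ) ≤ (1 + 1 / (2 * (κ : ℝ))) ^ t := by
      have h13 := one_add_mul_le_pow (a := 1 / (2 * (κ : ℝ))) (by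
        have : 0 ≤ 1 / (2 * (κ : ℝ)) := by positivity
        linarith) t
      have h14 : (t : ℝ) * (1 / (2 * (κ : ℝ))) = 32 := by
        rw [ht]
        push_cast
        field_simp
        norm_num
      linarith
    have h13 : (1 - 1 / (2 * (κ : ℝ))) ^ t * 33 ≤ 1 := by
      have h14 : (1 - 1 / (2 * (κ : ℝ))) ^ t * (1 + 1 / (2 * (κ : ℝ))) ^ t ≤ 1 := by
        rw [← mul_pow]
        apply pow_le_one₀
        · apply mul_nonneg hu0
          positivity
        · have e1 : (1 - 1 / (2 * (κ : ℝ))) * (1 + 1 / (2 * (κ : ℝ))) =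
              1 - (1 / (2 * (κ : ℝ))) ^ 2 := by ring
          rw [e1]
          have : 0 ≤ (1 / (2 * (κ : ℝ))) ^ 2 := by positivity
          linarith
      have h15 : (1 - 1 / (2 * (κ : ℝ))) ^ t * 33 ≤
          (1 - 1 / (2 * (κ : ℝ))) ^ t * (1 + 1 / (2 * (κ : ℝ))) ^ t :=
        mul_le_mul_of_nonneg_left h12 (by positivity)
      linarith
    have h16 : 0 ≤ (P : ℝ) ^ t := by positivity
    have h17 : 0 ≤ (1 - 1 / (2 * (κ : ℝ))) ^ t := by positivity
    nlinarith
  · apply le_of_lt
    apply lt_of_pow_lt_pow_left₀ t (by positivity)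
    have h6 : Z ^ t ≤ 2 ^ i := by
      rw [hZ', div_pow, mul_pow, div_le_iff₀ (by positivity), hi2]
      calc ((2 : ℝ) ^ a) ^ t * (y : ℝ) ^ t ≤ (2 ^ a) ^ t * (2 ^ b * (D : ℝ) ^ t) := by
            apply mul_le_mul_of_nonneg_left h4r
            positivity
        _ = _ := by ring
    have h12 : (32 : ℝ) ≤ (1 + 1 / (κ : ℝ)) ^ t := by
      have h13 := one_add_mul_le_pow (a := 1 / (κ : ℝ)) (by
        have : 0 ≤ 1 / (κ : ℝ) := by positivity
        linarith) t
      have h14 : (t : ℝ) * (1 / (κ : ℝ)) = 64 := by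
        rw [ht]
        push_cast
        field_simp
      linarith
    rw [mul_pow]
    calc Z ^ t ≤ 2 ^ i := h6
      _ < 32 * (P : ℝ) ^ t := h2
      _ ≤ _ := mul_le_mul_of_nonneg_right h12 (by positivity)

/-- canonical binary representation -/
def canon (l : List Bool) : List Bool :=
  l.foldr (fun b acc => bif (!b && acc.isEmpty) then [] else b :: acc) []

theorem canon_eq (l : List Bool) : canon l = Nat.bits (bval l) := by
  induction l with
  | nil => simp [canon]
  | cons b l ih =>
    have e : canon (b :: l) = bif (!b && (canon l).isEmpty) then [] else b :: canon l := rfl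
    rw [e, ih, bval_cons]
    cases b with
    | false =>
      rcases Nat.eq_zero_or_pos (bval l) with h | h
      · rw [h]
        simp
      · have h1 : Nat.bits (bval l) ≠ [] := by
          intro h2
          have h3 := bval_bits (bval l)
          rw [h2] at h3
          simp at h3
          omega
        have h2 : (Nat.bits (bval l)).isEmpty = false := by
          rw [List.isEmpty_eq_false_iff]
          exact h1
        rw [h2]
        have h3 := Nat.bits_append_bit (bval l) false (fun h => by omega)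
        rw [Nat.bit_val] at h3
        simp only [Bool.toNat_false, add_zero] at h3
        simp only [Bool.toNat_false, zero_add]
        rw [h3]
        rfl
    | true =>
      have h3 := Nat.bits_append_bit (bval l) true (fun _ => rfl)
      rw [Nat.bit_val] at h3
      rw [add_comm, h3]
      rfl

theorem length_canon_le (l : List Bool) : (canon l).length ≤ l.length := by
  induction l with
  | nil => simp [canon]
  | cons b l ih =>
    have e : canon (b :: l) = bif (!b && (canon l).isEmpty) then [] else b :: canon l := rfl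
    rw [e]
    cases h : (!b && (canon l).isEmpty) with
    | true => simp
    | false => simpa using ih

section

variable {α β : Type} [Enc α] [Enc β]

@[fun_prop]
theorem Poly.sqrtN {f : α → ℕ} (hf : PT.Poly f) : PT.Poly (fun a => sqrtN (f a)) := by
  unfold MP_20b771_lc.sqrtN
  fun_prop

@[fun_prop]
theorem Poly.divN {f g : α → ℕ} (hf : PT.Poly f) (hg : PT.Poly g) :
    PT.Poly (fun a => divN (f a) (g a)) := by
  unfold MP_20b771_lc.divN
  fun_prop

theorem Poly.replicate' {n : α → ℕ} {x : α → β} (hn : PT.Poly n) (hx : PT.Poly x) :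
    PT.Poly (fun a => List.replicate (n a) (x a)) := by
  have h : PT.Poly (fun a => (List.replicate (n a) ()).map fun _ => x a) := by fun_prop
  simpa using h

@[fun_prop]
theorem Poly.ub {f : α → ℕ} (hf : PT.Poly f) : PT.Poly (fun a => ub (f a)) := by
  unfold MP_20b771_lc.ub
  exact PT.Poly.bsum (Poly.replicate' hf (PT.Poly.const _))

@[fun_prop]
theorem Poly.powB {f g : α → ℕ} (hf : PT.Poly f) (hg : PT.Poly g) :
    PT.Poly (fun a => powB (f a) (g a)) := by
  unfold MP_20b771_lc.powB
  exact PT.Poly.bprod (Poly.replicate' hf (by fun_prop))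

@[fun_prop]
theorem Poly.rootN {f g h : α → ℕ} (hf : PT.Poly f) (hg : PT.Poly g) (hh : PT.Poly h) :
    PT.Poly (fun a => rootN (f a) (g a) (h a)) := by
  unfold MP_20b771_lc.rootN rootT
  fun_prop

@[fun_prop]
theorem Poly.canon {l : α → List Bool} (hl : PT.Poly l) : PT.Poly (fun a => canon (l a)) := by
  have := PT.Poly.foldr (f := fun p : α × List Bool × Bool =>
      bif (!p.2.2 && p.2.1.isEmpty) then [] else p.2.2 :: p.2.1) (l := l)
    (s0 := fun _ => []) (B := fun a => 4 * sz (l a) + 1) (by fun_prop) hl (by fun_prop)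
    (((PBdd.const 4).mul hl.sz_le).add (PBdd.const 1)) (by
      intro a l₁ l₂ h
      have h1 := length_canon_le l₂
      have h2 := (sz_bool_list (MP_20b771_lc.canon l₂)).2
      have h3 : sz l₂ ≤ sz (l a) := by rw [h]; exact sz_sublist_le (List.sublist_append_right _ _)
      have h4 := (sz_bool_list l₂).1
      change sz (MP_20b771_lc.canon l₂) ≤ _
      omega)
  exact this

end

end Pool.Agent.H.MP_20b771_lc
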