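import Pool.Agent.H.MP_20b771_lc.Prob
import Pool.Agent.H.MP_20b771_lc.Codec

/-!
From a test for satisfiability with two-sided error to algorithms with one-sided error.
-/

namespace Pool.Agent.H.MP_20b771_lc

open Pool.Agent.H.MP_5be563_lc Pool.Agent.H.MP_5be563_lc.PT Turing

/-! ### Self-reduction -/

/-- The formula with the values of the first variables prescribed. -/
def withUnits (φ : CNF) (σ : List Bool) : CNF :=
  φ ++ (List.range σ.length).map fun i => [(σ.getD i false, i)]

theorem withUnits_sat (φ : CNF) (σ : List Bool) : (withUnits φ σ).Sat ↔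
    ∃ A : ℕ → Bool, (∀ cl ∈ φ, ∃ l ∈ cl, A l.2 = l.1) ∧ ∀ i < σ.length, A i = σ.getD i false := by
  unfold CNF.Sat withUnits
  constructor
  · rintro ⟨A, hA⟩
    refine ⟨A, fun cl h => hA cl (List.mem_append_left _ h), fun i hi => ?_⟩
    obtain ⟨l, hl, h⟩ := hA [(σ.getD i false, i)] (List.mem_append_right _
      (List.mem_map.2 ⟨i, List.mem_range.2 hi, rfl⟩))
    rw [List.mem_singleton] at hl
    subst hl
    exact h
  · rintro ⟨A, hA, hσ⟩
    refine ⟨A, fun cl h => ?_⟩
    rcases List.mem_append.1 h with h | h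
    · exact hA cl h
    · obtain ⟨i, hi, rfl⟩ := List.mem_map.1 h
      exact ⟨_, List.mem_singleton_self _, hσ i (List.mem_range.1 hi)⟩

/-- Evaluation of a formula. -/
def evalCnf (φ : CNF) (σ : List Bool) : Bool :=
  φ.all fun cl => cl.any fun l => σ.getD l.2 false == l.1

theorem evalCnf_sat {φ : CNF} {σ : List Bool} (h : evalCnf φ σ = true) : φ.Sat := by
  refine ⟨fun i => σ.getD i false, fun cl hcl => ?_⟩
  unfold evalCnf at h
  rw [List.all_eq_true] at h
  have h1 := h cl hcl
  rw [List.any_eq_true] at h1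
  obtain ⟨l, hl, h2⟩ := h1
  exact ⟨l, hl, by simpa using h2⟩

/-- The search for a satisfying assignment, given a test. -/
def solve (tst : List Bool → Bool) (n : ℕ) : List Bool :=
  (fun σ => σ ++ [tst (σ ++ [true])])^[n] []

theorem solve_length (tst : List Bool → Bool) (n : ℕ) : (solve tst n).length = n := by
  induction n with
  | zero => rfl
  | succ n ih =>
    unfold solve at ih ⊢
    rw [Function.iterate_succ_apply', List.length_append, ih]
    rfl

theorem solve_spec (φ : CNF) (tst : List Bool → Bool)
    (h : ∀ σ : List Bool, σ.length ≤ nvar φ → (tst σ = true ↔ (withUnits φ σ).Sat))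
    (hφ : φ.Sat) : evalCnf φ (solve tst (nvar φ)) = true := by
  have key : ∀ k, k ≤ nvar φ → (withUnits φ (solve tst k)).Sat := by
    intro k
    induction k with
    | zero =>
      intro _
      rw [withUnits_sat]
      obtain ⟨A, hA⟩ := hφ
      exact ⟨A, hA, fun i hi => absurd hi (by simp [solve])⟩
    | succ k ih =>
      intro hk
      have ih' := ih (by omega)
      have hlen := solve_length tst k
      have e : solve tst (k + 1) = solve tst k ++ [tst (solve tst k ++ [true])] := by
        unfold solve
        rw [Function.iterate_succ_apply']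
      rw [e]
      have h1 := h (solve tst k ++ [true]) (by rw [List.length_append, hlen]; exact hk)
      cases hb : tst (solve tst k ++ [true]) with
      | true => exact h1.1 hb
      | false =>
        have h2 : ¬ (withUnits φ (solve tst k ++ [true])).Sat := by
          intro h3
          rw [h1.2 h3] at hb
          exact absurd hb (by decide)
        rw [withUnits_sat] at ih' h2 ⊢
        obtain ⟨A, hA, hσ⟩ := ih'
        refine ⟨A, hA, ?_⟩
        have gen : ∀ b : Bool, A k = b → ∀ i < (solve tst k ++ [b]).length,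
            A i = (solve tst k ++ [b]).getD i false := by
          intro b hb i hi
          rw [List.length_append, List.length_singleton, hlen] at hi
          rcases Nat.lt_or_ge i k with h4 | h4
          · rw [hσ i (by omega), List.getD_append _ _ _ _ (by omega)]
          · have h5 : i = k := by omega
            subst h5
            rw [hb, List.getD_append_right _ _ _ _ (by omega), hlen]
            simp
        have h4 : A k = false := by
          by_contra h5
          exact h2 ⟨A, hA, gen true (by simpa using h5)⟩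
        exact gen false h4
  have h1 := key _ le_rfl
  rw [withUnits_sat, solve_length] at h1
  obtain ⟨A, hA, hσ⟩ := h1
  unfold evalCnf
  rw [List.all_eq_true]
  intro cl hcl
  rw [List.any_eq_true]
  obtain ⟨l, hl, h2⟩ := hA cl hcl
  refine ⟨l, hl, ?_⟩
  rw [← hσ l.2 (lt_nvar hcl hl), h2]
  simp

section

variable {α β : Type} [Enc α] [Enc β]

@[fun_prop]
theorem Poly.withUnits {f : α → CNF} {σ : α → List Bool} (hf : PT.Poly f) (hσ : PT.Poly σ) :
    PT.Poly (fun a => withUnits (f a) (σ a)) := by
  unfold MP_20b771_lc.withUnits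
  fun_prop

@[fun_prop]
theorem Poly.evalCnf {f : α → CNF} {σ : α → List Bool} (hf : PT.Poly f) (hσ : PT.Poly σ) :
    PT.Poly (fun a => evalCnf (f a) (σ a)) := by
  unfold MP_20b771_lc.evalCnf
  fun_prop

theorem sz_solve (tst : List Bool → Bool) (n : ℕ) : sz (solve tst n) ≤ 4 * n + 1 := by
  have h := (sz_bool_list (solve tst n)).2
  rwa [solve_length] at h

theorem Poly.solve {T : α × List Bool → Bool} {n : α → ℕ} (hT : PT.Poly T) (hn : PT.Poly n) :
    PT.Poly (fun a => solve (fun σ => T (a, σ)) (n a)) := by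
  unfold MP_20b771_lc.solve
  refine PT.Poly.iterate (f := fun (a : α) (σ : List Bool) => σ ++ [T (a, σ ++ [true])])
    (s := fun _ => []) (n := n) (B := fun a => 4 * n a + 1) ?_ (PT.Poly.const _) hn ?_ ?_
  · have h1 : PT.Poly (fun p : α × List Bool => T (p.1, p.2 ++ [true])) :=
      hT.comp (g := fun p : α × List Bool => (p.1, p.2 ++ [true])) (by fun_prop)
    fun_prop
  · exact ((PBdd.const 4).mul (hn.sz_le.mono fun a => by simp [sz_nat]; omega)).add (PBdd.const 1)
  · intro a k hk
    exact (sz_solve (fun σ => T (a, σ)) k).trans (by omega)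

theorem Poly.maj {T : α × List Bool → Bool} {c s : α → ℕ} {r : α → List Bool} (hT : PT.Poly T)
    (hc : PT.Poly c) (hs : PT.Poly s) (hr : PT.Poly r) :
    PT.Poly (fun a => maj (fun x => T (a, x)) (c a) (s a) (r a)) := by
  unfold MP_20b771_lc.maj cnt
  have h1 : PT.Poly (fun p : α × ℕ => T (p.1, ((r p.1).drop (p.2 * c p.1)).take (c p.1))) :=
    hT.comp (g := fun p : α × ℕ => (p.1, ((r p.1).drop (p.2 * c p.1)).take (c p.1)))
      (by fun_prop)
  have h2 : PT.Poly (fun a => (List.range (2 * s a)).filter fun i =>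
      T (a, ((r a).drop (i * c a)).take (c a))) := by
    refine PT.Poly.filter (f := fun (a : α) (i : ℕ) => T (a, ((r a).drop (i * c a)).take (c a)))
      h1 (by fun_prop)
  fun_prop

end

theorem maj_take (T : List Bool → Bool) (c s : ℕ) (r : List Bool) :
    maj T c s (r.take (2 * s * c)) = maj T c s r := by
  unfold maj cnt
  congr 3
  apply List.filter_congr
  intro i hi
  rw [List.mem_range] at hi
  have h8 : i * c + c ≤ 2 * s * c := by
    have : (i + 1) * c ≤ 2 * s * c := Nat.mul_le_mul_right _ hi
    linarith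
  rw [List.drop_take, List.take_take, Nat.min_eq_left (by omega)]

/-! ### The polynomial bounds -/

theorem sz_list_fin {Γ : Type} [Finite Γ] [Enc Γ] : ∃ K : ℕ, ∀ x : List Γ, sz x ≤ K * x.length + 1 := by
  classical
  cases nonempty_fintype Γ
  refine ⟨(Finset.univ.sup fun a : Γ => sz a) + 1, fun x => ?_⟩
  have h := sz_le_of_forall x (Finset.univ.sup fun a : Γ => sz a)
    (fun a _ => Finset.le_sup (f := fun a : Γ => sz a) (Finset.mem_univ a))
  rw [mul_comm] at h
  exact h

/-- A polynomially bounded function on strings is bounded by a polynomial in the length. -/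
theorem bound_len {Γ : Type} [Finite Γ] [Enc Γ] {g : List Γ → ℕ} (hg : PBdd g) :
    ∃ P : Polynomial ℕ, ∀ x, g x ≤ P.eval x.length := by
  obtain ⟨K, hK⟩ := sz_list_fin (Γ := Γ)
  obtain ⟨Q, hQ⟩ := hg
  refine ⟨Q.comp (Polynomial.C K * Polynomial.X + 1), fun x => (hQ x).trans ?_⟩
  rw [Polynomial.eval_comp]
  refine poly_mono Q ?_
  simpa using hK x

theorem bound_len2 {Γ : Type} [Finite Γ] [Enc Γ] {g : List Γ × List Bool → ℕ} (hg : PBdd g)
    {n : List Γ → ℕ} (hn : PBdd n) :
    ∃ P : Polynomial ℕ, ∀ x σ, σ.length ≤ n x → g (x, σ) ≤ P.eval x.length := by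
  obtain ⟨K, hK⟩ := sz_list_fin (Γ := Γ)
  obtain ⟨Q, hQ⟩ := hg
  obtain ⟨N, hN⟩ := bound_len hn
  refine ⟨Q.comp (Polynomial.C K * Polynomial.X + 4 * N + 3), fun x σ hσ => (hQ (x, σ)).trans ?_⟩
  rw [Polynomial.eval_comp]
  refine poly_mono Q ?_
  have h1 := hK x
  have h2 := (sz_bool_list σ).2
  have h3 := hN x
  simp only [sz_pair, Polynomial.eval_add, Polynomial.eval_mul, Polynomial.eval_C,
    Polynomial.eval_X, Polynomial.eval_ofNat]
  omega

/-! ### One-sided error -/

theorem geom_two (n : ℕ) : ∑ k : Fin (n + 1), 2 ^ (k : ℕ) ≤ 2 ^ (n + 1) := by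
  rw [Fin.sum_univ_eq_sum_range (fun k => 2 ^ k) (n + 1)]
  exact (Nat.geomSum_lt (m := 2) le_rfl fun k hk => Finset.mem_range.1 hk).le

/-- A randomized test for satisfiability with two-sided error. -/
def HasTester : Prop :=
  ∃ (W : CNF × List Bool → Bool) (m : CNF → ℕ), PT.Poly W ∧ PT.Poly m ∧ ∀ φ : CNF,
    (φ.Sat → 3 / 4 ≤ prob (m φ) fun r => W (φ, r) = true) ∧
    (¬ φ.Sat → 3 / 4 ≤ prob (m φ) fun r => ¬ W (φ, r) = true)

theorem rp_of_tester (h : HasTester) {Γ : Type} [Finite Γ] [Enc Γ] {L : Set (List Γ)}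
    {f : List Γ → CNF} (hf : PT.Poly f) (hL : ∀ x, x ∈ L ↔ (f x).Sat) : RP L := by
  obtain ⟨W, m, hW, hm, h⟩ := h
  -- block length
  have hc : PT.Poly (fun p : List Γ × List Bool => m (withUnits (f p.1) p.2)) :=
    hm.comp (g := fun p : List Γ × List Bool => withUnits (f p.1) p.2)
      (Poly.withUnits (hf.comp PT.Poly.fst) PT.Poly.snd)
  have hn : PT.Poly (fun x : List Γ => nvar (f x)) := Poly.nvar hf
  have hn' : PBdd (fun x : List Γ => nvar (f x)) := hn.sz_le.mono fun a => by simp [sz_nat]; omega
  obtain ⟨C, hC⟩ := bound_len2 (hc.sz_le.mono (h := fun p => m (withUnits (f p.1) p.2))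
    fun a => by simp [sz_nat]; omega) hn'
  obtain ⟨N, hN⟩ := bound_len hn'
  -- the test
  let T : (List Γ × List Bool) × List Bool → List Bool → Bool := fun p r =>
    W (withUnits (f p.1.1) p.2, r.take (m (withUnits (f p.1.1) p.2)))
  let M : (List Γ × List Bool) × List Bool → Bool := fun p =>
    maj (T p) (C.eval p.1.1.length) (3 * (nvar (f p.1.1) + 2)) p.1.2
  let V : List Γ × List Bool → Bool := fun z =>
    evalCnf (f z.1) (solve (fun σ => M (z, σ)) (nvar (f z.1)))
  have hT : PT.Poly (fun q : ((List Γ × List Bool) × List Bool) × List Bool => T q.1 q.2) := by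
    have h1 : PT.Poly (fun q : ((List Γ × List Bool) × List Bool) × List Bool =>
        withUnits (f q.1.1.1) q.1.2) :=
      Poly.withUnits (hf.comp (g := fun q : ((List Γ × List Bool) × List Bool) × List Bool =>
        q.1.1.1) (by fun_prop)) (by fun_prop)
    have h2 := hm.comp h1
    exact hW.comp (g := fun q : ((List Γ × List Bool) × List Bool) × List Bool =>
      (withUnits (f q.1.1.1) q.1.2, q.2.take (m (withUnits (f q.1.1.1) q.1.2)))) (by fun_prop)
  have hM : PT.Poly M := by
    refine Poly.maj (α := (List Γ × List Bool) × List Bool)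
      (T := fun q : ((List Γ × List Bool) × List Bool) × List Bool => T q.1 q.2) hT ?_ ?_ ?_
    · exact PT.Poly.evalPolynomial C (by fun_prop)
    · have h1 : PT.Poly (fun p : (List Γ × List Bool) × List Bool => nvar (f p.1.1)) :=
        hn.comp (g := fun p : (List Γ × List Bool) × List Bool => p.1.1) (by fun_prop)
      fun_prop
    · fun_prop
  have hV : PT.Poly V := by
    have h1 : PT.Poly (fun z : List Γ × List Bool => nvar (f z.1)) :=
      hn.comp (g := fun z : List Γ × List Bool => z.1) (by fun_prop)
    have h2 : PT.Poly (fun z : List Γ × List Bool => f z.1) :=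
      hf.comp (g := fun z : List Γ × List Bool => z.1) (by fun_prop)
    exact Poly.evalCnf h2 (Poly.solve hM h1)
  refine ⟨6 * (N + 2) * C, V, tm2_of_pair hV, ?_⟩
  intro x
  constructor
  · intro hx
    have hsat := (hL x).1 hx
    set n := nvar (f x) with hn_def
    set s := 3 * (n + 2) with hs
    set c := C.eval x.length with hc_def
    -- all tests are correct with probability at least 1/2
    let ι : Type := Σ k : Fin (n + 1), (Fin k → Bool)
    let σ : ι → List Bool := fun i => List.ofFn i.2
    let t : List Bool → List Bool → Bool := fun σ r => W (withUnits (f x) σ,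
      r.take (m (withUnits (f x) σ)))
    let Bad : ι → List Bool → Prop := fun i r =>
      ¬ (maj (t (σ i)) c s r = true ↔ (withUnits (f x) (σ i)).Sat)
    have hσ : ∀ i : ι, (σ i).length ≤ n := by
      intro i
      rw [List.length_ofFn]
      have := i.1.isLt
      omega
    have h1 : ∀ i : ι, prob (2 * s * c) (Bad i) ≤ (3 / 4) ^ s := by
      intro i
      have hle : m (withUnits (f x) (σ i)) ≤ c := hC x (σ i) (hσ i)
      by_cases h2 : (withUnits (f x) (σ i)).Sat
      · have h3 := (h _).1 h2
        rw [← prob_take hle (fun r => W (withUnits (f x) (σ i), r) = true)] at h3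
        refine (prob_mono fun r hr => ?_).trans (prob_maj_pos (t (σ i)) c s h3)
        intro h4
        exact hr ⟨fun _ => h2, fun _ => h4⟩
      · have h3 := (h _).2 h2
        rw [← prob_take hle (fun r => ¬ W (withUnits (f x) (σ i), r) = true)] at h3
        refine (prob_mono fun r hr => ?_).trans (prob_maj_neg (t (σ i)) c s h3)
        by_contra h4
        exact hr ⟨fun h5 => absurd h5 h4, fun h5 => absurd h5 h2⟩
    have h2 := prob_exists_le (2 * s * c) Bad _ h1
    have hcard : (Fintype.card ι : ℝ) ≤ 2 ^ (n + 1) := by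
      have h3 : Fintype.card ι ≤ 2 ^ (n + 1) := by
        refine le_trans (le_of_eq ?_) (geom_two n)
        rw [Fintype.card_sigma]
        refine Finset.sum_congr rfl fun k _ => ?_
        simp
      exact_mod_cast h3
    have h3 : (Fintype.card ι : ℝ) * (3 / 4) ^ s ≤ 1 / 2 := by
      have h4 : ((3 : ℝ) / 4) ^ s ≤ (1 / 2) ^ (n + 2) := by
        rw [hs, pow_mul]
        exact pow_le_pow_left₀ (by norm_num) (by norm_num) _
      calc (Fintype.card ι : ℝ) * (3 / 4) ^ s ≤ 2 ^ (n + 1) * (1 / 2) ^ (n + 2) :=
            mul_le_mul hcard h4 (by positivity) (by positivity)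
        _ = 1 / 2 := by
            rw [pow_succ (1 / 2 : ℝ) (n + 1), ← mul_assoc, ← mul_pow]
            norm_num
    have h4 : 1 / 2 ≤ prob (2 * s * c) (fun r => ¬ ∃ i, Bad i r) := by
      rw [prob_compl]
      linarith
    have hle : 2 * s * c ≤ (6 * (N + 2) * C).eval x.length := by
      have h5 := hN x
      simp only [Polynomial.eval_mul, Polynomial.eval_add, Polynomial.eval_ofNat]
      rw [← hc_def, hs]
      refine Nat.mul_le_mul_right _ ?_
      rw [← hn_def] at h5
      omega
    rw [← prob_take hle] at h4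
    refine h4.trans (prob_mono fun r hr => ?_)
    refine solve_spec (f x) _ (fun σ' hσ' => ?_) hsat
    have h5 : ¬ Bad ⟨⟨σ'.length, by omega⟩, fun j => σ'.get j⟩ (r.take (2 * s * c)) :=
      fun h6 => hr ⟨_, h6⟩
    have h6 : σ ⟨⟨σ'.length, by omega⟩, fun j => σ'.get j⟩ = σ' := List.ofFn_get σ'
    simp only [Bad, not_not] at h5
    rw [h6] at h5
    rw [maj_take] at h5
    exact h5
  · intro hx
    have h1 : prob ((6 * (N + 2) * C).eval x.length) (fun w => V (x, w) = true) =
        prob ((6 * (N + 2) * C).eval x.length) (fun _ => False) := by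
      refine prob_congr fun r => ⟨fun h2 => ?_, fun h2 => h2.elim⟩
      exact hx ((hL x).2 (evalCnf_sat h2))
    rw [h1]
    unfold prob
    simp

end Pool.Agent.H.MP_20b771_lc
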