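import Pool.Agent.H.MP_20b771_lc.SelfRed
import Pool.Agent.H.MP_20b771_lc.Reduce2
import Pool.Agent.H.MP_20b771_lc.Misc

/-!
From approximation algorithms for the number of 4-colourings of planar graphs to randomized tests
for satisfiability.
-/

namespace Pool.Agent.H.MP_20b771_lc

open Pool.Agent.H.MP_5be563_lc Pool.Agent.H.MP_5be563_lc.PT Turing

/-! ### The test -/

/-- The test `2 ^ T ≤ 2 ^ l * (a / b)`. -/
def testB (T l : ℕ) (y : List Bool × List Bool) : Bool :=
  !(ble y.2 []) && ble (List.replicate T false ++ y.2) (List.replicate l false ++ y.1)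

theorem testB_iff (T l : ℕ) (y : List Bool × List Bool) :
    testB T l y = true ↔ (2 : ℝ) ^ T ≤ 2 ^ l * ((bval y.1 : ℝ) / bval y.2) := by
  unfold testB
  rw [Bool.and_eq_true, Bool.not_eq_true', ← Bool.not_eq_true, ble_iff, ble_iff, bval_replicate,
    bval_replicate, bval_nil]
  constructor
  · rintro ⟨h1, h2⟩
    have h3 : (0 : ℝ) < bval y.2 := by exact_mod_cast not_le.1 h1
    rw [mul_div_assoc', le_div_iff₀ h3]
    exact_mod_cast h2
  · intro h
    have h3 : bval y.2 ≠ 0 := by
      intro h4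
      rw [h4] at h
      simp only [Nat.cast_zero, div_zero, mul_zero] at h
      have : (0 : ℝ) < 2 ^ T := by positivity
      linarith
    have h4 : (0 : ℝ) < bval y.2 := by
      exact_mod_cast Nat.pos_of_ne_zero h3
    rw [mul_div_assoc', le_div_iff₀ h4] at h
    refine ⟨by omega, by exact_mod_cast h⟩

section

variable {α β : Type} [Enc α] [Enc β]

@[fun_prop]
theorem Poly.testB {T l : α → ℕ} {y : α → List Bool × List Bool} (hT : PT.Poly T)
    (hl : PT.Poly l) (hy : PT.Poly y) : PT.Poly (fun a => testB (T a) (l a) (y a)) := by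
  unfold MP_20b771_lc.testB
  fun_prop

end

/-! ### The instances -/

/-- The instance with accuracy parameter `k`. -/
noncomputable def inst (k L : ℕ) (φ : CNF) (r : List Bool) : PlanarInput :=
  ⟨outN φ (outM L φ), outG φ (outM L φ), outG_planar φ _, k, r⟩

theorem inst_encode (k L : ℕ) (φ : CNF) (r : List Bool) : (inst k L φ r).encode =
    (outBits φ (outM L φ)).map Sum.inl ++ List.replicate k (Sum.inr none) ++
      r.map fun b => Sum.inr (some b) := by
  unfold PlanarInput.encode inst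
  rw [outBits_eq]

theorem Poly.inst {k : ℕ} {L : CNF → ℕ} (hL : PT.Poly L) :
    PT.Poly (fun p : CNF × List Bool => (inst k (L p.1) p.1 p.2).encode) := by
  simp only [inst_encode]
  have h1 : PT.Poly (fun p : CNF × List Bool => L p.1) := hL.comp PT.Poly.fst
  refine PT.Poly.append (PT.Poly.append ?_ (PT.Poly.const _)) ?_
  · exact Poly.mapFin (β := Bool) _ (by fun_prop)
  · exact Poly.mapFin (β := Bool) _ (by fun_prop)

/-- A machine run on the instances. -/
theorem poly_run {A : PlanarInput → ℕ × ℕ}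
    (hA : Nonempty (TM2ComputableInPolyTime PlanarInput.encode encodeFrac A)) {k : ℕ}
    {L : CNF → ℕ} (hL : PT.Poly L) :
    PT.Poly (fun p : CNF × List Bool => encodeFrac (A (inst k (L p.1) p.1 p.2))) := by
  obtain ⟨M⟩ := hA
  let M' : TM2ComputableInPolyTime
      (fun p : CNF × List Bool => (inst k (L p.1) p.1 p.2).encode) encodeFrac
      (fun p : CNF × List Bool => A (inst k (L p.1) p.1 p.2)) :=
    { tm := M.tm
      inputAlphabet := M.inputAlphabet
      outputAlphabet := M.outputAlphabet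
      time := M.time
      outputsFun := fun p => M.outputsFun (inst k (L p.1) p.1 p.2) }
  exact poly_of_tm2 M' (Poly.inst hL)

/-- The test made from an approximation algorithm. -/
theorem tester_of {A : PlanarInput → ℕ × ℕ}
    (hA : Nonempty (TM2ComputableInPolyTime PlanarInput.encode encodeFrac A)) (k : ℕ)
    {L l m : CNF → ℕ} (hL : PT.Poly L) (hl : PT.Poly l) (hm : PT.Poly m)
    (h : ∀ φ : CNF, 3 / 4 ≤ prob (m φ) fun r =>
      (φ.Sat → (2 : ℝ) ^ (outM (L φ) φ * optN φ) ≤ 2 ^ (l φ) * fracVal (A (inst k (L φ) φ r))) ∧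
      (¬ φ.Sat → 2 ^ (l φ) * fracVal (A (inst k (L φ) φ r)) < 2 ^ (outM (L φ) φ * optN φ))) :
    HasTester := by
  refine ⟨fun p => testB (outM (L p.1) p.1 * optN p.1) (l p.1)
    (lefts (encodeFrac (A (inst k (L p.1) p.1 p.2))),
      rights (encodeFrac (A (inst k (L p.1) p.1 p.2)))), m, ?_, hm, ?_⟩
  · have h1 : PT.Poly (fun p : CNF × List Bool => L p.1) := hL.comp PT.Poly.fst
    have h2 : PT.Poly (fun p : CNF × List Bool => l p.1) := hl.comp PT.Poly.fst
    have h3 := poly_run hA (k := k) hL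
    have h4 := (Poly.lefts (β := Bool) (γ := Bool)).comp h3
    have h5 := (Poly.rights (β := Bool) (γ := Bool)).comp h3
    exact Poly.testB (by fun_prop) h2 (PT.Poly.pair h4 h5)
  · intro φ
    have key : ∀ r, testB (outM (L φ) φ * optN φ) (l φ)
        (lefts (encodeFrac (A (inst k (L φ) φ r))),
          rights (encodeFrac (A (inst k (L φ) φ r)))) = true ↔
        (2 : ℝ) ^ (outM (L φ) φ * optN φ) ≤ 2 ^ (l φ) * fracVal (A (inst k (L φ) φ r)) := by
      intro r
      rw [testB_iff]
      unfold encodeFrac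
      rw [lefts_append, rights_append, bval_bits, bval_bits]
      rfl
    constructor
    · intro hs
      refine (h φ).trans (prob_mono fun r hr => ?_)
      exact (key r).2 (hr.1 hs)
    · intro hs
      refine (h φ).trans (prob_mono fun r hr => ?_)
      rw [key, not_le]
      exact hr.2 hs

theorem numCol_sat (φ : CNF) (h : φ.Sat) (L : ℕ) :
    (2 : ℝ) ^ (outM L φ * optN φ) ≤ numCol (outG φ (outM L φ)) := by
  unfold numCol
  exact_mod_cast out_sat φ h (outM L φ)

theorem numCol_unsat (φ : CNF) (h : ¬ φ.Sat) (L : ℕ) :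
    (2 : ℝ) ^ L * numCol (outG φ (outM L φ)) ≤ 2 ^ (outM L φ * optN φ) := by
  unfold numCol
  exact_mod_cast out_unsat φ h L

theorem tester_of_fpras (h : HasFpras) : HasTester := by
  obtain ⟨A, q, hA, h⟩ := h
  refine tester_of hA 2 (L := fun _ => 2) (l := fun _ => 1)
    (m := fun φ => q.eval (outN φ (outM 2 φ) + 2)) (PT.Poly.const _) (PT.Poly.const _)
    (PT.Poly.evalPolynomial q (by fun_prop)) ?_
  intro φ
  refine (h _ (outG φ (outM 2 φ)) (outG_planar φ _) 2 le_rfl).trans (prob_mono fun r hr => ?_)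
  obtain ⟨h1, h2⟩ := hr
  change (1 - 1 / ((2 : ℕ) : ℝ)) * _ ≤ fracVal (A (inst 2 2 φ r)) at h1
  change fracVal (A (inst 2 2 φ r)) ≤ _ at h2
  constructor
  · intro hs
    have h3 := numCol_sat φ hs 2
    have h4 : (1 - 1 / ((2 : ℕ) : ℝ)) * numCol (outG φ (outM 2 φ)) =
        numCol (outG φ (outM 2 φ)) / 2 := by push_cast; ring
    rw [h4] at h1
    linarith
  · intro hs
    have h3 := numCol_unsat φ hs 2
    have h4 : (1 + 1 / ((2 : ℕ) : ℝ)) * numCol (outG φ (outM 2 φ)) =
        3 / 2 * numCol (outG φ (outM 2 φ)) := by push_cast; ring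
    rw [h4] at h2
    have h5 : (0 : ℝ) < 2 ^ (outM 2 φ * optN φ) := by positivity
    linarith

/-! ### Large factors -/

/-- the basis of the gap -/
def gapB (φ : CNF) : ℕ := 100000 * (nvar φ * nrow φ + 1)

theorem outN_le (φ : CNF) (c : ℕ) (hc : 2 ≤ c) :
    outN φ (outM (2 * gapB φ ^ (c - 1) + 1) φ) ≤ gapB φ ^ c := by
  unfold outN
  rw [vlist_length]
  unfold outM gapB
  set Q := nvar φ * nrow φ with hQ
  obtain ⟨d, rfl⟩ : ∃ d, c = d + 2 := ⟨c - 2, by omega⟩
  have e1 : d + 2 - 1 = d + 1 := by omega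
  rw [e1]
  set B := 100000 * (Q + 1) with hB
  have h1 : B ≤ B ^ (d + 1) := Nat.le_self_pow (by omega) B
  set g := B ^ (d + 1) with hg
  have h2 : B ^ (d + 2) = B * g := by rw [hg]; ring
  rw [h2]
  have h3 : 124 + 140 * (500 * Q + (2 * g + 1)) ≤ 282 * g := by
    have : 70264 * (Q + 1) ≤ B := by rw [hB]; omega
    nlinarith
  calc Q * (124 + 140 * (500 * Q + (2 * g + 1))) ≤ Q * (282 * g) := Nat.mul_le_mul_left _ h3
    _ ≤ B * g := by
      rw [← mul_assoc]
      apply Nat.mul_le_mul_right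
      rw [hB]
      nlinarith

theorem rpow_bound (N B c : ℕ) (hc : 2 ≤ c) (hB : 1 ≤ B) (hN : N ≤ B ^ c) (δ : ℝ)
    (hδ : 1 / (c : ℝ) ≤ δ) (hδ1 : δ ≤ 1) : (N : ℝ) ^ (1 - δ) ≤ (B : ℝ) ^ (c - 1) := by
  have hc0 : (0 : ℝ) < c := by
    have : (2 : ℝ) ≤ c := by exact_mod_cast hc
    linarith
  have hB1 : (1 : ℝ) ≤ B := by exact_mod_cast hB
  have h1 : (N : ℝ) ≤ (B : ℝ) ^ c := by exact_mod_cast hN
  have h2 : (N : ℝ) ^ (1 - δ) ≤ ((B : ℝ) ^ c) ^ (1 - δ) :=
    Real.rpow_le_rpow (by positivity) h1 (by linarith)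
  have h3 : ((B : ℝ) ^ c) ^ (1 - δ) ≤ ((B : ℝ) ^ c) ^ (1 - 1 / (c : ℝ)) :=
    Real.rpow_le_rpow_of_exponent_le (one_le_pow₀ hB1) (by linarith)
  have h4 : ((B : ℝ) ^ c) ^ (1 - 1 / (c : ℝ)) = (B : ℝ) ^ (c - 1) := by
    rw [← Real.rpow_natCast, ← Real.rpow_mul (by linarith), ← Real.rpow_natCast]
    congr 1
    rw [Nat.cast_sub (by omega)]
    field_simp
    simp
  linarith

theorem tester_of_approx {δ : ℝ} (hδ : 0 < δ)
    (h : HasApprox fun n => 2 ^ ((n : ℝ) ^ (1 - δ))) : HasTester := by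
  obtain ⟨A, q, hA, h⟩ := h
  obtain ⟨c, hc2, hc⟩ : ∃ c : ℕ, 2 ≤ c ∧ 1 / (c : ℝ) ≤ δ := by
    obtain ⟨c, hc⟩ := exists_nat_gt (1 / δ)
    refine ⟨max c 2, le_max_right _ _, ?_⟩
    have h1 : 1 / δ ≤ ((max c 2 : ℕ) : ℝ) := hc.le.trans (by exact_mod_cast le_max_left _ _)
    rw [div_le_iff₀ hδ] at h1
    rw [div_le_iff₀ (by
      have : (2 : ℝ) ≤ ((max c 2 : ℕ) : ℝ) := by exact_mod_cast le_max_right _ _
      linarith)]
    linarith
  have hg : PT.Poly (fun φ : CNF => gapB φ ^ (c - 1)) := by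
    have h1 : PT.Poly (fun φ : CNF => gapB φ) := by
      unfold gapB
      fun_prop
    have h2 := PT.Poly.evalPolynomial ((Polynomial.X : Polynomial ℕ) ^ (c - 1)) h1
    simpa using h2
  refine tester_of hA 0 (L := fun φ => 2 * gapB φ ^ (c - 1) + 1) (l := fun φ => gapB φ ^ (c - 1))
    (m := fun φ => q.eval (outN φ (outM (2 * gapB φ ^ (c - 1) + 1) φ)))
    (by fun_prop) hg (PT.Poly.evalPolynomial q (by fun_prop)) ?_
  intro φ
  set g := gapB φ ^ (c - 1) with hg'
  refine (h _ (outG φ (outM (2 * g + 1) φ)) (outG_planar φ _)).trans (prob_mono fun r hr => ?_)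
  obtain ⟨h1, h2⟩ := hr
  change _ ≤ fracVal (A (inst 0 (2 * g + 1) φ r)) at h1
  change fracVal (A (inst 0 (2 * g + 1) φ r)) ≤ _ at h2
  set N := outN φ (outM (2 * g + 1) φ) with hN
  set Z := fracVal (A (inst 0 (2 * g + 1) φ r)) with hZ
  set P := numCol (outG φ (outM (2 * g + 1) φ)) with hP
  have hP0 : 0 ≤ P := by
    rw [hP]
    unfold numCol
    positivity
  have hρ : (2 : ℝ) ^ ((N : ℝ) ^ (1 - δ)) ≤ 2 ^ g := by
    rw [← Real.rpow_natCast 2 g]
    apply Real.rpow_le_rpow_of_exponent_le (by norm_num)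
    have hB : 1 ≤ gapB φ := by unfold gapB; omega
    have hNle := outN_le φ c hc2
    have h3 := rpow_bound N (gapB φ) c hc2 hB hNle (min δ 1)
      (le_min hc (by
        rw [div_le_one (by
          have : (2 : ℝ) ≤ c := by exact_mod_cast hc2
          linarith)]
        have : (2 : ℝ) ≤ c := by exact_mod_cast hc2
        linarith)) (min_le_right _ _)
    have h4 : (N : ℝ) ^ (1 - δ) ≤ max ((N : ℝ) ^ (1 - min δ 1)) 1 := by
      rcases le_total δ 1 with h5 | h5
      · rw [min_eq_left h5]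
        exact le_max_left _ _
      · rcases Nat.eq_zero_or_pos N with h6 | h6
        · rw [h6, Nat.cast_zero]
          rcases eq_or_ne (1 - δ) 0 with h7 | h7
          · rw [h7, Real.rpow_zero]
            exact le_max_right _ _
          · rw [Real.zero_rpow h7]
            exact le_max_of_le_right (by norm_num)
        · refine le_max_of_le_right ?_
          apply Real.rpow_le_one_of_one_le_of_nonpos
          · exact_mod_cast h6
          · linarith
    rw [hg']
    push_cast
    refine h4.trans (max_le h3 ?_)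
    exact one_le_pow₀ (by exact_mod_cast hB)
  have hρ0 : (0 : ℝ) < 2 ^ ((N : ℝ) ^ (1 - δ)) := by positivity
  have hg0 : (0 : ℝ) < 2 ^ g := by positivity
  have hT0 : (0 : ℝ) < 2 ^ (outM (2 * g + 1) φ * optN φ) := by positivity
  constructor
  · intro hs
    have h3 := numCol_sat φ hs (2 * g + 1)
    rw [div_le_iff₀ hρ0] at h1
    have hZ0 : 0 ≤ Z := by
      rw [hZ]
      unfold fracVal
      positivity
    calc (2 : ℝ) ^ (outM (2 * g + 1) φ * optN φ) ≤ P := h3
      _ ≤ Z * 2 ^ ((N : ℝ) ^ (1 - δ)) := h1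
      _ ≤ Z * 2 ^ g := mul_le_mul_of_nonneg_left hρ hZ0
      _ = 2 ^ g * Z := mul_comm _ _
  · intro hs
    have h3 := numCol_unsat φ hs (2 * g + 1)
    rw [← hP] at h3
    have h4 : Z ≤ P * 2 ^ g := h2.trans (mul_le_mul_of_nonneg_left hρ hP0)
    have h5 : (2 : ℝ) ^ (2 * g + 1) = 2 * (2 ^ g * 2 ^ g) := by
      rw [pow_succ, two_mul, pow_add]
      ring
    rw [h5] at h3
    have h6 : 2 ^ g * Z ≤ 2 ^ g * (P * 2 ^ g) := mul_le_mul_of_nonneg_left h4 hg0.le
    have h7 : 2 * (2 ^ g * Z) ≤ 2 ^ (outM (2 * g + 1) φ * optN φ) := by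
      calc 2 * (2 ^ g * Z) ≤ 2 * (2 ^ g * (P * 2 ^ g)) := by linarith
        _ = 2 * (2 ^ g * 2 ^ g) * P := by ring
        _ ≤ _ := h3
    show 2 ^ g * Z < _
    linarith

/-! ### NP and RP -/

theorem np_of_rp {Γ : Type} [Finite Γ] [Enc Γ] {L : Set (List Γ)} (h : RP L) : NP L := by
  obtain ⟨p, V, hV, h⟩ := h
  refine ⟨p, fun z => V z && decide (z.2.length = p.eval z.1.length), tm2_of_pair ?_, ?_⟩
  · have h1 := pair_of_tm2 hV
    have h2 : PT.Poly (fun z : List Γ × List Bool => p.eval z.1.length) :=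
      PT.Poly.evalPolynomial p (by fun_prop)
    fun_prop
  · intro x
    constructor
    · intro hx
      have h1 := (h x).1 hx
      by_contra h2
      push Not at h2
      have h3 : prob (p.eval x.length) (fun w => V (x, w) = true) ≤
          prob (p.eval x.length) (fun _ => False) := by
        refine prob_mono' fun r hr h4 => ?_
        refine h2 r hr.le ?_
        simp [h4, hr]
      have h4 : prob (p.eval x.length) (fun _ => False) = 0 := by
        unfold prob
        simp
      linarith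
    · rintro ⟨w, hw, hV'⟩
      by_contra hx
      have h1 := (h x).2 hx
      simp only [Bool.and_eq_true, decide_eq_true_eq] at hV'
      obtain ⟨h2, h3⟩ := hV'
      unfold prob at h1
      rw [div_eq_zero_iff] at h1
      rcases h1 with h1 | h1
      · have h4 : Nat.card {r : Fin (p.eval x.length) → Bool // V (x, List.ofFn r) = true} ≠ 0 := by
          have : Nonempty {r : Fin (p.eval x.length) → Bool // V (x, List.ofFn r) = true} := by
            refine ⟨⟨fun i => w.get ⟨i.1, by omega⟩, ?_⟩⟩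
            have h5 : List.ofFn (fun i : Fin (p.eval x.length) => w.get ⟨i.1, by omega⟩) = w := by
              apply List.ext_getElem
              · rw [List.length_ofFn, h3]
              · intro i h5 h6
                simp
            rw [h5]
            exact h2
          exact Nat.card_pos.ne'
        exact h4 (by exact_mod_cast h1)
      · have : (2 : ℝ) ^ (p.eval x.length) ≠ 0 := by positivity
        exact this h1

theorem np_iff_rp (h : HasTester) {Γ : Type} [Fintype Γ] (L : Set (List Γ)) : NP L ↔ RP L := by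
  let _ : Enc Γ := encFintype Γ
  constructor
  · intro hL
    obtain ⟨f, hf, hL⟩ := np_reduces L hL
    exact rp_of_tester h hf hL
  · exact np_of_rp

end Pool.Agent.H.MP_20b771_lc
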